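import Pool.Agent.Helper775.Surf.Geo

/-! The case of dimension four. -/

set_option autoImplicit false

namespace Pool.Agent.Helper775.Surf

open Set Topology Metric
open scoped InnerProductSpace

variable {M : Type*} [TopologicalSpace M] {N : ℕ} {f : M → EuclideanSpace ℝ (Fin N)}

/-- in dimension at least five all pairs of edges are good -/
theorem good_five [CompactSpace M] [ConnectedSpace M] (S : Setup f) (hN : 5 ≤ N)
    {t : M → M → ZMod 2} {a b a' b' : EuclideanSpace ℝ (Fin N)} :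
    Good f t (segment ℝ a b) (segment ℝ a' b') := by
  classical
  apply good_of_conn
  have hhull : convexHull ℝ (segment ℝ a b ∪ segment ℝ a' b') =
      convexHull ℝ {a, b, a', b'} := by
    apply Subset.antisymm
    · apply convexHull_min _ (convex_convexHull ℝ _)
      have h1 : a ∈ convexHull ℝ ({a, b, a', b'} : Set (EuclideanSpace ℝ (Fin N))) :=
        subset_convexHull ℝ _ (by simp)
      have h2 : b ∈ convexHull ℝ ({a, b, a', b'} : Set (EuclideanSpace ℝ (Fin N))) :=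
        subset_convexHull ℝ _ (by simp)
      have h3 : a' ∈ convexHull ℝ ({a, b, a', b'} : Set (EuclideanSpace ℝ (Fin N))) :=
        subset_convexHull ℝ _ (by simp)
      have h4 : b' ∈ convexHull ℝ ({a, b, a', b'} : Set (EuclideanSpace ℝ (Fin N))) :=
        subset_convexHull ℝ _ (by simp)
      exact Set.union_subset ((convex_convexHull ℝ _).segment_subset h1 h2)
        ((convex_convexHull ℝ _).segment_subset h3 h4)
    · apply convexHull_mono
      intro r hr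
      rcases hr with rfl | rfl | rfl | rfl
      · exact Or.inl (left_mem_segment ℝ _ _)
      · exact Or.inl (right_mem_segment ℝ _ _)
      · exact Or.inr (left_mem_segment ℝ _ _)
      · exact Or.inr (right_mem_segment ℝ _ _)
  rw [hhull]
  set W : Finset (EuclideanSpace ℝ (Fin N)) := {b - a, a' - a, b' - a} with hW
  have hmem : ∀ q ∈ ({a, b, a', b'} : Set (EuclideanSpace ℝ (Fin N))),
      q - a ∈ Submodule.span ℝ (W : Set (EuclideanSpace ℝ (Fin N))) := by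
    intro q hq
    rcases hq with h | h | h | h
    · rw [h, sub_self]; exact Submodule.zero_mem _
    · rw [h]; exact Submodule.subset_span (by simp [hW])
    · rw [h]; exact Submodule.subset_span (by simp [hW])
    · rw [h]; exact Submodule.subset_span (by simp [hW])
  refine aplus S.cont S.conn S.sub (Set.toFinite _) ⟨a, by simp⟩
    (Submodule.span ℝ (W : Set (EuclideanSpace ℝ (Fin N)))) ?_ ?_
  · intro q hq q' hq'
    have h1 := Submodule.sub_mem _ (hmem q' hq') (hmem q hq)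
    rwa [sub_sub_sub_cancel_right] at h1
  · have h1 : Module.finrank ℝ (Submodule.span ℝ (W : Set (EuclideanSpace ℝ (Fin N)))) ≤ W.card :=
      finrank_span_finset_le_card W
    have h2 : W.card ≤ 3 := Finset.card_le_three
    omega

theorem bad_key [CompactSpace M] [ConnectedSpace M] (S : Setup f)
    {t : M → M → ZMod 2} {a b a' b' : EuclideanSpace ℝ (Fin N)} {s s' : M → ZMod 2}
    (hs : Triv {x | f x ∉ segment ℝ a b} t s) (hs' : Triv {x | f x ∉ segment ℝ a' b'} t s')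
    {u : EuclideanSpace ℝ (Fin N)} {γ : ℝ}
    (hu : ∀ q ∈ ({a, b, a', b'} : Set (EuclideanSpace ℝ (Fin N))), ⟪u, q⟫_ℝ = γ)
    {x y : M} (hy : γ < ⟪u, f y⟫_ℝ) (hx : γ ≤ ⟪u, f x⟫_ℝ)
    (hxX : f x ∉ convexHull ℝ ({a, b, a', b'} : Set (EuclideanSpace ℝ (Fin N)))) :
    s x + s' x = s y + s' y := by
  set X : Set (EuclideanSpace ℝ (Fin N)) := {a, b, a', b'} with hXdef
  have hXf : X.Finite := by rw [hXdef]; exact Set.toFinite _
  have haX : a ∈ X := by rw [hXdef]; simp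
  have hbX : b ∈ X := by rw [hXdef]; simp
  have haX' : a' ∈ X := by rw [hXdef]; simp
  have hbX' : b' ∈ X := by rw [hXdef]; simp
  have hXne : X.Nonempty := ⟨a, haX⟩
  obtain ⟨z, _, hz⟩ := beyond_of_notMem hXf hXne hxX
  have hZ : IsPreconnected (segment ℝ z u) := (convex_segment z u).isPreconnected
  have hpt : ∀ z' ∈ segment ℝ z u, z' = u ∨ ∀ q ∈ X, ⟪z', q⟫_ℝ < ⟪z', f x⟫_ℝ := by
    rintro z' ⟨p, r, hp, hr, hpr, rfl⟩
    rcases hp.eq_or_lt with hp0 | hp0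
    · left
      have hr1 : r = 1 := by linarith
      rw [← hp0, hr1, zero_smul, one_smul, zero_add]
    · right
      intro q hq
      rw [inner_add_left, inner_add_left, real_inner_smul_left, real_inner_smul_left,
        real_inner_smul_left, real_inner_smul_left, hu q hq]
      have h1 := mul_lt_mul_of_pos_left (hz q hq) hp0
      have h2 := mul_le_mul_of_nonneg_left hx hr
      linarith
  have hyu : ∀ q ∈ X, ⟪u, q⟫_ℝ < ⟪u, f y⟫_ℝ := fun q hq => by rw [hu q hq]; exact hy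
  have hU := conn_beyond_union S.cont S.conn hXf hXne hZ (fun z' hz' => by
    rcases hpt z' hz' with h | h
    · exact ⟨y, by rw [h]; exact hyu⟩
    · exact ⟨x, h⟩)
  have hsub : ∀ v ∈ (⋃ z' ∈ segment ℝ z u, {x | ∀ q ∈ X, ⟪z', q⟫_ℝ < ⟪z', f x⟫_ℝ}),
      f v ∉ convexHull ℝ X := by
    intro v hv
    simp only [mem_iUnion, mem_setOf_eq] at hv
    obtain ⟨z', _, hv⟩ := hv
    exact notMem_of_beyond hv
  have h1 : (⋃ z' ∈ segment ℝ z u, {x | ∀ q ∈ X, ⟪z', q⟫_ℝ < ⟪z', f x⟫_ℝ}) ⊆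
      {x | f x ∉ segment ℝ a b} := fun v hv hm =>
    hsub v hv ((convex_convexHull ℝ X).segment_subset (subset_convexHull ℝ X haX)
      (subset_convexHull ℝ X hbX) hm)
  have h2 : (⋃ z' ∈ segment ℝ z u, {x | ∀ q ∈ X, ⟪z', q⟫_ℝ < ⟪z', f x⟫_ℝ}) ⊆
      {x | f x ∉ segment ℝ a' b'} := fun v hv hm =>
    hsub v hv ((convex_convexHull ℝ X).segment_subset (subset_convexHull ℝ X haX')
      (subset_convexHull ℝ X hbX') hm)
  obtain ⟨k, hk⟩ := triv_uniq hU (hs.mono h1) (hs'.mono h2)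
  have hxm : x ∈ (⋃ z' ∈ segment ℝ z u, {x | ∀ q ∈ X, ⟪z', q⟫_ℝ < ⟪z', f x⟫_ℝ}) := by
    simp only [mem_iUnion, mem_setOf_eq]
    exact ⟨z, left_mem_segment ℝ z u, hz⟩
  have hym : y ∈ (⋃ z' ∈ segment ℝ z u, {x | ∀ q ∈ X, ⟪z', q⟫_ℝ < ⟪z', f x⟫_ℝ}) := by
    simp only [mem_iUnion, mem_setOf_eq]
    exact ⟨u, right_mem_segment ℝ z u, hyu⟩
  rw [hk x hxm, hk y hym]

/-- the structure of pairs which are not good in dimension four -/
theorem bad_struct [CompactSpace M] [ConnectedSpace M] (S : Setup f) (hN : N = 4)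
    {t : M → M → ZMod 2} {a b a' b' : EuclideanSpace ℝ (Fin N)} {s s' : M → ZMod 2}
    (hs : Triv {x | f x ∉ segment ℝ a b} t s) (hs' : Triv {x | f x ∉ segment ℝ a' b'} t s')
    (hbad : ¬ ∃ c : ZMod 2, ∀ x, f x ∉ convexHull ℝ (segment ℝ a b ∪ segment ℝ a' b') →
      s x + s' x = c) :
    ∃ (w : EuclideanSpace ℝ (Fin N)) (β : ℝ), w ≠ 0 ∧ ⟪w, a⟫_ℝ = β ∧ ⟪w, b⟫_ℝ = β ∧
      ⟪w, a'⟫_ℝ = β ∧ ⟪w, b'⟫_ℝ = β ∧
      (∀ z : EuclideanSpace ℝ (Fin N), ⟪z, b - a⟫_ℝ = 0 → ⟪z, a' - a⟫_ℝ = 0 →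
        ⟪z, b' - a⟫_ℝ = 0 → ∃ μ : ℝ, z = μ • w) ∧
      (∃ x, β < ⟪w, f x⟫_ℝ) ∧ (∃ x, ⟪w, f x⟫_ℝ < β) ∧
      ∀ x x', β < ⟪w, f x⟫_ℝ → ⟪w, f x'⟫_ℝ < β → s x + s' x ≠ s x' + s' x' := by
  classical
  set X : Set (EuclideanSpace ℝ (Fin N)) := {a, b, a', b'} with hXdef
  have hXf : X.Finite := by rw [hXdef]; exact Set.toFinite _
  have haX : a ∈ X := by rw [hXdef]; simp
  have hbX : b ∈ X := by rw [hXdef]; simp
  have haX' : a' ∈ X := by rw [hXdef]; simp
  have hbX' : b' ∈ X := by rw [hXdef]; simp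
  have hXne : X.Nonempty := ⟨a, haX⟩
  have hXs : X ⊆ segment ℝ a b ∪ segment ℝ a' b' := by
    intro q hq
    rw [hXdef] at hq
    simp only [mem_insert_iff, mem_singleton_iff] at hq
    rcases hq with rfl | rfl | rfl | rfl
    · exact Or.inl (left_mem_segment ℝ _ _)
    · exact Or.inl (right_mem_segment ℝ _ _)
    · exact Or.inr (left_mem_segment ℝ _ _)
    · exact Or.inr (right_mem_segment ℝ _ _)
  have hhull : ∀ p, p ∉ convexHull ℝ (segment ℝ a b ∪ segment ℝ a' b') → p ∉ convexHull ℝ X :=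
    fun p hp h => hp (convexHull_mono hXs h)
  set T : Finset (EuclideanSpace ℝ (Fin N)) := {b - a, a' - a, b' - a} with hT
  set V : Submodule ℝ (EuclideanSpace ℝ (Fin N)) :=
    Submodule.span ℝ (T : Set (EuclideanSpace ℝ (Fin N))) with hVdef
  have hb1 : b - a ∈ V := Submodule.subset_span (by rw [hT]; simp)
  have ha1 : a' - a ∈ V := Submodule.subset_span (by rw [hT]; simp)
  have hb2 : b' - a ∈ V := Submodule.subset_span (by rw [hT]; simp)
  have hpa : ∀ p ∈ X, p - a ∈ V := by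
    intro p hp
    rw [hXdef] at hp
    simp only [mem_insert_iff, mem_singleton_iff] at hp
    rcases hp with rfl | rfl | rfl | rfl
    · rw [sub_self]; exact V.zero_mem
    · exact hb1
    · exact ha1
    · exact hb2
  have hcard : Module.finrank ℝ V ≤ 3 := by
    have h1 : Module.finrank ℝ V ≤ T.card := finrank_span_finset_le_card T
    have h2 : T.card ≤ 3 := by rw [hT]; exact Finset.card_le_three
    omega
  by_cases hdim : Module.finrank ℝ V + 2 ≤ N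
  · exfalso
    have hc := aplus S.cont S.conn S.sub hXf hXne V (fun p hp q hq => by
      have := V.sub_mem (hpa q hq) (hpa p hp)
      rwa [sub_sub_sub_cancel_right] at this) hdim
    obtain ⟨k, hk⟩ := triv_uniq hc
      (hs.mono fun v hv hm => hv ((convex_convexHull ℝ X).segment_subset
        (subset_convexHull ℝ X haX) (subset_convexHull ℝ X hbX) hm))
      (hs'.mono fun v hv hm => hv ((convex_convexHull ℝ X).segment_subset
        (subset_convexHull ℝ X haX') (subset_convexHull ℝ X hbX') hm))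
    exact hbad ⟨k, fun x hx => hk x (hhull _ hx)⟩
  · have hsum := Submodule.finrank_add_finrank_orthogonal V
    rw [finrank_euclideanSpace_fin] at hsum
    have h1 : Module.finrank ℝ Vᗮ = 1 := by omega
    obtain ⟨v, hv0, hv⟩ := finrank_eq_one_iff'.1 h1
    set w : EuclideanSpace ℝ (Fin N) := (v : EuclideanSpace ℝ (Fin N)) with hw
    have hw0 : w ≠ 0 := fun h => hv0 (Subtype.ext h)
    have hwV : ∀ p ∈ V, ⟪w, p⟫_ℝ = 0 := fun p hp => by
      rw [real_inner_comm]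
      exact (Submodule.mem_orthogonal V w).1 v.2 p hp
    have hwX : ∀ q ∈ X, ⟪w, q⟫_ℝ = ⟪w, a⟫_ℝ := by
      intro q hq
      have := hwV _ (hpa q hq)
      rw [inner_sub_right] at this
      linarith
    have hwX' : ∀ q ∈ X, ⟪-w, q⟫_ℝ = -⟪w, a⟫_ℝ := by
      intro q hq
      rw [inner_neg_left, hwX q hq]
    have hspan : ∀ z : EuclideanSpace ℝ (Fin N), ⟪z, b - a⟫_ℝ = 0 → ⟪z, a' - a⟫_ℝ = 0 →
        ⟪z, b' - a⟫_ℝ = 0 → ∃ μ : ℝ, z = μ • w := by
      intro z h1 h2 h3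
      have hz : z ∈ Vᗮ := by
        rw [Submodule.mem_orthogonal]
        intro p hp
        have hle : V ≤ LinearMap.ker (innerₛₗ ℝ z) := by
          rw [hVdef, Submodule.span_le]
          intro q hq
          rw [hT] at hq
          simp only [Finset.coe_insert, Finset.coe_singleton, mem_insert_iff,
            mem_singleton_iff] at hq
          rcases hq with rfl | rfl | rfl
          · exact h1
          · exact h2
          · exact h3
        have := hle hp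
        rw [real_inner_comm]
        exact this
      obtain ⟨c, hc⟩ := hv ⟨z, hz⟩
      refine ⟨c, ?_⟩
      have := congrArg Subtype.val hc
      exact this.symm
    by_cases hp : ∃ x, ⟪w, a⟫_ℝ < ⟪w, f x⟫_ℝ
    · obtain ⟨y, hy⟩ := hp
      by_cases hm : ∃ x, ⟪w, f x⟫_ℝ < ⟪w, a⟫_ℝ
      · obtain ⟨y', hy'⟩ := hm
        have hy'' : -⟪w, a⟫_ℝ < ⟪-w, f y'⟫_ℝ := by rw [inner_neg_left]; linarith
        have hkp : ∀ x, f x ∉ convexHull ℝ X → ⟪w, a⟫_ℝ ≤ ⟪w, f x⟫_ℝ →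
            s x + s' x = s y + s' y := fun x hx hle => bad_key S hs hs' hwX hy hle hx
        have hkm : ∀ x, f x ∉ convexHull ℝ X → ⟪w, f x⟫_ℝ ≤ ⟪w, a⟫_ℝ →
            s x + s' x = s y' + s' y' := fun x hx hle =>
          bad_key S hs hs' hwX' hy'' (by rw [inner_neg_left]; linarith) hx
        have hne : s y + s' y ≠ s y' + s' y' := by
          intro heq
          apply hbad
          refine ⟨s y + s' y, fun x hx => ?_⟩
          rcases le_total ⟪w, a⟫_ℝ ⟪w, f x⟫_ℝ with hle | hle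
          · exact hkp x (hhull _ hx) hle
          · rw [heq]; exact hkm x (hhull _ hx) hle
        refine ⟨w, ⟪w, a⟫_ℝ, hw0, rfl, hwX b hbX, hwX a' haX', hwX b' hbX', hspan, ⟨y, hy⟩,
          ⟨y', hy'⟩, ?_⟩
        intro x x' hx hx'
        have e1 : s x + s' x = s y + s' y := hkp x
          (notMem_of_beyond (z := w) fun q hq => by rw [hwX q hq]; exact hx) hx.le
        have e2 : s x' + s' x' = s y' + s' y' := hkm x'
          (notMem_of_beyond (z := -w) fun q hq => by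
            rw [hwX' q hq, inner_neg_left]; linarith) hx'.le
        rw [e1, e2]
        exact hne
      · exfalso
        push Not at hm
        exact hbad ⟨s y + s' y, fun x hx => bad_key S hs hs' hwX hy (hm x) (hhull _ hx)⟩
    · exfalso
      push Not at hp
      obtain ⟨y', hy'⟩ := S.sub w ⟪w, a⟫_ℝ hw0
      have hy'' : -⟪w, a⟫_ℝ < ⟪-w, f y'⟫_ℝ := by
        rw [inner_neg_left]
        have := lt_of_le_of_ne (hp y') hy'
        linarith
      exact hbad ⟨s y' + s' y', fun x hx => bad_key S hs hs' hwX' hy''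
        (by rw [inner_neg_left]; linarith [hp x]) (hhull _ hx)⟩

/-- the complement of a compact convex set in an open convex set of a flat of dimension at least
two is connected -/
theorem convex_diff_conn {V : Submodule ℝ (EuclideanSpace ℝ (Fin N))}
    (hV : 2 ≤ Module.finrank ℝ V) {D K O : Set (EuclideanSpace ℝ (Fin N))} (hO : IsOpen O)
    (hD : Convex ℝ D) (o : EuclideanSpace ℝ (Fin N)) (hDO : D = O ∩ {p | p - o ∈ V})
    (hK : IsCompact K) (hKc : Convex ℝ K) (hne : K.Nonempty) (hKD : K ⊆ D) :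
    IsPreconnected (D \ K) := by
  have hV' : ∀ p ∈ D, ∀ k ∈ D, p - k ∈ V := by
    intro p hp k hk
    rw [hDO] at hp hk
    have h1 : p - o ∈ V := hp.2
    have h2 : k - o ∈ V := hk.2
    have := V.sub_mem h1 h2
    rwa [sub_sub_sub_cancel_right] at this
  -- the unit sphere of `V`
  have hZ : IsPreconnected {u : EuclideanSpace ℝ (Fin N) | u ∈ V ∧ ‖u‖ = 1} := by
    have h1 : IsPreconnected (sphere (0 : V) 1) :=
      isPreconnected_sphere (by
        rw [← Module.finrank_eq_rank]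
        exact_mod_cast (by omega : 1 < Module.finrank ℝ V)) 0 1
    have h2 := h1.image (fun v : V => (v : EuclideanSpace ℝ (Fin N))) continuous_subtype_val.continuousOn
    convert h2 using 1
    ext u
    constructor
    · rintro ⟨hu, hu1⟩
      exact ⟨⟨u, hu⟩, by rw [mem_sphere_zero_iff_norm]; exact hu1, rfl⟩
    · rintro ⟨v, hv, rfl⟩
      rw [mem_sphere_zero_iff_norm] at hv
      exact ⟨v.2, hv⟩
  have hU : D \ K = ⋃ u ∈ {u : EuclideanSpace ℝ (Fin N) | u ∈ V ∧ ‖u‖ = 1},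
      {p | p ∈ D ∧ ∀ k ∈ K, ⟪u, k⟫_ℝ < ⟪u, p⟫_ℝ} := by
    ext p
    simp only [mem_iUnion]
    constructor
    · rintro ⟨hpD, hpK⟩
      obtain ⟨v, hvK, hv⟩ := exists_norm_eq_iInf_of_complete_convex hne hK.isComplete hKc p
      have hin := (norm_eq_iInf_iff_real_inner_le_zero hKc hvK).1 hv
      have hpv : p - v ≠ 0 := by
        intro h
        rw [sub_eq_zero] at h
        exact hpK (h ▸ hvK)
      have hpos : 0 < ‖p - v‖ := norm_pos_iff.2 hpv
      refine ⟨‖p - v‖⁻¹ • (p - v), ⟨V.smul_mem _ (hV' p hpD v (hKD hvK)), ?_⟩, hpD, ?_⟩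
      · rw [norm_smul, norm_inv, norm_norm, inv_mul_cancel₀ hpos.ne']
      · intro k hk
        rw [real_inner_smul_left, real_inner_smul_left]
        refine mul_lt_mul_of_pos_left ?_ (inv_pos.2 hpos)
        have h1 := hin k hk
        have h2 : ⟪p - v, p - v⟫_ℝ = ‖p - v‖ ^ 2 := real_inner_self_eq_norm_sq _
        have h3 : ⟪p - v, k⟫_ℝ = ⟪p - v, k - v⟫_ℝ + ⟪p - v, v⟫_ℝ := by
          rw [← inner_add_right, sub_add_cancel]
        have h4 : ⟪p - v, p⟫_ℝ = ⟪p - v, p - v⟫_ℝ + ⟪p - v, v⟫_ℝ := by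
          rw [← inner_add_right, sub_add_cancel]
        have h5 : 0 < ‖p - v‖ ^ 2 := by positivity
        linarith
    · rintro ⟨u, _, hpD, hp⟩
      exact ⟨hpD, fun hpK => lt_irrefl _ (hp p hpK)⟩
  rw [hU]
  refine glue_conn hZ _ ?_ ?_
  · intro u _
    apply Convex.isPreconnected
    intro p hp q hq α γ hα hγ hαγ
    refine ⟨hD hp.1 hq.1 hα hγ hαγ, fun k hk => ?_⟩
    rw [inner_add_right, real_inner_smul_right, real_inner_smul_right]
    have h1 := hp.2 k hk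
    have h2 := hq.2 k hk
    have h3 : ⟪u, k⟫_ℝ = α * ⟪u, k⟫_ℝ + γ * ⟪u, k⟫_ℝ := by rw [← add_mul, hαγ, one_mul]
    rcases hα.eq_or_lt with h0 | h0
    · have hγ1 : γ = 1 := by linarith
      rw [← h0, hγ1]
      linarith
    · have := mul_lt_mul_of_pos_left h1 h0
      have := mul_le_mul_of_nonneg_left h2.le hγ
      linarith
  · rintro u ⟨huV, hu1⟩
    obtain ⟨k, hkK, hk⟩ := hK.exists_isMaxOn hne (f := fun p => ⟪u, p⟫_ℝ) (by fun_prop)
    have hkO : k ∈ O := by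
      have := hKD hkK
      rw [hDO] at this
      exact this.1
    obtain ⟨δ, hδ, hball⟩ := Metric.isOpen_iff.1 hO k hkO
    set x := k + (δ / 2) • u with hx
    have hxO : x ∈ O := by
      apply hball
      rw [mem_ball, dist_eq_norm, hx, add_sub_cancel_left, norm_smul, hu1, mul_one,
        Real.norm_eq_abs, abs_of_pos (by linarith)]
      linarith
    have hxD : x ∈ D := by
      have hkD := hKD hkK
      rw [hDO] at hkD ⊢
      refine ⟨hxO, ?_⟩
      have h1 : k - o ∈ V := hkD.2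
      have h2 := V.add_mem h1 (V.smul_mem (δ / 2) huV)
      have e : x - o = k - o + (δ / 2) • u := by rw [hx]; abel
      show x - o ∈ V
      rw [e]
      exact h2
    have hux : ∀ k' ∈ K, δ / 2 ≤ ⟪u, x - k'⟫_ℝ := by
      intro k' hk'
      have h1 : ⟪u, k'⟫_ℝ ≤ ⟪u, k⟫_ℝ := hk hk'
      have h2 : ⟪u, u⟫_ℝ = 1 := by rw [real_inner_self_eq_norm_sq, hu1]; norm_num
      rw [hx, inner_sub_right, inner_add_right, real_inner_smul_right, h2]
      linarith
    obtain ⟨R, hR⟩ := hK.isBounded.subset_closedBall x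
    have hR0 : 0 < max R 0 + 1 := by positivity
    refine ⟨x, ⟨hxD, fun k' hk' => ?_⟩, ?_⟩
    · have := hux k' hk'
      rw [inner_sub_right] at this
      linarith
    · have hnb : ball u (δ / 2 / (max R 0 + 1)) ∈ 𝓝 u := ball_mem_nhds _ (by positivity)
      filter_upwards [mem_nhdsWithin_of_mem_nhds hnb] with u' hu'
      refine ⟨hxD, fun k' hk' => ?_⟩
      have h1 := hux k' hk'
      have h2 : ⟪u', x - k'⟫_ℝ = ⟪u, x - k'⟫_ℝ + ⟪u' - u, x - k'⟫_ℝ := by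
        rw [← inner_add_left, add_sub_cancel]
      have h3 : |⟪u' - u, x - k'⟫_ℝ| ≤ ‖u' - u‖ * ‖x - k'‖ := abs_real_inner_le_norm _ _
      have h4 : ‖x - k'‖ ≤ max R 0 := by
        have := hR hk'
        rw [mem_closedBall, dist_comm, dist_eq_norm] at this
        exact this.trans (le_max_left _ _)
      have h5 : ‖u' - u‖ < δ / 2 / (max R 0 + 1) := by
        rwa [mem_ball, dist_eq_norm] at hu'
      have h6 : ‖u' - u‖ * ‖x - k'‖ < δ / 2 := by
        rw [lt_div_iff₀ hR0] at h5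
        have h7 := norm_nonneg (u' - u)
        have h8 : ‖u' - u‖ * ‖x - k'‖ ≤ ‖u' - u‖ * (max R 0 + 1) :=
          mul_le_mul_of_nonneg_left (by linarith) h7
        linarith
      have h9 := (abs_le.1 h3).1
      rw [inner_sub_right] at h2
      linarith

/-- the functionals supporting the hull along an edge up to `ε`, but not supporting it, form a
connected set (a slice of the cone is used) -/
theorem near_support_conn [CompactSpace M] (hf : Continuous f) (hN : 4 ≤ N)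
    {a b o : EuclideanSpace ℝ (Fin N)} (ha : a ∈ Hul f) (hb : b ∈ Hul f)
    (ho : o ∈ interior (Hul f)) (hex : ∃ z : EuclideanSpace ℝ (Fin N), z ≠ 0 ∧
      ⟪z, b - a⟫_ℝ = 0 ∧ ∀ x, ⟪z, f x - a⟫_ℝ ≤ 0) {ε : ℝ} (hε : 0 < ε) :
    IsPreconnected {z : EuclideanSpace ℝ (Fin N) | ⟪z, b - a⟫_ℝ = 0 ∧ ⟪z, o - a⟫_ℝ = -1 ∧
      (∃ x, 0 < ⟪z, f x - a⟫_ℝ) ∧ ∀ x, ⟪z, f x - a⟫_ℝ < ε} := by
  classical
  obtain ⟨δ, hδ, hball⟩ := Metric.isOpen_iff.1 isOpen_interior o ho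
  have hhul : ∀ z : EuclideanSpace ℝ (Fin N), (∀ x, ⟪z, f x - a⟫_ℝ ≤ 0) →
      ∀ r ∈ Hul f, ⟪z, r - a⟫_ℝ ≤ 0 := by
    intro z hz r hr
    have hc : Convex ℝ {r : EuclideanSpace ℝ (Fin N) | ⟪z, r - a⟫_ℝ ≤ 0} := by
      intro p hp q hq s t hs ht hst
      have hp' : ⟪z, p - a⟫_ℝ ≤ 0 := hp
      have hq' : ⟪z, q - a⟫_ℝ ≤ 0 := hq
      have h1 : s • p + t • q - a = s • (p - a) + t • (q - a) := by
        have h2 : a = (s + t) • a := by rw [hst, one_smul]
        nth_rewrite 1 [h2]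
        rw [smul_sub, smul_sub, add_smul]
        abel
      show ⟪z, s • p + t • q - a⟫_ℝ ≤ 0
      rw [h1, inner_add_right, real_inner_smul_right, real_inner_smul_right]
      have h3 := mul_nonpos_of_nonneg_of_nonpos hs hp'
      have h4 := mul_nonpos_of_nonneg_of_nonpos ht hq'
      linarith
    have h2 : convexHull ℝ (range f) ⊆ {r : EuclideanSpace ℝ (Fin N) | ⟪z, r - a⟫_ℝ ≤ 0} := by
      apply convexHull_min _ hc
      rintro _ ⟨x, rfl⟩
      exact hz x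
    exact h2 hr
  have hkey : ∀ z : EuclideanSpace ℝ (Fin N), (∀ x, ⟪z, f x - a⟫_ℝ ≤ 0) →
      ⟪z, o - a⟫_ℝ + δ / 2 * ‖z‖ ≤ 0 := by
    intro z hz
    rcases eq_or_ne z 0 with h | h
    · rw [h, inner_zero_left, norm_zero]
      simp
    · have hzp : 0 < ‖z‖ := norm_pos_iff.2 h
      have h1 : o + (δ / 2 * ‖z‖⁻¹) • z ∈ Hul f := by
        apply interior_subset
        apply hball
        rw [mem_ball, dist_eq_norm, add_sub_cancel_left, norm_smul, norm_mul, norm_inv, norm_norm,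
          mul_assoc, inv_mul_cancel₀ hzp.ne', mul_one, Real.norm_of_nonneg (by positivity)]
        linarith
      have h2 := hhul z hz _ h1
      rw [add_sub_right_comm, inner_add_right, real_inner_smul_right,
        real_inner_self_eq_norm_sq] at h2
      have h3 : δ / 2 * ‖z‖⁻¹ * ‖z‖ ^ 2 = δ / 2 * ‖z‖ := by
        field_simp
      rw [h3] at h2
      exact h2
  obtain ⟨z₁, hz₁, hz₁b, hz₁s⟩ := hex
  have hneg : ⟪z₁, o - a⟫_ℝ < 0 := by
    have h1 := hkey z₁ hz₁s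
    have h2 : 0 < ‖z₁‖ := norm_pos_iff.2 hz₁
    have h3 : 0 < δ / 2 * ‖z₁‖ := by positivity
    linarith
  obtain ⟨z₀, hz₀b, hz₀o, hz₀s⟩ : ∃ z₀ : EuclideanSpace ℝ (Fin N), ⟪z₀, b - a⟫_ℝ = 0 ∧
      ⟪z₀, o - a⟫_ℝ = -1 ∧ ∀ x, ⟪z₀, f x - a⟫_ℝ ≤ 0 := by
    have hpos : 0 < (-⟪z₁, o - a⟫_ℝ)⁻¹ := inv_pos.2 (by linarith)
    refine ⟨(-⟪z₁, o - a⟫_ℝ)⁻¹ • z₁, ?_, ?_, ?_⟩
    · rw [real_inner_smul_left, hz₁b, mul_zero]
    · rw [real_inner_smul_left, inv_mul_eq_div, div_neg, div_self hneg.ne]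
    · intro x
      rw [real_inner_smul_left]
      exact mul_nonpos_of_nonneg_of_nonpos hpos.le (hz₁s x)
  obtain ⟨V, hV⟩ : ∃ V : Submodule ℝ (EuclideanSpace ℝ (Fin N)),
      V = (ℝ ∙ (b - a))ᗮ ⊓ (ℝ ∙ (o - a))ᗮ := ⟨_, rfl⟩
  have hVmem : ∀ v, v ∈ V ↔ ⟪v, b - a⟫_ℝ = 0 ∧ ⟪v, o - a⟫_ℝ = 0 := by
    intro v
    rw [hV, Submodule.mem_inf, Submodule.mem_orthogonal_singleton_iff_inner_left,
      Submodule.mem_orthogonal_singleton_iff_inner_left]
  have hVdim : 2 ≤ Module.finrank ℝ V := by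
    have h1 : ∀ v : EuclideanSpace ℝ (Fin N), Module.finrank ℝ (ℝ ∙ v) ≤ 1 := by
      intro v
      have := finrank_span_le_card (R := ℝ) ({v} : Set (EuclideanSpace ℝ (Fin N)))
      simpa using this
    have h2 := Submodule.finrank_add_le_finrank_add_finrank (ℝ ∙ (b - a)) (ℝ ∙ (o - a))
    have h3 := Submodule.finrank_add_finrank_orthogonal ((ℝ ∙ (b - a)) ⊔ (ℝ ∙ (o - a)))
    have h4 := h1 (b - a)
    have h5 := h1 (o - a)
    rw [← Submodule.inf_orthogonal, ← hV, finrank_euclideanSpace_fin] at h3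
    omega
  have hOopen : IsOpen {z : EuclideanSpace ℝ (Fin N) | ∀ x, ⟪z, f x - a⟫_ℝ < ε} := by
    rw [isOpen_iff_mem_nhds]
    intro z hz
    have h1 : ∀ᶠ w in 𝓝 z, ∀ x ∈ (univ : Set M), ⟪w, f x - a⟫_ℝ < ε := by
      apply isCompact_univ.eventually_forall_of_forall_eventually
      intro x _
      have hc : Continuous (fun p : EuclideanSpace ℝ (Fin N) × M => ⟪p.1, f p.2 - a⟫_ℝ) :=
        continuous_fst.inner ((hf.comp continuous_snd).sub continuous_const)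
      exact (hc.tendsto (z, x)).eventually (gt_mem_nhds (hz x))
    filter_upwards [h1] with w hw x
    exact hw x (mem_univ _)
  have hcl : ∀ (z w : EuclideanSpace ℝ (Fin N)) (s t : ℝ) (v : EuclideanSpace ℝ (Fin N)),
      ⟪s • z + t • w, v⟫_ℝ = s * ⟪z, v⟫_ℝ + t * ⟪w, v⟫_ℝ := by
    intro z w s t v
    rw [inner_add_left, real_inner_smul_left, real_inner_smul_left]
  have hDc : Convex ℝ {z : EuclideanSpace ℝ (Fin N) | ⟪z, b - a⟫_ℝ = 0 ∧ ⟪z, o - a⟫_ℝ = -1 ∧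
      ∀ x, ⟪z, f x - a⟫_ℝ < ε} := by
    rintro z ⟨h1, h2, h3⟩ w ⟨k1, k2, k3⟩ s t hs ht hst
    refine ⟨?_, ?_, ?_⟩
    · rw [hcl, h1, k1]
      ring
    · rw [hcl, h2, k2]
      linarith
    · intro x
      rw [hcl]
      exact (convex_Iio ε) (h3 x) (k3 x) hs ht hst
  have hKc : Convex ℝ {z : EuclideanSpace ℝ (Fin N) | ⟪z, b - a⟫_ℝ = 0 ∧ ⟪z, o - a⟫_ℝ = -1 ∧
      ∀ x, ⟪z, f x - a⟫_ℝ ≤ 0} := by
    rintro z ⟨h1, h2, h3⟩ w ⟨k1, k2, k3⟩ s t hs ht hst
    refine ⟨?_, ?_, ?_⟩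
    · rw [hcl, h1, k1]
      ring
    · rw [hcl, h2, k2]
      linarith
    · intro x
      rw [hcl]
      exact (convex_Iic (0 : ℝ)) (h3 x) (k3 x) hs ht hst
  have hKcomp : IsCompact {z : EuclideanSpace ℝ (Fin N) | ⟪z, b - a⟫_ℝ = 0 ∧ ⟪z, o - a⟫_ℝ = -1 ∧
      ∀ x, ⟪z, f x - a⟫_ℝ ≤ 0} := by
    apply Metric.isCompact_of_isClosed_isBounded
    · have e1 : {z : EuclideanSpace ℝ (Fin N) | ⟪z, b - a⟫_ℝ = 0 ∧ ⟪z, o - a⟫_ℝ = -1 ∧
          ∀ x, ⟪z, f x - a⟫_ℝ ≤ 0} = {z | ⟪z, b - a⟫_ℝ = 0} ∩ ({z | ⟪z, o - a⟫_ℝ = -1} ∩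
          ⋂ x, {z | ⟪z, f x - a⟫_ℝ ≤ 0}) := by
        ext z
        simp only [mem_inter_iff, mem_iInter, mem_setOf_eq]
      rw [e1]
      refine (isClosed_eq (by fun_prop) continuous_const).inter
        ((isClosed_eq (by fun_prop) continuous_const).inter
        (isClosed_iInter (fun x => isClosed_le (by fun_prop) continuous_const)))
    · apply (Metric.isBounded_closedBall (x := (0 : EuclideanSpace ℝ (Fin N))) (r := 2 / δ)).subset
      rintro z ⟨_, h2, h3⟩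
      have h4 := hkey z h3
      rw [h2] at h4
      rw [mem_closedBall_zero_iff, le_div_iff₀ hδ]
      linarith
  have hmain := convex_diff_conn hVdim hOopen hDc z₀ (by
    ext z
    simp only [mem_inter_iff, mem_setOf_eq]
    rw [hVmem, inner_sub_left, inner_sub_left, hz₀b, hz₀o]
    constructor
    · rintro ⟨h1, h2, h3⟩
      exact ⟨h3, by linarith, by linarith⟩
    · rintro ⟨h3, h1, h2⟩
      exact ⟨by linarith, by linarith, h3⟩) hKcomp hKc ⟨z₀, hz₀b, hz₀o, hz₀s⟩ (by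
    rintro z ⟨h1, h2, h3⟩
    exact ⟨h1, h2, fun x => lt_of_le_of_lt (h3 x) hε⟩)
  have hset : {z : EuclideanSpace ℝ (Fin N) | ⟪z, b - a⟫_ℝ = 0 ∧ ⟪z, o - a⟫_ℝ = -1 ∧
      (∃ x, 0 < ⟪z, f x - a⟫_ℝ) ∧ ∀ x, ⟪z, f x - a⟫_ℝ < ε} =
      {z : EuclideanSpace ℝ (Fin N) | ⟪z, b - a⟫_ℝ = 0 ∧ ⟪z, o - a⟫_ℝ = -1 ∧
      ∀ x, ⟪z, f x - a⟫_ℝ < ε} \ {z : EuclideanSpace ℝ (Fin N) | ⟪z, b - a⟫_ℝ = 0 ∧
      ⟪z, o - a⟫_ℝ = -1 ∧ ∀ x, ⟪z, f x - a⟫_ℝ ≤ 0} := by
    ext z
    simp only [mem_diff, mem_setOf_eq]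
    constructor
    · rintro ⟨h1, h2, ⟨x, hx⟩, h3⟩
      exact ⟨⟨h1, h2, h3⟩, fun h => absurd (h.2.2 x) (not_le.2 hx)⟩
    · rintro ⟨⟨h1, h2, h3⟩, h4⟩
      refine ⟨h1, h2, ?_, h3⟩
      by_contra h5
      push Not at h5
      exact h4 ⟨h1, h2, h5⟩
  rw [hset]
  exact hmain

/-- if `t` is trivial near all faces containing the edge then it is trivial near all nearly
supporting half-spaces -/
theorem near_null [CompactSpace M] (hf : Continuous f)
    {a b o : EuclideanSpace ℝ (Fin N)} (ho : o ∈ interior (Hul f)) {t : M → M → ZMod 2}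
    (hnull : ∀ z : EuclideanSpace ℝ (Fin N), z ≠ 0 → ⟪z, b - a⟫_ℝ = 0 →
      (∀ x, ⟪z, f x - a⟫_ℝ ≤ 0) → Null {x | 0 ≤ ⟪z, f x - a⟫_ℝ} t) :
    ∃ ε > 0, ∀ z : EuclideanSpace ℝ (Fin N), ⟪z, b - a⟫_ℝ = 0 → ⟪z, o - a⟫_ℝ = -1 →
      (∀ x, ⟪z, f x - a⟫_ℝ < ε) → Null {x | 0 ≤ ⟪z, f x - a⟫_ℝ} t := by
  by_contra hcon
  push Not at hcon
  -- bounded
  obtain ⟨δ, hδ, hball⟩ := Metric.isOpen_iff.mp isOpen_interior o ho
  have hball' : ball o δ ⊆ Hul f := hball.trans interior_subset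
  have hchoose : ∀ n : ℕ, ∃ z : EuclideanSpace ℝ (Fin N), ⟪z, b - a⟫_ℝ = 0 ∧ ⟪z, o - a⟫_ℝ = -1 ∧
      (∀ x, ⟪z, f x - a⟫_ℝ < 1 / ((n : ℝ) + 1)) ∧ ¬ Null {x | 0 ≤ ⟪z, f x - a⟫_ℝ} t := by
    intro n
    obtain ⟨z, h1, h2, h3, h4⟩ := hcon (1 / ((n : ℝ) + 1)) (by positivity)
    exact ⟨z, h1, h2, h3, h4⟩
  choose z hz1 hz2 hz3 hz4 using hchoose
  have hle1 : ∀ n : ℕ, 1 / ((n : ℝ) + 1) ≤ 1 := by
    intro n
    rw [div_le_one (by positivity)]
    have : (0 : ℝ) ≤ n := Nat.cast_nonneg n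
    linarith
  have hhul : ∀ n, ∀ r ∈ Hul f, ⟪z n, r - a⟫_ℝ ≤ 1 := by
    intro n r hr
    have hconv : Convex ℝ {r : EuclideanSpace ℝ (Fin N) | ⟪z n, r⟫_ℝ ≤ 1 + ⟪z n, a⟫_ℝ} :=
      convex_halfSpace_le (f := fun r => ⟪z n, r⟫_ℝ)
        ⟨fun x y => inner_add_right _ _ _, fun c x => by simp [inner_smul_right]⟩ _
    have hsub : range f ⊆ {r : EuclideanSpace ℝ (Fin N) | ⟪z n, r⟫_ℝ ≤ 1 + ⟪z n, a⟫_ℝ} := by
      rintro _ ⟨x, rfl⟩
      have h1 := hz3 n x
      have h2 := hle1 n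
      rw [inner_sub_right] at h1
      show ⟪z n, f x⟫_ℝ ≤ 1 + ⟪z n, a⟫_ℝ
      linarith
    have h3 : r ∈ {r : EuclideanSpace ℝ (Fin N) | ⟪z n, r⟫_ℝ ≤ 1 + ⟪z n, a⟫_ℝ} :=
      convexHull_min hsub hconv hr
    have h4 : ⟪z n, r⟫_ℝ ≤ 1 + ⟪z n, a⟫_ℝ := h3
    rw [inner_sub_right]
    linarith
  have hbd : ∀ n, z n ∈ closedBall (0 : EuclideanSpace ℝ (Fin N)) (4 / δ) := by
    intro n
    rw [mem_closedBall_zero_iff]
    by_cases h0 : z n = 0
    · rw [h0, norm_zero]; positivity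
    · have hzp : 0 < ‖z n‖ := norm_pos_iff.mpr h0
      have h1 : o + (δ / 2 / ‖z n‖) • z n ∈ Hul f := by
        apply hball'
        rw [mem_ball, dist_eq_norm, add_sub_cancel_left, norm_smul, Real.norm_eq_abs,
          abs_of_pos (by positivity), div_mul_cancel₀ _ hzp.ne']
        linarith
      have h2 := hhul n _ h1
      have h3 : o + (δ / 2 / ‖z n‖) • z n - a = (o - a) + (δ / 2 / ‖z n‖) • z n := by abel
      rw [h3, inner_add_right, hz2 n, inner_smul_right, real_inner_self_eq_norm_sq] at h2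
      have h4 : δ / 2 / ‖z n‖ * ‖z n‖ ^ 2 = δ / 2 * ‖z n‖ := by
        field_simp
      rw [h4] at h2
      rw [le_div_iff₀ hδ]
      nlinarith
  obtain ⟨w, -, φ, hφ, hlim⟩ := (isCompact_closedBall (0 : EuclideanSpace ℝ (Fin N))
    (4 / δ)).tendsto_subseq hbd
  have hin : ∀ v : EuclideanSpace ℝ (Fin N),
      Filter.Tendsto (fun n => ⟪z (φ n), v⟫_ℝ) Filter.atTop (𝓝 ⟪w, v⟫_ℝ) := by
    intro v
    exact (hlim.inner tendsto_const_nhds)
  have hw1 : ⟪w, b - a⟫_ℝ = 0 := by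
    have h1 := hin (b - a)
    simp only [hz1] at h1
    exact tendsto_nhds_unique h1 tendsto_const_nhds
  have hw2 : ⟪w, o - a⟫_ℝ = -1 := by
    have h1 := hin (o - a)
    simp only [hz2] at h1
    exact tendsto_nhds_unique h1 tendsto_const_nhds
  have hw0 : w ≠ 0 := by
    intro h
    rw [h, inner_zero_left] at hw2
    norm_num at hw2
  have hw3 : ∀ x, ⟪w, f x - a⟫_ℝ ≤ 0 := by
    intro x
    have h1 : Filter.Tendsto (fun n : ℕ => 1 / (((φ n : ℕ) : ℝ) + 1)) Filter.atTop (𝓝 0) :=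
      tendsto_one_div_add_atTop_nhds_zero_nat.comp hφ.tendsto_atTop
    exact le_of_tendsto_of_tendsto' (hin (f x - a)) h1 (fun n => (hz3 (φ n) x).le)
  obtain ⟨s, hs⟩ := hnull w hw0 hw1 hw3
  obtain ⟨O, hO, hsubO, hOs⟩ := triv_open hs
  have hcomp : IsCompact Oᶜ := hO.isClosed_compl.isCompact
  have hg : Continuous (fun x => ⟪w, f x - a⟫_ℝ) := by fun_prop
  -- a negative upper bound outside `O`
  have hm : ∃ m : ℝ, 0 < m ∧ ∀ x ∈ Oᶜ, ⟪w, f x - a⟫_ℝ ≤ -m := by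
    rcases (Oᶜ).eq_empty_or_nonempty with he | hne
    · exact ⟨1, one_pos, fun x hx => by rw [he] at hx; exact hx.elim⟩
    · obtain ⟨x₀, hx₀, hmax⟩ := hcomp.exists_isMaxOn hne hg.continuousOn
      have h1 : ⟪w, f x₀ - a⟫_ℝ < 0 := by
        by_contra h
        exact hx₀ (hsubO (not_lt.mp h))
      exact ⟨-⟪w, f x₀ - a⟫_ℝ, by linarith, fun x hx => by
        rw [neg_neg]; exact hmax hx⟩
  obtain ⟨m, hm0, hm⟩ := hm
  obtain ⟨R, hR⟩ : ∃ R : ℝ, ∀ x, ‖f x - a‖ ≤ R := by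
    have h1 : Continuous (fun x => ‖f x - a‖) := by fun_prop
    obtain ⟨R, hR⟩ := (isCompact_range h1).bddAbove
    exact ⟨R, fun x => hR ⟨x, rfl⟩⟩
  have hR0 : 0 < |R| + 1 := by positivity
  have hev : ∀ᶠ n in Filter.atTop, dist (z (φ n)) w < m / (|R| + 1) :=
    (Metric.tendsto_nhds.mp hlim) _ (by positivity)
  obtain ⟨n, hn⟩ := hev.exists
  apply hz4 (φ n)
  refine ⟨s, hOs.mono ?_⟩
  intro x hx
  by_contra hxO
  have h1 := hm x hxO
  have h2 : ⟪z (φ n), f x - a⟫_ℝ = ⟪w, f x - a⟫_ℝ + ⟪z (φ n) - w, f x - a⟫_ℝ := by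
    rw [inner_sub_left]; ring
  have h3 : ⟪z (φ n) - w, f x - a⟫_ℝ ≤ ‖z (φ n) - w‖ * ‖f x - a‖ := real_inner_le_norm _ _
  have h4 : ‖z (φ n) - w‖ < m / (|R| + 1) := by rwa [dist_eq_norm] at hn
  have h5 : ‖f x - a‖ ≤ |R| + 1 := (hR x).trans ((le_abs_self R).trans (by linarith))
  have h6 : ‖z (φ n) - w‖ * ‖f x - a‖ < m := by
    calc ‖z (φ n) - w‖ * ‖f x - a‖ ≤ ‖z (φ n) - w‖ * (|R| + 1) :=
          mul_le_mul_of_nonneg_left h5 (norm_nonneg _)
      _ < m / (|R| + 1) * (|R| + 1) := mul_lt_mul_of_pos_right h4 hR0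
      _ = m := div_mul_cancel₀ _ hR0.ne'
  have h7 : 0 ≤ ⟪z (φ n), f x - a⟫_ℝ := hx
  linarith

/-- local constancy: along a connected set of functionals near whose half-spaces `t` is trivial,
the comparison with a trivialization away from the edge does not change -/
theorem kappa_const [CompactSpace M] (hf : Continuous f) (h0 : Conn0 f)
    {a b : EuclideanSpace ℝ (Fin N)} (ha : a ∈ range f)
    (hab : IsPreconnected {x | f x ∈ segment ℝ a b})
    {t : M → M → ZMod 2} {s σ : M → ZMod 2} (hs : Triv {x | f x ∉ segment ℝ a b} t s)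
    (hσ : Triv {x | f x ∈ segment ℝ a b} t σ)
    {Z : Set (EuclideanSpace ℝ (Fin N))} (hZ : IsPreconnected Z)
    (hZ1 : ∀ z ∈ Z, ⟪z, b - a⟫_ℝ = 0 ∧ (∃ x, 0 < ⟪z, f x - a⟫_ℝ) ∧
      Null {x | 0 ≤ ⟪z, f x - a⟫_ℝ} t) {k : ZMod 2} {z₀ : EuclideanSpace ℝ (Fin N)}
    (hz₀ : z₀ ∈ Z) {τ₀ : M → ZMod 2} (hτ₀ : Triv {x | 0 ≤ ⟪z₀, f x - a⟫_ℝ} t τ₀)
    (hτσ : ∀ x, f x ∈ segment ℝ a b → τ₀ x = σ x)
    (hk : ∀ x, 0 < ⟪z₀, f x - a⟫_ℝ → s x + τ₀ x = k) :
    ∀ z ∈ Z, ∀ τ : M → ZMod 2, Triv {x | 0 ≤ ⟪z, f x - a⟫_ℝ} t τ →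
      (∀ x, f x ∈ segment ℝ a b → τ x = σ x) → ∀ x, 0 < ⟪z, f x - a⟫_ℝ → s x + τ x = k := by
  classical
  have hΓ : ∀ z ∈ Z, ∀ x, f x ∈ segment ℝ a b → ⟪z, f x - a⟫_ℝ = 0 := by
    intro z hz x hx
    rw [segment_eq_image'] at hx
    obtain ⟨θ, _, hθ⟩ := hx
    have hθ' : a + θ • (b - a) = f x := hθ
    rw [← hθ', add_sub_cancel_left, inner_smul_right, (hZ1 z hz).1, mul_zero]
  obtain ⟨x0, hx0⟩ := ha
  have hx0Γ : f x0 ∈ segment ℝ a b := by rw [hx0]; exact left_mem_segment ℝ a b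
  have hHconn : ∀ z, IsPreconnected {x | 0 ≤ ⟪z, f x - a⟫_ℝ} := by
    intro z
    have : {x | 0 ≤ ⟪z, f x - a⟫_ℝ} = {x | ⟪z, a⟫_ℝ ≤ ⟪z, f x⟫_ℝ} := by
      ext x
      simp only [Set.mem_setOf_eq, inner_sub_right, sub_nonneg]
    rw [this]
    exact h0 z _
  have hCconn : ∀ z, IsPreconnected {x | 0 < ⟪z, f x - a⟫_ℝ} := by
    intro z
    have : {x | 0 < ⟪z, f x - a⟫_ℝ} = {x | ⟪z, a⟫_ℝ < ⟪z, f x⟫_ℝ} := by
      ext x
      simp only [Set.mem_setOf_eq, inner_sub_right, sub_pos]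
    rw [this]
    exact conn_open h0 z _
  have hconst : ∀ z ∈ Z, ∀ τ, Triv {x | 0 ≤ ⟪z, f x - a⟫_ℝ} t τ →
      ∃ c : ZMod 2, ∀ x, 0 < ⟪z, f x - a⟫_ℝ → s x + τ x = c := by
    intro z hz τ hτ
    obtain ⟨c, hc⟩ := triv_uniq (hCconn z)
      (hs.mono (fun x (hx : 0 < ⟪z, f x - a⟫_ℝ) h => by
        rw [hΓ z hz x h] at hx
        exact lt_irrefl _ hx))
      (hτ.mono (fun x (hx : 0 < ⟪z, f x - a⟫_ℝ) => le_of_lt hx))
    exact ⟨c, hc⟩
  let Q : EuclideanSpace ℝ (Fin N) → ZMod 2 → Prop := fun z c =>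
    ∃ τ : M → ZMod 2, Triv {x | 0 ≤ ⟪z, f x - a⟫_ℝ} t τ ∧
      (∀ x, f x ∈ segment ℝ a b → τ x = σ x) ∧ ∀ x, 0 < ⟪z, f x - a⟫_ℝ → s x + τ x = c
  have hexist : ∀ z ∈ Z, ∃ c, Q z c := by
    intro z hz
    obtain ⟨τ', hτ'⟩ := (hZ1 z hz).2.2
    obtain ⟨k', hk'⟩ := triv_uniq hab
      (hτ'.mono (fun x (hx : f x ∈ segment ℝ a b) => by
        change 0 ≤ ⟪z, f x - a⟫_ℝ
        rw [hΓ z hz x hx])) hσ
    have h1 := hτ'.add_const k'
    obtain ⟨c, hc⟩ := hconst z hz _ h1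
    refine ⟨c, _, h1, fun x hx => ?_, hc⟩
    have h2 := hk' x hx
    rw [← h2, ← add_assoc, CharTwo.add_self_eq_zero, zero_add]
  have huniq : ∀ z ∈ Z, ∀ τ₁ τ₂ : M → ZMod 2, Triv {x | 0 ≤ ⟪z, f x - a⟫_ℝ} t τ₁ →
      (∀ x, f x ∈ segment ℝ a b → τ₁ x = σ x) → Triv {x | 0 ≤ ⟪z, f x - a⟫_ℝ} t τ₂ →
      (∀ x, f x ∈ segment ℝ a b → τ₂ x = σ x) → ∀ x, 0 ≤ ⟪z, f x - a⟫_ℝ → τ₁ x = τ₂ x := by
    intro z hz τ₁ τ₂ h1 e1 h2 e2 x hx
    obtain ⟨c, hc⟩ := triv_uniq (hHconn z) h1 h2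
    have h00 := hc x0 (by
      change 0 ≤ ⟪z, f x0 - a⟫_ℝ
      rw [hΓ z hz x0 hx0Γ])
    rw [e1 x0 hx0Γ, e2 x0 hx0Γ, CharTwo.add_self_eq_zero] at h00
    have h3 := hc x hx
    rw [← h00] at h3
    exact CharTwo.add_eq_zero.mp h3
  have hQuniq : ∀ z ∈ Z, ∀ c c', Q z c → Q z c' → c = c' := by
    rintro z hz c c' ⟨τ₁, h1, e1, f1⟩ ⟨τ₂, h2, e2, f2⟩
    obtain ⟨x1, hx1⟩ := (hZ1 z hz).2.1
    rw [← f1 x1 hx1, ← f2 x1 hx1, huniq z hz τ₁ τ₂ h1 e1 h2 e2 x1 hx1.le]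
  have hloc : ∀ z ∈ Z, ∀ c, Q z c → ∀ᶠ z' in 𝓝[Z] z, Q z' c := by
    rintro z hz c ⟨τ, h1, h2, h3⟩
    obtain ⟨O, hO, hHO, hOt⟩ := triv_open h1
    obtain ⟨x1, hx1⟩ := (hZ1 z hz).2.1
    have hcont : Continuous (fun p : EuclideanSpace ℝ (Fin N) × M => ⟪p.1, f p.2 - a⟫_ℝ) := by
      fun_prop
    have e1 : ∀ᶠ z' in 𝓝 z, ∀ x ∈ Oᶜ, ⟪z', f x - a⟫_ℝ < 0 := by
      refine hO.isClosed_compl.isCompact.eventually_forall_of_forall_eventually (fun y hy => ?_)
      have h4 : ⟪z, f y - a⟫_ℝ < 0 := by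
        by_contra h
        exact hy (hHO (not_lt.mp h))
      exact (hcont.tendsto (z, y)).eventually (gt_mem_nhds h4)
    have e2 : ∀ᶠ z' in 𝓝 z, 0 < ⟪z', f x1 - a⟫_ℝ := by
      have hc1 : Continuous (fun z' : EuclideanSpace ℝ (Fin N) => ⟪z', f x1 - a⟫_ℝ) := by fun_prop
      exact (hc1.tendsto z).eventually (lt_mem_nhds hx1)
    filter_upwards [nhdsWithin_le_nhds e1, nhdsWithin_le_nhds e2, self_mem_nhdsWithin] with
      z' g1 g2 g3
    have hτ' : Triv {x | 0 ≤ ⟪z', f x - a⟫_ℝ} t τ := hOt.mono (fun x hx => by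
      by_contra h
      exact absurd (g1 x h) (not_lt.mpr hx))
    obtain ⟨c', hc'⟩ := hconst z' g3 τ hτ'
    have h5 : c' = c := (hc' x1 g2).symm.trans (h3 x1 hx1)
    exact ⟨τ, hτ', h2, fun x hx => (hc' x hx).trans h5⟩
  have hF : ContinuousOn (fun z => decide (Q z k)) Z := by
    intro z hz
    have h6 : ∀ᶠ z' in 𝓝[Z] z, decide (Q z' k) = decide (Q z k) := by
      obtain ⟨c, hc⟩ := hexist z hz
      by_cases hck : Q z k
      · filter_upwards [hloc z hz k hck] with z' h7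
        simp only [h7, hck]
      · have hne : c ≠ k := fun h => hck (h ▸ hc)
        filter_upwards [hloc z hz c hc, self_mem_nhdsWithin] with z' h7 h8
        have h9 : ¬ Q z' k := fun h => hne (hQuniq z' h8 c k h7 h)
        simp only [h9, hck]
    exact continuousWithinAt_const.congr_of_eventuallyEq h6 rfl
  intro z hz τ hτ hτs x hx
  have h10 : decide (Q z k) = decide (Q z₀ k) := hZ.constant hF hz hz₀
  have h11 : Q z₀ k := ⟨τ₀, hτ₀, hτσ, hk⟩
  have h12 : Q z k := by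
    rw [decide_eq_true h11] at h10
    exact of_decide_eq_true h10
  obtain ⟨τ₁, g1, g2, g3⟩ := h12
  rw [huniq z hz τ τ₁ hτ hτs g1 g2 x hx.le]
  exact g3 x hx

theorem seg_inner {a b q v : EuclideanSpace ℝ (Fin N)} (hv : ⟪v, b - a⟫_ℝ = 0)
    (hq : q ∈ segment ℝ a b) : ⟪v, q - a⟫_ℝ = 0 := by
  rw [segment_eq_image'] at hq
  obtain ⟨θ, -, rfl⟩ := hq
  rw [add_sub_cancel_left, inner_smul_right, hv, mul_zero]

theorem hul_inner_le {a z q : EuclideanSpace ℝ (Fin N)} (h : ∀ x, ⟪z, f x - a⟫_ℝ ≤ 0)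
    (hq : q ∈ Hul f) : ⟪z, q - a⟫_ℝ ≤ 0 := by
  have hc : Convex ℝ {q : EuclideanSpace ℝ (Fin N) | ⟪z, q⟫_ℝ ≤ ⟪z, a⟫_ℝ} := by
    have : IsLinearMap ℝ (fun q : EuclideanSpace ℝ (Fin N) => ⟪z, q⟫_ℝ) :=
      ⟨fun x y => inner_add_right _ _ _, fun c x => by rw [inner_smul_right]; rfl⟩
    exact convex_halfSpace_le this _
  have hsub : Hul f ⊆ {q : EuclideanSpace ℝ (Fin N) | ⟪z, q⟫_ℝ ≤ ⟪z, a⟫_ℝ} := by
    apply convexHull_min _ hc
    rintro _ ⟨x, rfl⟩
    have := h x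
    rw [inner_sub_right] at this
    simp only [mem_setOf_eq]
    linarith
  have := hsub hq
  simp only [mem_setOf_eq] at this
  rw [inner_sub_right]
  linarith

theorem int_inner_lt {a z o : EuclideanSpace ℝ (Fin N)} (h : ∀ x, ⟪z, f x - a⟫_ℝ ≤ 0)
    (hz : z ≠ 0) (ho : o ∈ interior (Hul f)) : ⟪z, o - a⟫_ℝ < 0 := by
  have hcont : Continuous fun η : ℝ => o + η • z := by fun_prop
  have h1 : (fun η : ℝ => o + η • z) ⁻¹' (interior (Hul f)) ∈ 𝓝 (0:ℝ) := by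
    apply hcont.continuousAt.preimage_mem_nhds
    simpa using isOpen_interior.mem_nhds ho
  obtain ⟨δ, hδ, hb⟩ := Metric.mem_nhds_iff.mp h1
  have h2 : (δ / 2) ∈ Metric.ball (0:ℝ) δ := by
    rw [Metric.mem_ball, dist_zero_right, Real.norm_of_nonneg (by positivity)]
    linarith
  have h3 := hul_inner_le h (interior_subset (hb h2))
  have h4 : o + (δ / 2) • z - a = (o - a) + (δ / 2) • z := by abel
  rw [h4, inner_add_right, inner_smul_right, real_inner_self_eq_norm_sq] at h3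
  have h5 : 0 < ‖z‖ := norm_pos_iff.mpr hz
  have h6 : 0 < δ / 2 * ‖z‖ ^ 2 := by positivity
  linarith

theorem side [CompactSpace M] (hf : Continuous f) (h0 : Conn0 f)
    {t : M → M → ZMod 2} {a b a' b' o : EuclideanSpace ℝ (Fin N)}
    (ho : o ∈ interior (Hul f)) {s s' : M → ZMod 2}
    (ha : a ∈ range f) (hab : IsPreconnected {x | f x ∈ segment ℝ a b})
    (hd : Disjoint (segment ℝ a b) (segment ℝ a' b'))
    (hs : Triv {x | f x ∉ segment ℝ a b} t s) (hs' : Triv {x | f x ∉ segment ℝ a' b'} t s')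
    {n w : EuclideanSpace ℝ (Fin N)} (hn1 : ⟪n, b - a⟫_ℝ = 0) (hw1 : ⟪w, b - a⟫_ℝ = 0)
    (hn2 : ∀ x, ⟪n, f x - a⟫_ℝ ≤ 0)
    (hn3 : ∀ x, f x ∈ segment ℝ a' b' → ⟪n, f x - a⟫_ℝ < 0)
    (hw3 : ∀ x, f x ∈ segment ℝ a' b' → ⟪w, f x - a⟫_ℝ = 0)
    {x1 x2 : M} (hx1 : 0 < ⟪w, f x1 - a⟫_ℝ) (hx2 : ⟪w, f x2 - a⟫_ℝ < 0)
    (hnx2 : ⟪n, f x2 - a⟫_ℝ < 0) {ε : ℝ} (hε : 0 < ε) :
    ∃ z : EuclideanSpace ℝ (Fin N), (⟪z, b - a⟫_ℝ = 0 ∧ ⟪z, o - a⟫_ℝ = -1 ∧
      (∃ x, 0 < ⟪z, f x - a⟫_ℝ) ∧ ∀ x, ⟪z, f x - a⟫_ℝ < ε) ∧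
      Triv {x | 0 ≤ ⟪z, f x - a⟫_ℝ} t s' ∧
      ∀ x, 0 < ⟪z, f x - a⟫_ℝ → s x + s' x = s x1 + s' x1 := by
  have hl : ∀ (r : ℝ) (v : EuclideanSpace ℝ (Fin N)),
      ⟪n + r • w, v⟫_ℝ = ⟪n, v⟫_ℝ + r * ⟪w, v⟫_ℝ := by
    intro r v
    rw [inner_add_left, real_inner_smul_left]
  set A : Set ℝ := {r | 0 ≤ r ∧ ∀ x, ⟪n, f x - a⟫_ℝ + r * ⟪w, f x - a⟫_ℝ ≤ 0} with hA
  have hA0 : (0:ℝ) ∈ A := ⟨le_rfl, fun x => by simpa using hn2 x⟩
  have hub : ∀ x, 0 < ⟪w, f x - a⟫_ℝ → ∀ r ∈ A, r ≤ -⟪n, f x - a⟫_ℝ / ⟪w, f x - a⟫_ℝ := by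
    intro x hx r hr
    rw [le_div_iff₀ hx]
    have := hr.2 x
    linarith
  have hbdd : BddAbove A := ⟨_, fun r hr => hub x1 hx1 r hr⟩
  set tp := sSup A with htp
  have htp0 : 0 ≤ tp := le_csSup hbdd hA0
  have htpA : ∀ x, ⟪n, f x - a⟫_ℝ + tp * ⟪w, f x - a⟫_ℝ ≤ 0 := by
    intro x
    rcases le_or_gt (⟪w, f x - a⟫_ℝ) 0 with h | h
    · have := hn2 x
      nlinarith
    · have h2 : tp ≤ -⟪n, f x - a⟫_ℝ / ⟪w, f x - a⟫_ℝ := csSup_le ⟨0, hA0⟩ (hub x h)
      rw [le_div_iff₀ h] at h2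
      linarith
  have hgt : ∀ r, tp < r → ∃ x, 0 < ⟪n + r • w, f x - a⟫_ℝ := by
    intro r hr
    by_contra hcon
    push Not at hcon
    have : r ∈ A := ⟨htp0.trans hr.le, fun x => by rw [← hl]; exact hcon x⟩
    have := le_csSup hbdd this
    linarith
  have htriv : ∀ r : ℝ, Triv {x | 0 ≤ ⟪n + r • w, f x - a⟫_ℝ} t s' := by
    intro r
    refine hs'.mono fun x hx hmem => ?_
    simp only [mem_setOf_eq] at hx
    rw [hl, hw3 x hmem, mul_zero, add_zero] at hx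
    exact absurd (hn3 x hmem) (not_lt.mpr hx)
  have hσ : Triv {x | f x ∈ segment ℝ a b} t s' := by
    refine hs'.mono fun x hx hmem => ?_
    exact Set.disjoint_left.mp hd hx hmem
  have hb0 : ∀ r : ℝ, ⟪n + r • w, b - a⟫_ℝ = 0 := fun r => by rw [hl, hn1, hw1]; ring
  have hZ : IsPreconnected ((fun r : ℝ => n + r • w) '' Ioi tp) := by
    apply isPreconnected_Ioi.image
    fun_prop
  have hZ1 : ∀ z ∈ ((fun r : ℝ => n + r • w) '' Ioi tp), ⟪z, b - a⟫_ℝ = 0 ∧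
      (∃ x, 0 < ⟪z, f x - a⟫_ℝ) ∧ Null {x | 0 ≤ ⟪z, f x - a⟫_ℝ} t := by
    rintro _ ⟨r, hr, rfl⟩
    exact ⟨hb0 r, hgt r hr, s', htriv r⟩
  have hz0 : n + (tp + 1) • w ∈ ((fun r : ℝ => n + r • w) '' Ioi tp) :=
    ⟨tp + 1, by simp, rfl⟩
  have hconn : IsPreconnected {x | 0 < ⟪n + (tp + 1) • w, f x - a⟫_ℝ} := by
    have := conn_open h0 (n + (tp + 1) • w) (⟪n + (tp + 1) • w, a⟫_ℝ)
    convert this using 2
    funext x
    rw [inner_sub_right, sub_pos]
  have hts : Triv {x | 0 < ⟪n + (tp + 1) • w, f x - a⟫_ℝ} t s := by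
    refine hs.mono fun x hx hmem => ?_
    simp only [mem_setOf_eq] at hx
    rw [seg_inner (hb0 _) hmem] at hx
    exact lt_irrefl _ hx
  have hts' : Triv {x | 0 < ⟪n + (tp + 1) • w, f x - a⟫_ℝ} t s' :=
    (htriv (tp + 1)).mono fun x hx => by
      simp only [mem_setOf_eq] at hx ⊢
      exact hx.le
  obtain ⟨k, hk⟩ := triv_uniq hconn hts hts'
  have kc := kappa_const hf h0 ha hab hs hσ hZ hZ1 hz0 (htriv (tp + 1)) (fun x _ => rfl)
    (k := k) (fun x hx => hk x hx)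
  have hkr : ∀ r, tp < r → ∀ x, 0 < ⟪n + r • w, f x - a⟫_ℝ → s x + s' x = k := by
    intro r hr x hx
    exact kc (n + r • w) ⟨r, hr, rfl⟩ s' (htriv r) (fun x _ => rfl) x hx
  have hkx1 : s x1 + s' x1 = k := by
    set R : ℝ := max (tp + 1) (-⟪n, f x1 - a⟫_ℝ / ⟪w, f x1 - a⟫_ℝ + 1) with hR
    have h1 : tp < R := lt_of_lt_of_le (by linarith) (le_max_left _ _)
    have h2 : -⟪n, f x1 - a⟫_ℝ / ⟪w, f x1 - a⟫_ℝ < R :=
      lt_of_lt_of_le (by linarith) (le_max_right _ _)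
    rw [div_lt_iff₀ hx1] at h2
    refine hkr R h1 x1 ?_
    rw [hl]
    linarith
  -- the functional at `tp`
  have hne : n + tp • w ≠ 0 := by
    intro h
    have h1 : ⟪n + tp • w, f x2 - a⟫_ℝ = 0 := by rw [h, inner_zero_left]
    rw [hl] at h1
    have : tp * ⟪w, f x2 - a⟫_ℝ ≤ 0 := mul_nonpos_of_nonneg_of_nonpos htp0 hx2.le
    linarith
  have hc0 : 0 < -⟪n + tp • w, o - a⟫_ℝ := by
    have := int_inner_lt (f := f) (a := a) (fun x => by rw [hl]; exact htpA x) hne ho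
    linarith
  set c0 := -⟪n + tp • w, o - a⟫_ℝ with hc0d
  obtain ⟨W, hWpos, hW1, hW2⟩ : ∃ W : ℝ, 0 < W ∧ (∀ x, ⟪w, f x - a⟫_ℝ ≤ W) ∧
      ⟪w, o - a⟫_ℝ ≤ W := by
    have hcont : Continuous fun x => ⟪w, f x - a⟫_ℝ := by fun_prop
    obtain ⟨C, hC⟩ := (isCompact_range hcont).bddAbove
    refine ⟨max (max C (⟪w, o - a⟫_ℝ)) 1, by positivity, fun x => ?_, ?_⟩
    · exact (hC ⟨x, rfl⟩).trans ((le_max_left _ _).trans (le_max_left _ _))
    · exact (le_max_right _ _).trans (le_max_left _ _)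
  set δ : ℝ := min (c0 / (2 * W)) (ε * c0 / (4 * W)) with hδ
  have hδ0 : 0 < δ := by positivity
  have hδ1 : δ * W ≤ c0 / 2 := by
    have h1 : δ ≤ c0 / (2 * W) := min_le_left _ _
    calc δ * W ≤ c0 / (2 * W) * W := mul_le_mul_of_nonneg_right h1 hWpos.le
      _ = c0 / 2 := by field_simp
  have hδ2 : δ * W ≤ ε * c0 / 4 := by
    have h1 : δ ≤ ε * c0 / (4 * W) := min_le_right _ _
    calc δ * W ≤ ε * c0 / (4 * W) * W := mul_le_mul_of_nonneg_right h1 hWpos.le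
      _ = ε * c0 / 4 := by field_simp
  set r : ℝ := tp + δ with hr
  have hrt : tp < r := by linarith
  set c : ℝ := -⟪n + r • w, o - a⟫_ℝ with hc
  have hcc : c0 / 2 ≤ c := by
    have h1 : c = c0 - δ * ⟪w, o - a⟫_ℝ := by
      rw [hc, hc0d, hl, hl, hr]
      ring
    have h2 : δ * ⟪w, o - a⟫_ℝ ≤ δ * W := mul_le_mul_of_nonneg_left hW2 hδ0.le
    rw [h1]
    linarith
  have hcpos : 0 < c := by linarith
  have hsc : ∀ v, ⟪c⁻¹ • (n + r • w), v⟫_ℝ = c⁻¹ * ⟪n + r • w, v⟫_ℝ := fun v => by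
    rw [real_inner_smul_left]
  refine ⟨c⁻¹ • (n + r • w), ⟨?_, ?_, ?_, ?_⟩, ?_, ?_⟩
  · rw [hsc, hb0, mul_zero]
  · rw [hsc]
    have : ⟪n + r • w, o - a⟫_ℝ = -c := by rw [hc, neg_neg]
    rw [this]
    field_simp
  · obtain ⟨x, hx⟩ := hgt r hrt
    exact ⟨x, by rw [hsc]; positivity⟩
  · intro x
    rw [hsc, inv_mul_lt_iff₀ hcpos, hl]
    have h1 := htpA x
    have h2 : δ * ⟪w, f x - a⟫_ℝ ≤ δ * W := mul_le_mul_of_nonneg_left (hW1 x) hδ0.le
    have h3 : ⟪n, f x - a⟫_ℝ + r * ⟪w, f x - a⟫_ℝ =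
      (⟪n, f x - a⟫_ℝ + tp * ⟪w, f x - a⟫_ℝ) + δ * ⟪w, f x - a⟫_ℝ := by rw [hr]; ring
    rw [h3]
    have h4 : ε * (c0 / 2) ≤ ε * c := mul_le_mul_of_nonneg_left hcc hε.le
    have h5 : 0 < ε * c0 := by positivity
    nlinarith
  · refine (htriv r).mono fun x hx => ?_
    simp only [mem_setOf_eq] at hx ⊢
    rw [hsc] at hx
    by_contra hcon
    push Not at hcon
    have : c⁻¹ * ⟪n + r • w, f x - a⟫_ℝ < 0 := mul_neg_of_pos_of_neg (by positivity) hcon
    linarith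
  · intro x hx
    rw [hkx1]
    refine hkr r hrt x ?_
    rw [hsc] at hx
    by_contra hcon
    push Not at hcon
    have : c⁻¹ * ⟪n + r • w, f x - a⟫_ℝ ≤ 0 := mul_nonpos_of_nonneg_of_nonpos (by positivity) hcon
    linarith

theorem hul_int [Nonempty M]
    (hsub : ∀ (z : EuclideanSpace ℝ (Fin N)) (c : ℝ), z ≠ 0 → ∃ x, ⟪z, f x⟫_ℝ ≠ c) :
    (interior (Hul f)).Nonempty := by
  unfold Hul
  rw [interior_convexHull_nonempty_iff_affineSpan_eq_top]
  by_contra hcon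
  obtain ⟨x0⟩ := (inferInstance : Nonempty M)
  have h1 : (affineSpan ℝ (range f)).direction ≠ ⊤ := by
    intro h
    apply hcon
    rw [AffineSubspace.direction_eq_top_iff_of_nonempty] at h
    · exact h
    · exact ⟨f x0, subset_affineSpan _ _ ⟨x0, rfl⟩⟩
  have h2 : ((affineSpan ℝ (range f)).direction)ᗮ ≠ ⊥ := by
    intro h
    exact h1 (Submodule.orthogonal_eq_bot_iff.mp h)
  obtain ⟨z, hz, hz0⟩ := Submodule.exists_mem_ne_zero_of_ne_bot h2
  obtain ⟨x, hx⟩ := hsub z (⟪z, f x0⟫_ℝ) hz0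
  apply hx
  have h3 : f x - f x0 ∈ (affineSpan ℝ (range f)).direction := by
    apply AffineSubspace.vsub_mem_direction
    · exact subset_affineSpan _ _ ⟨x, rfl⟩
    · exact subset_affineSpan _ _ ⟨x0, rfl⟩
  have h4 := (Submodule.mem_orthogonal' _ _).mp hz _ h3
  rw [inner_sub_right] at h4
  linarith

/-- in a bad pair of disjoint edges some face containing the first edge carries the class -/
theorem kappa [CompactSpace M] [T2Space M] [ConnectedSpace M] (S : Setup f) (hN : N = 4)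
    {t : M → M → ZMod 2} {a b a' b' : EuclideanSpace ℝ (Fin N)} (he : Edge f a b)
    (hd : Disjoint (segment ℝ a b) (segment ℝ a' b')) (he' : Edge f a' b')
    {s s' : M → ZMod 2}
    (hs : Triv {x | f x ∉ segment ℝ a b} t s) (hs' : Triv {x | f x ∉ segment ℝ a' b'} t s')
    {w : EuclideanSpace ℝ (Fin N)} {β : ℝ} (wa : ⟪w, a⟫_ℝ = β) (wb : ⟪w, b⟫_ℝ = β)
    (wa' : ⟪w, a'⟫_ℝ = β) (wb' : ⟪w, b'⟫_ℝ = β)
    (hx1 : ∃ x, β < ⟪w, f x⟫_ℝ) (hx2 : ∃ x, ⟪w, f x⟫_ℝ < β)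
    (hne : ∀ x x', β < ⟪w, f x⟫_ℝ → ⟪w, f x'⟫_ℝ < β → s x + s' x ≠ s x' + s' x') :
    ∃ z : EuclideanSpace ℝ (Fin N), z ≠ 0 ∧ ⟪z, b - a⟫_ℝ = 0 ∧ (∀ x, ⟪z, f x - a⟫_ℝ ≤ 0) ∧
      ¬ Null {x | 0 ≤ ⟪z, f x - a⟫_ℝ} t := by
  by_contra hcon
  push Not at hcon
  obtain ⟨x1, hx1⟩ := hx1
  obtain ⟨x2, hx2⟩ := hx2
  have hf := S.cont
  obtain ⟨n, m, na, nb, hn1, hn2, hn3⟩ := edge_fun he
  obtain ⟨o, ho⟩ := hul_int (f := f) S.sub
  have hw1 : ⟪w, b - a⟫_ℝ = 0 := by rw [inner_sub_right, wa, wb, sub_self]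
  have hnb : ⟪n, b - a⟫_ℝ = 0 := by rw [inner_sub_right, na, nb, sub_self]
  have hnle : ∀ x, ⟪n, f x - a⟫_ℝ ≤ 0 := fun x => by
    rw [inner_sub_right, na]
    linarith [hn1 x]
  have hnlt : ∀ x, f x ∉ segment ℝ a b → ⟪n, f x - a⟫_ℝ < 0 := fun x hx => by
    rw [inner_sub_right, na]
    have h1 := hn1 x
    have h2 : ⟪n, f x⟫_ℝ ≠ m := fun h => hx ((hn2 x).mp h)
    have := lt_of_le_of_ne h1 h2
    linarith
  have hwx1 : 0 < ⟪w, f x1 - a⟫_ℝ := by rw [inner_sub_right, wa]; linarith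
  have hwx2 : ⟪w, f x2 - a⟫_ℝ < 0 := by rw [inner_sub_right, wa]; linarith
  have hx1s : f x1 ∉ segment ℝ a b := fun h => by
    have := seg_inner hw1 h
    linarith
  have hx2s : f x2 ∉ segment ℝ a b := fun h => by
    have := seg_inner hw1 h
    linarith
  have hn0 : n ≠ 0 := by
    rintro rfl
    have := hnlt x1 hx1s
    rw [inner_zero_left] at this
    exact lt_irrefl _ this
  have hn3' : ∀ x, f x ∈ segment ℝ a' b' → ⟪n, f x - a⟫_ℝ < 0 := fun x hx =>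
    hnlt x (fun h => Set.disjoint_left.mp hd h hx)
  have hw3 : ∀ x, f x ∈ segment ℝ a' b' → ⟪w, f x - a⟫_ℝ = 0 := fun x hx => by
    have h1 : ⟪w, b' - a'⟫_ℝ = 0 := by rw [inner_sub_right, wa', wb', sub_self]
    have h2 := seg_inner h1 hx
    rw [inner_sub_right] at h2 ⊢
    linarith
  have har : a ∈ range f := by
    obtain ⟨y, hy⟩ := edge_surj hf S.conn he (left_mem_segment ℝ a b)
    exact ⟨y, hy⟩
  have hab := edge_conn S.conn he
  have haH : a ∈ Hul f := (edge_ext he).1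
  have hbH : b ∈ Hul f := (edge_ext he.symm).1
  obtain ⟨ε, hε, hnull⟩ := near_null hf ho (t := t) (a := a) (b := b)
    (fun z hz h1 h2 => hcon z hz h1 h2)
  have hG := near_support_conn hf (by omega) haH hbH ho ⟨n, hn0, hnb, hnle⟩ hε
  obtain ⟨z, hz, hzt, hzk⟩ := side hf S.conn ho har hab hd hs hs' hnb hw1 hnle hn3' hw3
    hwx1 hwx2 (hnlt x2 hx2s) hε
  have hnw : ∀ v, ⟪-w, v⟫_ℝ = -⟪w, v⟫_ℝ := fun v => inner_neg_left _ _
  obtain ⟨z', hz', hzt', hzk'⟩ := side hf S.conn ho har hab hd hs hs' (n := n) (w := -w) hnb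
    (by rw [hnw, hw1, neg_zero]) hnle hn3' (fun x hx => by rw [hnw, hw3 x hx, neg_zero])
    (x1 := x2) (x2 := x1) (by rw [hnw]; linarith) (by rw [hnw]; linarith) (hnlt x1 hx1s) hε
  have hσ : Triv {x | f x ∈ segment ℝ a b} t s' :=
    hs'.mono fun x hx hmem => Set.disjoint_left.mp hd hx hmem
  have kc := kappa_const hf S.conn har hab hs hσ hG
    (fun z hz => ⟨hz.1, hz.2.2.1, hnull z hz.1 hz.2.1 hz.2.2.2⟩) hz hzt (fun x _ => rfl)
    (k := s x1 + s' x1) hzk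
  obtain ⟨y, hy⟩ := hz'.2.2.1
  have h1 := kc z' hz' s' hzt' (fun x _ => rfl) y hy
  have h2 := hzk' y hy
  exact hne x1 x2 hx1 hx2 (h1.symm.trans h2)

theorem lf_indep {V : Type*} [AddCommGroup V] [Module ℝ V] {A : Set V} {p : Fin 3 → V}
    (hp : ∀ l, p l ∈ extremePoints ℝ A) (hpi : Function.Injective p) :
    LinearIndependent ℝ ![p 1 - p 0, p 2 - p 0] := by
  have h10 : p 1 ≠ p 0 := fun h => absurd (hpi h) (by decide)
  have h20 : p 2 ≠ p 0 := fun h => absurd (hpi h) (by decide)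
  have h21 : p 2 ≠ p 1 := fun h => absurd (hpi h) (by decide)
  rw [LinearIndependent.pair_iff' (sub_ne_zero.2 h10)]
  intro t ht
  have e2 : p 2 = p 0 + t • (p 1 - p 0) := by rw [ht]; abel
  have ht0 : t ≠ 0 := by
    intro h
    rw [h, zero_smul, add_zero] at e2
    exact h20 e2
  have ht1 : t ≠ 1 := by
    intro h
    rw [h, one_smul] at e2
    exact h21 (by rw [e2]; abel)
  rcases lt_trichotomy t 0 with hneg | hz | hpos
  · -- p 0 between p 1 and p 2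
    have hpos1 : 0 < 1 - t := by linarith
    have h3 : p 0 ∈ openSegment ℝ (p 1) (p 2) := by
      refine ⟨(-t) / (1 - t), 1 / (1 - t), div_pos (by linarith) hpos1, by positivity, ?_, ?_⟩
      · field_simp
        ring
      · rw [e2]
        have h4 : (-t / (1 - t)) • p 1 + (1 / (1 - t)) • (p 0 + t • (p 1 - p 0)) =
            ((-t / (1 - t)) + (1 / (1 - t)) * t) • p 1 + ((1 / (1 - t)) * (1 - t)) • p 0 := by
          module
        rw [h4]
        have h5 : (-t / (1 - t)) + (1 / (1 - t)) * t = 0 := by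
          field_simp
          ring
        have h6 : (1 / (1 - t)) * (1 - t) = 1 := by
          field_simp
        rw [h5, h6, zero_smul, one_smul, zero_add]
    exact h10 ((hp 0).2 (hp 1).1 (hp 2).1 h3)
  · exact ht0 hz
  · rcases lt_or_ge t 1 with hlt | hge
    · have h3 : p 2 ∈ openSegment ℝ (p 0) (p 1) := by
        refine ⟨1 - t, t, by linarith, hpos, by ring, ?_⟩
        rw [e2]
        module
      exact h20 ((hp 2).2 (hp 0).1 (hp 1).1 h3).symm
    · have hgt : 1 < t := lt_of_le_of_ne hge (Ne.symm ht1)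
      have h3 : p 1 ∈ openSegment ℝ (p 0) (p 2) := by
        refine ⟨1 - 1 / t, 1 / t, ?_, by positivity, by ring, ?_⟩
        · rw [sub_pos, div_lt_one hpos]
          exact hgt
        · rw [e2]
          have h4 : (1 - 1 / t) • p 0 + (1 / t) • (p 0 + t • (p 1 - p 0)) =
              (1 - (1 / t) * t) • p 0 + ((1 / t) * t) • p 1 := by
            module
          have h6 : (1 / t) * t = 1 := by
            field_simp
          rw [h4, h6, sub_self, zero_smul, one_smul, zero_add]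
      exact h10 ((hp 1).2 (hp 0).1 (hp 2).1 h3).symm

theorem lf_sign {V : Type*} [NormedAddCommGroup V] [InnerProductSpace ℝ V] {A : Set V}
    {a b z : Fin 3 → V} {p0 : V}
    (ha : ∀ i, a i ∈ A) (hb : ∀ i, b i ∈ A) (hz : ∀ i, z i ≠ 0)
    (hza : ∀ i, ⟪z i, a i - p0⟫_ℝ = 0) (hzb : ∀ i, ⟪z i, b i - p0⟫_ℝ = 0)
    (hle : ∀ i, ∀ r ∈ A, ⟪z i, r - p0⟫_ℝ ≤ 0)
    (hbad : ∀ i j, i ≠ j → ¬ (⟪z i, a j - p0⟫_ℝ = 0 ∧ ⟪z i, b j - p0⟫_ℝ = 0))
    (c : Fin 3 → ℝ) (hc : ∑ i, c i • z i = 0) (hc0 : ∃ i, c i ≠ 0)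
    (k : Fin 3) (hk : ∀ j, j ≠ k → 0 ≤ c j) : False := by
  obtain ⟨i, hik, hi⟩ : ∃ i, i ≠ k ∧ 0 < c i := by
    by_contra hcon
    push Not at hcon
    have h0 : ∀ j, j ≠ k → c j = 0 := fun j hj => le_antisymm (hcon j hj) (hk j hj)
    rw [Finset.sum_eq_single k (fun j _ hj => by rw [h0 j hj, zero_smul])
      (fun h => absurd (Finset.mem_univ k) h)] at hc
    have hck : c k = 0 := by
      rcases smul_eq_zero.1 hc with h | h
      · exact h
      · exact absurd h (hz k)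
    obtain ⟨j, hj⟩ := hc0
    by_cases hjk : j = k
    · rw [hjk] at hj
      exact hj hck
    · exact hj (h0 j hjk)
  have hev : ∀ r ∈ A, ⟪z k, r - p0⟫_ℝ = 0 → ⟪z i, r - p0⟫_ℝ = 0 := by
    intro r hr hkr
    have h1 : ∑ j, c j * ⟪z j, r - p0⟫_ℝ = 0 := by
      have h2 : ⟪∑ j, c j • z j, r - p0⟫_ℝ = 0 := by rw [hc, inner_zero_left]
      rw [sum_inner] at h2
      simpa only [real_inner_smul_left] using h2
    have h3 : ∀ j ∈ Finset.univ, c j * ⟪z j, r - p0⟫_ℝ ≤ 0 := by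
      intro j _
      by_cases hjk : j = k
      · rw [hjk, hkr, mul_zero]
      · exact mul_nonpos_of_nonneg_of_nonpos (hk j hjk) (hle j r hr)
    have h4 := (Finset.sum_eq_zero_iff_of_nonpos h3).1 h1 i (Finset.mem_univ i)
    rcases mul_eq_zero.1 h4 with h5 | h5
    · exact absurd h5 hi.ne'
    · exact h5
  exact hbad i k hik ⟨hev _ (ha k) (hza k), hev _ (hb k) (hzb k)⟩

/-- the linear algebra in dimension four -/
theorem lin_four [CompactSpace M] (S : Setup f) (hN : N = 4)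
    {a b z p : Fin 3 → EuclideanSpace ℝ (Fin N)}
    (hp : ∀ l, p l ∈ extremePoints ℝ (Hul f)) (hpi : Function.Injective p)
    (ha : ∀ i, a i ∈ Hul f) (hb : ∀ i, b i ∈ Hul f) (hz : ∀ i, z i ≠ 0)
    (hzb : ∀ i, ⟪z i, b i - a i⟫_ℝ = 0) (hsup : ∀ i x, ⟪z i, f x - a i⟫_ℝ ≤ 0)
    (hzp : ∀ i l, ⟪z i, p l - a i⟫_ℝ = 0)
    (hbad : ∀ i j, i ≠ j → ¬ (⟪z i, a j - a i⟫_ℝ = 0 ∧ ⟪z i, b j - a i⟫_ℝ = 0)) : False := by
  subst hN
  have hsub : ∀ i r, ⟪z i, r - a i⟫_ℝ = ⟪z i, r - p 0⟫_ℝ := by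
    intro i r
    have h1 := hzp i 0
    have h2 : r - a i = (r - p 0) + (p 0 - a i) := by abel
    rw [h2, inner_add_right, h1, add_zero]
  have hle : ∀ i, ∀ r ∈ Hul f, ⟪z i, r - p 0⟫_ℝ ≤ 0 := by
    intro i r hr
    have hconv : Convex ℝ {r : EuclideanSpace ℝ (Fin 4) | ⟪z i, r - p 0⟫_ℝ ≤ 0} := by
      intro u hu v hv s t hs ht hst
      have hu' : ⟪z i, u - p 0⟫_ℝ ≤ 0 := hu
      have hv' : ⟪z i, v - p 0⟫_ℝ ≤ 0 := hv
      show ⟪z i, (s • u + t • v) - p 0⟫_ℝ ≤ 0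
      have h1 : (s • u + t • v) - p 0 = s • (u - p 0) + t • (v - p 0) := by
        have h2 : p 0 = s • p 0 + t • p 0 := by rw [← add_smul, hst, one_smul]
        conv_lhs => rw [h2]
        rw [smul_sub, smul_sub]
        abel
      rw [h1, inner_add_right, real_inner_smul_right, real_inner_smul_right]
      have h3 := mul_nonpos_of_nonneg_of_nonpos hs hu'
      have h4 := mul_nonpos_of_nonneg_of_nonpos ht hv'
      linarith
    have hsubs : Hul f ⊆ {r : EuclideanSpace ℝ (Fin 4) | ⟪z i, r - p 0⟫_ℝ ≤ 0} := by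
      apply convexHull_min _ hconv
      rintro _ ⟨x, rfl⟩
      show ⟪z i, f x - p 0⟫_ℝ ≤ 0
      rw [← hsub]
      exact hsup i x
    exact hsubs hr
  have hza : ∀ i, ⟪z i, a i - p 0⟫_ℝ = 0 := by
    intro i
    rw [← hsub, sub_self, inner_zero_right]
  have hzb' : ∀ i, ⟪z i, b i - p 0⟫_ℝ = 0 := by
    intro i
    rw [← hsub]
    exact hzb i
  have hbad' : ∀ i j, i ≠ j → ¬ (⟪z i, a j - p 0⟫_ℝ = 0 ∧ ⟪z i, b j - p 0⟫_ℝ = 0) := by
    intro i j hij
    rw [← hsub, ← hsub]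
    exact hbad i j hij
  -- linear dependence
  have hind := lf_indep hp hpi
  set W : Submodule ℝ (EuclideanSpace ℝ (Fin 4)) :=
    Submodule.span ℝ (Set.range ![p 1 - p 0, p 2 - p 0]) with hW
  have hWr : Module.finrank ℝ W = 2 := by
    rw [hW, finrank_span_eq_card hind, Fintype.card_fin]
  have hWo : Module.finrank ℝ Wᗮ = 2 := by
    have h1 := Submodule.finrank_add_finrank_orthogonal W
    rw [hWr, finrank_euclideanSpace_fin] at h1
    omega
  have hzW : ∀ i, z i ∈ Wᗮ := by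
    intro i
    rw [Submodule.mem_orthogonal']
    intro u hu
    rw [hW] at hu
    induction hu using Submodule.span_induction with
    | mem x hx =>
      obtain ⟨l, rfl⟩ := hx
      fin_cases l
      · show ⟪z i, p 1 - p 0⟫_ℝ = 0
        rw [← hsub]
        exact hzp i 1
      · show ⟪z i, p 2 - p 0⟫_ℝ = 0
        rw [← hsub]
        exact hzp i 2
    | zero => rw [inner_zero_right]
    | add x y _ _ hx hy => rw [inner_add_right, hx, hy, add_zero]
    | smul t x _ hx => rw [real_inner_smul_right, hx, mul_zero]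
  have hdep : ¬ LinearIndependent ℝ (fun i : Fin 3 => (⟨z i, hzW i⟩ : Wᗮ)) := by
    intro h
    have h1 := h.fintype_card_le_finrank
    rw [hWo, Fintype.card_fin] at h1
    omega
  obtain ⟨c, hc, hc0⟩ := Fintype.not_linearIndependent_iff.1 hdep
  have hc' : ∑ i, c i • z i = 0 := by
    have h1 := congrArg (Submodule.subtype Wᗮ) hc
    rw [map_sum, map_zero] at h1
    simpa using h1
  -- two of the coefficients have the same sign
  have hpig : (∃ k : Fin 3, ∀ j, j ≠ k → 0 ≤ c j) ∨ (∃ k : Fin 3, ∀ j, j ≠ k → 0 ≤ -c j) := by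
    rcases le_total 0 (c 0) with h0 | h0 <;> rcases le_total 0 (c 1) with h1 | h1 <;>
      rcases le_total 0 (c 2) with h2 | h2
    · exact Or.inl ⟨0, fun j _ => by fin_cases j <;> assumption⟩
    · exact Or.inl ⟨2, fun j hj => by
        fin_cases j
        · exact h0
        · exact h1
        · exact absurd rfl hj⟩
    · exact Or.inl ⟨1, fun j hj => by
        fin_cases j
        · exact h0
        · exact absurd rfl hj
        · exact h2⟩
    · exact Or.inr ⟨0, fun j hj => by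
        fin_cases j
        · exact absurd rfl hj
        · exact neg_nonneg.2 h1
        · exact neg_nonneg.2 h2⟩
    · exact Or.inl ⟨0, fun j hj => by
        fin_cases j
        · exact absurd rfl hj
        · exact h1
        · exact h2⟩
    · exact Or.inr ⟨1, fun j hj => by
        fin_cases j
        · exact neg_nonneg.2 h0
        · exact absurd rfl hj
        · exact neg_nonneg.2 h2⟩
    · exact Or.inr ⟨2, fun j hj => by
        fin_cases j
        · exact neg_nonneg.2 h0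
        · exact neg_nonneg.2 h1
        · exact absurd rfl hj⟩
    · exact Or.inr ⟨0, fun j hj => by
        fin_cases j
        · exact neg_nonneg.2 h0
        · exact neg_nonneg.2 h1
        · exact neg_nonneg.2 h2⟩
  rcases hpig with ⟨k, hk⟩ | ⟨k, hk⟩
  · exact lf_sign ha hb hz hza hzb' hle hbad' c hc' hc0 k hk
  · refine lf_sign ha hb hz hza hzb' hle hbad' (fun i => -c i) ?_ ?_ k hk
    · simp only [neg_smul, Finset.sum_neg_distrib, hc', neg_zero]
    · obtain ⟨i, hi⟩ := hc0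
      exact ⟨i, neg_ne_zero.2 hi⟩

/-- Ramsey: a triangle-free relation on the naturals has an infinite independent set -/
theorem ramsey_tri (G : ℕ → ℕ → Prop) (hsymm : ∀ i j, G i j → G j i)
    (htri : ∀ i j k, i ≠ j → i ≠ k → j ≠ k → ¬ (G i j ∧ G i k ∧ G j k)) :
    ∃ g : ℕ → ℕ, StrictMono g ∧ ∀ i j, i ≠ j → ¬ G (g i) (g j) := by
  classical
  by_cases hinf : ∃ v, {u | G v u ∧ u ≠ v}.Infinite
  · obtain ⟨v, hv⟩ := hinf
    refine ⟨Nat.nth (fun u => G v u ∧ u ≠ v), Nat.nth_strictMono hv, ?_⟩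
    intro i j hij hG
    have hi := Nat.nth_mem_of_infinite hv i
    have hj := Nat.nth_mem_of_infinite hv j
    have hne := (Nat.nth_strictMono hv).injective.ne hij
    exact htri v _ _ (Ne.symm hi.2) (Ne.symm hj.2) hne ⟨hi.1, hj.1, hG⟩
  · have hB : ∀ v, ∃ B : ℕ, ∀ u, G v u → u ≠ v → u ≤ B := by
      intro v
      have hfin : {u | G v u ∧ u ≠ v}.Finite := by
        by_contra h
        exact hinf ⟨v, h⟩
      obtain ⟨B, hB⟩ := hfin.bddAbove
      exact ⟨B, fun u h1 h2 => hB ⟨h1, h2⟩⟩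
    choose B hB using hB
    obtain ⟨C, hC⟩ : ∃ C : ℕ → ℕ, C = fun v => max (B v) v + 1 := ⟨_, rfl⟩
    have hC1 : ∀ v, v < C v := by
      intro v
      rw [hC]
      exact Nat.lt_succ_of_le (le_max_right _ _)
    have hC2 : ∀ v, B v < C v := by
      intro v
      rw [hC]
      exact Nat.lt_succ_of_le (le_max_left _ _)
    have hmono : StrictMono (fun n => C^[n] 0) := by
      apply strictMono_nat_of_lt_succ
      intro n
      simp only [Function.iterate_succ_apply']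
      exact hC1 _
    have key : ∀ i j, i < j → ¬ G (C^[i] 0) (C^[j] 0) := by
      intro i j hij hG
      have h1 : C^[i + 1] 0 ≤ C^[j] 0 := hmono.monotone hij
      rw [Function.iterate_succ_apply'] at h1
      have h2 : C^[j] 0 ≠ C^[i] 0 := by
        have := hmono hij
        simp only at this
        exact this.ne'
      have h3 := hB _ _ hG h2
      have h4 := hC2 (C^[i] 0)
      omega
    refine ⟨fun n => C^[n] 0, hmono, ?_⟩
    intro i j hij hG
    rcases lt_or_gt_of_ne hij with h | h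
    · exact key i j h hG
    · exact key j i h (hsymm _ _ hG)

/-- no infinite family of pairwise disjoint, pairwise bad edges with the same class -/
theorem no_bad_family [CompactSpace M] [T2Space M] [ConnectedSpace M] (S : Setup f) (hN : N = 4)
    {t : M → M → ZMod 2} {a b : ℕ → EuclideanSpace ℝ (Fin N)} (he : ∀ i, Edge f (a i) (b i))
    (ht : ∀ i, Null {x | f x ∉ segment ℝ (a i) (b i)} t)
    (hd : ∀ i j, i ≠ j → Disjoint (segment ℝ (a i) (b i)) (segment ℝ (a j) (b j)))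
    (hbad : ∀ i j, i ≠ j → ¬ Good f t (segment ℝ (a i) (b i)) (segment ℝ (a j) (b j))) :
    False := by
  classical
  -- bad data for every pair
  have hpair : ∀ i j, i ≠ j → ∃ s s' : M → ZMod 2, Triv {x | f x ∉ segment ℝ (a i) (b i)} t s ∧
      Triv {x | f x ∉ segment ℝ (a j) (b j)} t s' ∧
      ¬ ∃ c : ZMod 2, ∀ x, f x ∉ convexHull ℝ (segment ℝ (a i) (b i) ∪ segment ℝ (a j) (b j)) →
        s x + s' x = c := by
    intro i j hij
    have h := hbad i j hij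
    unfold Good at h
    push Not at h
    obtain ⟨s, s', h1, h2, h3⟩ := h
    refine ⟨s, s', h1, h2, ?_⟩
    rintro ⟨c, hc⟩
    obtain ⟨x, hx1, hx2⟩ := h3 c
    exact hx2 (hc x hx1)
  have hz : ∀ i, ∃ z : EuclideanSpace ℝ (Fin N), z ≠ 0 ∧ ⟪z, b i - a i⟫_ℝ = 0 ∧
      (∀ x, ⟪z, f x - a i⟫_ℝ ≤ 0) ∧ ¬ Null {x | 0 ≤ ⟪z, f x - a i⟫_ℝ} t := by
    intro i
    obtain ⟨s, s', h1, h2, h3⟩ := hpair i (i + 1) (by omega)
    obtain ⟨w, β, hw0, wa, wb, wa', wb', -, hx1, hx2, hne⟩ := bad_struct S hN h1 h2 h3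
    exact kappa S hN (he i) (hd i (i + 1) (by omega)) (he (i + 1)) h1 h2 wa wb wa' wb' hx1 hx2 hne
  choose z hz0 hzb hsup hnn using hz
  have hHul : ∀ i, ∀ r ∈ Hul f, ⟪z i, r - a i⟫_ℝ ≤ 0 := by
    intro i r hr
    have hsub : Hul f ⊆ {r | ⟪z i, r - a i⟫_ℝ ≤ 0} := by
      refine convexHull_min ?_ ?_
      · rintro _ ⟨x, rfl⟩
        exact hsup i x
      · intro r1 h1 r2 h2 α β hα hβ hαβ
        have h1' : ⟪z i, r1 - a i⟫_ℝ ≤ 0 := h1
        have h2' : ⟪z i, r2 - a i⟫_ℝ ≤ 0 := h2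
        show ⟪z i, α • r1 + β • r2 - a i⟫_ℝ ≤ 0
        have h3 : α • r1 + β • r2 - a i = α • (r1 - a i) + β • (r2 - a i) := by
          have : a i = (α + β) • a i := by rw [hαβ, one_smul]
          conv_lhs => rw [this]
          module
        rw [h3, inner_add_right, inner_smul_right, inner_smul_right]
        nlinarith [mul_nonneg hα (neg_nonneg.mpr h1'), mul_nonneg hβ (neg_nonneg.mpr h2')]
    exact hsub hr
  have haH : ∀ i, a i ∈ Hul f := fun i => (edge_ext (he i)).1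
  have hbH : ∀ i, b i ∈ Hul f := fun i => (edge_ext (he i).symm).1
  have hor : ∀ i k, ⟪z i, a k - a i⟫_ℝ = 0 ∨ ⟪z i, b k - a i⟫_ℝ = 0 := by
    intro i k
    have hex : ∃ x, f x ∈ segment ℝ (a k) (b k) ∧ 0 ≤ ⟪z i, f x - a i⟫_ℝ := by
      by_contra hcon
      push Not at hcon
      apply hnn i
      refine (ht k).mono ?_
      intro x hx hx2
      have h1 : 0 ≤ ⟪z i, f x - a i⟫_ℝ := hx
      have h2 := hcon x hx2
      linarith
    obtain ⟨x, ⟨α, β, hα, hβ, hαβ, hfx⟩, hx⟩ := hex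
    have ha := hHul i _ (haH k)
    have hb := hHul i _ (hbH k)
    rw [← hfx] at hx
    have h3 : α • a k + β • b k - a i = α • (a k - a i) + β • (b k - a i) := by
      have : a i = (α + β) • a i := by rw [hαβ, one_smul]
      conv_lhs => rw [this]
      module
    rw [h3, inner_add_right, inner_smul_right, inner_smul_right] at hx
    by_contra hcon
    push Not at hcon
    have ha' : ⟪z i, a k - a i⟫_ℝ < 0 := lt_of_le_of_ne ha hcon.1
    have hb' : ⟪z i, b k - a i⟫_ℝ < 0 := lt_of_le_of_ne hb hcon.2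
    have h4 : α * ⟪z i, a k - a i⟫_ℝ ≤ 0 := mul_nonpos_of_nonneg_of_nonpos hα ha
    have h5 : β * ⟪z i, b k - a i⟫_ℝ ≤ 0 := mul_nonpos_of_nonneg_of_nonpos hβ hb
    have h6 : α * ⟪z i, a k - a i⟫_ℝ = 0 := by linarith
    have h7 : β * ⟪z i, b k - a i⟫_ℝ = 0 := by linarith
    have h8 : α = 0 := by
      rcases mul_eq_zero.mp h6 with h | h
      · exact h
      · exact absurd h ha'.ne
    have h9 : β = 0 := by
      rcases mul_eq_zero.mp h7 with h | h
      · exact h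
      · exact absurd h hb'.ne
    rw [h8, h9] at hαβ
    norm_num at hαβ
  have hnb : ∀ i k, i ≠ k → ¬ (⟪z i, a k - a i⟫_ℝ = 0 ∧ ⟪z i, b k - a i⟫_ℝ = 0) := by
    rintro i k hik ⟨h1, h2⟩
    obtain ⟨s, s', e1, e2, e3⟩ := hpair i k hik
    obtain ⟨w, β, hw0, wa, wb, wa', wb', huniq, ⟨x1, hx1⟩, ⟨x2, hx2⟩, hne⟩ :=
      bad_struct S hN e1 e2 e3
    obtain ⟨μ, hμ⟩ := huniq (z i) (hzb i) h1 h2
    have g1 := hsup i x1
    have g2 := hsup i x2
    rw [hμ, inner_smul_left, inner_sub_right, wa] at g1 g2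
    simp only [conj_trivial] at g1 g2
    have h5 : μ = 0 := by
      by_contra hμ0
      rcases lt_or_gt_of_ne hμ0 with h | h
      · nlinarith [mul_pos_of_neg_of_neg h (sub_neg.mpr hx2)]
      · nlinarith [mul_pos h (sub_pos.mpr hx1)]
    rw [h5, zero_smul] at hμ
    exact hz0 i hμ
  -- patterns
  let pat : ℕ → (Fin 5 → Bool) := fun l i => decide (⟪z i, a l - a i⟫_ℝ = 0)
  obtain ⟨π, hπ⟩ := Finite.exists_infinite_fiber pat
  obtain ⟨v, hv⟩ := Fintype.exists_lt_card_fiber_of_mul_lt_card (f := π) (n := 2) (by simp)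
  obtain ⟨i0, m0, i1, m1, i2, m2, n01, n02, n12⟩ := Finset.two_lt_card.mp hv
  simp only [Finset.mem_filter, Finset.mem_univ, true_and] at m0 m1 m2
  have hinf : (pat ⁻¹' {π}).Infinite := Set.infinite_coe_iff.mp hπ
  let emb : ℕ ↪ (pat ⁻¹' {π}) := Set.Infinite.natEmbedding _ hinf
  let L : Fin 3 → ℕ := fun l => (emb l : ℕ)
  have hLi : Function.Injective L := by
    intro l l' hll
    have h1 : emb (l : ℕ) = emb (l' : ℕ) := Subtype.ext hll
    exact Fin.ext (emb.injective h1)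
  have hLp : ∀ l, pat (L l) = π := fun l => (emb l).2
  let c : Fin 3 → Fin 5 := ![i0, i1, i2]
  have hci : ∀ i j, i ≠ j → ((c i : Fin 5) : ℕ) ≠ ((c j : Fin 5) : ℕ) := by
    intro i j hij h
    have h2 : c i = c j := Fin.ext h
    fin_cases i <;> fin_cases j
    · exact hij rfl
    · exact n01 h2
    · exact n02 h2
    · exact n01 h2.symm
    · exact hij rfl
    · exact n12 h2
    · exact n02 h2.symm
    · exact n12 h2.symm
    · exact hij rfl
  have hcv : ∀ i, π (c i) = v := by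
    intro i
    fin_cases i
    · exact m0
    · exact m1
    · exact m2
  let p : Fin 3 → EuclideanSpace ℝ (Fin N) := fun l => if v = true then a (L l) else b (L l)
  have hpseg : ∀ l, p l ∈ segment ℝ (a (L l)) (b (L l)) := by
    intro l
    show (if v = true then a (L l) else b (L l)) ∈ _
    split_ifs
    · exact left_mem_segment _ _ _
    · exact right_mem_segment _ _ _
  refine lin_four S hN (a := fun i => a (c i)) (b := fun i => b (c i)) (z := fun i => z (c i))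
    (p := p) ?_ ?_ (fun i => haH _) (fun i => hbH _) (fun i => hz0 _) (fun i => hzb _)
    (fun i x => hsup _ x) ?_ (fun i j hij => hnb _ _ (hci i j hij))
  · intro l
    show (if v = true then a (L l) else b (L l)) ∈ _
    split_ifs
    · exact edge_ext (he _)
    · exact edge_ext (he _).symm
  · intro l l' hll
    by_contra hne
    have h1 := hd (L l) (L l') (fun h => hne (hLi h))
    have h2 := hpseg l'
    rw [← hll] at h2
    exact Set.disjoint_left.mp h1 (hpseg l) h2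
  · intro i l
    have h1 : pat (L l) (c i) = v := by rw [hLp, hcv]
    show ⟪z (c i), (if v = true then a (L l) else b (L l)) - a (c i)⟫_ℝ = 0
    have h2 : decide (⟪z (c i), a (L l) - a (c i)⟫_ℝ = 0) = v := h1
    by_cases hvt : v = true
    · rw [if_pos hvt]
      rw [hvt] at h2
      exact of_decide_eq_true h2
    · rw [if_neg hvt]
      have h3 : v = false := by simpa using hvt
      rw [h3] at h2
      rcases hor (c i) (L l) with h | h
      · exact absurd h (of_decide_eq_false h2)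
      · exact h

theorem good_symm_24072 {t : M → M → ZMod 2} {S T : Set (EuclideanSpace ℝ (Fin N))}
    (h : Good f t S T) : Good f t T S := by
  intro s s' hs hs'
  obtain ⟨c, hc⟩ := h s' s hs' hs
  refine ⟨c, fun x hx => ?_⟩
  rw [Set.union_comm] at hx
  rw [add_comm]
  exact hc x hx

theorem three_good_24072 [CompactSpace M] [T2Space M] [ConnectedSpace M] (S : Setup f) (hN : 4 ≤ N)
    {t : M → M → ZMod 2} (hn : ¬ Null univ t)
    {a b : ℕ → EuclideanSpace ℝ (Fin N)} (he : ∀ i, Edge f (a i) (b i))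
    (ht : ∀ i, Null {x | f x ∉ segment ℝ (a i) (b i)} t)
    (hd : ∀ i j, i ≠ j → Disjoint (segment ℝ (a i) (b i)) (segment ℝ (a j) (b j)))
    (i : Fin 3 → ℕ) (hi : Function.Injective i)
    (hg : ∀ k l : Fin 3, k ≠ l → Good f t (segment ℝ (a (i k)) (b (i k)))
      (segment ℝ (a (i l)) (b (i l)))) : False := by
  obtain ⟨m, hm⟩ : ∃ m : ℕ, ∀ k, i k ≠ m := by
    refine ⟨i 0 + i 1 + i 2 + 1, ?_⟩
    intro k
    fin_cases k
    · show i 0 ≠ _
      omega
    · show i 1 ≠ _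
      omega
    · show i 2 ≠ _
      omega
  refine three_disj S hN hn (a := fun k => a (i k)) (b := fun k => b (i k)) (fun k => he (i k))
    (fun k => ht (i k)) (fun k l hkl => hd _ _ fun h => hkl (hi h)) hg (p := a m)
    (edge_ext (he m)) ?_
  intro k hk
  exact Set.disjoint_left.1 (hd (i k) m (hm k)) hk (left_mem_segment ℝ _ _)

/-- no infinite family of pairwise disjoint edges with the same class -/
theorem no_family [CompactSpace M] [T2Space M] [ConnectedSpace M] (S : Setup f) (hN : 4 ≤ N)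
    {t : M → M → ZMod 2} (hn : ¬ Null univ t)
    {a b : ℕ → EuclideanSpace ℝ (Fin N)} (he : ∀ i, Edge f (a i) (b i))
    (ht : ∀ i, Null {x | f x ∉ segment ℝ (a i) (b i)} t)
    (hd : ∀ i j, i ≠ j → Disjoint (segment ℝ (a i) (b i)) (segment ℝ (a j) (b j))) : False := by
  rcases Nat.lt_or_ge N 5 with h5 | h5
  · have hN4 : N = 4 := by omega
    obtain ⟨g, hg1, hg2⟩ := ramsey_tri
      (fun i j => Good f t (segment ℝ (a i) (b i)) (segment ℝ (a j) (b j)))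
      (fun i j h => good_symm_24072 h) (by
        rintro i j k hij hik hjk ⟨g1, g2, g3⟩
        refine three_good_24072 S hN hn he ht hd ![i, j, k] ?_ ?_
        · intro x y hxy
          fin_cases x <;> fin_cases y
          · rfl
          · exact absurd hxy hij
          · exact absurd hxy hik
          · exact absurd hxy hij.symm
          · rfl
          · exact absurd hxy hjk
          · exact absurd hxy hik.symm
          · exact absurd hxy hjk.symm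
          · rfl
        · intro x y hxy
          fin_cases x <;> fin_cases y
          · exact absurd rfl hxy
          · exact g1
          · exact g2
          · exact good_symm_24072 g1
          · exact absurd rfl hxy
          · exact g3
          · exact good_symm_24072 g2
          · exact good_symm_24072 g3
          · exact absurd rfl hxy)
    exact no_bad_family S hN4 (a := fun i => a (g i)) (b := fun i => b (g i)) (fun i => he (g i))
      (fun i => ht (g i)) (fun i j hij => hd _ _ fun h => hij (hg1.injective h)) hg2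
  · exact three_good_24072 S hN hn he ht hd (fun k => (k : ℕ)) Fin.val_injective
      (fun k l _ => good_five S h5)

end Pool.Agent.Helper775.Surf
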