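import Pool.Agent.Helper775.Surf.Defs

/-! Elementary properties of one-dimensional cohomology. -/

set_option autoImplicit false

namespace Pool.Agent.Helper775.Surf

open Set Topology Metric
open scoped InnerProductSpace

variable {M : Type*} [TopologicalSpace M]

theorem Coc.mono {Z Z' : Set M} {t : M → M → ZMod 2} (h : Coc Z t) (hZ : Z' ⊆ Z) : Coc Z' t :=
  fun x hx => h x (hZ hx)

theorem Triv.mono {Z Z' : Set M} {t : M → M → ZMod 2} {s : M → ZMod 2} (h : Triv Z t s)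
    (hZ : Z' ⊆ Z) : Triv Z' t s :=
  fun x hx => h x (hZ hx)

theorem Null.mono {Z Z' : Set M} {t : M → M → ZMod 2} (h : Null Z t) (hZ : Z' ⊆ Z) : Null Z' t := by
  obtain ⟨s, hs⟩ := h
  exact ⟨s, hs.mono hZ⟩

theorem Coc.add {Z : Set M} {t t' : M → M → ZMod 2} (h : Coc Z t) (h' : Coc Z t') :
    Coc Z (t + t') := by
  intro x hx
  obtain ⟨W, hW, h1⟩ := h x hx
  obtain ⟨W', hW', h1'⟩ := h' x hx
  refine ⟨W ∩ W', Filter.inter_mem hW hW', fun a ha b hb c hc => ?_⟩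
  have e1 := h1 a ha.1 b hb.1 c hc.1
  have e2 := h1' a ha.2 b hb.2 c hc.2
  show (t a b + t' a b) + (t b c + t' b c) = t a c + t' a c
  rw [← e1, ← e2]
  ring

theorem Triv.add {Z : Set M} {t t' : M → M → ZMod 2} {s s' : M → ZMod 2} (h : Triv Z t s)
    (h' : Triv Z t' s') : Triv Z (t + t') (s + s') := by
  intro x hx
  obtain ⟨W, hW, h1⟩ := h x hx
  obtain ⟨W', hW', h1'⟩ := h' x hx
  refine ⟨W ∩ W', Filter.inter_mem hW hW', fun a ha b hb => ?_⟩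
  have e1 := h1 a ha.1 b hb.1
  have e2 := h1' a ha.2 b hb.2
  show t a b + t' a b = (s a + s' a) + (s b + s' b)
  rw [e1, e2]
  ring

theorem Null.add {Z : Set M} {t t' : M → M → ZMod 2} (h : Null Z t) (h' : Null Z t') :
    Null Z (t + t') := by
  obtain ⟨s, hs⟩ := h
  obtain ⟨s', hs'⟩ := h'
  exact ⟨s + s', hs.add hs'⟩

theorem Triv.coc {Z : Set M} {t : M → M → ZMod 2} {s : M → ZMod 2} (h : Triv Z t s) : Coc Z t := by
  intro x hx
  obtain ⟨W, hW, h1⟩ := h x hx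
  refine ⟨W, hW, fun a ha b hb c hc => ?_⟩
  rw [h1 a ha b hb, h1 b hb c hc, h1 a ha c hc]
  have e : s b + s b = 0 := CharTwo.add_self_eq_zero (s b)
  calc s a + s b + (s b + s c) = s a + (s b + s b) + s c := by ring
    _ = s a + s c := by rw [e, add_zero]

theorem Null.coc {Z : Set M} {t : M → M → ZMod 2} (h : Null Z t) : Coc Z t := by
  obtain ⟨s, hs⟩ := h
  exact hs.coc

/-- cohomologous is transitive (characteristic 2) -/
theorem Null.trans {Z : Set M} {t t' t'' : M → M → ZMod 2} (h : Null Z (t + t'))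
    (h' : Null Z (t' + t'')) : Null Z (t + t'') := by
  obtain ⟨s, hs⟩ := h
  obtain ⟨s', hs'⟩ := h'
  refine ⟨s + s', ?_⟩
  have h2 := Triv.add hs hs'
  have e : (t + t') + (t' + t'') = t + t'' := by
    funext a b
    show (t a b + t' a b) + (t' a b + t'' a b) = t a b + t'' a b
    have e1 : t' a b + t' a b = 0 := CharTwo.add_self_eq_zero (t' a b)
    calc (t a b + t' a b) + (t' a b + t'' a b) = t a b + (t' a b + t' a b) + t'' a b := by ring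
      _ = t a b + t'' a b := by rw [e1, add_zero]
  rw [e] at h2
  exact h2

theorem add_self_co (t : M → M → ZMod 2) : t + t = 0 := by
  funext a b
  exact CharTwo.add_self_eq_zero (t a b)

theorem null_zero (Z : Set M) : Null Z (0 : M → M → ZMod 2) := by
  refine ⟨0, fun x _ => ⟨Set.univ, Filter.univ_mem, fun a _ b _ => ?_⟩⟩
  show (0 : ZMod 2) = 0 + 0
  rw [add_zero]

theorem coc_zero (Z : Set M) : Coc Z (0 : M → M → ZMod 2) := by
  refine fun x _ => ⟨Set.univ, Filter.univ_mem, fun a _ b _ c _ => ?_⟩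
  show (0 : ZMod 2) + 0 = 0
  rw [add_zero]

/-- changing a trivialization by a constant -/
theorem Triv.add_const {Z : Set M} {t : M → M → ZMod 2} {s : M → ZMod 2} (h : Triv Z t s)
    (k : ZMod 2) : Triv Z t (fun x => s x + k) := by
  intro x hx
  obtain ⟨W, hW, h1⟩ := h x hx
  refine ⟨W, hW, fun a ha b hb => ?_⟩
  rw [h1 a ha b hb]
  have e : k + k = 0 := CharTwo.add_self_eq_zero k
  show s a + s b = (s a + k) + (s b + k)
  calc s a + s b = s a + s b + (k + k) := by rw [e, add_zero]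
    _ = (s a + k) + (s b + k) := by ring

/-- two trivializations differ by a locally constant function -/
theorem triv_loc {Z : Set M} {t : M → M → ZMod 2} {s s' : M → ZMod 2} (h : Triv Z t s)
    (h' : Triv Z t s') : ∀ x ∈ Z, ∃ W ∈ 𝓝 x, ∀ a ∈ W, s a + s' a = s x + s' x := by
  intro x hx
  obtain ⟨W, hW, h1⟩ := h x hx
  obtain ⟨W', hW', h1'⟩ := h' x hx
  refine ⟨W ∩ W', Filter.inter_mem hW hW', fun a ha => ?_⟩
  have e1 := h1 a ha.1 x (mem_of_mem_nhds hW)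
  have e2 := h1' a ha.2 x (mem_of_mem_nhds hW')
  have e : s a + s x = s' a + s' x := by rw [← e1, e2]
  generalize s a = p at *
  generalize s x = q at *
  generalize s' a = r at *
  generalize s' x = u at *
  clear e1 e2 h1 h1' h h'
  revert p q r u
  decide

/-- two trivializations near a connected set differ by a constant -/
theorem triv_uniq {Z : Set M} (hZ : IsPreconnected Z) {t : M → M → ZMod 2} {s s' : M → ZMod 2}
    (h : Triv Z t s) (h' : Triv Z t s') : ∃ k : ZMod 2, ∀ x ∈ Z, s x + s' x = k := by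
  have hl := triv_loc h h'
  rcases Z.eq_empty_or_nonempty with hZe | ⟨x0, hx0⟩
  · exact ⟨0, fun x hx => by rw [hZe] at hx; exact hx.elim⟩
  · refine ⟨s x0 + s' x0, fun x hx => ?_⟩
    by_contra hne
    -- the two open sets
    have key : ∀ k : Set (ZMod 2), Z ∩ {y | s y + s' y ∈ k} ⊆ interior {y | s y + s' y ∈ k} := by
      intro k y hy
      obtain ⟨W, hW, h1⟩ := hl y hy.1
      rw [mem_interior_iff_mem_nhds]
      refine Filter.mem_of_superset hW (fun a ha => ?_)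
      show s a + s' a ∈ k
      rw [h1 a ha]
      exact hy.2
    have hcov : Z ⊆ interior {y | s y + s' y ∈ ({s x0 + s' x0} : Set (ZMod 2))} ∪
        interior {y | s y + s' y ∈ ({s x0 + s' x0}ᶜ : Set (ZMod 2))} := by
      intro y hy
      by_cases hc : s y + s' y ∈ ({s x0 + s' x0} : Set (ZMod 2))
      · exact Or.inl (key _ ⟨hy, hc⟩)
      · exact Or.inr (key _ ⟨hy, hc⟩)
    obtain ⟨z, hz, hz1, hz2⟩ := hZ _ _ isOpen_interior isOpen_interior hcov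
      ⟨x0, hx0, key _ ⟨hx0, rfl⟩⟩ ⟨x, hx, key _ ⟨hx, hne⟩⟩
    have g1 : z ∈ {y | s y + s' y ∈ ({s x0 + s' x0} : Set (ZMod 2))} := interior_subset hz1
    have g2 : z ∈ {y | s y + s' y ∈ ({s x0 + s' x0}ᶜ : Set (ZMod 2))} := interior_subset hz2
    exact g2 g1

/-- trivializations live on open sets -/
theorem triv_open {Z : Set M} {t : M → M → ZMod 2} {s : M → ZMod 2} (h : Triv Z t s) :
    ∃ O : Set M, IsOpen O ∧ Z ⊆ O ∧ Triv O t s := by
  refine ⟨{x | ∃ W ∈ 𝓝 x, ∀ a ∈ W, ∀ b ∈ W, t a b = s a + s b}, ?_, fun x hx => h x hx,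
    fun x hx => hx⟩
  rw [isOpen_iff_mem_nhds]
  rintro x ⟨W, hW, h1⟩
  obtain ⟨V, hVW, hVo, hxV⟩ := mem_nhds_iff.1 hW
  refine Filter.mem_of_superset (hVo.mem_nhds hxV) (fun y hy => ?_)
  exact ⟨V, hVo.mem_nhds hy, fun a ha b hb => h1 a (hVW ha) b (hVW hb)⟩

/-- glueing -/
theorem null_union {U V : Set M} (hU : IsOpen U) (hV : IsOpen V) {t : M → M → ZMod 2}
    {s s' : M → ZMod 2} (h : Triv U t s) (h' : Triv V t s') {k : ZMod 2}
    (hk : ∀ x ∈ U ∩ V, s x + s' x = k) : Null (U ∪ V) t := by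
  classical
  have hg : ∀ a ∈ V, (if a ∈ U then s a else s' a + k) = s' a + k := by
    intro a ha
    by_cases hU' : a ∈ U
    · rw [if_pos hU']
      have h1 := hk a ⟨hU', ha⟩
      calc s a = s a + (s' a + s' a) := by rw [CharTwo.add_self_eq_zero, add_zero]
        _ = (s a + s' a) + s' a := by ring
        _ = k + s' a := by rw [h1]
        _ = s' a + k := add_comm _ _
    · rw [if_neg hU']
  refine ⟨fun a => if a ∈ U then s a else s' a + k, ?_⟩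
  intro x hx
  rcases hx with hx | hx
  · obtain ⟨W, hW, hW2⟩ := h x hx
    refine ⟨W ∩ U, Filter.inter_mem hW (hU.mem_nhds hx), ?_⟩
    intro a ha b hb
    show t a b = (if a ∈ U then s a else s' a + k) + (if b ∈ U then s b else s' b + k)
    rw [if_pos ha.2, if_pos hb.2]
    exact hW2 a ha.1 b hb.1
  · obtain ⟨W, hW, hW2⟩ := h' x hx
    refine ⟨W ∩ V, Filter.inter_mem hW (hV.mem_nhds hx), ?_⟩
    intro a ha b hb
    show t a b = (if a ∈ U then s a else s' a + k) + (if b ∈ U then s b else s' b + k)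
    rw [hg a ha.2, hg b hb.2, hW2 a ha.1 b hb.1]
    calc s' a + s' b = s' a + s' b + (k + k) := by rw [CharTwo.add_self_eq_zero, add_zero]
      _ = s' a + k + (s' b + k) := by ring

/-- directed unions of connected open sets -/
theorem null_directed {S : Set (Set M)} (ho : ∀ U ∈ S, IsOpen U) (hc : ∀ U ∈ S, IsPreconnected U)
    (hd : ∀ U ∈ S, ∀ V ∈ S, ∃ W ∈ S, U ⊆ W ∧ V ⊆ W) {t : M → M → ZMod 2}
    (h : ∀ U ∈ S, Null U t) : Null (⋃₀ S) t := by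
  classical
  by_cases hne : ∃ U0 ∈ S, ∃ x0, x0 ∈ U0
  · obtain ⟨U0, hU0, x0, hx0⟩ := hne
    have hdec : ∀ a b : ZMod 2, a + b = 0 → a = b := by decide
    have hself : ∀ a : ZMod 2, a + a = 0 := by decide
    have h' : ∀ U ∈ S, ∃ s, Triv U t s ∧ s x0 = 0 := by
      intro U hU
      obtain ⟨s, hs⟩ := h U hU
      exact ⟨fun x => s x + s x0, hs.add_const _, hself _⟩
    choose! s hs hs0 using h'
    have key : ∀ U ∈ S, ∀ V ∈ S, x0 ∈ U → x0 ∈ V → ∀ y, y ∈ U → y ∈ V → s U y = s V y := by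
      intro U hU V hV hxU hxV y hyU hyV
      obtain ⟨W, hW, hUW, hVW⟩ := hd U hU V hV
      have aux : ∀ U' ∈ S, x0 ∈ U' → U' ⊆ W → y ∈ U' → s U' y = s W y := by
        intro U' hU' hx' hsub hy'
        obtain ⟨k, hk⟩ := triv_uniq (hc U' hU') (hs U' hU') ((hs W hW).mono hsub)
        have h1 := hk x0 hx'
        rw [hs0 U' hU', hs0 W hW, add_zero] at h1
        have h2 := hk y hy'
        rw [← h1] at h2
        exact hdec _ _ h2
      rw [aux U hU hxU hUW hyU, aux V hV hxV hVW hyV]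
    have hmem : ∀ y ∈ ⋃₀ S, ∃ U ∈ S, x0 ∈ U ∧ y ∈ U := by
      rintro y ⟨V, hV, hyV⟩
      obtain ⟨W, hW, h1, h2⟩ := hd U0 hU0 V hV
      exact ⟨W, hW, h1 hx0, h2 hyV⟩
    refine ⟨fun y => if hy : ∃ U ∈ S, x0 ∈ U ∧ y ∈ U then s hy.choose y else 0, ?_⟩
    intro x hx
    obtain ⟨U, hU, hxU0, hxU⟩ := hmem x hx
    obtain ⟨W, hW, hWt⟩ := hs U hU x hxU
    refine ⟨W ∩ U, Filter.inter_mem hW ((ho U hU).mem_nhds hxU), ?_⟩
    have hval : ∀ a ∈ U, (if hy : ∃ U ∈ S, x0 ∈ U ∧ a ∈ U then s hy.choose a else 0) = s U a := by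
      intro a ha
      have hy : ∃ U ∈ S, x0 ∈ U ∧ a ∈ U := ⟨U, hU, hxU0, ha⟩
      rw [dif_pos hy]
      exact key _ hy.choose_spec.1 U hU hy.choose_spec.2.1 hxU0 a hy.choose_spec.2.2 ha
    intro a ha b hb
    show t a b = (if hy : ∃ U ∈ S, x0 ∈ U ∧ a ∈ U then s hy.choose a else 0)
      + (if hy : ∃ U ∈ S, x0 ∈ U ∧ b ∈ U then s hy.choose b else 0)
    rw [hval a ha.2, hval b hb.2]
    exact hWt a ha.1 b hb.1
  · refine ⟨fun _ => 0, ?_⟩
    rintro x ⟨U, hU, hxU⟩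
    exact absurd ⟨U, hU, x, hxU⟩ hne

/-- extending classes over directed unions -/
theorem sur_directed (hfin : FinH1 M) {S : Set (Set M)} (ho : ∀ U ∈ S, IsOpen U)
    (hc : ∀ U ∈ S, IsPreconnected U) (hd : ∀ U ∈ S, ∀ V ∈ S, ∃ W ∈ S, U ⊆ W ∧ V ⊆ W)
    {t : M → M → ZMod 2}
    (h : ∀ U ∈ S, ∃ t' : M → M → ZMod 2, Coc univ t' ∧ Null U (t + t')) :
    ∃ t' : M → M → ZMod 2, Coc univ t' ∧ Null (⋃₀ S) (t + t') := by
  obtain ⟨R, hRf, hRc, hR⟩ := hfin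
  rcases S.eq_empty_or_nonempty with rfl | ⟨U₀, hU₀⟩
  · refine ⟨0, coc_zero univ, 0, ?_⟩
    intro x hx
    simp at hx
  have key : ∃ r ∈ R, ∀ U ∈ S, Null U (t + r) := by
    by_contra hcon
    push Not at hcon
    choose! U hUS hUn using hcon
    have hfd : ∀ R' : Set (M → M → ZMod 2), R'.Finite → R' ⊆ R → ∃ W ∈ S, ∀ r ∈ R', U r ⊆ W := by
      intro R' hR'
      induction R', hR' using Set.Finite.induction_on with
      | empty => intro _; exact ⟨U₀, hU₀, by simp⟩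
      | insert _ _ ih =>
        rename_i r₀ R₁ _ _
        intro hsub
        obtain ⟨W, hW, hWr⟩ := ih (fun r hr => hsub (Set.mem_insert_of_mem _ hr))
        obtain ⟨W', hW', h1, h2⟩ := hd W hW (U r₀) (hUS r₀ (hsub (Set.mem_insert _ _)))
        refine ⟨W', hW', ?_⟩
        intro r hr
        rcases hr with rfl | hr
        · exact h2
        · exact (hWr r hr).trans h1
    obtain ⟨W, hW, hWr⟩ := hfd R hRf (subset_refl _)
    obtain ⟨t', ht'c, ht'n⟩ := h W hW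
    obtain ⟨r, hr, hrn⟩ := hR t' ht'c
    apply hUn r hr
    exact (ht'n.trans (hrn.mono (subset_univ _))).mono (hWr r hr)
  obtain ⟨r, hr, hrn⟩ := key
  exact ⟨r, hRc r hr, null_directed ho hc hd hrn⟩

theorem null_punct_one845 [T1Space M] (hp : Punct M) {U : Set M} (hU : IsOpen U)
    {t : M → M → ZMod 2} (ht : Coc U t) (x : M) (h : Null (U \ {x}) t) : Null U t := by
  by_cases hx : x ∈ U
  · obtain ⟨W₀, hW₀, hc⟩ := ht x hx
    obtain ⟨O, hO, hxO, hOW, hOc⟩ := hp x (W₀ ∩ U) (Filter.inter_mem hW₀ (hU.mem_nhds hx))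
    have hxW : x ∈ W₀ := (hOW hxO).1
    have hxx : t x x = 0 := by
      have := hc x hxW x hxW x hxW
      simpa using this
    have hs0 : Triv O t (fun a => t a x) := by
      intro y hy
      refine ⟨O, hO.mem_nhds hy, fun a ha b hb => ?_⟩
      have h1 := hc a (hOW ha).1 x hxW b (hOW hb).1
      have h2 := hc x hxW b (hOW hb).1 x hxW
      rw [hxx] at h2
      have h3 : t x b = t b x := by
        have := CharTwo.add_eq_zero.1 h2
        exact this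
      show t a b = t a x + t b x
      rw [← h1, h3]
    obtain ⟨s, hs⟩ := h
    have hsub : O \ {x} ⊆ U \ {x} := fun y hy => ⟨(hOW hy.1).2, hy.2⟩
    obtain ⟨k, hk⟩ := triv_uniq hOc (hs.mono hsub) (hs0.mono diff_subset)
    have h4 : Null ((U \ {x}) ∪ O) t :=
      null_union (hU.sdiff isClosed_singleton) hO hs hs0 (k := k)
        (fun y hy => hk y ⟨hy.2, hy.1.2⟩)
    refine h4.mono fun y hy => ?_
    by_cases hyx : y = x
    · exact Or.inr (hyx ▸ hxO)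
    · exact Or.inl ⟨hy, hyx⟩
  · rwa [diff_singleton_eq_self hx] at h

/-- removable points -/
theorem null_punct [T1Space M] (hp : Punct M) {W : Set M} (hW : IsOpen W) {t : M → M → ZMod 2}
    (ht : Coc W t) {F : Set M} (hF : F.Finite) (h : Null (W \ F) t) : Null W t := by
  induction F, hF using Set.Finite.induction_on with
  | empty => rwa [diff_empty] at h
  | @insert a F ha hF ih =>
    apply ih
    have e : W \ insert a F = (W \ F) \ {a} := by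
      ext y
      simp only [mem_diff, mem_insert_iff, mem_singleton_iff, not_or]
      tauto
    rw [e] at h
    exact null_punct_one845 hp (hW.sdiff hF.isClosed) (ht.mono diff_subset) a h

/-- a family of connected sets indexed by a connected set, with local overlaps -/
theorem glue_conn {ι X : Type*} [TopologicalSpace ι] [TopologicalSpace X] {Z : Set ι}
    (hZ : IsPreconnected Z) (A : ι → Set X) (hA : ∀ i ∈ Z, IsPreconnected (A i))
    (hn : ∀ i ∈ Z, ∃ x ∈ A i, ∀ᶠ j in 𝓝[Z] i, x ∈ A j) : IsPreconnected (⋃ i ∈ Z, A i) := by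
  intro u v hu hv huv hsu hsv
  by_contra hne
  have key : ∀ i ∈ Z, (A i ∩ u).Nonempty → (A i ∩ v).Nonempty → False := by
    intro i hi h1 h2
    obtain ⟨x, hx, hx'⟩ := hA i hi u v hu hv (fun x hx => huv (mem_biUnion hi hx)) h1 h2
    exact hne ⟨x, mem_biUnion hi hx, hx'⟩
  have hn' : ∀ i ∈ Z, ∃ x ∈ A i, ∃ O : Set ι, IsOpen O ∧ i ∈ O ∧ ∀ j ∈ O, j ∈ Z → x ∈ A j := by
    intro i hi
    obtain ⟨x, hx, hx'⟩ := hn i hi
    obtain ⟨O, hO, hiO, hsub⟩ := mem_nhdsWithin.mp hx'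
    exact ⟨x, hx, O, hO, hiO, fun j hj hjZ => hsub ⟨hj, hjZ⟩⟩
  choose x hxA O hO hiO hxO using hn'
  have hop : ∀ w : Set X, IsOpen (⋃ i, ⋃ hi : i ∈ Z, ⋃ _ : x i hi ∈ w, O i hi) := by
    intro w
    exact isOpen_iUnion fun i => isOpen_iUnion fun hi => isOpen_iUnion fun _ => hO i hi
  have hmem : ∀ i (hi : i ∈ Z), x i hi ∈ u ∨ x i hi ∈ v :=
    fun i hi => huv (mem_biUnion hi (hxA i hi))
  have hcov : Z ⊆ (⋃ i, ⋃ hi : i ∈ Z, ⋃ _ : x i hi ∈ u, O i hi) ∪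
      (⋃ i, ⋃ hi : i ∈ Z, ⋃ _ : x i hi ∈ v, O i hi) := by
    intro i hi
    rcases hmem i hi with h | h
    · left
      simp only [mem_iUnion]
      exact ⟨i, hi, h, hiO i hi⟩
    · right
      simp only [mem_iUnion]
      exact ⟨i, hi, h, hiO i hi⟩
  have hU : (Z ∩ (⋃ i, ⋃ hi : i ∈ Z, ⋃ _ : x i hi ∈ u, O i hi)).Nonempty := by
    obtain ⟨y, hy, hyu⟩ := hsu
    simp only [mem_iUnion] at hy
    obtain ⟨i, hi, hyi⟩ := hy
    refine ⟨i, hi, ?_⟩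
    simp only [mem_iUnion]
    refine ⟨i, hi, ?_, hiO i hi⟩
    rcases hmem i hi with h | h
    · exact h
    · exact (key i hi ⟨y, hyi, hyu⟩ ⟨x i hi, hxA i hi, h⟩).elim
  have hV : (Z ∩ (⋃ i, ⋃ hi : i ∈ Z, ⋃ _ : x i hi ∈ v, O i hi)).Nonempty := by
    obtain ⟨y, hy, hyv⟩ := hsv
    simp only [mem_iUnion] at hy
    obtain ⟨i, hi, hyi⟩ := hy
    refine ⟨i, hi, ?_⟩
    simp only [mem_iUnion]
    refine ⟨i, hi, ?_, hiO i hi⟩
    rcases hmem i hi with h | h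
    · exact (key i hi ⟨x i hi, hxA i hi, h⟩ ⟨y, hyi, hyv⟩).elim
    · exact h
  obtain ⟨j, hjZ, hj1, hj2⟩ := hZ _ _ (hop u) (hop v) hcov hU hV
  simp only [mem_iUnion] at hj1 hj2
  obtain ⟨i, hi, h1, h2⟩ := hj1
  obtain ⟨k, hk, h3, h4⟩ := hj2
  exact key j hjZ ⟨x i hi, hxO i hi j h2 hjZ, h1⟩ ⟨x k hk, hxO k hk j h4 hjZ, h3⟩

/-- downward directed intersections of compact connected sets -/
theorem nested_conn [T2Space M] {S : Set (Set M)} (hne : S.Nonempty) (hk : ∀ K ∈ S, IsCompact K)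
    (hc : ∀ K ∈ S, IsPreconnected K) (hd : ∀ K ∈ S, ∀ L ∈ S, ∃ J ∈ S, J ⊆ K ∧ J ⊆ L) :
    IsPreconnected (⋂₀ S) := by
  obtain ⟨K0, hK0⟩ := hne
  have hcl : ∀ K ∈ S, IsClosed K := fun K hK => (hk K hK).isClosed
  have hclosed : IsClosed (⋂₀ S) := isClosed_sInter hcl
  have hcomp : IsCompact (⋂₀ S) := (hk K0 hK0).of_isClosed_subset hclosed (sInter_subset_of_mem hK0)
  rw [isPreconnected_iff_subset_of_disjoint_closed]
  intro u v hu hv huv hd'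
  have hA : IsCompact (⋂₀ S ∩ u) := hcomp.inter_right hu
  have hB : IsCompact (⋂₀ S ∩ v) := hcomp.inter_right hv
  have hdis : Disjoint (⋂₀ S ∩ u) (⋂₀ S ∩ v) := by
    rw [Set.disjoint_left]
    rintro x ⟨hx, hxu⟩ ⟨_, hxv⟩
    have : x ∈ ⋂₀ S ∩ (u ∩ v) := ⟨hx, hxu, hxv⟩
    rw [hd'] at this
    exact this
  obtain ⟨U, V, hU, hV, hAU, hBV, hUV⟩ := SeparatedNhds.of_isCompact_isCompact hA hB hdis
  haveI : Nonempty S := ⟨⟨K0, hK0⟩⟩
  obtain ⟨⟨K, hK⟩, hKs⟩ := exists_subset_nhds_of_isCompact (V := fun K : S => (K : Set M))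
    (U := U ∪ V) (by
      rintro ⟨K, hK⟩ ⟨L, hL⟩
      obtain ⟨J, hJ, h1, h2⟩ := hd K hK L hL
      exact ⟨⟨J, hJ⟩, h1, h2⟩) (fun K => hk K.1 K.2) (by
      intro x hx
      have hx' : x ∈ ⋂₀ S := by
        rw [sInter_eq_iInter]
        exact hx
      apply (hU.union hV).mem_nhds
      rcases huv hx' with h | h
      · exact Or.inl (hAU ⟨hx', h⟩)
      · exact Or.inr (hBV ⟨hx', h⟩))
  rcases (hc K hK).subset_or_subset hU hV hUV hKs with h | h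
  · left
    intro x hx
    rcases huv hx with h' | h'
    · exact h'
    · exact absurd (hBV ⟨hx, h'⟩) (Set.disjoint_left.1 hUV (h (hx K hK)))
  · right
    intro x hx
    rcases huv hx with h' | h'
    · exact absurd (h (hx K hK)) (Set.disjoint_left.1 hUV (hAU ⟨hx, h'⟩))
    · exact h'

theorem wabs_dec : ∀ (a b c a' b' c' : ZMod 2), (a + b = a' + b' ∨ a + c = a' + c') →
    (b + a = a' + b' ∨ b + c = b' + c') → (c + a = a' + c' ∨ c + b = b' + c') →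
    a + b = a' + b' := by
  decide

theorem wabs_aux {t : M → M → ZMod 2} {G₁ G₂ G₃ : Set M} {s₁ s₂ s₃ : M → ZMod 2}
    (hc₁ : IsClosed G₁) (hc₂ : IsClosed G₂) (hc₃ : IsClosed G₃)
    (hp₁ : IsPreconnected G₁ᶜ)
    (hs₁ : Triv G₁ᶜ t s₁) (hs₂ : Triv G₂ᶜ t s₂) (hs₃ : Triv G₃ᶜ t s₃) {c₁₂ c₁₃ : ZMod 2}
    (h12 : ∀ x ∈ G₃, x ∉ G₁ → x ∉ G₂ → s₁ x + s₂ x = c₁₂)
    (h13 : ∀ x ∈ G₂, x ∉ G₁ → x ∉ G₃ → s₁ x + s₃ x = c₁₃)
    (i23 : G₂ ∩ G₃ ⊆ G₁) (e : M) (e1 : e ∉ G₁) (e12 : s₁ e + s₂ e = c₁₂) :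
    ∀ x, x ∉ G₁ → x ∉ G₂ → x ∉ G₃ → s₁ x + s₂ x = c₁₂ ∨ s₁ x + s₃ x = c₁₃ := by
  have loc : ∀ (G G' : Set M) (s s' : M → ZMod 2), Triv Gᶜ t s → Triv G'ᶜ t s' →
      ∀ x, x ∉ G → x ∉ G' → ∃ W ∈ 𝓝 x, ∀ a ∈ W, s a + s' a = s x + s' x := by
    intro G G' s s' h h' x hx hx'
    exact triv_loc (Z := Gᶜ ∩ G'ᶜ) (h.mono inter_subset_left) (h'.mono inter_subset_right) x
      ⟨hx, hx'⟩
  obtain ⟨U, hU⟩ : ∃ U : Set M, U = {x | x ∉ G₁ ∧ x ∉ G₂ ∧ x ∉ G₃ ∧ s₁ x + s₂ x ≠ c₁₂ ∧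
    s₁ x + s₃ x ≠ c₁₃} := ⟨_, rfl⟩
  have hmem : ∀ x, x ∈ U ↔ (x ∉ G₁ ∧ x ∉ G₂ ∧ x ∉ G₃ ∧ s₁ x + s₂ x ≠ c₁₂ ∧
    s₁ x + s₃ x ≠ c₁₃) := fun x => by rw [hU]; exact Iff.rfl
  have hopen : IsOpen U := by
    rw [isOpen_iff_mem_nhds]
    intro x hx
    obtain ⟨x1, x2, x3, x4, x5⟩ := (hmem x).1 hx
    obtain ⟨W, hW, hW'⟩ := loc G₁ G₂ s₁ s₂ hs₁ hs₂ x x1 x2
    obtain ⟨W2, hW2, hW2'⟩ := loc G₁ G₃ s₁ s₃ hs₁ hs₃ x x1 x3
    filter_upwards [hc₁.isOpen_compl.mem_nhds x1, hc₂.isOpen_compl.mem_nhds x2,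
      hc₃.isOpen_compl.mem_nhds x3, hW, hW2] with a a1 a2 a3 a4 a5
    refine (hmem a).2 ⟨a1, a2, a3, ?_, ?_⟩
    · rw [hW' a a4]
      exact x4
    · rw [hW2' a a5]
      exact x5
  have hclos : closure U ∩ G₁ᶜ ⊆ U := by
    rintro x ⟨hx, x1⟩
    rw [mem_closure_iff_nhds] at hx
    by_cases x3 : x ∈ G₃
    · have x2 : x ∉ G₂ := fun h => x1 (i23 ⟨h, x3⟩)
      obtain ⟨W, hW, hW'⟩ := loc G₁ G₂ s₁ s₂ hs₁ hs₂ x x1 x2
      obtain ⟨a, ha, haU⟩ := hx W hW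
      exfalso
      apply ((hmem a).1 haU).2.2.2.1
      rw [hW' a ha]
      exact h12 x x3 x1 x2
    · obtain ⟨W2, hW2, hW2'⟩ := loc G₁ G₃ s₁ s₃ hs₁ hs₃ x x1 x3
      by_cases x2 : x ∈ G₂
      · obtain ⟨a, ha, haU⟩ := hx W2 hW2
        exfalso
        apply ((hmem a).1 haU).2.2.2.2
        rw [hW2' a ha]
        exact h13 x x2 x1 x3
      · obtain ⟨W, hW, hW'⟩ := loc G₁ G₂ s₁ s₂ hs₁ hs₂ x x1 x2
        obtain ⟨a, ⟨ha, ha2⟩, haU⟩ := hx (W ∩ W2) (Filter.inter_mem hW hW2)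
        obtain ⟨-, -, -, a4, a5⟩ := (hmem a).1 haU
        refine (hmem x).2 ⟨x1, x2, x3, ?_, ?_⟩
        · rw [← hW' a ha]
          exact a4
        · rw [← hW2' a ha2]
          exact a5
  intro x x1 x2 x3
  by_contra hne
  rw [not_or] at hne
  have hxU : x ∈ U := (hmem x).2 ⟨x1, x2, x3, hne.1, hne.2⟩
  have hsub := hp₁.subset_of_closure_inter_subset hopen ⟨x, x1, hxU⟩ hclos
  exact ((hmem e).1 (hsub e1)).2.2.2.1 e12

/-- the key combinatorial lemma on three trivializations -/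
theorem wabs {t : M → M → ZMod 2} {G₁ G₂ G₃ : Set M} {s₁ s₂ s₃ : M → ZMod 2}
    (hc₁ : IsClosed G₁) (hc₂ : IsClosed G₂) (hc₃ : IsClosed G₃)
    (hp₁ : IsPreconnected G₁ᶜ) (hp₂ : IsPreconnected G₂ᶜ) (hp₃ : IsPreconnected G₃ᶜ)
    (hs₁ : Triv G₁ᶜ t s₁) (hs₂ : Triv G₂ᶜ t s₂) (hs₃ : Triv G₃ᶜ t s₃) {c₁₂ c₁₃ c₂₃ : ZMod 2}
    (h12 : ∀ x ∈ G₃, x ∉ G₁ → x ∉ G₂ → s₁ x + s₂ x = c₁₂)
    (h13 : ∀ x ∈ G₂, x ∉ G₁ → x ∉ G₃ → s₁ x + s₃ x = c₁₃)
    (h23 : ∀ x ∈ G₁, x ∉ G₂ → x ∉ G₃ → s₂ x + s₃ x = c₂₃)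
    (i12 : G₁ ∩ G₂ ⊆ G₃) (i13 : G₁ ∩ G₃ ⊆ G₂) (i23 : G₂ ∩ G₃ ⊆ G₁)
    (e : M) (e1 : e ∉ G₁) (e2 : e ∉ G₂) (e3 : e ∉ G₃) (e12 : s₁ e + s₂ e = c₁₂)
    (e13 : s₁ e + s₃ e = c₁₃) (e23 : s₂ e + s₃ e = c₂₃) :
    ∀ x, x ∉ G₁ → x ∉ G₂ → s₁ x + s₂ x = c₁₂ := by
  intro x x1 x2
  by_cases x3 : x ∈ G₃
  · exact h12 x x3 x1 x2
  have k1 := wabs_aux hc₁ hc₂ hc₃ hp₁ hs₁ hs₂ hs₃ h12 h13 i23 e e1 e12 x x1 x2 x3
  have k2 := wabs_aux hc₂ hc₁ hc₃ hp₂ hs₂ hs₁ hs₃ (c₁₂ := c₁₂) (c₁₃ := c₂₃)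
    (fun y y3 y2 y1 => by rw [add_comm]; exact h12 y y3 y1 y2)
    (fun y y1 y2 y3 => h23 y y1 y2 y3) i13 e e2 (by rw [add_comm]; exact e12) x x2 x1 x3
  have k3 := wabs_aux hc₃ hc₁ hc₂ hp₃ hs₃ hs₁ hs₂ (c₁₂ := c₁₃) (c₁₃ := c₂₃)
    (fun y y2 y3 y1 => by rw [add_comm]; exact h13 y y2 y1 y3)
    (fun y y1 y3 y2 => by rw [add_comm]; exact h23 y y1 y2 y3) i12 e e3
    (by rw [add_comm]; exact e13) x x3 x1 x2
  subst e12 e13 e23
  exact wabs_dec _ _ _ _ _ _ k1 k2 k3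

end Pool.Agent.Helper775.Surf
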