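import Pool.Agent.Helper775.Surf.TDefs
import Pool.Agent.Helper775.Surf.Coh
import Pool.Agent.Helper775.Tight.Final

/-! From tightness to surjectivity in first cohomology. -/

set_option autoImplicit false

namespace Pool.Agent.Helper775.Surf

open Set Topology
open Pool.Agent.Helper775.Tight
open scoped InnerProductSpace

/-- translation between lists and functions of two variables -/
theorem sur_of_germ {P : Type*} [MetricSpace P] {Z : Set P}
    (h : ∀ c : Ch P, (AS P).Coc Z 2 c → ∃ c', (AS P).Coc univ 2 c' ∧ (AS P).Cob Z 2 (c - c')) :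
    Sur Z := by
  have sub2 : ∀ u v : ZMod 2, u - v = u + v := by decide
  have dd3 : ∀ (k : Ch P) (a b e : P), dd k [a, b, e] = k [b, e] + (k [a, e] + (k [a, b] + 0)) := by
    intro k a b e
    rw [dd_apply (by simp)]
    rfl
  have dd2 : ∀ (k : Ch P) (a b : P), dd k [a, b] = k [b] + (k [a] + 0) := by
    intro k a b
    rw [dd_apply (by simp)]
    rfl
  intro t ht
  let c : Ch P := fun l => match l with
    | [a, b] => t a b
    | _ => 0
  have hc2 : ∀ a b : P, c [a, b] = t a b := fun a b => rfl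
  have hc : (AS P).Coc Z 2 c := by
    intro z hz
    obtain ⟨W, hW, h3⟩ := ht z hz
    change dd c ∈ Nz z 3
    refine mem_Nz_of hW fun l hl hx => ?_
    match l, hl with
    | [a, b, e], _ =>
      have ha : a ∈ W := hx a (by simp)
      have hb : b ∈ W := hx b (by simp)
      have he : e ∈ W := hx e (by simp)
      rw [dd3, hc2, hc2, hc2, ← h3 a ha b hb e he]
      generalize t a b = u
      generalize t b e = v
      revert u v
      decide
  obtain ⟨c', h1, k', h2⟩ := h c hc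
  refine ⟨fun a b => c' [a, b], ?_, fun a => k' [a], ?_⟩
  · intro x hx
    have h3 : dd c' ∈ Nz x 3 := h1 x hx
    obtain ⟨W, hW, hxW, h4⟩ := exists_of_mem_Nz (by norm_num) h3
    refine ⟨W, hW.mem_nhds hxW, fun a ha b hb e he => ?_⟩
    have h5 := h4 [a, b, e] rfl (by
      intro y hy
      simp only [List.mem_cons, List.not_mem_nil, or_false] at hy
      rcases hy with rfl | rfl | rfl
      · exact ha
      · exact hb
      · exact he)
    rw [dd3] at h5
    change c' [a, b] + c' [b, e] = c' [a, e]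
    revert h5
    generalize c' [a, b] = u
    generalize c' [b, e] = v
    generalize c' [a, e] = w
    revert u v w
    decide
  · intro x hx
    have h3 : (c - c') - dd k' ∈ Nz x 2 := h2 x hx
    obtain ⟨W, hW, hxW, h4⟩ := exists_of_mem_Nz (by norm_num) h3
    refine ⟨W, hW.mem_nhds hxW, fun a ha b hb => ?_⟩
    have h5 := h4 [a, b] rfl (by
      intro y hy
      simp only [List.mem_cons, List.not_mem_nil, or_false] at hy
      rcases hy with rfl | rfl
      · exact ha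
      · exact hb)
    rw [Pi.sub_apply, Pi.sub_apply, dd2, hc2] at h5
    change t a b + c' [a, b] = k' [a] + k' [b]
    revert h5
    generalize t a b = u
    generalize c' [a, b] = v
    generalize k' [a] = w
    generalize k' [b] = w'
    revert u v w w'
    decide

/-- the Čech version -/
theorem sur_of_cech_one {P : Type*} [MetricSpace P] {Z : Set P} (hZ : IsCompact Z)
    (h : CechSurjectiveOne Z) : Sur Z := by
  apply sur_of_germ
  intro c hc
  rcases Z.eq_empty_or_nonempty with rfl | hne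
  · exact ⟨0, SoftCx.coc_zero _ _, SoftCx.Cob.of_mem (by simp)⟩
  obtain ⟨ρ, hρ1, hρ2, hρ3⟩ := exists_retraction hZ hne
  have hval : ∀ x ∈ (univ : Set Z), ContinuousAt (Subtype.val : Z → P) x := fun x _ =>
    continuous_subtype_val.continuousAt
  have hcZ : (AS Z).Coc univ (1 + 1) (pb Subtype.val c) := coc_pb hval (fun x _ => x.2) hc
  obtain ⟨c', hc', b, hb⟩ := h (pb Subtype.val c) (by
    rw [asD_eq, locallyZero_iff]; exact hcZ)
  have hc'' : (AS P).Coc univ (1 + 1) c' := by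
    rw [asD_eq, locallyZero_iff] at hc'; exact hc'
  refine ⟨c', hc'', ?_⟩
  have hk : (AS P).Coc Z (1 + 1) (c - c') :=
    SoftCx.Coc.sub hc (SoftCx.Coc.mono hc'' (subset_univ _))
  have hg : ∀ x ∈ Z, ContinuousAt (fun x => (⟨ρ x, hρ1 x⟩ : Z)) x := by
    intro x hx
    rw [ContinuousAt, tendsto_subtype_rng]
    exact hρ3 x hx
  have h1 := cob_retract (F := Z) (F' := (univ : Set Z)) (g := fun x => (⟨ρ x, hρ1 x⟩ : Z))
    (g' := Subtype.val) hg hval (fun _ _ => mem_univ _) (fun x _ => x.2)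
    (fun x hx => hρ2 x hx) hk
  have h2 : (AS Z).Cob univ (1 + 1) (pb Subtype.val (c - c')) := by
    refine ⟨b, ?_⟩
    rw [asD_eq, locallyZero_iff] at hb
    exact hb
  have h3 := SoftCx.Cob.add h1 (cob_pb hg (fun _ _ => mem_univ _) h2)
  simpa using h3

/-- surjectivity in germ-singular cohomology in degree one from injectivity in singular homology
in degree one -/
theorem sing_ext_one {P : Type*} [MetricSpace P] [CompactSpace P] (g : P → ℝ) (hg : Continuous g)
    (T : ℝ) (h : ∀ t < T, ∀ u : Sing P 1 →₀ ZMod 2, ChainIn {x | t ≤ g x} u → bdry P 0 u = 0 →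
      (∃ b, bdry P 1 b = u) → ∃ b, ChainIn {x | t ≤ g x} b ∧ bdry P 1 b = u) (s : SCh P)
    (hs : (Sg P).Coc {x | T ≤ g x} 2 s) :
    ∃ s', (Sg P).Coc univ 2 s' ∧ (Sg P).Cob {x | T ≤ g x} 2 (s - s') := by
  classical
  have hs2 : (Sg P).Coc {x | T ≤ g x} (1 + 1) s := hs
  show ∃ s', (Sg P).Coc univ (1 + 1) s' ∧ (Sg P).Cob {x | T ≤ g x} (1 + 1) (s - s')
  -- the good open sets
  set 𝒲 : Set (Set P) := {W | IsOpen W ∧ ∀ σ : Sing P (1 + 1), range σ ⊆ W →
    ∑ i : Fin (1 + 2), s 1 (sface 1 i σ) = 0} with h𝒲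
  have hZW : ∀ z : P, T ≤ g z → ∃ W ∈ 𝒲, z ∈ W := by
    intro z hz
    obtain ⟨W, hW, h1⟩ := hs2 z hz
    obtain ⟨U, hUW, hU, hzU⟩ := mem_nhds_iff.1 hW
    exact ⟨U, ⟨hU, fun σ hσ => h1 σ (hσ.trans hUW)⟩, hzU⟩
  have hU0 : IsOpen (⋃₀ 𝒲) := isOpen_sUnion fun W hW => hW.1
  obtain ⟨t0, ht0, ht0U⟩ : ∃ t0 < T, {x | t0 ≤ g x} ⊆ ⋃₀ 𝒲 := by
    rcases (⋃₀ 𝒲)ᶜ.eq_empty_or_nonempty with he | hne
    · refine ⟨T - 1, by linarith, ?_⟩
      rw [compl_empty_iff.1 he]; exact subset_univ _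
    · have hc : IsCompact (⋃₀ 𝒲)ᶜ := hU0.isClosed_compl.isCompact
      obtain ⟨x, hx, hmax⟩ := hc.exists_isMaxOn hne hg.continuousOn
      have hxT : g x < T := by
        by_contra hlt
        push Not at hlt
        obtain ⟨W, hW, hxW⟩ := hZW x hlt
        exact hx ⟨W, hW, hxW⟩
      refine ⟨(g x + T) / 2, by linarith, fun y hy => ?_⟩
      by_contra hyn
      have h1 : g y ≤ g x := hmax hyn
      have h2 : (g x + T) / 2 ≤ g y := hy
      linarith
  set V : Set P := {x | t0 < g x} with hV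
  have hVo : IsOpen V := isOpen_lt continuous_const hg
  set A : Set P := {x | g x < t0} with hA
  have hAo : IsOpen A := isOpen_lt hg continuous_const
  set 𝒞 : Set (Set P) := insert A 𝒲 with h𝒞
  have hCo : ∀ C ∈ 𝒞, IsOpen C := by
    rintro C (rfl | hC)
    · exact hAo
    · exact hC.1
  have hCcov : ∀ x : P, ∃ C ∈ 𝒞, x ∈ C := by
    intro x
    rcases lt_or_ge (g x) t0 with h1 | h1
    · exact ⟨A, mem_insert _ _, h1⟩
    · obtain ⟨W, hW, hxW⟩ := ht0U h1
      exact ⟨W, mem_insert_of_mem _ hW, hxW⟩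
  -- small simplices in V are in a good set
  have hgood : ∀ (σ : Sing P (1 + 1)), range σ ⊆ V → (∃ C ∈ 𝒞, range σ ⊆ C) →
      ∑ i : Fin (1 + 2), s 1 (sface 1 i σ) = 0 := by
    rintro σ hσV ⟨C, (rfl | hC), hσC⟩
    · exfalso
      have h1 : σ (stdSimplex.vertex 0) ∈ V := hσV ⟨_, rfl⟩
      have h2 : σ (stdSimplex.vertex 0) ∈ A := hσC ⟨_, rfl⟩
      have h1' : t0 < g (σ (stdSimplex.vertex 0)) := h1
      have h2' : g (σ (stdSimplex.vertex 0)) < t0 := h2
      exact lt_asymm h1' h2'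
    · exact hC.2 σ hσC
  -- linear algebra
  set sk : (Sing P 1 →₀ ZMod 2) →ₗ[ZMod 2] ZMod 2 :=
    Finsupp.linearCombination (ZMod 2) (s 1) with hsk
  have hsk1 : ∀ τ, sk (Finsupp.single τ 1) = s 1 τ := by
    intro τ; simp [hsk, Finsupp.linearCombination_single]
  set S1 : Submodule (ZMod 2) (Sing P (1 + 1) →₀ ZMod 2) :=
    Finsupp.supported (ZMod 2) (ZMod 2) {σ | ∃ C ∈ 𝒞, range σ ⊆ C} with hS1
  set B : Submodule (ZMod 2) (Sing P 1 →₀ ZMod 2) := S1.map (bdry P 1) with hB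
  set VS : Submodule (ZMod 2) (Sing P 1 →₀ ZMod 2) :=
    Finsupp.supported (ZMod 2) (ZMod 2) {σ | range σ ⊆ V ∧ ∃ C ∈ 𝒞, range σ ⊆ C} with hVS
  -- Claim A
  have claimA : ∀ z ∈ VS, IsCycle 1 z → (∃ w, bdry P 1 w = z) → sk z = 0 := by
    intro z hz hcyc hbd
    have hzs : ∀ σ ∈ z.support, range σ ⊆ V ∧ ∃ C ∈ 𝒞, range σ ⊆ C := by
      intro σ hσ
      exact (Finsupp.mem_supported _ _).1 hz (by exact_mod_cast hσ)
    -- find t'
    obtain ⟨t', ht0', htT, hin⟩ : ∃ t', t0 < t' ∧ t' < T ∧ ∀ σ ∈ z.support,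
        range σ ⊆ {x | t' ≤ g x} := by
      have hcomp : IsCompact (⋃ σ ∈ z.support, range (σ : Sing P 1)) := by
        apply z.support.finite_toSet.isCompact_biUnion
        intro σ _
        exact isCompact_range σ.continuous
      rcases (⋃ σ ∈ z.support, range (σ : Sing P 1)).eq_empty_or_nonempty with he | hne
      · refine ⟨(t0 + T) / 2, by linarith, by linarith, fun σ hσ => ?_⟩
        have : range (σ : Sing P 1) ⊆ ⋃ σ ∈ z.support, range (σ : Sing P 1) :=
          subset_biUnion_of_mem (u := fun σ : Sing P 1 => range σ) hσ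
        rw [he] at this
        exact this.trans (empty_subset _)
      · obtain ⟨x, hx, hmin⟩ := hcomp.exists_isMinOn hne hg.continuousOn
        have hxV : t0 < g x := by
          simp only [mem_iUnion] at hx
          obtain ⟨σ, hσ, hxσ⟩ := hx
          exact (hzs σ hσ).1 hxσ
        refine ⟨min (g x) ((t0 + T) / 2), lt_min hxV (by linarith),
          lt_of_le_of_lt (min_le_right _ _) (by linarith), fun σ hσ y hy => ?_⟩
        have hy' : y ∈ ⋃ σ ∈ z.support, range (σ : Sing P 1) := by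
          simp only [mem_iUnion]
          exact ⟨σ, hσ, hy⟩
        exact (min_le_left _ _).trans (isMinOn_iff.1 hmin y hy')
    obtain ⟨b, hb, hbz⟩ := h t' htT z hin hcyc hbd
    have hbV : ChainIn V b := by
      intro σ hσ
      refine (hb σ hσ).trans fun x hx => ?_
      exact lt_of_lt_of_le ht0' hx
    obtain ⟨b', hb', hbz'⟩ := small_bound 𝒞 V hCo (fun x _ => hCcov x) 1 z hzs b hbV hbz
    rw [← hbz']
    apply sx_bdry_zero
    intro σ hσ
    simp only [hsk1]
    exact hgood σ (hb' σ hσ).1 (hb' σ hσ).2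
  -- Claim B
  obtain ⟨φ, hφ1, hφ2⟩ : ∃ φ : (Sing P 1 →₀ ZMod 2) →ₗ[ZMod 2] ZMod 2,
      (∀ z ∈ VS, IsCycle 1 z → φ z = sk z) ∧ (∀ z ∈ B, φ z = 0) := by
    set Zc : Submodule (ZMod 2) (Sing P 1 →₀ ZMod 2) := VS ⊓ sx_cyc P 1 with hZc
    have hfac : ∀ x : Zc, (B.mkQ ∘ₗ Zc.subtype) x = 0 → (sk ∘ₗ Zc.subtype) x = 0 := by
      rintro ⟨z, hz⟩ hz0
      have h1 : z ∈ B := by
        have : B.mkQ z = 0 := hz0
        rwa [Submodule.mkQ_apply, Submodule.Quotient.mk_eq_zero] at this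
      obtain ⟨w, _, hw⟩ := h1
      exact claimA z hz.1 (sx_mem_cyc.1 hz.2) ⟨w, hw⟩
    obtain ⟨ψ, hψ⟩ := sx_factor (E := Zc) (B.mkQ ∘ₗ Zc.subtype) (sk ∘ₗ Zc.subtype) hfac
    refine ⟨ψ ∘ₗ B.mkQ, ?_, ?_⟩
    · intro z hz hc
      exact hψ ⟨z, hz, sx_mem_cyc.2 hc⟩
    · intro z hz
      have : B.mkQ z = 0 := by
        rw [Submodule.mkQ_apply, Submodule.Quotient.mk_eq_zero]; exact hz
      rw [LinearMap.comp_apply, this, map_zero]
  set s' : SCh P := Function.update 0 1 (fun σ => φ (Finsupp.single σ 1)) with hs'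
  have hs'1 : ∀ σ, s' 1 σ = φ (Finsupp.single σ 1) := by
    intro σ; rw [hs', Function.update_self]
  have hVSs : ∀ σ : Sing P 1, range σ ⊆ V → (∃ C ∈ 𝒞, range σ ⊆ C) →
      Finsupp.single σ (1 : ZMod 2) ∈ VS := by
    intro σ h1 h2
    exact Finsupp.single_mem_supported _ _ ⟨h1, h2⟩
  refine ⟨s', ?_, ?_⟩
  · -- cocycle
    intro z _
    obtain ⟨C, hC, hzC⟩ := hCcov z
    refine ⟨C, (hCo C hC).mem_nhds hzC, fun σ hσ => ?_⟩
    change ∑ i : Fin (1 + 2), s' 1 (sface 1 i σ) = 0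
    have h1 : bdry P 1 (Finsupp.single σ 1) ∈ B :=
      Submodule.mem_map_of_mem (Finsupp.single_mem_supported _ _ ⟨C, hC, hσ⟩)
    have h2 := hφ2 _ h1
    rw [sx_bdry_single, map_sum] at h2
    simp only [hs'1]
    exact h2
  · -- coboundary
    obtain ⟨r, hr⟩ : ∃ r : SCh P, ∀ σ : Sing P 1, range σ ⊆ V → (∃ C ∈ 𝒞, range σ ⊆ C) →
        s 1 σ - s' 1 σ - sdf r 1 σ = 0 := by
      obtain ⟨r, hr⟩ := sx_cob 1 VS (sk - φ) (fun z hz hc => by
        rw [LinearMap.sub_apply, hφ1 z hz hc, sub_self])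
      refine ⟨r, fun σ h1 h2 => ?_⟩
      have h3 := hr σ (hVSs σ h1 h2)
      rwa [LinearMap.sub_apply, hsk1, ← hs'1] at h3
    refine ⟨r, fun z hz => ?_⟩
    obtain ⟨W, hW, hzW⟩ := hZW z hz
    refine ⟨W ∩ V, Filter.inter_mem (hW.1.mem_nhds hzW) (hVo.mem_nhds (lt_of_lt_of_le ht0 hz)),
      fun σ hσ => ?_⟩
    exact hr σ (hσ.trans inter_subset_right) ⟨W, mem_insert_of_mem _ hW,
      hσ.trans inter_subset_left⟩

/-- the local cohomology at a point with small contractible neighbourhoods is trivial -/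
theorem sg_acy_point' {P : Type*} [MetricSpace P] (z : P)
    (hloc : ∀ W ∈ 𝓝 z, ∃ (V : Set P) (hz : z ∈ V), V ∈ 𝓝 z ∧ V ⊆ W ∧
      Nonempty (ContinuousMap.Homotopy (ContinuousMap.id V) (ContinuousMap.const V ⟨z, hz⟩))) :
    (Sg P).Acy (theta one) {z} := by
  have hadj : ∀ W ∈ 𝓝 z, ∃ V ∈ 𝓝 z, V ⊆ W ∧ ∃ (K : ∀ q, Sing P q → Sing P (q + 1)),
    (∀ q (σ : Sing P q), Set.range σ ⊆ V → Set.range (K q σ) ⊆ V ∧ sface q 0 (K q σ) = σ) ∧
    (∀ q (σ : Sing P (q + 1)), Set.range σ ⊆ V → ∀ i : Fin (q + 2),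
      sface (q + 1) i.succ (K (q + 1) σ) = K q (sface q i σ)) ∧
    (∀ σ : Sing P 0, Set.range σ ⊆ V → sface 0 1 (K 0 σ) = ContinuousMap.const _ z) := by
    intro W hW
    obtain ⟨V, hz, hV, hVW, ⟨F⟩⟩ := hloc W hW
    exact ⟨V, hV, hVW, CV.coneData_of_nullhomotopic V ⟨z, hz⟩ F⟩
  have hconst : ∀ W ∈ 𝓝 z, Set.range (ContinuousMap.const (stdSimplex ℝ (Fin (0 + 1))) z) ⊆ W := by
    intro W hW
    rintro _ ⟨x, rfl⟩
    exact mem_of_mem_nhds hW
  have hth : ∀ σ : Sing P 0, theta (P := P) one 0 σ = 1 := fun σ => rfl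
  refine ⟨?_, ?_, ?_⟩
  · intro h
    obtain ⟨W, hW, h2⟩ := h z rfl
    have h3 := h2 (ContinuousMap.const _ z) (hconst W hW)
    rw [hth] at h3
    exact one_ne_zero h3
  · intro k hk
    obtain ⟨W, hW, h2⟩ := hk z rfl
    obtain ⟨V, hV, hVW, K, hK1, hK2, hK3⟩ := hadj W hW
    have key : ∀ σ : Sing P 0, Set.range σ ⊆ V → k 0 σ = k 0 (ContinuousMap.const _ z) := by
      intro σ hσ
      have h3 : ∑ i : Fin (0 + 2), k 0 (sface 0 i (K 0 σ)) = 0 :=
        h2 (K 0 σ) ((hK1 0 σ hσ).1.trans hVW)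
      rw [Fin.sum_univ_two, (hK1 0 σ hσ).2, hK3 σ hσ] at h3
      exact eq_of_add2 h3
    have h01 : k 0 (ContinuousMap.const _ z) = 0 ∨ k 0 (ContinuousMap.const _ z) = 1 := by
      generalize k 0 (ContinuousMap.const _ z) = t
      revert t; decide
    rcases h01 with h0 | h0
    · left
      intro w hw
      rw [mem_singleton_iff.1 hw]
      exact ⟨V, hV, fun σ hσ => by rw [key σ hσ, h0]⟩
    · right
      intro w hw
      rw [mem_singleton_iff.1 hw]
      refine ⟨V, hV, fun σ hσ => ?_⟩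
      show k 0 σ - theta (P := P) one 0 σ = 0
      rw [key σ hσ, h0, hth, sub_self]
  · intro n hn k hk
    obtain ⟨q, rfl⟩ : ∃ q, n = q + 2 := ⟨n - 2, by omega⟩
    obtain ⟨W, hW, h2⟩ := hk z rfl
    obtain ⟨V, hV, hVW, K, hK1, hK2, hK3⟩ := hadj W hW
    refine ⟨fun p τ => k (p + 1) (K p τ), ?_⟩
    intro w hw
    rw [mem_singleton_iff.1 hw]
    refine ⟨V, hV, fun σ hσ => ?_⟩
    show k (q + 1) σ - ∑ i : Fin (q + 2), k (q + 1) (K q (sface q i σ)) = 0
    have h3 : ∑ i : Fin (q + 1 + 2), k (q + 1) (sface (q + 1) i (K (q + 1) σ)) = 0 :=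
      h2 (K (q + 1) σ) ((hK1 (q + 1) σ hσ).1.trans hVW)
    rw [Fin.sum_univ_succ, (hK1 (q + 1) σ hσ).2] at h3
    have h4 : ∑ i : Fin (q + 2), k (q + 1) (sface (q + 1) i.succ (K (q + 1) σ))
        = ∑ i : Fin (q + 2), k (q + 1) (K q (sface q i σ)) :=
      Finset.sum_congr rfl fun i _ => by rw [hK2 q σ hσ i]
    have h5 := eq_of_add2 h3
    rw [h5]
    exact sub_eq_zero.2 h4

theorem cone_theta_ex' {P : Type*} [MetricSpace P]
    (hloc : ∀ z : P, ∀ W ∈ 𝓝 z, ∃ (V : Set P) (hz : z ∈ V), V ∈ 𝓝 z ∧ V ⊆ W ∧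
      Nonempty (ContinuousMap.Homotopy (ContinuousMap.id V) (ContinuousMap.const V ⟨z, hz⟩)))
    {Z : Set P} (hZ : IsCompact Z) (n : ℕ) :
    (SoftCx.cone (Theta (P := P))).Ex Z n :=
  SoftCx.ex_of_pointwise n hZ fun z _ k _ =>
    SoftCx.cone_ex_of_acy Theta one z (one_D_mem z) (acy_singleton z) (sg_acy_point' z (hloc z)) k

theorem theta_surj' {P : Type*} [MetricSpace P]
    (hloc : ∀ z : P, ∀ W ∈ 𝓝 z, ∃ (V : Set P) (hz : z ∈ V), V ∈ 𝓝 z ∧ V ⊆ W ∧
      Nonempty (ContinuousMap.Homotopy (ContinuousMap.id V) (ContinuousMap.const V ⟨z, hz⟩)))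
    {Z : Set P} (hZ : IsCompact Z) {n : ℕ} {s : SCh P} (hs : (Sg P).Coc Z n s) :
    ∃ c, (AS P).Coc Z n c ∧ (Sg P).Cob Z n (s - theta c) := by
  obtain ⟨⟨c, t⟩, h⟩ := cone_theta_ex' hloc hZ (n + 1) (0, s) (fun z hz => by
    refine ⟨?_, ?_⟩
    · change (AS P).D 0 ∈ (AS P).N z (n + 1 + 1)
      rw [map_zero]; exact zero_mem _
    · have := neg_mem (hs z hz)
      change theta 0 - (Sg P).D s ∈ (Sg P).N z (n + 1)
      have e : theta (0 : Ch P) = 0 := rfl
      rw [e, zero_sub]; exact this)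
  refine ⟨c, fun z hz => ?_, -t, fun z hz => ?_⟩
  · have h1 : (0 : Ch P) - (AS P).D c ∈ (AS P).N z (n + 1) := (h z hz).1
    have := neg_mem h1
    simpa using this
  · have := (h z hz).2
    change s - (theta c - (Sg P).D t) ∈ (Sg P).N z n at this
    rw [map_neg]
    convert this using 1
    abel

theorem theta_inj' {P : Type*} [MetricSpace P]
    (hloc : ∀ z : P, ∀ W ∈ 𝓝 z, ∃ (V : Set P) (hz : z ∈ V), V ∈ 𝓝 z ∧ V ⊆ W ∧
      Nonempty (ContinuousMap.Homotopy (ContinuousMap.id V) (ContinuousMap.const V ⟨z, hz⟩)))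
    {Z : Set P} (hZ : IsCompact Z) {n : ℕ} {c : Ch P} (hc : (AS P).Coc Z n c)
    (h : (Sg P).Cob Z n (theta c)) : (AS P).Cob Z n c := by
  obtain ⟨t, ht⟩ := h
  obtain ⟨⟨c', t'⟩, h'⟩ := cone_theta_ex' hloc hZ n (c, t) (fun z hz => ⟨hc z hz, ht z hz⟩)
  exact ⟨c', fun z hz => (h' z hz).1⟩

/-- tightness for singular homology in degree one gives surjectivity -/
theorem surj_of_sing_one {P : Type*} [MetricSpace P] [CompactSpace P]
    (hloc : ∀ z : P, ∀ W ∈ 𝓝 z, ∃ (V : Set P) (hz : z ∈ V), V ∈ 𝓝 z ∧ V ⊆ W ∧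
      Nonempty (ContinuousMap.Homotopy (ContinuousMap.id V) (ContinuousMap.const V ⟨z, hz⟩)))
    (g : P → ℝ) (hg : Continuous g)
    (T : ℝ) (h : ∀ t < T, ∀ u : Sing P 1 →₀ ZMod 2, ChainIn {x | t ≤ g x} u → bdry P 0 u = 0 →
      (∃ b, bdry P 1 b = u) → ∃ b, ChainIn {x | t ≤ g x} b ∧ bdry P 1 b = u) (c : Ch P)
    (hc : (AS P).Coc {x | T ≤ g x} 2 c) :
    ∃ c', (AS P).Coc univ 2 c' ∧ (AS P).Cob {x | T ≤ g x} 2 (c - c') := by
  have hZ : IsCompact {x | T ≤ g x} := (isClosed_le continuous_const hg).isCompact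
  have h1 : (Sg P).Coc {x | T ≤ g x} 2 (theta c) := by
    intro z hz
    have h2 := Theta.comm z (2 + 1) c
    have h3 := Theta.mem z (2 + 1) _ (hc z hz)
    simpa using add_mem h2 h3
  obtain ⟨s', hs', hs''⟩ := sing_ext_one g hg T h (theta c) h1
  obtain ⟨c', hc', hc''⟩ := theta_surj' hloc isCompact_univ hs'
  refine ⟨c', hc', theta_inj' hloc hZ (hc.sub (hc'.mono (subset_univ _))) ?_⟩
  have := hs''.add (hc''.mono (subset_univ _))
  rw [theta_sub]
  simpa using this

/-- the convex combination in the half space -/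
def hcomb_24245 (s : unitInterval) (x y : EuclideanHalfSpace 2) : EuclideanHalfSpace 2 :=
  ⟨(1 - (s : ℝ)) • x.1 + (s : ℝ) • y.1, EuclideanHalfSpace.convex x.2 y.2
    (by linarith [s.2.2]) s.2.1 (by ring)⟩

theorem hcomb_cont_24245 {A : Type*} [TopologicalSpace A] {s : A → unitInterval}
    {x : A → EuclideanHalfSpace 2} (y : EuclideanHalfSpace 2) (hs : Continuous s)
    (hx : Continuous x) : Continuous (fun a => hcomb_24245 (s a) (x a) y) := by
  apply Continuous.subtype_mk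
  have h1 : Continuous (fun a => ((s a : unitInterval) : ℝ)) := continuous_subtype_val.comp hs
  have h2 : Continuous (fun a => (x a).1) := continuous_subtype_val.comp hx
  exact ((continuous_const.sub h1).smul h2).add (h1.smul continuous_const)

/-- small contractible neighbourhoods in a surface with boundary -/
theorem exists_contr_half {M : Type*} [TopologicalSpace M] [ChartedSpace (EuclideanHalfSpace 2) M]
    (z : M) (W : Set M) (hW : W ∈ 𝓝 z) :
    ∃ (V : Set M) (hz : z ∈ V), V ∈ 𝓝 z ∧ V ⊆ W ∧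
      Nonempty (ContinuousMap.Homotopy (ContinuousMap.id V) (ContinuousMap.const V ⟨z, hz⟩)) := by
  obtain ⟨φ, hφ⟩ : ∃ φ : OpenPartialHomeomorph M (EuclideanHalfSpace 2), z ∈ φ.source :=
    ⟨chartAt _ z, mem_chart_source _ z⟩
  have hzt : φ z ∈ φ.target := φ.map_source hφ
  have h1 : φ.target ∩ φ.symm ⁻¹' W ∈ 𝓝 (φ z) := by
    apply Filter.inter_mem (φ.open_target.mem_nhds hzt)
    apply (φ.continuousAt_symm hzt).preimage_mem_nhds
    rw [φ.left_inv hφ]
    exact hW
  obtain ⟨r, hr, hball⟩ : ∃ r > 0, (Subtype.val ⁻¹' Metric.ball (φ z).1 r :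
      Set (EuclideanHalfSpace 2)) ⊆ φ.target ∩ φ.symm ⁻¹' W := by
    obtain ⟨O, hO, hOs⟩ := (mem_nhds_subtype _ _ _).1 h1
    obtain ⟨r, hr, hb⟩ := Metric.mem_nhds_iff.1 hO
    exact ⟨r, hr, fun x hx => hOs (hb hx)⟩
  set B : Set (EuclideanHalfSpace 2) := Subtype.val ⁻¹' Metric.ball (φ z).1 r with hB
  have hBo : IsOpen B := Metric.isOpen_ball.preimage continuous_subtype_val
  have hzB : φ z ∈ B := Metric.mem_ball_self hr
  have hsym : ∀ y ∈ B, φ.symm y ∈ φ.source ∩ φ ⁻¹' B := by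
    intro y hy
    refine ⟨φ.map_target (hball hy).1, ?_⟩
    rw [mem_preimage, φ.right_inv (hball hy).1]
    exact hy
  have hzV : z ∈ φ.source ∩ φ ⁻¹' B := ⟨hφ, hzB⟩
  refine ⟨φ.source ∩ φ ⁻¹' B, hzV, ?_, ?_, ?_⟩
  · exact (φ.isOpen_inter_preimage hBo).mem_nhds hzV
  · rintro x ⟨hx1, hx2⟩
    have h2 := (hball hx2).2
    rw [mem_preimage, φ.left_inv hx1] at h2
    exact h2
  · have hseg : ∀ (s : unitInterval) (x : ↥(φ.source ∩ φ ⁻¹' B)),
        hcomb_24245 s (φ x.1) (φ z) ∈ B := by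
      intro s x
      show (1 - (s : ℝ)) • (φ x.1).1 + (s : ℝ) • (φ z).1 ∈ Metric.ball (φ z).1 r
      apply (convex_ball (φ z).1 r) x.2.2 (Metric.mem_ball_self hr)
      · linarith [s.2.2]
      · exact s.2.1
      · ring
    have hcont : Continuous (fun p : unitInterval × ↥(φ.source ∩ φ ⁻¹' B) =>
        hcomb_24245 p.1 (φ p.2.1) (φ z)) := by
      have hφc : Continuous (fun x : ↥(φ.source ∩ φ ⁻¹' B) => φ x.1) := by
        apply φ.continuousOn.comp_continuous continuous_subtype_val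
        intro x
        exact x.2.1
      exact hcomb_cont_24245 (φ z) continuous_fst (hφc.comp continuous_snd)
    refine ⟨{ toFun := fun p => ⟨φ.symm (hcomb_24245 p.1 (φ p.2.1) (φ z)),
                hsym _ (hseg p.1 p.2)⟩
              continuous_toFun := ?_
              map_zero_left := ?_
              map_one_left := ?_ }⟩
    · apply Continuous.subtype_mk
      apply φ.continuousOn_symm.comp_continuous hcont
      intro p
      exact (hball (hseg p.1 p.2)).1
    · intro x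
      apply Subtype.ext
      have e : hcomb_24245 0 (φ x.1) (φ z) = φ x.1 := by
        apply Subtype.ext
        simp [hcomb_24245]
      show φ.symm (hcomb_24245 0 (φ x.1) (φ z)) = x.1
      rw [e, φ.left_inv x.2.1]
    · intro x
      apply Subtype.ext
      have e : hcomb_24245 1 (φ x.1) (φ z) = φ z := by
        apply Subtype.ext
        simp [hcomb_24245]
      show φ.symm (hcomb_24245 1 (φ x.1) (φ z)) = z
      rw [e, φ.left_inv hφ]

/-- both versions of tightness give the hypotheses on connectedness and surjectivity -/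
theorem tight_sur {M : Type*} [TopologicalSpace M] [CompactSpace M] [T2Space M] [ConnectedSpace M]
    [ChartedSpace (EuclideanHalfSpace 2) M] {N : ℕ} {f : M → EuclideanSpace ℝ (Fin N)}
    (hf : Continuous f) (ht : TightSurf f ∨ CechTightSurf f) :
    Conn0 f ∧ ∀ (z : EuclideanSpace ℝ (Fin N)) (c : ℝ), Sur {x | c ≤ ⟪z, f x⟫_ℝ} := by
  have h2c : SecondCountableTopology (EuclideanHalfSpace 2) :=
    TopologicalSpace.Subtype.secondCountableTopology _
  have hsc : SecondCountableTopology M :=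
    ChartedSpace.secondCountable_of_sigmaCompact (EuclideanHalfSpace 2) M
  have hmet : TopologicalSpace.MetrizableSpace M := inferInstance
  letI : MetricSpace M := TopologicalSpace.metrizableSpaceMetric M
  have hg : ∀ z : EuclideanSpace ℝ (Fin N), Continuous (fun x => ⟪z, f x⟫_ℝ) :=
    fun z => continuous_const.inner hf
  have h0 : ∀ c : ℝ, {x : M | c ≤ ⟪(0 : EuclideanSpace ℝ (Fin N)), f x⟫_ℝ} = univ ∨
      {x : M | c ≤ ⟪(0 : EuclideanSpace ℝ (Fin N)), f x⟫_ℝ} = ∅ := by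
    intro c
    by_cases hc : c ≤ 0
    · left
      rw [Set.eq_univ_iff_forall]
      intro x
      show c ≤ ⟪(0 : EuclideanSpace ℝ (Fin N)), f x⟫_ℝ
      rw [inner_zero_left]
      exact hc
    · right
      rw [Set.eq_empty_iff_forall_notMem]
      intro x hx
      have hx' : c ≤ ⟪(0 : EuclideanSpace ℝ (Fin N)), f x⟫_ℝ := hx
      rw [inner_zero_left] at hx'
      exact hc hx'
  have hSu : Sur (univ : Set M) := fun t ht => ⟨t, ht, by rw [add_self_co]; exact null_zero _⟩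
  have hSe : Sur (∅ : Set M) := fun t ht => ⟨0, coc_zero _, 0, fun x hx => absurd hx (Set.notMem_empty x)⟩
  constructor
  · intro z c
    by_cases hz : z = 0
    · subst hz
      rcases h0 c with h | h
      · rw [h]; exact isPreconnected_univ
      · rw [h]; exact isPreconnected_empty
    · rcases ht with ht | ht
      · exact (ht z c hz).1
      · exact (ht z c hz).1
  · intro z c
    by_cases hz : z = 0
    · subst hz
      rcases h0 c with h | h
      · rw [h]; exact hSu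
      · rw [h]; exact hSe
    · rcases ht with ht | ht
      · exact sur_of_germ (fun k hk => surj_of_sing_one (fun w W hW => exists_contr_half w W hW)
          (fun x => ⟪z, f x⟫_ℝ) (hg z) c (fun t _ => (ht z t hz).2) k hk)
      · exact sur_of_cech_one ((isClosed_le continuous_const (hg z)).isCompact) (ht z c hz).2

end Pool.Agent.Helper775.Surf
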