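import Pool.Agent.Helper775.Surf.Ext
import Pool.Agent.Helper775.Surf.Four
import Pool.Agent.Helper775.Surf.Tig

/-! The hull of a tight surface with boundary is a polytope. -/

set_option autoImplicit false

namespace Pool.Agent.Helper775.Surf

open Set Topology Metric
open Pool.Agent.Helper775.Tight
open scoped InnerProductSpace Manifold

/-- the hull has finitely many extreme points -/
theorem ext_finite {M : Type*} [TopologicalSpace M] [CompactSpace M] [T2Space M] [ConnectedSpace M]
    [LocallyPathConnectedSpace M] {N : ℕ} {f : M → EuclideanSpace ℝ (Fin N)} (S : Setup f)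
    (hN : 4 ≤ N) : (extremePoints ℝ (Hul f)).Finite := by
  by_contra hinf
  have h1 := inf_edges S (by omega) hinf
  obtain ⟨t, ht0, htn, h2⟩ := inf_same S (by omega) h1
  obtain ⟨a, b, he, ht, hd⟩ := inf_disjoint S hN hinf ht0 htn h2
  exact no_family S hN htn he ht hd

theorem polytope_of_finite {M : Type*} [TopologicalSpace M] [CompactSpace M] {N : ℕ}
    {f : M → EuclideanSpace ℝ (Fin N)} (hf : Continuous f)
    (h : (extremePoints ℝ (Hul f)).Finite) :
    ∃ s : Finset (EuclideanSpace ℝ (Fin N)), convexHull ℝ (range f) = convexHull ℝ (s : Set _) := by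
  have hK : IsCompact (Hul f) := hul_compact hf
  have hc : Convex ℝ (Hul f) := convex_convexHull _ _
  refine ⟨h.toFinset, ?_⟩
  rw [Set.Finite.coe_toFinset]
  have h1 := closure_convexHull_extremePoints hK hc
  rw [(Set.Finite.isCompact_convexHull ℝ h).isClosed.closure_eq] at h1
  exact h1.symm

/-- The final theorem. -/
theorem final_polytope {M : Type*} [TopologicalSpace M] [CompactSpace M] [T2Space M]
    [ConnectedSpace M] [ChartedSpace (EuclideanHalfSpace 2) M]
    (hb : ((𝓡∂ 2).boundary M).Nonempty) {N : ℕ} (hN : 4 ≤ N) (f : M → EuclideanSpace ℝ (Fin N))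
    (hf : Continuous f) (hloc : ∀ x, ∃ U ∈ 𝓝 x, InjOn f U) (hs : Substantial f)
    (ht : TightSurf f ∨ CechTightSurf f) :
    ∃ s : Finset (EuclideanSpace ℝ (Fin N)), convexHull ℝ (range f) = convexHull ℝ (s : Set _) := by
  have hsurf : IsSurf M := isSurf_of_charted hb
  haveI := surf_locPath hsurf
  obtain ⟨hc, hS⟩ := tight_sur hf ht
  exact polytope_of_finite hf (ext_finite ⟨hf, hloc, hs, hc, hS, hsurf, surf_finH1 hsurf,
    surf_punct hsurf, v_all hsurf⟩ hN)

end Pool.Agent.Helper775.Surf
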