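import Pool.Agent.Helper775.Surf.Coh

/-! Convex geometry of 0-tight maps. -/

set_option autoImplicit false

namespace Pool.Agent.Helper775.Surf

open Set Topology Metric
open scoped InnerProductSpace

variable {M : Type*} [TopologicalSpace M] {N : ℕ} {f : M → EuclideanSpace ℝ (Fin N)}

theorem conn_open (h0 : Conn0 f) (z : EuclideanSpace ℝ (Fin N)) (c : ℝ) :
    IsPreconnected {x | c < ⟪z, f x⟫_ℝ} := by
  apply isPreconnected_of_forall_pair
  intro x hx y hy
  have hx' : c < ⟪z, f x⟫_ℝ := hx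
  have hy' : c < ⟪z, f y⟫_ℝ := hy
  refine ⟨{w | min ⟪z, f x⟫_ℝ ⟪z, f y⟫_ℝ ≤ ⟪z, f w⟫_ℝ}, ?_, ?_, ?_, h0 z _⟩
  · intro w hw
    exact (lt_min hx' hy').trans_le hw
  · exact (min_le_left _ _ : min ⟪z, f x⟫_ℝ ⟪z, f y⟫_ℝ ≤ ⟪z, f x⟫_ℝ)
  · exact (min_le_right _ _ : min ⟪z, f x⟫_ℝ ⟪z, f y⟫_ℝ ≤ ⟪z, f y⟫_ℝ)

theorem conn_lt (h0 : Conn0 f) (z : EuclideanSpace ℝ (Fin N)) (c : ℝ) :
    IsPreconnected {x | ⟪z, f x⟫_ℝ < c} := by
  have h := conn_open h0 (-z) (-c)
  have e : {x | -c < ⟪-z, f x⟫_ℝ} = {x | ⟪z, f x⟫_ℝ < c} := by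
    ext x
    simp only [mem_setOf_eq, inner_neg_left, neg_lt_neg_iff]
  rwa [e] at h

/-- the part of the surface beyond all points of a finite set, in one direction, is connected -/
theorem conn_beyond (h0 : Conn0 f) {X : Set (EuclideanSpace ℝ (Fin N))} (hX : X.Finite)
    (hne : X.Nonempty) (z : EuclideanSpace ℝ (Fin N)) :
    IsPreconnected {x | ∀ q ∈ X, ⟪z, q⟫_ℝ < ⟪z, f x⟫_ℝ} := by
  obtain ⟨a, ha, hmax⟩ := Set.exists_max_image X (fun q => ⟪z, q⟫_ℝ) hX hne
  have e : {x | ∀ q ∈ X, ⟪z, q⟫_ℝ < ⟪z, f x⟫_ℝ} = {x | ⟪z, a⟫_ℝ < ⟪z, f x⟫_ℝ} := by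
    ext x
    simp only [mem_setOf_eq]
    constructor
    · intro h
      exact h a ha
    · intro h q hq
      exact (hmax q hq).trans_lt h
  rw [e]
  exact conn_open h0 z _

/-- the same for a connected set of directions -/
theorem conn_beyond_union (hf : Continuous f) (h0 : Conn0 f)
    {X : Set (EuclideanSpace ℝ (Fin N))} (hX : X.Finite) (hne : X.Nonempty)
    {Z : Set (EuclideanSpace ℝ (Fin N))} (hZ : IsPreconnected Z)
    (hZx : ∀ z ∈ Z, ∃ x, ∀ q ∈ X, ⟪z, q⟫_ℝ < ⟪z, f x⟫_ℝ) :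
    IsPreconnected (⋃ z ∈ Z, {x | ∀ q ∈ X, ⟪z, q⟫_ℝ < ⟪z, f x⟫_ℝ}) := by
  apply glue_conn hZ (fun z => {x | ∀ q ∈ X, ⟪z, q⟫_ℝ < ⟪z, f x⟫_ℝ})
    (fun z _ => conn_beyond h0 hX hne z)
  intro z hz
  obtain ⟨x, hx⟩ := hZx z hz
  refine ⟨x, hx, ?_⟩
  have h : ∀ᶠ j in 𝓝[Z] z, ∀ q ∈ X, ⟪j, q⟫_ℝ < ⟪j, f x⟫_ℝ := by
    rw [Filter.eventually_all_finite hX]
    intro q hq
    apply Filter.Eventually.filter_mono nhdsWithin_le_nhds
    have h1 : ContinuousAt (fun j : EuclideanSpace ℝ (Fin N) => ⟪j, q⟫_ℝ) z := by fun_prop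
    have h2 : ContinuousAt (fun j : EuclideanSpace ℝ (Fin N) => ⟪j, f x⟫_ℝ) z := by fun_prop
    exact h1.eventually_lt h2 (hx q hq)
  exact h

/-- points outside the hull of a finite set are beyond it in some direction -/
theorem beyond_of_notMem {X : Set (EuclideanSpace ℝ (Fin N))} (hX : X.Finite)
    (hne : X.Nonempty) {p : EuclideanSpace ℝ (Fin N)} (hp : p ∉ convexHull ℝ X) :
    ∃ z : EuclideanSpace ℝ (Fin N), z ≠ 0 ∧ ∀ q ∈ X, ⟪z, q⟫_ℝ < ⟪z, p⟫_ℝ := by
  obtain ⟨g, u, hg, hu⟩ := geometric_hahn_banach_closed_point (convex_convexHull ℝ X)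
    (hX.isCompact_convexHull (𝕜 := ℝ)).isClosed hp
  have hz : ∀ y, ⟪(InnerProductSpace.toDual ℝ (EuclideanSpace ℝ (Fin N))).symm g, y⟫_ℝ = g y :=
    fun y => InnerProductSpace.toDual_symm_apply
  have hall : ∀ q ∈ X, ⟪(InnerProductSpace.toDual ℝ (EuclideanSpace ℝ (Fin N))).symm g, q⟫_ℝ <
      ⟪(InnerProductSpace.toDual ℝ (EuclideanSpace ℝ (Fin N))).symm g, p⟫_ℝ := by
    intro q hq
    rw [hz, hz]
    exact (hg q (subset_convexHull ℝ X hq)).trans hu
  refine ⟨(InnerProductSpace.toDual ℝ (EuclideanSpace ℝ (Fin N))).symm g, ?_, hall⟩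
  intro h
  obtain ⟨q, hq⟩ := hne
  have := hall q hq
  rw [h, inner_zero_left, inner_zero_left] at this
  exact lt_irrefl _ this

theorem notMem_of_beyond {X : Set (EuclideanSpace ℝ (Fin N))}
    {p z : EuclideanSpace ℝ (Fin N)} (hz : ∀ q ∈ X, ⟪z, q⟫_ℝ < ⟪z, p⟫_ℝ) :
    p ∉ convexHull ℝ X := by
  intro hp
  have hconv : Convex ℝ {w : EuclideanSpace ℝ (Fin N) | ⟪z, w⟫_ℝ < ⟪z, p⟫_ℝ} :=
    convex_halfSpace_lt (f := fun w : EuclideanSpace ℝ (Fin N) => ⟪z, w⟫_ℝ)
      ⟨fun x y => inner_add_right z x y, fun c x => by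
        rw [inner_smul_right, smul_eq_mul]⟩ _
  have h : p ∈ {w : EuclideanSpace ℝ (Fin N) | ⟪z, w⟫_ℝ < ⟪z, p⟫_ℝ} :=
    convexHull_min (s := X) (fun q hq => hz q hq) hconv hp
  have h' : ⟪z, p⟫_ℝ < ⟪z, p⟫_ℝ := h
  exact lt_irrefl _ h'

section aplusaux

variable {E : Type*} [NormedAddCommGroup E] [InnerProductSpace ℝ E]

/-- joined inside `Z` -/
def ApJ (Z : Set E) (x y : E) : Prop := ∃ t, t ⊆ Z ∧ x ∈ t ∧ y ∈ t ∧ IsPreconnected t

omit [InnerProductSpace ℝ E] in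
theorem ApJ.symm {Z : Set E} {x y : E} (h : ApJ Z x y) : ApJ Z y x := by
  obtain ⟨t, h1, h2, h3, h4⟩ := h
  exact ⟨t, h1, h3, h2, h4⟩

omit [InnerProductSpace ℝ E] in
theorem ApJ.trans {Z : Set E} {x y z : E} (h : ApJ Z x y) (h' : ApJ Z y z) : ApJ Z x z := by
  obtain ⟨t, h1, h2, h3, h4⟩ := h
  obtain ⟨s, k1, k2, k3, k4⟩ := h'
  exact ⟨t ∪ s, union_subset h1 k1, Or.inl h2, Or.inr k3, h4.union y h3 k2 k4⟩

theorem ap_small (P : Submodule ℝ E) {w w' u u' : E} (hw : w ∈ P) (hw' : w' ∈ P)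
    (h1 : ⟪w, u⟫_ℝ = 0) (h2 : 0 < ⟪w', u⟫_ℝ) (h3 : 0 < ⟪w, u'⟫_ℝ) :
    ∃ v ∈ P, 0 < ⟪v, u⟫_ℝ ∧ 0 < ⟪v, u'⟫_ℝ := by
  obtain ⟨e, he⟩ : ∃ e : ℝ, e = ⟪w, u'⟫_ℝ / (|⟪w', u'⟫_ℝ| + 1) := ⟨_, rfl⟩
  have hpos : 0 < |⟪w', u'⟫_ℝ| + 1 := by positivity
  have he0 : 0 < e := by
    rw [he]
    positivity
  have he1 : e * (|⟪w', u'⟫_ℝ| + 1) = ⟪w, u'⟫_ℝ := by
    rw [he]
    exact div_mul_cancel₀ _ hpos.ne'
  refine ⟨w + e • w', P.add_mem hw (P.smul_mem e hw'), ?_, ?_⟩
  · rw [inner_add_left, real_inner_smul_left, h1, zero_add]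
    positivity
  · rw [inner_add_left, real_inner_smul_left]
    have h4 : -|⟪w', u'⟫_ℝ| ≤ ⟪w', u'⟫_ℝ := neg_abs_le _
    nlinarith

/-- half space inside `P` -/
def ApH (P : Submodule ℝ E) (u : E) : Set E := {w | w ∈ P ∧ 0 < ⟪w, u⟫_ℝ}

theorem ap_half (P : Submodule ℝ E) (u : E) : IsPreconnected (ApH P u) := by
  apply Convex.isPreconnected
  intro x hx y hy a b ha hb hab
  refine ⟨P.add_mem (P.smul_mem a hx.1) (P.smul_mem b hy.1), ?_⟩
  rw [inner_add_left, real_inner_smul_left, real_inner_smul_left]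
  have h1 := hx.2
  have h2 := hy.2
  rcases ha.eq_or_lt with h | h
  · have hb1 : b = 1 := by linarith
    rw [← h, hb1]
    linarith
  · have := mul_pos h h1
    have := mul_nonneg hb h2.le
    linarith

end aplusaux

theorem ap_exists {N : ℕ} (W : Submodule ℝ (EuclideanSpace ℝ (Fin N)))
    (h : Module.finrank ℝ W < N) : ∃ w ∈ Wᗮ, w ≠ 0 := by
  have h1 := Submodule.finrank_add_finrank_orthogonal W
  rw [finrank_euclideanSpace_fin] at h1
  have h2 : Wᗮ ≠ ⊥ := by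
    intro h3
    rw [h3, finrank_bot] at h1
    omega
  exact (Submodule.ne_bot_iff _).1 h2

/-- Balinski type connectedness: the preimage of the hull of a finite set in a flat of codimension
at least two does not separate -/
theorem aplus [CompactSpace M] [ConnectedSpace M] (hf : Continuous f) (h0 : Conn0 f)
    (hsub : ∀ (z : EuclideanSpace ℝ (Fin N)) (c : ℝ), z ≠ 0 → ∃ x, ⟪z, f x⟫_ℝ ≠ c)
    {X : Set (EuclideanSpace ℝ (Fin N))} (hX : X.Finite) (hne : X.Nonempty)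
    (V : Submodule ℝ (EuclideanSpace ℝ (Fin N))) (hV : ∀ p ∈ X, ∀ q ∈ X, q - p ∈ V)
    (hdim : Module.finrank ℝ V + 2 ≤ N) : IsPreconnected {x | f x ∉ convexHull ℝ X} := by
  obtain ⟨o, ho⟩ := hne
  obtain ⟨Z, hZdef⟩ : ∃ Z : Set (EuclideanSpace ℝ (Fin N)),
    Z = {z | ∃ x, ∀ q ∈ X, ⟪z, q⟫_ℝ < ⟪z, f x⟫_ℝ} := ⟨_, rfl⟩
  have hP : ∀ w ∈ Vᗮ, ∀ q ∈ X, ⟪w, q⟫_ℝ = ⟪w, o⟫_ℝ := by
    intro w hw q hq
    have h1 : ⟪w, q - o⟫_ℝ = 0 := by
      rw [real_inner_comm]
      exact (Submodule.mem_orthogonal V w).1 hw (q - o) (hV o ho q hq)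
    rw [inner_sub_right] at h1
    linarith
  have hHZ : ∀ x, ApH Vᗮ (f x - o) ⊆ Z := by
    intro x w hw
    rw [hZdef]
    refine ⟨x, fun q hq => ?_⟩
    have h1 := hw.2
    rw [inner_sub_right] at h1
    rw [hP w hw.1 q hq]
    linarith
  have hsgn : ∀ w ∈ Vᗮ, w ≠ 0 → ∃ x, ∃ w' : EuclideanSpace ℝ (Fin N), (w' = w ∨ w' = -w) ∧
      0 < ⟪w', f x - o⟫_ℝ := by
    intro w hw hw0
    obtain ⟨x, hx⟩ := hsub w ⟪w, o⟫_ℝ hw0
    rcases lt_or_gt_of_ne hx with h | h
    · refine ⟨x, -w, Or.inr rfl, ?_⟩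
      rw [inner_neg_left, inner_sub_right]
      linarith
    · refine ⟨x, w, Or.inl rfl, ?_⟩
      rw [inner_sub_right]
      linarith
  have hsgnP : ∀ w ∈ Vᗮ, ∀ w' : EuclideanSpace ℝ (Fin N), (w' = w ∨ w' = -w) → w' ∈ Vᗮ := by
    rintro w hw w' (h | h)
    · rw [h]
      exact hw
    · rw [h]
      exact Submodule.neg_mem _ hw
  have hPZ : ∃ w ∈ Vᗮ, ∃ x, 0 < ⟪w, f x - o⟫_ℝ := by
    obtain ⟨w, hw, hw0⟩ := ap_exists V (by omega)
    obtain ⟨x, w', h1, h2⟩ := hsgn w hw hw0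
    exact ⟨w', hsgnP w hw w' h1, x, h2⟩
  have hJH : ∀ x, ∀ w₁ ∈ ApH Vᗮ (f x - o), ∀ w₂ ∈ ApH Vᗮ (f x - o), ApJ Z w₁ w₂ := by
    intro x w₁ h1 w₂ h2
    exact ⟨ApH Vᗮ (f x - o), hHZ x, h1, h2, ap_half _ _⟩
  have hJP : ∀ x₁ x₂, ∀ w₁ ∈ ApH Vᗮ (f x₁ - o), ∀ w₂ ∈ ApH Vᗮ (f x₂ - o), ApJ Z w₁ w₂ := by
    intro x₁ x₂ w₁ h1 w₂ h2
    have hfr : Module.finrank ℝ ↥(V ⊔ Submodule.span ℝ {f x₁ - o}) < N := by
      have h3 := Submodule.finrank_add_le_finrank_add_finrank V (Submodule.span ℝ {f x₁ - o})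
      have h4 : Module.finrank ℝ ↥(Submodule.span ℝ {f x₁ - o}) ≤ 1 := by
        have h5 := finrank_span_le_card (R := ℝ) ({f x₁ - o} : Set (EuclideanSpace ℝ (Fin N)))
        simpa using h5
      omega
    obtain ⟨w, hw, hw0⟩ := ap_exists _ hfr
    have hwP : w ∈ Vᗮ := by
      rw [Submodule.mem_orthogonal] at hw ⊢
      intro v hv
      exact hw v (Submodule.mem_sup_left hv)
    have hwu : ⟪w, f x₁ - o⟫_ℝ = 0 := by
      rw [real_inner_comm]
      exact (Submodule.mem_orthogonal _ w).1 hw _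
        (Submodule.mem_sup_right (Submodule.mem_span_singleton_self _))
    have hwu' : ∀ w' : EuclideanSpace ℝ (Fin N), (w' = w ∨ w' = -w) → ⟪w', f x₁ - o⟫_ℝ = 0 := by
      rintro w' (h | h)
      · rw [h]
        exact hwu
      · rw [h, inner_neg_left, hwu, neg_zero]
    by_cases hc : ⟪w, f x₂ - o⟫_ℝ = 0
    · have hc' : ∀ w' : EuclideanSpace ℝ (Fin N), (w' = w ∨ w' = -w) → ⟪w', f x₂ - o⟫_ℝ = 0 := by
        rintro w' (h | h)
        · rw [h]
          exact hc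
        · rw [h, inner_neg_left, hc, neg_zero]
      obtain ⟨x₃, w', h3, h4⟩ := hsgn w hwP hw0
      have h5 := hsgnP w hwP w' h3
      obtain ⟨v, hv, hv1, hv2⟩ := ap_small Vᗮ h5 h1.1 (hwu' w' h3) h1.2 h4
      obtain ⟨v', hv', hv1', hv2'⟩ := ap_small Vᗮ h5 h2.1 (hc' w' h3) h2.2 h4
      exact (hJH x₁ w₁ h1 v ⟨hv, hv1⟩).trans ((hJH x₃ v ⟨hv, hv2⟩ v' ⟨hv', hv2'⟩).trans
        (hJH x₂ v' ⟨hv', hv1'⟩ w₂ h2))
    · have h3 : ∃ w' : EuclideanSpace ℝ (Fin N), (w' = w ∨ w' = -w) ∧ 0 < ⟪w', f x₂ - o⟫_ℝ := by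
        rcases lt_or_gt_of_ne hc with h | h
        · refine ⟨-w, Or.inr rfl, ?_⟩
          rw [inner_neg_left]
          linarith
        · exact ⟨w, Or.inl rfl, h⟩
      obtain ⟨w', h3, h4⟩ := h3
      obtain ⟨v, hv, hv1, hv2⟩ := ap_small Vᗮ (hsgnP w hwP w' h3) h1.1 (hwu' w' h3) h1.2 h4
      exact (hJH x₁ w₁ h1 v ⟨hv, hv1⟩).trans (hJH x₂ v ⟨hv, hv2⟩ w₂ h2)
  have hJZ : ∀ z ∈ Z, ∃ x, ∃ w ∈ ApH Vᗮ (f x - o), ApJ Z z w := by
    intro z hz
    have hz' := hz
    rw [hZdef] at hz'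
    obtain ⟨x₀, hx₀⟩ := hz'
    have hw : ∃ x, ∃ w ∈ ApH Vᗮ (f x - o), 0 ≤ ⟪w, f x₀ - o⟫_ℝ := by
      by_cases hc : ∃ w ∈ Vᗮ, 0 < ⟪w, f x₀ - o⟫_ℝ
      · obtain ⟨w, hw, hw'⟩ := hc
        exact ⟨x₀, w, ⟨hw, hw'⟩, hw'.le⟩
      · obtain ⟨w, hw, x, hx⟩ := hPZ
        refine ⟨x, w, ⟨hw, hx⟩, ?_⟩
        by_contra hneg
        apply hc
        refine ⟨-w, Submodule.neg_mem _ hw, ?_⟩
        rw [inner_neg_left]
        linarith
    obtain ⟨x, w, hw, hw0⟩ := hw
    refine ⟨x, w, hw, segment ℝ z w, ?_, left_mem_segment ℝ z w, right_mem_segment ℝ z w,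
      (convex_segment z w).isPreconnected⟩
    rintro v ⟨a, b, ha, hb, hab, rfl⟩
    rcases ha.eq_or_lt with h | h
    · have hb1 : b = 1 := by linarith
      rw [← h, hb1, zero_smul, one_smul, zero_add]
      exact hHZ x hw
    · rw [hZdef]
      refine ⟨x₀, fun q hq => ?_⟩
      have h1 := hx₀ q hq
      have h2 := hP w hw.1 q hq
      rw [inner_sub_right] at hw0
      rw [inner_add_left, inner_add_left, real_inner_smul_left, real_inner_smul_left,
        real_inner_smul_left, real_inner_smul_left, h2]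
      have h3 : a * ⟪z, q⟫_ℝ < a * ⟪z, f x₀⟫_ℝ := mul_lt_mul_of_pos_left h1 h
      have h4 : b * ⟪w, o⟫_ℝ ≤ b * ⟪w, f x₀⟫_ℝ := mul_le_mul_of_nonneg_left (by linarith) hb
      linarith
  have hZpre : IsPreconnected Z := by
    apply isPreconnected_of_forall_pair
    intro z₁ hz₁ z₂ hz₂
    obtain ⟨x₁, w₁, hw₁, hj₁⟩ := hJZ z₁ hz₁
    obtain ⟨x₂, w₂, hw₂, hj₂⟩ := hJZ z₂ hz₂
    exact (hj₁.trans (hJP x₁ x₂ w₁ hw₁ w₂ hw₂)).trans hj₂.symm
  have hfin := conn_beyond_union hf h0 hX ⟨o, ho⟩ hZpre (fun z hz => by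
    rw [hZdef] at hz
    exact hz)
  have hset : {x | f x ∉ convexHull ℝ X} = ⋃ z ∈ Z, {x | ∀ q ∈ X, ⟪z, q⟫_ℝ < ⟪z, f x⟫_ℝ} := by
    ext x
    simp only [mem_iUnion, exists_prop]
    constructor
    · intro hx
      obtain ⟨z, _, hz⟩ := beyond_of_notMem hX ⟨o, ho⟩ hx
      refine ⟨z, ?_, hz⟩
      rw [hZdef]
      exact ⟨x, hz⟩
    · rintro ⟨z, _, hz⟩
      exact notMem_of_beyond hz
  rw [hset]
  exact hfin

theorem sg3_compact_hull {E : Type*} [NormedAddCommGroup E] [NormedSpace ℝ E]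
    [FiniteDimensional ℝ E] {s : Set E} (hs : IsCompact s) : IsCompact (convexHull ℝ s) := by
  classical
  rcases s.eq_empty_or_nonempty with rfl | ⟨x0, hx0⟩
  · rw [convexHull_empty]
    exact isCompact_empty
  obtain ⟨n, hn⟩ : ∃ n, n = Module.finrank ℝ E + 1 := ⟨_, rfl⟩
  have hK : IsCompact ((stdSimplex ℝ (Fin n)) ×ˢ (Set.pi Set.univ (fun _ : Fin n => s))) :=
    (isCompact_stdSimplex ℝ (Fin n)).prod (isCompact_univ_pi fun _ => hs)
  have hcont : Continuous (fun p : (Fin n → ℝ) × (Fin n → E) => ∑ i, p.1 i • p.2 i) := by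
    refine continuous_finsetSum _ fun i _ => ?_
    exact ((continuous_apply i).comp continuous_fst).smul ((continuous_apply i).comp continuous_snd)
  have heq : convexHull ℝ s = (fun p : (Fin n → ℝ) × (Fin n → E) => ∑ i, p.1 i • p.2 i) ''
      ((stdSimplex ℝ (Fin n)) ×ˢ (Set.pi Set.univ (fun _ : Fin n => s))) := by
    apply Set.Subset.antisymm
    · intro x hx
      obtain ⟨ι, hι, z, w, hz, hai, hw0, hw1, hwz⟩ := eq_pos_convex_span_of_mem_convexHull hx
      have hcard : Fintype.card ι ≤ Fintype.card (Fin n) := by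
        have h1 := hai.card_le_finrank_succ
        have h2 := Submodule.finrank_le (vectorSpan ℝ (Set.range z))
        rw [Fintype.card_fin, hn]
        omega
      obtain ⟨e⟩ := Function.Embedding.nonempty_of_card_le hcard
      refine ⟨(Function.extend e w 0, Function.extend e z (fun _ => x0)), ⟨⟨?_, ?_⟩, ?_⟩, ?_⟩
      · intro j
        show (0 : ℝ) ≤ Function.extend e w 0 j
        by_cases hj : ∃ i, e i = j
        · obtain ⟨i, rfl⟩ := hj
          rw [e.injective.extend_apply]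
          exact (hw0 i).le
        · rw [Function.extend_apply' _ _ _ hj]
          exact le_rfl
      · rw [← hw1]
        symm
        refine Fintype.sum_of_injective e e.injective _ _ ?_ ?_
        · intro j hj
          show Function.extend e w 0 j = 0
          rw [Function.extend_apply' _ _ _ hj]
          rfl
        · intro i
          show w i = Function.extend e w 0 (e i)
          rw [e.injective.extend_apply]
      · intro j _
        by_cases hj : ∃ i, e i = j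
        · obtain ⟨i, rfl⟩ := hj
          show Function.extend e z (fun _ => x0) (e i) ∈ s
          rw [e.injective.extend_apply]
          exact hz ⟨i, rfl⟩
        · show Function.extend e z (fun _ => x0) j ∈ s
          rw [Function.extend_apply' _ _ _ hj]
          exact hx0
      · rw [← hwz]
        symm
        refine Fintype.sum_of_injective e e.injective _ _ ?_ ?_
        · intro j hj
          show Function.extend e w 0 j • Function.extend e z (fun _ => x0) j = 0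
          rw [Function.extend_apply' w _ _ hj]
          simp
        · intro i
          show w i • z i = Function.extend e w 0 (e i) • Function.extend e z (fun _ => x0) (e i)
          rw [e.injective.extend_apply, e.injective.extend_apply]
    · rintro _ ⟨⟨w, z⟩, ⟨⟨hw0, hw1⟩, hz⟩, rfl⟩
      refine (convex_convexHull ℝ s).sum_mem (fun i _ => hw0 i) hw1 (fun i _ => ?_)
      exact subset_convexHull ℝ s (hz i (Set.mem_univ i))
  rw [heq]
  exact hK.image hcont

theorem hul_compact [CompactSpace M] (hf : Continuous f) : IsCompact (Hul f) :=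
  sg3_compact_hull (isCompact_range hf)

/-- an extreme point is separated from the image of the complement of a neighbourhood -/
theorem ext_cap [CompactSpace M] (hf : Continuous f) {p : EuclideanSpace ℝ (Fin N)}
    (hp : p ∈ extremePoints ℝ (Hul f)) {V : Set M} (hV : IsOpen V) (hpV : ∀ x, f x = p → x ∈ V) :
    ∃ (z : EuclideanSpace ℝ (Fin N)) (c : ℝ), c < ⟪z, p⟫_ℝ ∧ {x | c ≤ ⟪z, f x⟫_ℝ} ⊆ V := by
  have hS : IsCompact (f '' Vᶜ) := (hV.isClosed_compl.isCompact).image hf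
  have hC : IsClosed (convexHull ℝ (f '' Vᶜ)) := (sg3_compact_hull hS).isClosed
  have hsub : convexHull ℝ (f '' Vᶜ) ⊆ Hul f := convexHull_mono (image_subset_range f Vᶜ)
  have hp2 : p ∉ convexHull ℝ (f '' Vᶜ) := by
    intro h
    have h1 : p ∈ extremePoints ℝ (convexHull ℝ (f '' Vᶜ)) :=
      inter_extremePoints_subset_extremePoints_of_subset hsub ⟨h, hp⟩
    obtain ⟨x, hx, hxp⟩ := extremePoints_convexHull_subset h1
    exact hx (hpV x hxp)
  obtain ⟨g, u, h1, h2⟩ := geometric_hahn_banach_closed_point (convex_convexHull ℝ _) hC hp2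
  refine ⟨(InnerProductSpace.toDual ℝ _).symm g, u, ?_, ?_⟩
  · rw [InnerProductSpace.toDual_symm_apply]
    exact h2
  · intro x hx
    by_contra hxV
    have h3 : u ≤ ⟪(InnerProductSpace.toDual ℝ _).symm g, f x⟫_ℝ := hx
    rw [InnerProductSpace.toDual_symm_apply] at h3
    have h4 := h1 (f x) (subset_convexHull ℝ _ ⟨x, hxV, rfl⟩)
    linarith

/-- an extreme point has exactly one preimage -/
theorem ext_unique [CompactSpace M] [T2Space M] (hf : Continuous f)
    (hloc : ∀ x, ∃ U ∈ 𝓝 x, InjOn f U) (h0 : Conn0 f) {p : EuclideanSpace ℝ (Fin N)}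
    (hp : p ∈ extremePoints ℝ (Hul f)) : ∃ x, f x = p ∧ ∀ y, f y = p → y = x := by
  obtain ⟨x, hx⟩ := extremePoints_convexHull_subset hp
  refine ⟨x, hx, ?_⟩
  intro y hy
  by_contra hne
  obtain ⟨U, hU, hinj⟩ := hloc x
  have hcl : IsClosed {w | f w = p} := isClosed_eq hf continuous_const
  have hcl2 : IsClosed ({w | f w = p} ∩ (interior U)ᶜ) := hcl.inter isOpen_interior.isClosed_compl
  have hdis : Disjoint ({x} : Set M) ({w | f w = p} ∩ (interior U)ᶜ) := by
    rw [Set.disjoint_singleton_left]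
    intro h
    exact h.2 (mem_interior_iff_mem_nhds.2 hU)
  obtain ⟨u, v, hu, hv, hxu, hyv, huv⟩ := SeparatedNhds.of_isCompact_isCompact
    isCompact_singleton hcl2.isCompact hdis
  have key : ∀ w, f w = p → w ≠ x → w ∈ v := by
    intro w hw hwx
    refine hyv ⟨hw, fun hwU => hwx ?_⟩
    exact hinj (interior_subset hwU) (mem_of_mem_nhds hU) (hw.trans hx.symm)
  have hxu' : x ∈ u := hxu rfl
  obtain ⟨z, c, hc, hsub⟩ := ext_cap hf hp (hu.union hv) (by
    intro w hw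
    by_cases hwx : w = x
    · rw [hwx]; exact Or.inl hxu'
    · exact Or.inr (key w hw hwx))
  have hconn := h0 z c
  obtain ⟨w, -, hw1, hw2⟩ := hconn u v hu hv hsub
    ⟨x, by show c ≤ ⟪z, f x⟫_ℝ; rw [hx]; exact hc.le, hxu'⟩
    ⟨y, by show c ≤ ⟪z, f y⟫_ℝ; rw [hy]; exact hc.le, key y hy hne⟩
  exact Set.disjoint_left.1 huv hw1 hw2

/-- classes on open half-spaces extend -/
theorem sur_lt [CompactSpace M] (S : Setup f) (z : EuclideanSpace ℝ (Fin N)) (c : ℝ) :
    Sur {x | ⟪z, f x⟫_ℝ < c} := by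
  intro t ht
  obtain ⟨t', h1, h2⟩ := sur_directed S.fin
    (S := {U : Set M | ∃ c' : ℝ, c' < c ∧ U = {x | ⟪z, f x⟫_ℝ < c'}})
    (by
      rintro U ⟨c', _, rfl⟩
      exact isOpen_lt (continuous_const.inner S.cont) continuous_const)
    (by
      rintro U ⟨c', _, rfl⟩
      exact conn_lt S.conn z c')
    (by
      rintro U ⟨c1, hc1, rfl⟩ V ⟨c2, hc2, rfl⟩
      refine ⟨_, ⟨max c1 c2, max_lt hc1 hc2, rfl⟩, ?_, ?_⟩
      · intro x hx
        exact lt_of_lt_of_le (show ⟪z, f x⟫_ℝ < c1 from hx) (le_max_left _ _)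
      · intro x hx
        exact lt_of_lt_of_le (show ⟪z, f x⟫_ℝ < c2 from hx) (le_max_right _ _))
    (t := t)
    (by
      rintro U ⟨c', hc', rfl⟩
      have hsub : {x | -c' ≤ ⟪-z, f x⟫_ℝ} ⊆ {x | ⟪z, f x⟫_ℝ < c} := by
        intro x hx
        have hx' : -c' ≤ ⟪-z, f x⟫_ℝ := hx
        rw [inner_neg_left] at hx'
        show ⟪z, f x⟫_ℝ < c
        linarith
      obtain ⟨t', g1, g2⟩ := S.sur (-z) (-c') t (ht.mono hsub)
      refine ⟨t', g1, g2.mono ?_⟩
      intro x hx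
      have hx' : ⟪z, f x⟫_ℝ < c' := hx
      show -c' ≤ ⟪-z, f x⟫_ℝ
      rw [inner_neg_left]
      linarith)
  refine ⟨t', h1, h2.mono ?_⟩
  intro x hx
  have hx' : ⟪z, f x⟫_ℝ < c := hx
  refine ⟨_, ⟨(⟪z, f x⟫_ℝ + c) / 2, by linarith, rfl⟩, ?_⟩
  show ⟪z, f x⟫_ℝ < (⟪z, f x⟫_ℝ + c) / 2
  linarith

/-- extreme points are not images of interior points -/
theorem ext_notInt [CompactSpace M] [T2Space M] (S : Setup f) {p : EuclideanSpace ℝ (Fin N)}
    (hp : p ∈ extremePoints ℝ (Hul f)) {x : M} (hx : f x = p) : ¬ IntPt x := by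
  intro hint
  obtain ⟨v, hv, hv2⟩ := S.vp x hint
  obtain ⟨x0, _, hun⟩ := ext_unique S.cont S.loc S.conn hp
  have hxx : ∀ y, f y = p → y = x := fun y hy => (hun y hy).trans (hun x hx).symm
  obtain ⟨t', h1, h2⟩ := sur_directed S.fin
    (S := {U : Set M | ∃ (z : EuclideanSpace ℝ (Fin N)) (c : ℝ), c < ⟪z, p⟫_ℝ ∧
      U = {x' | ⟪z, f x'⟫_ℝ < c}})
    (by
      rintro U ⟨z, c, _, rfl⟩
      exact isOpen_lt (continuous_const.inner S.cont) continuous_const)
    (by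
      rintro U ⟨z, c, _, rfl⟩
      exact conn_lt S.conn z c)
    (by
      rintro U ⟨z1, c1, hc1, rfl⟩ V ⟨z2, c2, hc2, rfl⟩
      have ho : IsOpen ({x' | c1 < ⟪z1, f x'⟫_ℝ} ∩ {x' | c2 < ⟪z2, f x'⟫_ℝ}) :=
        (isOpen_lt continuous_const (continuous_const.inner S.cont)).inter
          (isOpen_lt continuous_const (continuous_const.inner S.cont))
      obtain ⟨z3, c3, hc3, hsub⟩ := ext_cap S.cont hp ho (by
        intro y hy
        constructor
        · show c1 < ⟪z1, f y⟫_ℝ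
          rw [hy]; exact hc1
        · show c2 < ⟪z2, f y⟫_ℝ
          rw [hy]; exact hc2)
      refine ⟨_, ⟨z3, c3, hc3, rfl⟩, ?_, ?_⟩
      · intro y hy
        have hy' : ⟪z1, f y⟫_ℝ < c1 := hy
        show ⟪z3, f y⟫_ℝ < c3
        by_contra hcon
        have := (hsub (not_lt.1 hcon)).1
        have h3 : c1 < ⟪z1, f y⟫_ℝ := this
        linarith
      · intro y hy
        have hy' : ⟪z2, f y⟫_ℝ < c2 := hy
        show ⟪z3, f y⟫_ℝ < c3
        by_contra hcon
        have := (hsub (not_lt.1 hcon)).2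
        have h3 : c2 < ⟪z2, f y⟫_ℝ := this
        linarith)
    (t := v)
    (by
      rintro U ⟨z, c, hc, rfl⟩
      have hsub : {x' | ⟪z, f x'⟫_ℝ < c} ⊆ ({x}ᶜ : Set M) := by
        intro y hy hyx
        have hy' : ⟪z, f y⟫_ℝ < c := hy
        rw [Set.mem_singleton_iff] at hyx
        rw [hyx, hx] at hy'
        linarith
      exact sur_lt S z c v (hv.mono hsub))
  refine hv2 t' h1 (h2.mono ?_)
  intro y hy
  have hyx : y ≠ x := hy
  obtain ⟨z, c, hc, hsub⟩ := ext_cap S.cont hp (isOpen_compl_singleton (x := y)) (by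
    intro y' hy' hyy
    rw [Set.mem_singleton_iff] at hyy
    exact hyx (by rw [← hyy]; exact hxx y' hy'))
  refine ⟨_, ⟨z, c, hc, rfl⟩, ?_⟩
  show ⟪z, f y⟫_ℝ < c
  by_contra hcon
  exact hsub (not_lt.1 hcon) rfl

/-! ### edges -/

theorem Edge.symm {a b : EuclideanSpace ℝ (Fin N)} (h : Edge f a b) : Edge f b a := by
  obtain ⟨hne, n, m, h1, h2⟩ := h
  exact ⟨hne.symm, n, m, h1, by rw [h2, segment_symm]⟩

theorem CEdge.symm {a b : EuclideanSpace ℝ (Fin N)} (h : CEdge f a b) : CEdge f b a := by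
  obtain ⟨he, y, hy, hy2⟩ := h
  exact ⟨Edge.symm he, y, hy, by rw [openSegment_symm]; exact hy2⟩

theorem edge_ext {a b : EuclideanSpace ℝ (Fin N)} (h : Edge f a b) :
    a ∈ extremePoints ℝ (Hul f) := by
  obtain ⟨hne, n, m, h1, h2⟩ := h
  have haS : a ∈ segment ℝ a b := left_mem_segment ℝ a b
  rw [← h2] at haS
  obtain ⟨haH, ham⟩ := haS
  rw [mem_extremePoints_iff_left]
  refine ⟨haH, ?_⟩
  intro x₁ hx₁ x₂ hx₂ hx
  obtain ⟨α, β, hα, hβ, hαβ, hcomb⟩ := hx
  have e1 : α * ⟪n, x₁⟫_ℝ + β * ⟪n, x₂⟫_ℝ = m := by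
    rw [← ham, ← hcomb, inner_add_right, inner_smul_right, inner_smul_right]
  have l1 := h1 x₁ hx₁
  have l2 := h1 x₂ hx₂
  have f1 : ⟪n, x₁⟫_ℝ = m := by
    apply le_antisymm l1
    by_contra hlt
    push Not at hlt
    have : α * ⟪n, x₁⟫_ℝ < α * m := mul_lt_mul_of_pos_left hlt hα
    have h3 : β * ⟪n, x₂⟫_ℝ ≤ β * m := mul_le_mul_of_nonneg_left l2 hβ.le
    have h4 : α * m + β * m = m := by rw [← add_mul, hαβ, one_mul]
    linarith
  have f2 : ⟪n, x₂⟫_ℝ = m := by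
    apply le_antisymm l2
    by_contra hlt
    push Not at hlt
    have : β * ⟪n, x₂⟫_ℝ < β * m := mul_lt_mul_of_pos_left hlt hβ
    have h3 : α * ⟪n, x₁⟫_ℝ ≤ α * m := mul_le_mul_of_nonneg_left l1 hα.le
    have h4 : α * m + β * m = m := by rw [← add_mul, hαβ, one_mul]
    linarith
  have s1 : x₁ ∈ segment ℝ a b := by rw [← h2]; exact ⟨hx₁, f1⟩
  have s2 : x₂ ∈ segment ℝ a b := by rw [← h2]; exact ⟨hx₂, f2⟩
  rw [segment_eq_image'] at s1 s2
  obtain ⟨s, ⟨hs0, hs1⟩, rfl⟩ := s1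
  obtain ⟨t, ⟨ht0, ht1⟩, rfl⟩ := s2
  have e2 : (α * s + β * t) • (b - a) = 0 := by
    have : α • (a + s • (b - a)) + β • (a + t • (b - a)) = (α + β) • a +
        (α * s + β * t) • (b - a) := by
      module
    rw [this, hαβ, one_smul] at hcomb
    exact add_eq_left.1 hcomb
  have e3 : α * s + β * t = 0 := by
    rcases smul_eq_zero.1 e2 with h | h
    · exact h
    · exact absurd (sub_eq_zero.1 h).symm hne
  have e4 : s = 0 := by
    have p1 : 0 ≤ α * s := mul_nonneg hα.le hs0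
    have p2 : 0 ≤ β * t := mul_nonneg hβ.le ht0
    have p3 : α * s = 0 := by linarith
    rcases mul_eq_zero.1 p3 with h | h
    · exact absurd h hα.ne'
    · exact h
  show a + s • (b - a) = a
  rw [e4, zero_smul, add_zero]

/-- an extreme point of the hull in the convex hull of a subset is in the subset -/
theorem ext_mem_of_hull {X : Set (EuclideanSpace ℝ (Fin N))} (hX : X ⊆ Hul f)
    {p : EuclideanSpace ℝ (Fin N)} (hp : p ∈ extremePoints ℝ (Hul f)) (h : p ∈ convexHull ℝ X) :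
    p ∈ X := by
  have hsub : convexHull ℝ X ⊆ Hul f := convexHull_min hX (convex_convexHull ℝ _)
  exact extremePoints_convexHull_subset
    (inter_extremePoints_subset_extremePoints_of_subset hsub ⟨h, hp⟩)

/-- the functional of an edge on the surface -/
theorem edge_fun {a b : EuclideanSpace ℝ (Fin N)} (h : Edge f a b) :
    ∃ (n : EuclideanSpace ℝ (Fin N)) (m : ℝ), ⟪n, a⟫_ℝ = m ∧ ⟪n, b⟫_ℝ = m ∧ (∀ x, ⟪n, f x⟫_ℝ ≤ m) ∧
      (∀ x, ⟪n, f x⟫_ℝ = m ↔ f x ∈ segment ℝ a b) ∧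
      (∀ r ∈ Hul f, ⟪n, r⟫_ℝ ≤ m ∧ (⟪n, r⟫_ℝ = m ↔ r ∈ segment ℝ a b)) := by
  obtain ⟨hne, n, m, h1, h2⟩ := h
  have haS : a ∈ segment ℝ a b := left_mem_segment ℝ a b
  have hbS : b ∈ segment ℝ a b := right_mem_segment ℝ a b
  have hf : ∀ x, f x ∈ Hul f := fun x => subset_convexHull ℝ _ (mem_range_self x)
  have key : ∀ r ∈ Hul f, (⟪n, r⟫_ℝ = m ↔ r ∈ segment ℝ a b) := by
    intro r hr
    rw [← h2]
    exact ⟨fun h => ⟨hr, h⟩, fun h => h.2⟩
  refine ⟨n, m, ?_, ?_, fun x => h1 _ (hf x), fun x => key _ (hf x),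
    fun r hr => ⟨h1 r hr, key r hr⟩⟩
  · rw [← h2] at haS
    exact haS.2
  · rw [← h2] at hbS
    exact hbS.2

theorem edge_conn (h0 : Conn0 f) {a b : EuclideanSpace ℝ (Fin N)} (h : Edge f a b) :
    IsPreconnected {x | f x ∈ segment ℝ a b} := by
  obtain ⟨n, m, ha, hb, hle, hiff, _⟩ := edge_fun h
  have : {x | f x ∈ segment ℝ a b} = {x | m ≤ ⟪n, f x⟫_ℝ} := by
    ext x
    simp only [mem_setOf_eq]
    rw [← hiff x]
    exact ⟨fun h => h.ge, fun h => le_antisymm (hle x) h⟩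
  rw [this]
  exact h0 n m

theorem edge_surj (hf : Continuous f) (h0 : Conn0 f) {a b : EuclideanSpace ℝ (Fin N)}
    (h : Edge f a b) {q : EuclideanSpace ℝ (Fin N)} (hq : q ∈ segment ℝ a b) :
    ∃ y, f y = q := by
  have hS := edge_conn h0 h
  obtain ⟨xa, hxa⟩ : a ∈ range f := extremePoints_convexHull_subset (edge_ext h)
  obtain ⟨xb, hxb⟩ : b ∈ range f := extremePoints_convexHull_subset (edge_ext (Edge.symm h))
  have hne : b - a ≠ 0 := sub_ne_zero.2 h.1.symm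
  have hpos : 0 < ⟪b - a, b - a⟫_ℝ := by
    rw [real_inner_self_eq_norm_sq]
    exact pow_pos (norm_pos_iff.2 hne) 2
  have hc : ContinuousOn (fun x => ⟪b - a, f x⟫_ℝ) {x | f x ∈ segment ℝ a b} :=
    (continuous_const.inner hf).continuousOn
  have hxaS : xa ∈ {x | f x ∈ segment ℝ a b} := by
    show f xa ∈ segment ℝ a b
    rw [hxa]; exact left_mem_segment ℝ a b
  have hxbS : xb ∈ {x | f x ∈ segment ℝ a b} := by
    show f xb ∈ segment ℝ a b
    rw [hxb]; exact right_mem_segment ℝ a b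
  rw [segment_eq_image'] at hq
  obtain ⟨t, ⟨ht0, ht1⟩, rfl⟩ := hq
  have hval : ∀ s : ℝ, ⟪b - a, a + s • (b - a)⟫_ℝ = ⟪b - a, a⟫_ℝ + s * ⟪b - a, b - a⟫_ℝ := by
    intro s
    rw [inner_add_right, inner_smul_right]
  have hb1 : ⟪b - a, b⟫_ℝ = ⟪b - a, a⟫_ℝ + ⟪b - a, b - a⟫_ℝ := by
    rw [← inner_add_right, add_sub_cancel]
  have hmem : ⟪b - a, a + t • (b - a)⟫_ℝ ∈ Icc (⟪b - a, f xa⟫_ℝ) (⟪b - a, f xb⟫_ℝ) := by
    rw [hxa, hxb, hb1, hval]
    constructor
    · nlinarith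
    · nlinarith
  obtain ⟨y, hy, hyv⟩ := hS.intermediate_value hxaS hxbS hc hmem
  have hy' : f y ∈ segment ℝ a b := hy
  rw [segment_eq_image'] at hy'
  obtain ⟨s, hs, hsy⟩ := hy'
  simp only at hsy hyv
  rw [← hsy, hval, hval] at hyv
  have hst : s = t := by
    have : s * ⟪b - a, b - a⟫_ℝ = t * ⟪b - a, b - a⟫_ℝ := by linarith
    exact mul_right_cancel₀ hpos.ne' this
  exact ⟨y, by rw [← hsy, hst]⟩

/-- the preimage of an edge minus one endpoint is connected -/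
theorem edge_minus [CompactSpace M] [T2Space M] (hf : Continuous f) (h0 : Conn0 f)
    {a b : EuclideanSpace ℝ (Fin N)} (h : Edge f a b) :
    IsPreconnected {x | f x ∈ segment ℝ a b ∧ f x ≠ a} := by
  obtain ⟨n, m, hna, hnb, hle, hiff, _⟩ := edge_fun h
  have hab : a ≠ b := h.1
  obtain ⟨z, hz⟩ : ∃ z : EuclideanSpace ℝ (Fin N), z = b - a := ⟨_, rfl⟩
  have hz0 : z ≠ 0 := by
    rw [hz]
    exact sub_ne_zero.2 hab.symm
  have hzz : 0 < ⟪z, z⟫_ℝ := real_inner_self_pos.2 hz0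
  -- the sets `K_e`
  have hK : ∀ c : ℝ, IsPreconnected {x | f x ∈ segment ℝ a b ∧ c ≤ ⟪z, f x⟫_ℝ} := by
    intro c
    have heq : {x | f x ∈ segment ℝ a b ∧ c ≤ ⟪z, f x⟫_ℝ} =
        ⋂₀ {K : Set M | ∃ θ : ℝ, 0 < θ ∧ K = {x | m + θ * c ≤ ⟪n + θ • z, f x⟫_ℝ}} := by
      ext x
      rw [mem_sInter]
      constructor
      · rintro ⟨h1, h2⟩ K ⟨θ, hθ, rfl⟩
        change m + θ * c ≤ ⟪n + θ • z, f x⟫_ℝ
        rw [inner_add_left, real_inner_smul_left, (hiff x).2 h1]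
        have := mul_le_mul_of_nonneg_left h2 hθ.le
        linarith
      · intro hx
        have hx' : ∀ θ : ℝ, 0 < θ → m + θ * c ≤ ⟪n, f x⟫_ℝ + θ * ⟪z, f x⟫_ℝ := by
          intro θ hθ
          have h1 : m + θ * c ≤ ⟪n + θ • z, f x⟫_ℝ := hx _ ⟨θ, hθ, rfl⟩
          rwa [inner_add_left, real_inner_smul_left] at h1
        have h2 : c ≤ ⟪z, f x⟫_ℝ := by
          have h3 := hx' 1 one_pos
          have h4 := hle x
          linarith
        refine ⟨(hiff x).1 (le_antisymm (hle x) ?_), h2⟩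
        apply le_of_forall_pos_le_add
        intro ε hε
        have h5 : 0 < ⟪z, f x⟫_ℝ - c + 1 := by linarith
        have h6 := hx' (ε / (⟪z, f x⟫_ℝ - c + 1)) (by positivity)
        have h7 : ε / (⟪z, f x⟫_ℝ - c + 1) * (⟪z, f x⟫_ℝ - c) ≤ ε := by
          rw [div_mul_eq_mul_div, div_le_iff₀ h5]
          nlinarith
        nlinarith
    rw [heq]
    apply nested_conn
    · exact ⟨_, 1, one_pos, rfl⟩
    · rintro K ⟨θ, _, rfl⟩
      apply IsClosed.isCompact
      exact isClosed_le continuous_const (continuous_const.inner hf)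
    · rintro K ⟨θ, _, rfl⟩
      exact h0 _ _
    · have hmono : ∀ θ θ' : ℝ, 0 < θ' → θ' ≤ θ →
          {x | m + θ' * c ≤ ⟪n + θ' • z, f x⟫_ℝ} ⊆ {x | m + θ * c ≤ ⟪n + θ • z, f x⟫_ℝ} := by
        intro θ θ' hθ' hle' x hx
        change m + θ' * c ≤ ⟪n + θ' • z, f x⟫_ℝ at hx
        change m + θ * c ≤ ⟪n + θ • z, f x⟫_ℝ
        rw [inner_add_left, real_inner_smul_left] at hx ⊢
        have h4 := hle x
        have h5 : θ' * (c - ⟪z, f x⟫_ℝ) ≤ 0 := by linarith
        have h6 : c - ⟪z, f x⟫_ℝ ≤ 0 := by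
          by_contra hcon
          push Not at hcon
          have := mul_pos hθ' hcon
          linarith
        nlinarith
      rintro K ⟨θ, hθ, rfl⟩ L ⟨θ', hθ', rfl⟩
      exact ⟨_, ⟨min θ θ', lt_min hθ hθ', rfl⟩,
        hmono θ (min θ θ') (lt_min hθ hθ') (min_le_left _ _),
        hmono θ' (min θ θ') (lt_min hθ hθ') (min_le_right _ _)⟩
  have hpos : ∀ x, f x ∈ segment ℝ a b → f x ≠ a → ⟪z, a⟫_ℝ < ⟪z, f x⟫_ℝ := by
    intro x hx hne
    rw [segment_eq_image'] at hx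
    obtain ⟨t, ht, htx⟩ := hx
    simp only at htx
    have ht0 : 0 < t := by
      rcases ht.1.eq_or_lt with h1 | h1
      · exfalso
        apply hne
        rw [← htx, ← h1, zero_smul, add_zero]
      · exact h1
    rw [← htx, ← hz, inner_add_right, real_inner_smul_right]
    have := mul_pos ht0 hzz
    linarith
  apply isPreconnected_of_forall_pair
  rintro x ⟨hx1, hx2⟩ y ⟨hy1, hy2⟩
  refine ⟨{w | f w ∈ segment ℝ a b ∧ min ⟪z, f x⟫_ℝ ⟪z, f y⟫_ℝ ≤ ⟪z, f w⟫_ℝ}, ?_,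
    ⟨hx1, min_le_left _ _⟩, ⟨hy1, min_le_right _ _⟩, hK _⟩
  rintro w ⟨hw1, hw2⟩
  refine ⟨hw1, ?_⟩
  intro hwa
  rw [hwa] at hw2
  have := lt_min (hpos x hx1 hx2) (hpos y hy1 hy2)
  exact absurd hw2 (not_le.2 this)

/-- the complement of the preimage of an edge is connected -/
theorem edge_compl [CompactSpace M] [ConnectedSpace M] (S : Setup f) (hN : 3 ≤ N)
    {a b : EuclideanSpace ℝ (Fin N)} (h : Edge f a b) :
    IsPreconnected {x | f x ∉ segment ℝ a b} := by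
  have hab : ({a, b} : Set (EuclideanSpace ℝ (Fin N))).Finite := Set.toFinite _
  have key := aplus S.cont S.conn S.sub hab ⟨a, Set.mem_insert _ _⟩
    (Submodule.span ℝ {b - a}) (by
      intro p hp q hq
      have h0 : b - a ∈ Submodule.span ℝ {b - a} := Submodule.mem_span_singleton_self _
      have h1 : a - b ∈ Submodule.span ℝ {b - a} := by
        have := Submodule.neg_mem _ h0
        rwa [neg_sub] at this
      rcases hp with rfl | hp <;> rcases hq with rfl | hq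
      · rw [sub_self]; exact Submodule.zero_mem _
      · rw [Set.mem_singleton_iff.1 hq]; exact h0
      · rw [Set.mem_singleton_iff.1 hp]; exact h1
      · rw [Set.mem_singleton_iff.1 hp, Set.mem_singleton_iff.1 hq, sub_self]
        exact Submodule.zero_mem _) (by
      have : Module.finrank ℝ (Submodule.span ℝ {b - a}) ≤ 1 := by
        have := finrank_span_le_card (R := ℝ) ({b - a} : Set (EuclideanSpace ℝ (Fin N)))
        simpa using this
      omega)
  rw [convexHull_pair] at key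
  exact key

theorem edge_inter_aux {a b a' b' : EuclideanSpace ℝ (Fin N)} (h : Edge f a b)
    (h' : Edge f a' b') (hne : segment ℝ a b ≠ segment ℝ a' b') {q : EuclideanSpace ℝ (Fin N)}
    (hq : q ∈ segment ℝ a b) (hq' : q ∈ segment ℝ a' b') : q = a ∨ q = b := by
  by_contra hcon
  push Not at hcon
  obtain ⟨n', m', ha', hb', -, -, hH⟩ := edge_fun h'
  have hae := edge_ext h
  have hbe := edge_ext h.symm
  have ha'H : a' ∈ Hul f := (edge_ext h').1
  have hb'H : b' ∈ Hul f := (edge_ext h'.symm).1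
  have haH : a ∈ Hul f := hae.1
  have hbH : b ∈ Hul f := hbe.1
  have hqH : q ∈ Hul f := (convex_convexHull ℝ (range f)).segment_subset haH hbH hq
  have hqm : ⟪n', q⟫_ℝ = m' := ((hH q hqH).2).2 hq'
  have hqo : q ∈ openSegment ℝ a b :=
    mem_openSegment_of_ne_left_right hcon.1.symm hcon.2.symm hq
  obtain ⟨s, t, hs, ht, hst, he⟩ := hqo
  rw [← he, inner_add_right, real_inner_smul_right, real_inner_smul_right] at hqm
  have h1 := (hH a haH).1
  have h2 := (hH b hbH).1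
  have h3 : ⟪n', a⟫_ℝ = m' := by
    by_contra hlt
    have h4 : ⟪n', a⟫_ℝ < m' := lt_of_le_of_ne h1 hlt
    have h5 : s * ⟪n', a⟫_ℝ < s * m' := mul_lt_mul_of_pos_left h4 hs
    have h6 : t * ⟪n', b⟫_ℝ ≤ t * m' := mul_le_mul_of_nonneg_left h2 ht.le
    have h7 : s * m' + t * m' = m' := by rw [← add_mul, hst, one_mul]
    linarith
  have h3' : ⟪n', b⟫_ℝ = m' := by
    by_contra hlt
    have h4 : ⟪n', b⟫_ℝ < m' := lt_of_le_of_ne h2 hlt
    have h5 : t * ⟪n', b⟫_ℝ < t * m' := mul_lt_mul_of_pos_left h4 ht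
    have h6 : s * ⟪n', a⟫_ℝ ≤ s * m' := mul_le_mul_of_nonneg_left h1 hs.le
    have h7 : s * m' + t * m' = m' := by rw [← add_mul, hst, one_mul]
    linarith
  have ka : a ∈ segment ℝ a' b' := ((hH a haH).2).1 h3
  have kb : b ∈ segment ℝ a' b' := ((hH b hbH).2).1 h3'
  have la := (mem_extremePoints_iff_forall_segment.1 hae).2 a' ha'H b' hb'H ka
  have lb := (mem_extremePoints_iff_forall_segment.1 hbe).2 a' ha'H b' hb'H kb
  have hab : a ≠ b := h.1
  rcases la with e1 | e1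
  · rcases lb with e2 | e2
    · exact hab (e1.symm.trans e2)
    · exact hne (by rw [e1, e2])
  · rcases lb with e2 | e2
    · exact hne (by rw [e1, e2, segment_symm])
    · exact hab (e1.symm.trans e2)

/-- two different edges meet in at most a common endpoint -/
theorem edge_inter {a b a' b' : EuclideanSpace ℝ (Fin N)} (h : Edge f a b) (h' : Edge f a' b')
    (hne : segment ℝ a b ≠ segment ℝ a' b') {q : EuclideanSpace ℝ (Fin N)}
    (hq : q ∈ segment ℝ a b) (hq' : q ∈ segment ℝ a' b') :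
    (q = a ∨ q = b) ∧ (q = a' ∨ q = b') ∧
      ∀ r, r ∈ segment ℝ a b → r ∈ segment ℝ a' b' → r = q := by
  have h1 := edge_inter_aux h h' hne hq hq'
  have h2 := edge_inter_aux h' h (Ne.symm hne) hq' hq
  refine ⟨h1, h2, ?_⟩
  intro r hr hr'
  have h3 := edge_inter_aux h h' hne hr hr'
  have h4 := edge_inter_aux h' h (Ne.symm hne) hr' hr
  by_contra hrq
  apply hne
  have e1 : segment ℝ a b = segment ℝ q r := by
    rcases h1 with e | e <;> rcases h3 with e' | e'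
    · exact absurd (e'.trans e.symm) hrq
    · rw [e, e']
    · rw [e, e', segment_symm]
    · exact absurd (e'.trans e.symm) hrq
  have e2 : segment ℝ a' b' = segment ℝ q r := by
    rcases h2 with e | e <;> rcases h4 with e' | e'
    · exact absurd (e'.trans e.symm) hrq
    · rw [e, e']
    · rw [e, e', segment_symm]
    · exact absurd (e'.trans e.symm) hrq
  rw [e1, e2]

theorem edge_eq_of_segment_eq {a b a' b' : EuclideanSpace ℝ (Fin N)}
    (h : segment ℝ a b = segment ℝ a' b') : (a = a' ∧ b = b') ∨ (a = b' ∧ b = a') := by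
  by_cases hd : a' = b'
  · subst hd
    have ha : a ∈ segment ℝ a' a' := h ▸ left_mem_segment ℝ a b
    have hb : b ∈ segment ℝ a' a' := h ▸ right_mem_segment ℝ a b
    rw [segment_same, mem_singleton_iff] at ha hb
    exact Or.inl ⟨ha, hb⟩
  · have ha : a ∈ segment ℝ a' b' := h ▸ left_mem_segment ℝ a b
    have hb : b ∈ segment ℝ a' b' := h ▸ right_mem_segment ℝ a b
    have ha' : a' ∈ segment ℝ a b := h ▸ left_mem_segment ℝ a' b'
    have hb' : b' ∈ segment ℝ a b := h ▸ right_mem_segment ℝ a' b'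
    rw [segment_eq_image'] at ha hb ha' hb'
    obtain ⟨s, ⟨hs0, hs1⟩, hs⟩ := ha
    obtain ⟨t, ⟨ht0, ht1⟩, ht⟩ := hb
    obtain ⟨u, ⟨hu0, hu1⟩, hu⟩ := ha'
    obtain ⟨v, ⟨hv0, hv1⟩, hv⟩ := hb'
    beta_reduce at hs ht hu hv
    have hd0 : b' - a' ≠ 0 := sub_ne_zero.2 (Ne.symm hd)
    have e1 : (s + u * (t - s)) • (b' - a') = 0 := by
      have h1 : a' = a' + (s + u * (t - s)) • (b' - a') := by
        conv_lhs => rw [← hu, ← hs, ← ht]
        module
      have h2 : a' + 0 = a' + (s + u * (t - s)) • (b' - a') := by rw [add_zero]; exact h1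
      exact (add_left_cancel h2).symm
    have e2 : (s + v * (t - s) - 1) • (b' - a') = 0 := by
      have h1 : b' = a' + (s + v * (t - s)) • (b' - a') := by
        conv_lhs => rw [← hv, ← hs, ← ht]
        module
      have h2 : (s + v * (t - s)) • (b' - a') = b' - a' := by
        rw [eq_sub_iff_add_eq, add_comm]; exact h1.symm
      rw [sub_smul, h2, one_smul, sub_self]
    have f1 : s + u * (t - s) = 0 := (smul_eq_zero.1 e1).resolve_right hd0
    have f2 : s + v * (t - s) - 1 = 0 := (smul_eq_zero.1 e2).resolve_right hd0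
    have g1 : (1 - u) * s = 0 := by
      have p1 : 0 ≤ (1 - u) * s := mul_nonneg (by linarith) hs0
      have p2 : 0 ≤ u * t := mul_nonneg hu0 ht0
      nlinarith
    have g2 : u * t = 0 := by
      have p1 : 0 ≤ (1 - u) * s := mul_nonneg (by linarith) hs0
      have p2 : 0 ≤ u * t := mul_nonneg hu0 ht0
      nlinarith
    rcases mul_eq_zero.1 g1 with k1 | k1
    · -- u = 1, t = 0
      have hu1' : u = 1 := by linarith
      rw [hu1', one_mul] at g2
      rw [g2] at f2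
      have hs' : s = 1 := by nlinarith
      right
      constructor
      · rw [← hs, hs', one_smul, add_sub_cancel]
      · rw [← ht, g2, zero_smul, add_zero]
    · rw [k1] at f2
      have ht' : t = 1 := by nlinarith
      left
      constructor
      · rw [← hs, k1, zero_smul, add_zero]
      · rw [← ht, ht', one_smul, add_sub_cancel]

/-- one half of the local separation lemma: classes extend away from half edges -/
theorem sur_half_edge [CompactSpace M] [ConnectedSpace M] (S : Setup f)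
    {a b : EuclideanSpace ℝ (Fin N)} (h : Edge f a b) (z : EuclideanSpace ℝ (Fin N)) (c : ℝ) :
    Sur {x | ¬ (f x ∈ segment ℝ a b ∧ c ≤ ⟪z, f x⟫_ℝ)} := by
  obtain ⟨n, m, -, -, hle, hiff, -⟩ := edge_fun h
  let U : ℝ → Set M := fun θ => {x | ⟪n + θ • z, f x⟫_ℝ < m + θ * c}
  have hin : ∀ (θ : ℝ) (x : M), ⟪n + θ • z, f x⟫_ℝ = ⟪n, f x⟫_ℝ + θ * ⟪z, f x⟫_ℝ := by
    intro θ x
    rw [inner_add_left, real_inner_smul_left]
  have hUo : ∀ θ, IsOpen (U θ) := fun θ =>
    isOpen_lt (continuous_const.inner S.cont) continuous_const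
  have hUc : ∀ θ, IsPreconnected (U θ) := fun θ => conn_lt S.conn _ _
  have hmono : ∀ θ θ' : ℝ, 0 < θ' → θ' ≤ θ → U θ ⊆ U θ' := by
    intro θ θ' h0 hl x hx
    have hx1 : ⟪n + θ • z, f x⟫_ℝ < m + θ * c := hx
    rw [hin] at hx1
    show ⟪n + θ' • z, f x⟫_ℝ < m + θ' * c
    rw [hin]
    have h2 := hle x
    rcases lt_trichotomy ⟪z, f x⟫_ℝ c with h3 | h3 | h3
    · have := mul_lt_mul_of_pos_left h3 h0
      linarith
    · rw [h3] at hx1 ⊢
      linarith
    · have h4 : 0 ≤ (θ - θ') * (⟪z, f x⟫_ℝ - c) := mul_nonneg (by linarith) (by linarith)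
      have h5 : (θ - θ') * (⟪z, f x⟫_ℝ - c) = θ * ⟪z, f x⟫_ℝ - θ * c - θ' * ⟪z, f x⟫_ℝ +
        θ' * c := by ring
      linarith
  let F : Set (Set M) := U '' Ioi 0
  have hF : ⋃₀ F = {x | ¬ (f x ∈ segment ℝ a b ∧ c ≤ ⟪z, f x⟫_ℝ)} := by
    ext x
    constructor
    · rintro ⟨_, ⟨θ, hθ, rfl⟩, hx⟩ ⟨hx1, hx2⟩
      have hx3 : ⟪n + θ • z, f x⟫_ℝ < m + θ * c := hx
      rw [hin, (hiff x).mpr hx1] at hx3
      have hθ' : 0 < θ := hθ
      have := mul_le_mul_of_nonneg_left hx2 hθ'.le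
      linarith
    · intro hx
      have hx' : ¬ (f x ∈ segment ℝ a b ∧ c ≤ ⟪z, f x⟫_ℝ) := hx
      by_cases hc : c ≤ ⟪z, f x⟫_ℝ
      · have hs : f x ∉ segment ℝ a b := fun h => hx' ⟨h, hc⟩
        have hlt : ⟪n, f x⟫_ℝ < m := lt_of_le_of_ne (hle x) (fun h => hs ((hiff x).mp h))
        have hB : 0 < ⟪z, f x⟫_ℝ - c + 1 := by linarith
        refine ⟨_, ⟨(m - ⟪n, f x⟫_ℝ) / (⟪z, f x⟫_ℝ - c + 1), div_pos (by linarith) hB, rfl⟩, ?_⟩
        show ⟪n + _ • z, f x⟫_ℝ < m + _ * c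
        rw [hin]
        obtain ⟨θ, hθ⟩ : ∃ θ : ℝ, θ = (m - ⟪n, f x⟫_ℝ) / (⟪z, f x⟫_ℝ - c + 1) := ⟨_, rfl⟩
        have hθ0 : 0 < θ := by rw [hθ]; exact div_pos (by linarith) hB
        have hθ1 : θ * (⟪z, f x⟫_ℝ - c + 1) = m - ⟪n, f x⟫_ℝ := by
          rw [hθ]
          exact div_mul_cancel₀ _ hB.ne'
        rw [← hθ]
        have h6 : θ * (⟪z, f x⟫_ℝ - c + 1) = θ * ⟪z, f x⟫_ℝ - θ * c + θ := by ring
        linarith
      · push Not at hc
        refine ⟨_, ⟨1, mem_Ioi.mpr one_pos, rfl⟩, ?_⟩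
        show ⟪n + (1:ℝ) • z, f x⟫_ℝ < m + 1 * c
        rw [hin]
        have := hle x
        linarith
  intro t ht
  have hmain := sur_directed S.fin (S := F) (by rintro _ ⟨θ, -, rfl⟩; exact hUo θ)
    (by rintro _ ⟨θ, -, rfl⟩; exact hUc θ)
    (by
      rintro _ ⟨θ, hθ, rfl⟩ _ ⟨θ', hθ', rfl⟩
      have h1 : (0:ℝ) < min θ θ' := lt_min hθ hθ'
      exact ⟨U (min θ θ'), ⟨_, h1, rfl⟩, hmono _ _ h1 (min_le_left _ _),
        hmono _ _ h1 (min_le_right _ _)⟩) (t := t)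
    (by
      rintro _ ⟨θ, hθ, rfl⟩
      refine sur_lt S (n + θ • z) (m + θ * c) t (ht.mono ?_)
      rw [← hF]
      exact subset_sUnion_of_mem ⟨θ, hθ, rfl⟩)
  rw [hF] at hmain
  exact hmain

theorem aux_seg_closed (a b : EuclideanSpace ℝ (Fin N)) : IsClosed (segment ℝ a b) := by
  rw [segment_eq_image]
  have hc : Continuous (fun θ : ℝ => (1 - θ) • a + θ • b) := by fun_prop
  exact (isCompact_Icc.image hc).isClosed

theorem aux_open (f : M → EuclideanSpace ℝ (Fin N)) (hf : Continuous f) (a b z : EuclideanSpace ℝ (Fin N)) (c : ℝ) :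
    IsOpen {x | ¬ (f x ∈ segment ℝ a b ∧ c ≤ ⟪z, f x⟫_ℝ)} := by
  have h : IsClosed {x | f x ∈ segment ℝ a b ∧ c ≤ ⟪z, f x⟫_ℝ} := by
    have h1 : IsClosed {x : M | f x ∈ segment ℝ a b} := (aux_seg_closed a b).preimage hf
    have h2 : IsClosed {x : M | c ≤ ⟪z, f x⟫_ℝ} := by
      have hg : Continuous (fun x : M => ⟪z, f x⟫_ℝ) := Continuous.inner continuous_const hf
      exact isClosed_le continuous_const hg
    exact h1.inter h2
  exact h.isOpen_compl

theorem aux_seg_eq {a b p r : EuclideanSpace ℝ (Fin N)} (hab : a ≠ b) (hp : p ∈ segment ℝ a b) (hr : r ∈ segment ℝ a b)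
    (h : ⟪b - a, p⟫_ℝ = ⟪b - a, r⟫_ℝ) : p = r := by
  rw [segment_eq_image'] at hp hr
  obtain ⟨θ, _, rfl⟩ := hp
  obtain ⟨θ', _, rfl⟩ := hr
  simp only [inner_add_right, real_inner_smul_right] at h
  have h1 : θ * ⟪b - a, b - a⟫_ℝ = θ' * ⟪b - a, b - a⟫_ℝ := by linarith
  have h2 : ⟪b - a, b - a⟫_ℝ ≠ 0 := by
    rw [inner_self_ne_zero]
    exact sub_ne_zero.2 (Ne.symm hab)
  have h3 := mul_right_cancel₀ h2 h1
  rw [h3]

theorem aux_fib_fin [CompactSpace M] (f : M → EuclideanSpace ℝ (Fin N)) (hf : Continuous f)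
    (hloc : ∀ x, ∃ U ∈ 𝓝 x, InjOn f U) (p : EuclideanSpace ℝ (Fin N)) : {x | f x = p}.Finite := by
  have hcl : IsClosed {x | f x = p} := isClosed_eq hf continuous_const
  choose U hU hinj using hloc
  obtain ⟨t, ht, hcov⟩ := hcl.isCompact.elim_nhds_subcover U (fun x _ => hU x)
  refine t.finite_toSet.subset ?_
  intro x hx
  obtain ⟨y, hy⟩ := mem_iUnion.1 (hcov hx)
  obtain ⟨hyt, hxy⟩ := mem_iUnion.1 hy
  have : x = y := hinj y hxy (mem_of_mem_nhds (hU y)) (by
    have h1 : f x = p := hx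
    have h2 : f y = p := ht y hyt
    rw [h1, h2])
  rw [this]
  exact hyt

/-- local separation: a crossing edge carries a non-zero class supported on it -/
theorem local_sep [CompactSpace M] [T2Space M] [ConnectedSpace M] (S : Setup f) (hN : 3 ≤ N)
    {a b : EuclideanSpace ℝ (Fin N)} (h : CEdge f a b) :
    ∃ t : M → M → ZMod 2, Coc univ t ∧ ¬ Null univ t ∧ Null {x | f x ∉ segment ℝ a b} t := by
  obtain ⟨hE, y, hyI, hyo⟩ := h
  have hys : f y ∈ segment ℝ a b := openSegment_subset_segment ℝ a b hyo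
  obtain ⟨v, hv, hvn⟩ := S.vp y hyI
  set z := b - a with hz
  set c := ⟪z, f y⟫_ℝ with hc
  set Up : Set M := {x | ¬ (f x ∈ segment ℝ a b ∧ c ≤ ⟪z, f x⟫_ℝ)} with hUp
  set Um : Set M := {x | ¬ (f x ∈ segment ℝ a b ∧ -c ≤ ⟪-z, f x⟫_ℝ)} with hUm
  have hUpy : Up ⊆ ({y}ᶜ : Set M) := by
    intro x hx hxy
    rw [mem_singleton_iff] at hxy
    subst hxy
    exact hx ⟨hys, le_rfl⟩
  have hUmy : Um ⊆ ({y}ᶜ : Set M) := by
    intro x hx hxy
    rw [mem_singleton_iff] at hxy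
    subst hxy
    refine hx ⟨hys, ?_⟩
    rw [inner_neg_left]
  obtain ⟨up, hup, hupn⟩ := sur_half_edge S hE z c v (hv.mono hUpy)
  obtain ⟨um, hum, humn⟩ := sur_half_edge S hE (-z) (-c) v (hv.mono hUmy)
  have hupn' : Null Up (v + up) := hupn
  have humn' : Null Um (v + um) := humn
  have hsub1 : {x | f x ∉ segment ℝ a b} ⊆ Up := fun x hx h' => hx h'.1
  have hsub2 : {x | f x ∉ segment ℝ a b} ⊆ Um := fun x hx h' => hx h'.1
  have hinter : Up ∩ Um ⊆ {x | f x ∉ segment ℝ a b} := by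
    rintro x ⟨h1, h2⟩ h3
    rcases le_total c ⟪z, f x⟫_ℝ with h4 | h4
    · exact h1 ⟨h3, h4⟩
    · refine h2 ⟨h3, ?_⟩
      rw [inner_neg_left]
      linarith
  refine ⟨up + um, hup.add hum, ?_, ?_⟩
  · intro hnull
    have h1 : Null Um (v + up) := by
      refine Null.trans humn' ?_
      rw [add_comm um up]
      exact hnull.mono (subset_univ _)
    obtain ⟨s, hs⟩ := hupn'
    obtain ⟨s', hs'⟩ := h1
    obtain ⟨k, hk⟩ := triv_uniq (edge_compl S hN hE) (hs.mono hsub1) (hs'.mono hsub2)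
    have hUnion : Null (Up ∪ Um) (v + up) :=
      null_union (aux_open f S.cont a b z c) (aux_open f S.cont a b (-z) (-c)) hs hs' (k := k)
        (fun x hx => hk x (hinter hx))
    have hF : ({x | f x = f y} \ {y}).Finite := (aux_fib_fin f S.cont S.loc (f y)).subset sdiff_subset
    have hnp : Null (({y}ᶜ : Set M) \ ({x | f x = f y} \ {y})) (v + up) := by
      refine hUnion.mono ?_
      rintro x ⟨hx1, hx2⟩
      have hne : f x ≠ f y := fun h' => hx2 ⟨h', hx1⟩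
      by_contra hcon
      rw [mem_union, not_or] at hcon
      obtain ⟨g1, g2⟩ := hcon
      have g1' : f x ∈ segment ℝ a b ∧ c ≤ ⟪z, f x⟫_ℝ := not_not.1 g1
      have g2' : f x ∈ segment ℝ a b ∧ -c ≤ ⟪-z, f x⟫_ℝ := not_not.1 g2
      rw [inner_neg_left] at g2'
      exact hne (aux_seg_eq hE.1 g1'.1 hys (le_antisymm (by linarith [g2'.2]) g1'.2))
    have hfinal := null_punct S.pun (isOpen_compl_singleton (x := y)) (hv.add (hup.mono (subset_univ _))) hF hnp
    exact hvn up hup hfinal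
  · refine Null.trans (t' := v) ?_ (humn'.mono hsub2)
    rw [add_comm up v]
    exact hupn'.mono hsub1

/-- connected complement implies good -/
theorem good_of_conn {t : M → M → ZMod 2} {S T : Set (EuclideanSpace ℝ (Fin N))}
    (h : IsPreconnected {x | f x ∉ convexHull ℝ (S ∪ T)}) : Good f t S T := by
  intro s s' hs hs'
  have h1 : {x | f x ∉ convexHull ℝ (S ∪ T)} ⊆ {x | f x ∉ S} := by
    intro x hx hxS
    exact hx (subset_convexHull ℝ _ (Or.inl hxS))
  have h2 : {x | f x ∉ convexHull ℝ (S ∪ T)} ⊆ {x | f x ∉ T} := by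
    intro x hx hxS
    exact hx (subset_convexHull ℝ _ (Or.inr hxS))
  obtain ⟨k, hk⟩ := triv_uniq h (hs.mono h1) (hs'.mono h2)
  exact ⟨k, fun x hx => hk x hx⟩

theorem h170_edge_sub {a b : EuclideanSpace ℝ (Fin N)} (h : Edge f a b) :
    segment ℝ a b ⊆ Hul f := by
  obtain ⟨-, n, m, -, h2⟩ := h
  intro r hr
  rw [← h2] at hr
  exact hr.1

theorem h170_closed (hf : Continuous f) (a b : EuclideanSpace ℝ (Fin N)) :
    IsClosed {x | f x ∈ segment ℝ a b} := by
  have h1 : IsClosed (segment ℝ a b) := by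
    rw [← convexHull_pair]
    exact (Set.Finite.isCompact_convexHull ℝ (Set.toFinite _)).isClosed
  exact h1.preimage hf

theorem h170_three [CompactSpace M] [T2Space M] [ConnectedSpace M] (S : Setup f) (hN : 3 ≤ N)
    {t : M → M → ZMod 2}
    {a b : Fin 3 → EuclideanSpace ℝ (Fin N)} (he : ∀ i, Edge f (a i) (b i))
    (s : Fin 3 → M → ZMod 2)
    (hs : ∀ i, Triv {x | f x ∉ segment ℝ (a i) (b i)} t (s i))
    (hg : ∀ i j, i ≠ j → Good f t (segment ℝ (a i) (b i)) (segment ℝ (a j) (b j)))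
    {p : EuclideanSpace ℝ (Fin N)} (hp : p ∈ extremePoints ℝ (Hul f))
    (hpi : ∀ i, p ∉ segment ℝ (a i) (b i))
    (hmid : ∀ i j k, i ≠ j → i ≠ k → j ≠ k → IsPreconnected {x | f x ∈ segment ℝ (a k) (b k) ∧
      f x ∉ segment ℝ (a i) (b i) ∧ f x ∉ segment ℝ (a j) (b j)} ∧
      ∃ x, f x ∈ extremePoints ℝ (Hul f) ∧ f x ∈ segment ℝ (a k) (b k) ∧
      f x ∉ segment ℝ (a i) (b i) ∧ f x ∉ segment ℝ (a j) (b j))
    (hint : ∀ i j k, i ≠ j → i ≠ k → j ≠ k → ∀ q, q ∈ segment ℝ (a i) (b i) →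
      q ∈ segment ℝ (a j) (b j) → q ∈ segment ℝ (a k) (b k)) :
    Null ({x | f x ∉ segment ℝ (a 0) (b 0)} ∪ {x | f x ∉ segment ℝ (a 1) (b 1)}) t := by
  have hout : ∀ (q : EuclideanSpace ℝ (Fin N)) (i j : Fin 3), q ∈ extremePoints ℝ (Hul f) →
      q ∉ segment ℝ (a i) (b i) → q ∉ segment ℝ (a j) (b j) →
      q ∉ convexHull ℝ (segment ℝ (a i) (b i) ∪ segment ℝ (a j) (b j)) := by
    intro q i j hq hqi hqj hcon
    have h1 := ext_mem_of_hull (Set.union_subset (h170_edge_sub (he i)) (h170_edge_sub (he j)))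
      hq hcon
    rcases h1 with h1 | h1
    · exact hqi h1
    · exact hqj h1
  have hc : ∀ i j : Fin 3, ∃ c : ZMod 2, i ≠ j → ∀ x,
      f x ∉ convexHull ℝ (segment ℝ (a i) (b i) ∪ segment ℝ (a j) (b j)) →
        s i x + s j x = c := by
    intro i j
    by_cases hij : i = j
    · exact ⟨0, fun h => absurd hij h⟩
    · obtain ⟨c, hc⟩ := hg i j hij (s i) (s j) (hs i) (hs j)
      exact ⟨c, fun _ => hc⟩
  choose c hc using hc
  have hgen : ∀ i j k : Fin 3, i ≠ j → i ≠ k → j ≠ k → ∀ x, f x ∈ segment ℝ (a k) (b k) →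
      f x ∉ segment ℝ (a i) (b i) → f x ∉ segment ℝ (a j) (b j) → s i x + s j x = c i j := by
    intro i j k hij hik hjk x hxk hxi hxj
    obtain ⟨hpre, y, hy1, hy2, hy3, hy4⟩ := hmid i j k hij hik hjk
    obtain ⟨κ, hκ⟩ := triv_uniq hpre (t := t) (s := s i) (s' := s j)
      ((hs i).mono (fun z hz => hz.2.1)) ((hs j).mono (fun z hz => hz.2.2))
    rw [hκ x ⟨hxk, hxi, hxj⟩, ← hκ y ⟨hy2, hy3, hy4⟩]
    exact hc i j hij y (hout (f y) i j hy1 hy3 hy4)
  obtain ⟨e, he1, -⟩ := ext_unique S.cont S.loc S.conn hp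
  have hee : ∀ i j : Fin 3, i ≠ j → s i e + s j e = c i j := by
    intro i j hij
    apply hc i j hij e
    rw [he1]
    exact hout p i j hp (hpi i) (hpi j)
  have heN : ∀ i, e ∉ {x | f x ∈ segment ℝ (a i) (b i)} := by
    intro i h
    have h1 : f e ∈ segment ℝ (a i) (b i) := h
    rw [he1] at h1
    exact hpi i h1
  have hW := wabs (t := t) (G₁ := {x | f x ∈ segment ℝ (a 0) (b 0)})
    (G₂ := {x | f x ∈ segment ℝ (a 1) (b 1)}) (G₃ := {x | f x ∈ segment ℝ (a 2) (b 2)})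
    (s₁ := s 0) (s₂ := s 1) (s₃ := s 2)
    (h170_closed S.cont _ _) (h170_closed S.cont _ _) (h170_closed S.cont _ _)
    (edge_compl S hN (he 0)) (edge_compl S hN (he 1)) (edge_compl S hN (he 2))
    (hs 0) (hs 1) (hs 2)
    (c₁₂ := c 0 1) (c₁₃ := c 0 2) (c₂₃ := c 1 2)
    (fun x h1 h2 h3 => hgen 0 1 2 (by decide) (by decide) (by decide) x h1 h2 h3)
    (fun x h1 h2 h3 => hgen 0 2 1 (by decide) (by decide) (by decide) x h1 h2 h3)
    (fun x h1 h2 h3 => hgen 1 2 0 (by decide) (by decide) (by decide) x h1 h2 h3)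
    (fun x hx => hint 0 1 2 (by decide) (by decide) (by decide) (f x) hx.1 hx.2)
    (fun x hx => hint 0 2 1 (by decide) (by decide) (by decide) (f x) hx.1 hx.2)
    (fun x hx => hint 1 2 0 (by decide) (by decide) (by decide) (f x) hx.1 hx.2)
    e (heN 0) (heN 1) (heN 2) (hee 0 1 (by decide)) (hee 0 2 (by decide)) (hee 1 2 (by decide))
  exact null_union (h170_closed S.cont _ _).isOpen_compl (h170_closed S.cont _ _).isOpen_compl
    (hs 0) (hs 1) (k := c 0 1) (fun x hx => hW x hx.1 hx.2)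

/-- three disjoint good edges with the same class are impossible -/
theorem three_disj [CompactSpace M] [T2Space M] [ConnectedSpace M] (S : Setup f) (hN : 4 ≤ N)
    {t : M → M → ZMod 2} (hn : ¬ Null univ t)
    {a b : Fin 3 → EuclideanSpace ℝ (Fin N)} (he : ∀ i, Edge f (a i) (b i))
    (ht : ∀ i, Null {x | f x ∉ segment ℝ (a i) (b i)} t)
    (hd : ∀ i j, i ≠ j → Disjoint (segment ℝ (a i) (b i)) (segment ℝ (a j) (b j)))
    (hg : ∀ i j, i ≠ j → Good f t (segment ℝ (a i) (b i)) (segment ℝ (a j) (b j)))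
    {p : EuclideanSpace ℝ (Fin N)} (hp : p ∈ extremePoints ℝ (Hul f))
    (hpi : ∀ i, p ∉ segment ℝ (a i) (b i)) : False := by
  choose s hs using ht
  have hdd : ∀ i j, i ≠ j → ∀ q, q ∈ segment ℝ (a i) (b i) → q ∉ segment ℝ (a j) (b j) := by
    intro i j hij q hq hq'
    exact Set.disjoint_left.1 (hd i j hij) hq hq'
  have h1 := h170_three S (by omega) he s hs hg hp hpi
    (by
      intro i j k hij hik hjk
      constructor
      · have h2 : {x | f x ∈ segment ℝ (a k) (b k) ∧ f x ∉ segment ℝ (a i) (b i) ∧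
            f x ∉ segment ℝ (a j) (b j)} = {x | f x ∈ segment ℝ (a k) (b k)} := by
          ext x
          constructor
          · intro h
            exact h.1
          · intro h
            exact ⟨h, hdd k i (Ne.symm hik) _ h, hdd k j (Ne.symm hjk) _ h⟩
        rw [h2]
        exact edge_conn S.conn (he k)
      · obtain ⟨y, hy⟩ := edge_surj S.cont S.conn (he k) (left_mem_segment ℝ (a k) (b k))
        have h3 : f y ∈ segment ℝ (a k) (b k) := by
          rw [hy]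
          exact left_mem_segment ℝ (a k) (b k)
        refine ⟨y, ?_, h3, hdd k i (Ne.symm hik) _ h3, hdd k j (Ne.symm hjk) _ h3⟩
        rw [hy]
        exact edge_ext (he k))
    (by
      intro i j k hij _ _ q hq1 hq2
      exact absurd hq2 (hdd i j hij q hq1))
  apply hn
  have h2 : ({x | f x ∉ segment ℝ (a 0) (b 0)} ∪ {x | f x ∉ segment ℝ (a 1) (b 1)} : Set M) =
      univ := by
    rw [Set.eq_univ_iff_forall]
    intro x
    by_cases hx : f x ∈ segment ℝ (a 0) (b 0)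
    · right
      exact hdd 0 1 (by decide) _ hx
    · left
      exact hx
  rwa [h2] at h1

/-- three edges with a common endpoint and the same class are impossible -/
theorem three_star [CompactSpace M] [T2Space M] [ConnectedSpace M] (S : Setup f) (hN : 4 ≤ N)
    {t : M → M → ZMod 2} (ht0 : Coc univ t) (hn : ¬ Null univ t)
    {v : EuclideanSpace ℝ (Fin N)} {b : Fin 3 → EuclideanSpace ℝ (Fin N)}
    (he : ∀ i, Edge f v (b i))
    (ht : ∀ i, Null {x | f x ∉ segment ℝ v (b i)} t)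
    (hd : ∀ i j, i ≠ j → b i ≠ b j)
    {p : EuclideanSpace ℝ (Fin N)} (hp : p ∈ extremePoints ℝ (Hul f))
    (hpi : ∀ i, p ∉ segment ℝ v (b i)) : False := by
  classical
  have hseg : ∀ i j, i ≠ j → ∀ q, q ∈ segment ℝ v (b i) → q ∈ segment ℝ v (b j) → q = v := by
    intro i j hij q hq hq'
    have hne : segment ℝ v (b i) ≠ segment ℝ v (b j) := by
      intro h
      rcases edge_eq_of_segment_eq h with ⟨_, h2⟩ | ⟨h1, h2⟩
      · exact hd i j hij h2
      · exact (he i).1 h2.symm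
    obtain ⟨h1, h2, _⟩ := edge_inter (he i) (he j) hne hq hq'
    rcases h1 with h1 | h1
    · exact h1
    · rcases h2 with h2 | h2
      · exact h2
      · exact absurd (h1.symm.trans h2) (hd i j hij)
  have hsub : ∀ i, segment ℝ v (b i) ⊆ Hul f := by
    intro i r hr
    obtain ⟨n, m, _, h⟩ := (he i).2
    rw [← h] at hr
    exact hr.1
  have hgood : ∀ i j, i ≠ j → Good f t (segment ℝ v (b i)) (segment ℝ v (b j)) := by
    intro i j hij
    apply good_of_conn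
    have hhull : convexHull ℝ (segment ℝ v (b i) ∪ segment ℝ v (b j)) =
        convexHull ℝ {v, b i, b j} := by
      apply Subset.antisymm
      · apply convexHull_min _ (convex_convexHull ℝ _)
        have hv : v ∈ convexHull ℝ ({v, b i, b j} : Set (EuclideanSpace ℝ (Fin N))) :=
          subset_convexHull ℝ _ (by simp)
        have hi : b i ∈ convexHull ℝ ({v, b i, b j} : Set (EuclideanSpace ℝ (Fin N))) :=
          subset_convexHull ℝ _ (by simp)
        have hj : b j ∈ convexHull ℝ ({v, b i, b j} : Set (EuclideanSpace ℝ (Fin N))) :=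
          subset_convexHull ℝ _ (by simp)
        exact Set.union_subset ((convex_convexHull ℝ _).segment_subset hv hi)
          ((convex_convexHull ℝ _).segment_subset hv hj)
      · apply convexHull_mono
        intro r hr
        rcases hr with rfl | rfl | rfl
        · exact Or.inl (left_mem_segment ℝ _ _)
        · exact Or.inl (right_mem_segment ℝ _ _)
        · exact Or.inr (right_mem_segment ℝ _ _)
    rw [hhull]
    set W : Finset (EuclideanSpace ℝ (Fin N)) := {b i - v, b j - v} with hW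
    have hWi : b i - v ∈ Submodule.span ℝ (W : Set (EuclideanSpace ℝ (Fin N))) :=
      Submodule.subset_span (by simp [hW])
    have hWj : b j - v ∈ Submodule.span ℝ (W : Set (EuclideanSpace ℝ (Fin N))) :=
      Submodule.subset_span (by simp [hW])
    have hmem : ∀ q ∈ ({v, b i, b j} : Set (EuclideanSpace ℝ (Fin N))),
        q - v ∈ Submodule.span ℝ (W : Set (EuclideanSpace ℝ (Fin N))) := by
      intro q hq
      rcases hq with rfl | rfl | rfl
      · rw [sub_self]; exact Submodule.zero_mem _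
      · exact hWi
      · exact hWj
    refine aplus S.cont S.conn S.sub (Set.toFinite _) ⟨v, by simp⟩
      (Submodule.span ℝ (W : Set (EuclideanSpace ℝ (Fin N)))) ?_ ?_
    · intro q hq q' hq'
      have h1 := Submodule.sub_mem _ (hmem q' hq') (hmem q hq)
      rwa [sub_sub_sub_cancel_right] at h1
    · have h1 : Module.finrank ℝ (Submodule.span ℝ (W : Set (EuclideanSpace ℝ (Fin N)))) ≤ W.card :=
        finrank_span_finset_le_card W
      have h2 : W.card ≤ 2 := Finset.card_le_two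
      omega
  choose s hs using ht
  have hbext : ∀ k, b k ∈ extremePoints ℝ (Hul f) := fun k => edge_ext (he k).symm
  have hGk : ∀ i j k, i ≠ k → j ≠ k → ∀ c : ZMod 2,
      (∀ x, f x ∉ convexHull ℝ (segment ℝ v (b i) ∪ segment ℝ v (b j)) → s i x + s j x = c) →
      ∀ x, f x ∈ segment ℝ v (b k) → f x ∉ segment ℝ v (b i) → f x ∉ segment ℝ v (b j) →
        s i x + s j x = c := by
    intro i j k hik hjk c hc x hxk hxi hxj
    have hA : IsPreconnected {x | f x ∈ segment ℝ v (b k) ∧ f x ≠ v} :=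
      edge_minus S.cont S.conn (he k)
    have hsubi : {x | f x ∈ segment ℝ v (b k) ∧ f x ≠ v} ⊆ {x | f x ∉ segment ℝ v (b i)} :=
      fun y hy hyi => hy.2 (hseg k i hik.symm (f y) hy.1 hyi)
    have hsubj : {x | f x ∈ segment ℝ v (b k) ∧ f x ≠ v} ⊆ {x | f x ∉ segment ℝ v (b j)} :=
      fun y hy hyj => hy.2 (hseg k j hjk.symm (f y) hy.1 hyj)
    obtain ⟨κ, hκ⟩ := triv_uniq hA ((hs i).mono hsubi) ((hs j).mono hsubj)
    obtain ⟨y, hy⟩ := edge_surj S.cont S.conn (he k) (right_mem_segment ℝ v (b k))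
    have hyA : y ∈ {x | f x ∈ segment ℝ v (b k) ∧ f x ≠ v} := by
      refine ⟨?_, ?_⟩
      · rw [hy]; exact right_mem_segment ℝ _ _
      · rw [hy]; exact (he k).1.symm
    have hyh : f y ∉ convexHull ℝ (segment ℝ v (b i) ∪ segment ℝ v (b j)) := by
      intro h
      rw [hy] at h
      have h1 := ext_mem_of_hull (Set.union_subset (hsub i) (hsub j)) (hbext k) h
      rcases h1 with h1 | h1
      · exact (he k).1 (hseg k i hik.symm _ (right_mem_segment ℝ _ _) h1).symm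
      · exact (he k).1 (hseg k j hjk.symm _ (right_mem_segment ℝ _ _) h1).symm
    have h1 : κ = c := (hκ y hyA).symm.trans (hc y hyh)
    rw [← h1]
    refine hκ x ⟨hxk, ?_⟩
    intro h
    apply hxi
    rw [h]
    exact left_mem_segment ℝ _ _
  obtain ⟨e, hep, -⟩ := ext_unique S.cont S.loc S.conn hp
  have hpe : ∀ i j, f e ∉ convexHull ℝ (segment ℝ v (b i) ∪ segment ℝ v (b j)) := by
    intro i j h
    rw [hep] at h
    rcases ext_mem_of_hull (Set.union_subset (hsub i) (hsub j)) hp h with h1 | h1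
    · exact hpi i h1
    · exact hpi j h1
  have h01 : (0 : Fin 3) ≠ 1 := by decide
  have h02 : (0 : Fin 3) ≠ 2 := by decide
  have h12 : (1 : Fin 3) ≠ 2 := by decide
  obtain ⟨c01, hc01⟩ := hgood 0 1 h01 (s 0) (s 1) (hs 0) (hs 1)
  obtain ⟨c02, hc02⟩ := hgood 0 2 h02 (s 0) (s 2) (hs 0) (hs 2)
  obtain ⟨c12, hc12⟩ := hgood 1 2 h12 (s 1) (s 2) (hs 1) (hs 2)
  have hcl : ∀ i, IsClosed {x | f x ∈ segment ℝ v (b i)} := by
    intro i
    have h1 : IsClosed (segment ℝ v (b i)) := by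
      rw [← convexHull_pair]
      exact (Set.toFinite _).isClosed_convexHull ℝ
    exact h1.preimage S.cont
  have hcompl : ∀ i, ({x | f x ∈ segment ℝ v (b i)} : Set M)ᶜ = {x | f x ∉ segment ℝ v (b i)} :=
    fun i => rfl
  have hpre : ∀ i, IsPreconnected ({x | f x ∈ segment ℝ v (b i)} : Set M)ᶜ :=
    fun i => edge_compl S (by omega) (he i)
  have hint : ∀ i j k, i ≠ j → ({x | f x ∈ segment ℝ v (b i)} ∩ {x | f x ∈ segment ℝ v (b j)} : Set M)
      ⊆ {x | f x ∈ segment ℝ v (b k)} := by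
    intro i j k hij x hx
    have h1 := hseg i j hij (f x) hx.1 hx.2
    show f x ∈ segment ℝ v (b k)
    rw [h1]
    exact left_mem_segment ℝ _ _
  have hei : ∀ i, e ∉ ({x | f x ∈ segment ℝ v (b i)} : Set M) := by
    intro i h
    have h' : f e ∈ segment ℝ v (b i) := h
    rw [hep] at h'
    exact hpi i h'
  have hw := wabs (hcl 0) (hcl 1) (hcl 2) (hpre 0) (hpre 1) (hpre 2) (hs 0) (hs 1) (hs 2)
    (fun x hx h0 h1 => hGk 0 1 2 h02 h12 c01 hc01 x hx h0 h1)
    (fun x hx h0 h1 => hGk 0 2 1 h01 h12.symm c02 hc02 x hx h0 h1)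
    (fun x hx h0 h1 => hGk 1 2 0 h01.symm h02.symm c12 hc12 x hx h0 h1)
    (hint 0 1 2 h01) (hint 0 2 1 h02) (hint 1 2 0 h12) e (hei 0) (hei 1) (hei 2)
    (hc01 e (hpe 0 1)) (hc02 e (hpe 0 2)) (hc12 e (hpe 1 2))
  have hnull := null_union (hcl 0).isOpen_compl (hcl 1).isOpen_compl (hs 0) (hs 1)
    (k := c01) (fun x hx => hw x hx.1 hx.2)
  apply hn
  obtain ⟨x0, hx0, hx0u⟩ := ext_unique S.cont S.loc S.conn (edge_ext (he 0))
  have hF : ({x | f x = v} : Set M).Finite := by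
    apply (Set.finite_singleton x0).subset
    intro y hy
    exact hx0u y hy
  refine null_punct S.pun isOpen_univ ht0 hF (hnull.mono ?_)
  intro x hx
  by_contra hcon
  apply hx.2
  rw [Set.mem_union, not_or, Set.notMem_compl_iff, Set.notMem_compl_iff] at hcon
  exact hseg 0 1 h01 (f x) hcon.1 hcon.2

end Pool.Agent.Helper775.Surf
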