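import Pool.Agent.Helper775.Surf.Coh
import Pool.Agent.Helper775.Herman.Brouwer

/-! Topology of surfaces with boundary. -/

set_option autoImplicit false

namespace Pool.Agent.Helper775.Surf

open Set Topology Metric
open scoped InnerProductSpace Manifold

variable {M : Type*} [TopologicalSpace M]

/-- the point of the half-space with given horizontal and vertical coordinates -/
noncomputable def isSurf_of_charted_g (p : ℝ × ℝ) : EuclideanHalfSpace 2 :=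
  ⟨WithLp.toLp 2 ![max p.2 0, p.1], le_max_right _ _⟩

theorem isSurf_of_charted_g0 (p : ℝ × ℝ) : (isSurf_of_charted_g p).1 0 = max p.2 0 := rfl

theorem isSurf_of_charted_g1 (p : ℝ × ℝ) : (isSurf_of_charted_g p).1 1 = p.1 := rfl

theorem isSurf_of_charted_gc : Continuous isSurf_of_charted_g := by
  unfold isSurf_of_charted_g
  refine Continuous.subtype_mk ?_ _
  refine (PiLp.continuous_toLp 2 _).comp (continuous_pi fun i => ?_)
  fin_cases i
  · exact (continuous_snd.max continuous_const)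
  · exact continuous_fst

theorem isSurf_of_charted_gh (h : EuclideanHalfSpace 2) :
    isSurf_of_charted_g (h.1 1, h.1 0) = h := by
  apply Subtype.ext
  ext i
  fin_cases i
  · show max (h.1 0) 0 = h.1 0
    exact max_eq_left h.2
  · rfl

theorem isSurf_of_charted_mk [ChartedSpace (EuclideanHalfSpace 2) M] (x : M) (r : ℝ) (hr : 0 < r)
    (h : ∀ p : ℝ × ℝ, |p.1 - (chartAt (EuclideanHalfSpace 2) x x).1 1| < r →
      |p.2 - (chartAt (EuclideanHalfSpace 2) x x).1 0| < r →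
      isSurf_of_charted_g p ∈ (chartAt (EuclideanHalfSpace 2) x).target) :
    ∃ D ψ φ, x ∈ D ∧ ψ x = 0 ∧
      Chart D (ball (0 : ℝ × ℝ) 1 ∩ {p | 0 ≤ (chartAt (EuclideanHalfSpace 2) x x).1 0 + r * p.2})
        ψ φ := by
  set e := chartAt (EuclideanHalfSpace 2) x with he
  set u₀ := (e x).1 1 with hu
  set v₀ := (e x).1 0 with hv
  have hc1 : Continuous (fun y : EuclideanHalfSpace 2 => y.1 1) :=
    (EuclideanSpace.proj (1 : Fin 2) (𝕜 := ℝ)).continuous.comp continuous_subtype_val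
  have hc0 : Continuous (fun y : EuclideanHalfSpace 2 => y.1 0) :=
    (EuclideanSpace.proj (0 : Fin 2) (𝕜 := ℝ)).continuous.comp continuous_subtype_val
  have hxs : x ∈ e.source := mem_chart_source _ x
  set B : Set (EuclideanHalfSpace 2) := {y | |y.1 1 - u₀| < r ∧ |y.1 0 - v₀| < r} with hB
  have hBo : IsOpen B := (isOpen_lt ((hc1.sub continuous_const).abs) continuous_const).inter
    (isOpen_lt ((hc0.sub continuous_const).abs) continuous_const)
  have hBt : B ⊆ e.target := by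
    rintro y ⟨h1, h2⟩
    have := h (y.1 1, y.1 0) h1 h2
    rwa [isSurf_of_charted_gh] at this
  have hpn : ∀ p : ℝ × ℝ, p ∈ ball (0 : ℝ × ℝ) 1 ↔ |p.1| < 1 ∧ |p.2| < 1 := by
    intro p
    rw [mem_ball_zero_iff, Prod.norm_def, max_lt_iff, Real.norm_eq_abs, Real.norm_eq_abs]
  have hg : ∀ p : ℝ × ℝ, p ∈ ball (0 : ℝ × ℝ) 1 ∩ {p | 0 ≤ v₀ + r * p.2} →
      isSurf_of_charted_g (u₀ + r * p.1, v₀ + r * p.2) ∈ B := by
    rintro p ⟨hp1, hp2⟩
    rw [hpn] at hp1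
    have hp2' : 0 ≤ v₀ + r * p.2 := hp2
    constructor
    · rw [isSurf_of_charted_g1]
      show |u₀ + r * p.1 - u₀| < r
      rw [add_sub_cancel_left, abs_mul, abs_of_pos hr]
      nlinarith [hp1.1]
    · rw [isSurf_of_charted_g0]
      show |max (v₀ + r * p.2) 0 - v₀| < r
      rw [max_eq_left hp2', add_sub_cancel_left, abs_mul, abs_of_pos hr]
      nlinarith [hp1.2]
  refine ⟨e.source ∩ e ⁻¹' B, fun y => (((e y).1 1 - u₀) / r, ((e y).1 0 - v₀) / r),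
    fun p => e.symm (isSurf_of_charted_g (u₀ + r * p.1, v₀ + r * p.2)), ⟨hxs, ?_⟩, ?_, ?_⟩
  · show |(e x).1 1 - u₀| < r ∧ |(e x).1 0 - v₀| < r
    rw [← hu, ← hv, sub_self, sub_self, abs_zero]
    exact ⟨hr, hr⟩
  · show (((e x).1 1 - u₀) / r, ((e x).1 0 - v₀) / r) = (0, 0)
    rw [← hu, ← hv, sub_self, sub_self, zero_div]
  · refine ⟨?_, ?_, ?_, ?_, ?_, ?_, ?_⟩
    · exact e.continuousOn.isOpen_inter_preimage e.open_source hBo
    · have hce : ContinuousOn e (e.source ∩ e ⁻¹' B) := e.continuousOn.mono inter_subset_left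
      exact (((hc1.comp_continuousOn hce).sub continuousOn_const).div_const r).prodMk
        (((hc0.comp_continuousOn hce).sub continuousOn_const).div_const r)
    · have hgc : Continuous (fun p : ℝ × ℝ =>
          isSurf_of_charted_g (u₀ + r * p.1, v₀ + r * p.2)) :=
        isSurf_of_charted_gc.comp ((continuous_const.add (continuous_const.mul
          continuous_fst)).prodMk (continuous_const.add (continuous_const.mul continuous_snd)))
      exact e.continuousOn_symm.comp hgc.continuousOn (fun p hp => hBt (hg p hp))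
    · rintro y ⟨hy1, hy2, hy3⟩
      constructor
      · rw [hpn]
        constructor
        · show |((e y).1 1 - u₀) / r| < 1
          rw [abs_div, abs_of_pos hr, div_lt_one hr]; exact hy2
        · show |((e y).1 0 - v₀) / r| < 1
          rw [abs_div, abs_of_pos hr, div_lt_one hr]; exact hy3
      · show 0 ≤ v₀ + r * (((e y).1 0 - v₀) / r)
        rw [mul_div_cancel₀ _ hr.ne', add_sub_cancel]
        exact (e y).2
    · intro p hp
      have h1 := hg p hp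
      refine ⟨e.map_target (hBt h1), ?_⟩
      show e (e.symm _) ∈ B
      rw [e.right_inv (hBt h1)]
      exact h1
    · rintro y ⟨hy1, hy2⟩
      show e.symm (isSurf_of_charted_g (u₀ + r * (((e y).1 1 - u₀) / r),
        v₀ + r * (((e y).1 0 - v₀) / r))) = y
      rw [mul_div_cancel₀ _ hr.ne', mul_div_cancel₀ _ hr.ne', add_sub_cancel, add_sub_cancel,
        isSurf_of_charted_gh, e.left_inv hy1]
    · intro p hp
      have h1 := hg p hp
      have hp2' : 0 ≤ v₀ + r * p.2 := hp.2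
      show (((e (e.symm (isSurf_of_charted_g (u₀ + r * p.1, v₀ + r * p.2)))).1 1 - u₀) / r,
        ((e (e.symm (isSurf_of_charted_g (u₀ + r * p.1, v₀ + r * p.2)))).1 0 - v₀) / r) = p
      rw [e.right_inv (hBt h1), isSurf_of_charted_g0, isSurf_of_charted_g1]
      show ((u₀ + r * p.1 - u₀) / r, (max (v₀ + r * p.2) 0 - v₀) / r) = p
      rw [max_eq_left hp2', add_sub_cancel_left, add_sub_cancel_left,
        mul_div_cancel_left₀ _ hr.ne', mul_div_cancel_left₀ _ hr.ne']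

theorem isSurf_of_charted_r [ChartedSpace (EuclideanHalfSpace 2) M] (x : M) :
    ∃ R : ℝ, 0 < R ∧ ∀ r : ℝ, r ≤ R →
    ∀ p : ℝ × ℝ, |p.1 - (chartAt (EuclideanHalfSpace 2) x x).1 1| < r →
      |p.2 - (chartAt (EuclideanHalfSpace 2) x x).1 0| < r →
      isSurf_of_charted_g p ∈ (chartAt (EuclideanHalfSpace 2) x).target := by
  set e := chartAt (EuclideanHalfSpace 2) x with he
  have ho : IsOpen (isSurf_of_charted_g ⁻¹' e.target) :=
    e.open_target.preimage isSurf_of_charted_gc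
  have hmem : ((e x).1 1, (e x).1 0) ∈ isSurf_of_charted_g ⁻¹' e.target := by
    rw [mem_preimage, isSurf_of_charted_gh]
    exact e.map_source (mem_chart_source _ x)
  obtain ⟨R, hR, hR2⟩ := Metric.isOpen_iff.mp ho _ hmem
  refine ⟨R, hR, fun r hr p h1 h2 => ?_⟩
  apply hR2
  rw [Metric.mem_ball, Prod.dist_eq, max_lt_iff, Real.dist_eq, Real.dist_eq]
  exact ⟨h1.trans_le hr, h2.trans_le hr⟩

theorem isSurf_of_charted_int [ChartedSpace (EuclideanHalfSpace 2) M] (x : M)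
    (h : 0 < (chartAt (EuclideanHalfSpace 2) x x).1 0) : IntPt x := by
  obtain ⟨R, hR, hR2⟩ := isSurf_of_charted_r x
  set v₀ := (chartAt (EuclideanHalfSpace 2) x x).1 0 with hv
  have hm : 0 < min R v₀ := lt_min hR h
  obtain ⟨D, ψ, φ, h1, h2, h3⟩ := isSurf_of_charted_mk x (min R v₀) hm
    (hR2 _ (min_le_left _ _))
  refine ⟨D, ψ, φ, h1, h2, ?_⟩
  have e : ball (0 : ℝ × ℝ) 1 ∩ {p | 0 ≤ v₀ + min R v₀ * p.2} = BoxI := by
    apply inter_eq_left.mpr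
    intro p hp
    rw [mem_ball_zero_iff, Prod.norm_def, max_lt_iff, Real.norm_eq_abs, Real.norm_eq_abs] at hp
    have h4 := (abs_lt.mp hp.2).1
    have h5 := min_le_right R v₀
    show 0 ≤ v₀ + min R v₀ * p.2
    nlinarith
  rw [← hv, e] at h3
  exact h3

theorem isSurf_of_charted_bd [ChartedSpace (EuclideanHalfSpace 2) M] (x : M)
    (h : (chartAt (EuclideanHalfSpace 2) x x).1 0 = 0) : BdPt x := by
  obtain ⟨R, hR, hR2⟩ := isSurf_of_charted_r x
  obtain ⟨D, ψ, φ, h1, h2, h3⟩ := isSurf_of_charted_mk x R hR (hR2 _ le_rfl)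
  refine ⟨D, ψ, φ, h1, h2, ?_⟩
  have e : ball (0 : ℝ × ℝ) 1 ∩ {p | 0 ≤ (chartAt (EuclideanHalfSpace 2) x x).1 0 + R * p.2}
      = BoxB := by
    rw [h]
    ext p
    simp only [BoxB, mem_inter_iff, mem_setOf_eq, zero_add]
    refine and_congr_right fun _ => ?_
    exact mul_nonneg_iff_of_pos_left hR
  rw [e] at h3
  exact h3

theorem isSurf_of_charted [ChartedSpace (EuclideanHalfSpace 2) M]
    (hb : ((𝓡∂ 2).boundary M).Nonempty) : IsSurf M := by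
  constructor
  · intro x
    rcases lt_or_eq_of_le (chartAt (EuclideanHalfSpace 2) x x).2 with h | h
    · exact Or.inl (isSurf_of_charted_int x h)
    · exact Or.inr (isSurf_of_charted_bd x h.symm)
  · obtain ⟨x, hx⟩ := hb
    refine ⟨x, isSurf_of_charted_bd x ?_⟩
    have hx' : extChartAt (𝓡∂ 2) x x ∈ frontier (range (𝓡∂ 2)) := hx
    rw [frontier_range_modelWithCornersEuclideanHalfSpace] at hx'
    exact hx'.symm

/-- restricting a chart to an open part of the model -/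
theorem chart_restrict {D : Set M} {T : Set (ℝ × ℝ)} {ψ : M → ℝ × ℝ} {φ : ℝ × ℝ → M}
    (h : Chart D T ψ φ) {O : Set (ℝ × ℝ)} (hO : IsOpen O) :
    Chart (D ∩ ψ ⁻¹' O) (T ∩ O) ψ φ where
  isOpen := h.cψ.isOpen_inter_preimage h.isOpen hO
  cψ := h.cψ.mono inter_subset_left
  cφ := h.cφ.mono inter_subset_left
  mψ x hx := ⟨h.mψ x hx.1, hx.2⟩
  mφ p hp := ⟨h.mφ p hp.1, by
    rw [mem_preimage, h.right p hp.1]
    exact hp.2⟩
  left x hx := h.left x hx.1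
  right p hp := h.right p hp.1

/-- restricting a chart to an open part of the surface -/
theorem chart_restrict' {D : Set M} {T : Set (ℝ × ℝ)} {ψ : M → ℝ × ℝ} {φ : ℝ × ℝ → M}
    (h : Chart D T ψ φ) {W : Set M} (hW : IsOpen W) :
    ∃ O : Set (ℝ × ℝ), IsOpen O ∧ T ∩ φ ⁻¹' W = T ∩ O ∧ Chart (D ∩ W) (T ∩ O) ψ φ := by
  obtain ⟨O, hO, hOT⟩ := continuousOn_iff'.1 h.cφ W hW
  refine ⟨O, hO, by rw [inter_comm, hOT, inter_comm], ?_⟩
  have e : D ∩ W = D ∩ ψ ⁻¹' O := by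
    ext x
    constructor
    · rintro ⟨hx, hxW⟩
      refine ⟨hx, ?_⟩
      have : ψ x ∈ φ ⁻¹' W ∩ T := ⟨by rw [mem_preimage, h.left x hx]; exact hxW, h.mψ x hx⟩
      rw [hOT] at this
      exact this.1
    · rintro ⟨hx, hxO⟩
      refine ⟨hx, ?_⟩
      have : ψ x ∈ O ∩ T := ⟨hxO, h.mψ x hx⟩
      rw [← hOT] at this
      have h2 := this.1
      rw [mem_preimage, h.left x hx] at h2
      exact h2
  rw [e]
  exact chart_restrict h hO

theorem chart_scale79 {D : Set M} {T T' : Set (ℝ × ℝ)} {ψ : M → ℝ × ℝ} {φ : ℝ × ℝ → M}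
    (h : Chart D T ψ φ) (q : ℝ × ℝ) (r : ℝ) (hr : 0 < r) (hT : ∀ p, p ∈ T' ↔ q + r • p ∈ T) :
    Chart D T' (fun x => r⁻¹ • (ψ x - q)) (fun p => φ (q + r • p)) where
  isOpen := h.isOpen
  cψ := by
    have h1 : Continuous fun z : ℝ × ℝ => r⁻¹ • (z - q) := by fun_prop
    exact h1.comp_continuousOn h.cψ
  cφ := h.cφ.comp (by fun_prop) (fun p hp => (hT p).1 hp)
  mψ x hx := by
    rw [hT, smul_smul, mul_inv_cancel₀ hr.ne', one_smul, add_sub_cancel]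
    exact h.mψ x hx
  mφ p hp := h.mφ _ ((hT p).1 hp)
  left x hx := by
    rw [smul_smul, mul_inv_cancel₀ hr.ne', one_smul, add_sub_cancel]
    exact h.left x hx
  right p hp := by
    rw [h.right _ ((hT p).1 hp), add_sub_cancel_left, smul_smul, inv_mul_cancel₀ hr.ne', one_smul]

theorem intPt_gen79 {D : Set M} {T : Set (ℝ × ℝ)} {ψ : M → ℝ × ℝ} {φ : ℝ × ℝ → M}
    (h : Chart D T ψ φ) {y : M} (hy : y ∈ D) (hT : T ∈ 𝓝 (ψ y)) :
    ∃ D' ψ' φ', y ∈ D' ∧ ψ' y = 0 ∧ Chart D' BoxI ψ' φ' ∧ D' ⊆ D := by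
  obtain ⟨r, hr, hrT⟩ := Metric.mem_nhds_iff.1 hT
  have h1 := chart_restrict h (isOpen_ball (x := ψ y) (ε := r))
  refine ⟨D ∩ ψ ⁻¹' ball (ψ y) r, fun x => r⁻¹ • (ψ x - ψ y), fun p => φ (ψ y + r • p),
    ⟨hy, mem_ball_self hr⟩, by simp, chart_scale79 h1 (ψ y) r hr ?_, inter_subset_left⟩
  intro p
  have e : ψ y + r • p ∈ ball (ψ y) r ↔ p ∈ BoxI := by
    unfold BoxI
    rw [mem_ball_zero_iff, mem_ball, dist_eq_norm, add_sub_cancel_left, norm_smul,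
      Real.norm_of_nonneg hr.le]
    constructor
    · intro h
      by_contra h2
      have : r * 1 ≤ r * ‖p‖ := mul_le_mul_of_nonneg_left (not_lt.1 h2) hr.le
      linarith
    · intro h
      have : r * ‖p‖ < r * 1 := mul_lt_mul_of_pos_left h hr
      linarith
  rw [← e]
  exact ⟨fun h => ⟨hrT h, h⟩, fun h => h.2⟩

/-- a point of a chart whose image is an inner point of the model is an interior point -/
theorem intPt_of_chart {D : Set M} {T : Set (ℝ × ℝ)} {ψ : M → ℝ × ℝ} {φ : ℝ × ℝ → M}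
    (h : Chart D T ψ φ) {y : M} (hy : y ∈ D) (hT : T ∈ 𝓝 (ψ y)) : IntPt y := by
  obtain ⟨D', ψ', φ', h1, h2, h3, -⟩ := intPt_gen79 h hy hT
  exact ⟨D', ψ', φ', h1, h2, h3⟩

theorem intPt_of_pos {D : Set M} {ψ : M → ℝ × ℝ} {φ : ℝ × ℝ → M}
    (h : Chart D BoxB ψ φ) {y : M} (hy : y ∈ D) (hpos : 0 < (ψ y).2) : IntPt y := by
  apply intPt_of_chart h hy
  have h1 : ball (0 : ℝ × ℝ) 1 ∈ 𝓝 (ψ y) := isOpen_ball.mem_nhds (h.mψ y hy).1
  have h2 : {p : ℝ × ℝ | 0 < p.2} ∈ 𝓝 (ψ y) :=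
    (isOpen_lt continuous_const continuous_snd).mem_nhds hpos
  filter_upwards [h1, h2] with p hp1 hp2
  exact ⟨hp1, le_of_lt hp2⟩

theorem small_int {x : M} (hx : IntPt x) {W : Set M} (hW : W ∈ 𝓝 x) :
    ∃ D ψ φ, x ∈ D ∧ ψ x = 0 ∧ Chart D BoxI ψ φ ∧ D ⊆ W := by
  obtain ⟨D, ψ, φ, hxD, hx0, h⟩ := hx
  obtain ⟨O, hO, hOT, h1⟩ := chart_restrict' h (isOpen_interior (s := W))
  have hxW : x ∈ D ∩ interior W := ⟨hxD, mem_interior_iff_mem_nhds.2 hW⟩
  have h2 : ψ x ∈ BoxI ∩ O := h1.mψ x hxW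
  have h3 : BoxI ∩ O ∈ 𝓝 (ψ x) := (isOpen_ball.inter hO).mem_nhds h2
  obtain ⟨D', ψ', φ', k1, k2, k3, k4⟩ := intPt_gen79 h1 hxW h3
  exact ⟨D', ψ', φ', k1, k2, k3, fun z hz => interior_subset (k4 hz).2⟩

theorem small_bd {x : M} (hx : BdPt x) {W : Set M} (hW : W ∈ 𝓝 x) :
    ∃ D ψ φ, x ∈ D ∧ ψ x = 0 ∧ Chart D BoxB ψ φ ∧ D ⊆ W := by
  obtain ⟨D, ψ, φ, hxD, hx0, h⟩ := hx
  obtain ⟨O, hO, hOT, h1⟩ := chart_restrict' h (isOpen_interior (s := W))
  have hxW : x ∈ D ∩ interior W := ⟨hxD, mem_interior_iff_mem_nhds.2 hW⟩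
  have h2 : ψ x ∈ BoxB ∩ O := h1.mψ x hxW
  rw [hx0] at h2
  have h3 : O ∩ ball 0 1 ∈ 𝓝 (0 : ℝ × ℝ) := (hO.inter isOpen_ball).mem_nhds ⟨h2.2, h2.1.1⟩
  obtain ⟨r, hr, hrO⟩ := Metric.mem_nhds_iff.1 h3
  have h4 := chart_restrict h1 (isOpen_ball (x := (0 : ℝ × ℝ)) (ε := r))
  refine ⟨(D ∩ interior W) ∩ ψ ⁻¹' ball 0 r, fun x => r⁻¹ • (ψ x - 0), fun p => φ (0 + r • p),
    ⟨hxW, ?_⟩, by simp [hx0], chart_scale79 h4 0 r hr ?_, fun z hz => interior_subset hz.1.2⟩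
  · rw [mem_preimage, hx0]
    exact mem_ball_self hr
  · intro p
    have e : (0 : ℝ × ℝ) + r • p ∈ ball (0 : ℝ × ℝ) r ↔ p ∈ ball (0 : ℝ × ℝ) 1 := by
      rw [mem_ball_zero_iff, mem_ball_zero_iff, zero_add, norm_smul,
        Real.norm_of_nonneg hr.le]
      constructor
      · intro h
        by_contra h2
        have : r * 1 ≤ r * ‖p‖ := mul_le_mul_of_nonneg_left (not_lt.1 h2) hr.le
        linarith
      · intro h
        have : r * ‖p‖ < r * 1 := mul_lt_mul_of_pos_left h hr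
        linarith
    have e2 : 0 ≤ ((0 : ℝ × ℝ) + r • p).2 ↔ 0 ≤ p.2 := by
      rw [zero_add, Prod.smul_snd, smul_eq_mul]
      exact mul_nonneg_iff_of_pos_left hr
    constructor
    · rintro ⟨hp1, hp2⟩
      have k1 := e.2 hp1
      have k2 := hrO k1
      exact ⟨⟨⟨k2.2, e2.2 hp2⟩, k2.1⟩, k1⟩
    · rintro ⟨⟨⟨k1, k2⟩, k3⟩, k4⟩
      exact ⟨e.1 k4, e2.1 k2⟩

theorem surf_locPath (h : IsSurf M) : LocallyPathConnectedSpace M := by
  have hI : Convex ℝ BoxI := convex_ball _ _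
  have hB : Convex ℝ BoxB := by
    refine (convex_ball _ _).inter ?_
    intro x hx y hy a b ha hb _
    have hx' : 0 ≤ x.2 := hx
    have hy' : 0 ≤ y.2 := hy
    show 0 ≤ a * x.2 + b * y.2
    positivity
  have key : ∀ (D : Set M) (T : Set (ℝ × ℝ)) (ψ : M → ℝ × ℝ) (φ : ℝ × ℝ → M),
      Chart D T ψ φ → Convex ℝ T → D.Nonempty → IsPathConnected D := by
    intro D T ψ φ hch hT hD
    have e : D = φ '' T := by
      ext y
      constructor
      · intro hy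
        exact ⟨ψ y, hch.mψ y hy, hch.left y hy⟩
      · rintro ⟨p, hp, rfl⟩
        exact hch.mφ p hp
    obtain ⟨y, hy⟩ := hD
    rw [e]
    exact (hT.isPathConnected ⟨ψ y, hch.mψ y hy⟩).image' hch.cφ
  refine ⟨fun x => Filter.hasBasis_self.mpr fun W hW => ?_⟩
  rcases h.pt x with hx | hx
  · obtain ⟨D, ψ, φ, hxD, -, hch, hDW⟩ := small_int hx hW
    exact ⟨D, hch.isOpen.mem_nhds hxD, key D _ ψ φ hch hI ⟨x, hxD⟩, hDW⟩
  · obtain ⟨D, ψ, φ, hxD, -, hch, hDW⟩ := small_bd hx hW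
    exact ⟨D, hch.isOpen.mem_nhds hxD, key D _ ψ φ hch hB ⟨x, hxD⟩, hDW⟩

theorem surf_punct_conv_fst_pos {T : Set (ℝ × ℝ)} (hT : Convex ℝ T) :
    IsPreconnected (T ∩ {p | 0 < p.1}) :=
  (hT.inter ((convex_Ioi (0 : ℝ)).linear_preimage (LinearMap.fst ℝ ℝ ℝ))).isPreconnected

theorem surf_punct_conv_fst_neg {T : Set (ℝ × ℝ)} (hT : Convex ℝ T) :
    IsPreconnected (T ∩ {p | p.1 < 0}) :=
  (hT.inter ((convex_Iio (0 : ℝ)).linear_preimage (LinearMap.fst ℝ ℝ ℝ))).isPreconnected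

theorem surf_punct_conv_snd_pos {T : Set (ℝ × ℝ)} (hT : Convex ℝ T) :
    IsPreconnected (T ∩ {p | 0 < p.2}) :=
  (hT.inter ((convex_Ioi (0 : ℝ)).linear_preimage (LinearMap.snd ℝ ℝ ℝ))).isPreconnected

theorem surf_punct_conv_snd_neg {T : Set (ℝ × ℝ)} (hT : Convex ℝ T) :
    IsPreconnected (T ∩ {p | p.2 < 0}) :=
  (hT.inter ((convex_Iio (0 : ℝ)).linear_preimage (LinearMap.snd ℝ ℝ ℝ))).isPreconnected

theorem surf_punct_three {T : Set (ℝ × ℝ)} (hT : Convex ℝ T) (h1 : ((1 / 2 : ℝ), (1 / 2 : ℝ)) ∈ T)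
    (h2 : ((-1 / 2 : ℝ), (1 / 2 : ℝ)) ∈ T) :
    IsPreconnected ((T ∩ {p | 0 < p.1}) ∪ (T ∩ {p | 0 < p.2}) ∪ (T ∩ {p | p.1 < 0})) := by
  refine IsPreconnected.union ((-1 / 2 : ℝ), (1 / 2 : ℝ)) (Or.inr ⟨h2, ?_⟩) ⟨h2, ?_⟩ ?_
    (surf_punct_conv_fst_neg hT)
  · change (0 : ℝ) < 1 / 2
    norm_num
  · change (-1 / 2 : ℝ) < 0
    norm_num
  · refine IsPreconnected.union ((1 / 2 : ℝ), (1 / 2 : ℝ)) ⟨h1, ?_⟩ ⟨h1, ?_⟩
      (surf_punct_conv_fst_pos hT) (surf_punct_conv_snd_pos hT)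
    · change (0 : ℝ) < 1 / 2
      norm_num
    · change (0 : ℝ) < 1 / 2
      norm_num

theorem surf_punct_mem (a b : ℝ) (ha : |a| < 1) (hb : |b| < 1) : (a, b) ∈ (ball 0 1 : Set (ℝ × ℝ)) := by
  rw [mem_ball_zero_iff, Prod.norm_def]
  exact max_lt ha hb

theorem surf_punct_boxB : IsPreconnected (BoxB \ {0}) := by
  have hconv : Convex ℝ BoxB :=
    (convex_ball _ _).inter ((convex_Ici (0 : ℝ)).linear_preimage (LinearMap.snd ℝ ℝ ℝ))
  have h1 := surf_punct_three hconv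
    ⟨surf_punct_mem _ _ (by norm_num [abs_lt]) (by norm_num [abs_lt]), by
      change (0 : ℝ) ≤ 1 / 2
      norm_num⟩
    ⟨surf_punct_mem _ _ (by norm_num [abs_lt]) (by norm_num [abs_lt]), by
      change (0 : ℝ) ≤ 1 / 2
      norm_num⟩
  convert h1 using 1
  ext p
  constructor
  · rintro ⟨hp, hp0⟩
    have hp2 : 0 ≤ p.2 := hp.2
    rcases hp2.lt_or_eq with h | h
    · exact Or.inl (Or.inr ⟨hp, h⟩)
    · rcases lt_trichotomy p.1 0 with h' | h' | h'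
      · exact Or.inr ⟨hp, h'⟩
      · exact absurd (Prod.ext h' h.symm) hp0
      · exact Or.inl (Or.inl ⟨hp, h'⟩)
  · rintro ((⟨hp, h⟩ | ⟨hp, h⟩) | ⟨hp, h⟩)
    · exact ⟨hp, fun h0 => by
        rw [mem_singleton_iff] at h0
        rw [h0] at h
        exact lt_irrefl (0 : ℝ) h⟩
    · exact ⟨hp, fun h0 => by
        rw [mem_singleton_iff] at h0
        rw [h0] at h
        exact lt_irrefl (0 : ℝ) h⟩
    · exact ⟨hp, fun h0 => by
        rw [mem_singleton_iff] at h0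
        rw [h0] at h
        exact lt_irrefl (0 : ℝ) h⟩

theorem surf_punct_boxI : IsPreconnected (BoxI \ {0}) := by
  have hconv : Convex ℝ BoxI := convex_ball _ _
  have h1 := surf_punct_three hconv
    (surf_punct_mem _ _ (by norm_num [abs_lt]) (by norm_num [abs_lt]))
    (surf_punct_mem _ _ (by norm_num [abs_lt]) (by norm_num [abs_lt]))
  have hm : ((-1 / 2 : ℝ), (-1 / 2 : ℝ)) ∈ BoxI :=
    surf_punct_mem _ _ (by norm_num [abs_lt]) (by norm_num [abs_lt])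
  have hm2 : ((-1 / 2 : ℝ), (-1 / 2 : ℝ)) ∈
      ((BoxI ∩ {p | 0 < p.1}) ∪ (BoxI ∩ {p | 0 < p.2}) ∪ (BoxI ∩ {p | p.1 < 0})) := by
    refine Or.inr ⟨hm, ?_⟩
    change (-1 / 2 : ℝ) < 0
    norm_num
  have hm3 : ((-1 / 2 : ℝ), (-1 / 2 : ℝ)) ∈ BoxI ∩ {p | p.2 < 0} := by
    refine ⟨hm, ?_⟩
    change (-1 / 2 : ℝ) < 0
    norm_num
  have h2 := IsPreconnected.union ((-1 / 2 : ℝ), (-1 / 2 : ℝ)) hm2 hm3 h1
    (surf_punct_conv_snd_neg hconv)
  convert h2 using 1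
  ext p
  constructor
  · rintro ⟨hp, hp0⟩
    rcases lt_trichotomy p.2 0 with h | h | h
    · exact Or.inr ⟨hp, h⟩
    · rcases lt_trichotomy p.1 0 with h' | h' | h'
      · exact Or.inl (Or.inr ⟨hp, h'⟩)
      · exact absurd (Prod.ext h' h) hp0
      · exact Or.inl (Or.inl (Or.inl ⟨hp, h'⟩))
    · exact Or.inl (Or.inl (Or.inr ⟨hp, h⟩))
  · rintro (((⟨hp, h⟩ | ⟨hp, h⟩) | ⟨hp, h⟩) | ⟨hp, h⟩)
    · exact ⟨hp, fun h0 => by
        rw [mem_singleton_iff] at h0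
        rw [h0] at h
        exact lt_irrefl (0 : ℝ) h⟩
    · exact ⟨hp, fun h0 => by
        rw [mem_singleton_iff] at h0
        rw [h0] at h
        exact lt_irrefl (0 : ℝ) h⟩
    · exact ⟨hp, fun h0 => by
        rw [mem_singleton_iff] at h0
        rw [h0] at h
        exact lt_irrefl (0 : ℝ) h⟩
    · exact ⟨hp, fun h0 => by
        rw [mem_singleton_iff] at h0
        rw [h0] at h
        exact lt_irrefl (0 : ℝ) h⟩

theorem surf_punct_image {D : Set M} {T : Set (ℝ × ℝ)} {ψ : M → ℝ × ℝ} {φ : ℝ × ℝ → M}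
    (h : Chart D T ψ φ) {x : M} (hx : x ∈ D) (h0 : ψ x = 0) (hT : IsPreconnected (T \ {0})) :
    IsPreconnected (D \ {x}) := by
  have e : D \ {x} = φ '' (T \ {0}) := by
    ext y
    constructor
    · rintro ⟨hy, hyx⟩
      refine ⟨ψ y, ⟨h.mψ y hy, fun h1 => hyx ?_⟩, h.left y hy⟩
      rw [mem_singleton_iff] at h1
      rw [mem_singleton_iff, ← h.left y hy, h1, ← h0, h.left x hx]
    · rintro ⟨p, ⟨hp, hp0⟩, rfl⟩
      refine ⟨h.mφ p hp, fun h1 => hp0 ?_⟩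
      rw [mem_singleton_iff] at h1
      rw [mem_singleton_iff, ← h.right p hp, h1, h0]
  rw [e]
  exact hT.image φ (h.cφ.mono diff_subset)

theorem surf_punct (h : IsSurf M) : Punct M := by
  intro x W hW
  rcases h.pt x with hx | hx
  · obtain ⟨D, ψ, φ, hxD, h0, hc, hDW⟩ := small_int hx hW
    exact ⟨D, hc.isOpen, hxD, hDW, surf_punct_image hc hxD h0 surf_punct_boxI⟩
  · obtain ⟨D, ψ, φ, hxD, h0, hc, hDW⟩ := small_bd hx hW
    exact ⟨D, hc.isOpen, hxD, hDW, surf_punct_image hc hxD h0 surf_punct_boxB⟩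

/-- Lebesgue number for a local cocycle -/
theorem convex_null_lebesgue {T : Set (ℝ × ℝ)} {t : ℝ × ℝ → ℝ × ℝ → ZMod 2}
    (ht : ∀ p ∈ T, ∃ W ∈ 𝓝[T] p, ∀ a ∈ W, ∀ b ∈ W, ∀ c ∈ W, t a b + t b c = t a c)
    {K : Set (ℝ × ℝ)} (hK : IsCompact K) (hKT : K ⊆ T) :
    ∃ δ > 0, ∀ x ∈ K, ∀ a ∈ ball x δ ∩ T, ∀ b ∈ ball x δ ∩ T, ∀ c ∈ ball x δ ∩ T,
      t a b + t b c = t a c := by
  obtain ⟨δ, hδ, h⟩ := lebesgue_number_lemma_of_metric_sUnion (s := K)
    (c := {O : Set (ℝ × ℝ) | IsOpen O ∧ ∀ a ∈ O ∩ T, ∀ b ∈ O ∩ T, ∀ c ∈ O ∩ T,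
      t a b + t b c = t a c}) hK (fun O hO => hO.1) (by
      intro x hx
      obtain ⟨W, hW, hWc⟩ := ht x (hKT hx)
      obtain ⟨O, hO, hxO, hOW⟩ := mem_nhdsWithin.1 hW
      exact ⟨O, ⟨hO, fun a ha b hb c hc => hWc a (hOW ha) b (hOW hb) c (hOW hc)⟩, hxO⟩)
  refine ⟨δ, hδ, fun x hx a ha b hb c hc => ?_⟩
  obtain ⟨O, hO, hsub⟩ := h x hx
  exact hO.2 a ⟨hsub ha.1, ha.2⟩ b ⟨hsub hb.1, hb.2⟩ c ⟨hsub hc.1, hc.2⟩

theorem convex_null_z2 (a b c : ZMod 2) (h : a + b = c) : a = c + b := by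
  revert a b c; decide

/-- symmetry on good sets -/
theorem convex_null_symm {B : Set (ℝ × ℝ)} {t : ℝ × ℝ → ℝ × ℝ → ZMod 2}
    (h : ∀ a ∈ B, ∀ b ∈ B, ∀ c ∈ B, t a b + t b c = t a c) :
    (∀ a ∈ B, t a a = 0) ∧ ∀ a ∈ B, ∀ b ∈ B, t a b = t b a := by
  have h0 : ∀ a ∈ B, t a a = 0 := fun a ha => by
    have := h a ha a ha a ha
    revert this
    generalize t a a = x
    revert x; decide
  refine ⟨h0, fun a ha b hb => ?_⟩
  have h1 := h a ha b hb a ha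
  rw [h0 a ha] at h1
  revert h1
  generalize t a b = x
  generalize t b a = y
  revert x y; decide

/-- trivialization along a path -/
theorem convex_null_path {T : Set (ℝ × ℝ)} {t : ℝ × ℝ → ℝ × ℝ → ZMod 2} (γ : ℝ → ℝ × ℝ) (L : ℝ)
    (hL0 : 0 ≤ L) (hL : ∀ u v, dist (γ u) (γ v) ≤ L * |u - v|)
    (hγ : ∀ u ∈ Icc (0 : ℝ) 1, γ u ∈ T) {δ : ℝ} (hδ : 0 < δ)
    (hc : ∀ u ∈ Icc (0 : ℝ) 1, ∀ a ∈ ball (γ u) δ ∩ T, ∀ b ∈ ball (γ u) δ ∩ T,
      ∀ c ∈ ball (γ u) δ ∩ T, t a b + t b c = t a c) :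
    ∃ (σ : ℝ → ZMod 2) (η : ℝ), 0 < η ∧ ∀ u ∈ Icc (0 : ℝ) 1, ∀ v ∈ Icc (0 : ℝ) 1,
      |u - v| < η → t (γ u) (γ v) = σ u + σ v := by
  obtain ⟨n0, hn0⟩ := exists_nat_gt (L / δ)
  set n : ℕ := n0 + 1 with hn
  have hn1 : (0 : ℝ) < n := by rw [hn]; push_cast; positivity
  have hnL : L / n < δ := by
    rw [div_lt_iff₀ hn1]
    rw [div_lt_iff₀ hδ] at hn0
    have : (n : ℝ) = n0 + 1 := by rw [hn]; push_cast; ring
    rw [this]
    nlinarith
  let A : ℕ → ZMod 2 := fun k => ∑ i ∈ Finset.range k, t (γ (i / n)) (γ ((i + 1 : ℕ) / n))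
  let σ : ℝ → ZMod 2 := fun x => A ⌊n * x⌋₊ + t (γ (⌊n * x⌋₊ / n)) (γ x)
  have key : ∀ u ∈ Icc (0 : ℝ) 1, ∀ v ∈ Icc (0 : ℝ) 1, u ≤ v → v - u < 1 / n →
      t (γ u) (γ v) = σ u + σ v ∧ t (γ v) (γ u) = t (γ u) (γ v) := by
    intro u hu v hv huv hlt
    have hnu : (0 : ℝ) ≤ n * u := mul_nonneg hn1.le hu.1
    have hnv : (0 : ℝ) ≤ n * v := mul_nonneg hn1.le hv.1
    have f1 := Nat.floor_le hnu
    have f2 := Nat.lt_floor_add_one (n * u)
    have f3 := Nat.floor_le hnv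
    have f4 := Nat.lt_floor_add_one (n * v)
    have hlt' : (n : ℝ) * v - n * u < 1 := by
      have := mul_lt_mul_of_pos_left hlt hn1
      rw [mul_sub, mul_one_div_cancel hn1.ne'] at this
      exact this
    -- memberships
    have hmem : ∀ w : ℝ, w ∈ Icc (0 : ℝ) 1 → |w - u| ≤ 1 / n → γ w ∈ ball (γ u) δ ∩ T := by
      intro w hw hwu
      refine ⟨?_, hγ w hw⟩
      rw [mem_ball]
      calc dist (γ w) (γ u) ≤ L * |w - u| := hL w u
        _ ≤ L * (1 / n) := mul_le_mul_of_nonneg_left hwu hL0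
        _ = L / n := by ring
        _ < δ := hnL
    have mu : γ u ∈ ball (γ u) δ ∩ T := hmem u hu (by rw [sub_self, abs_zero]; positivity)
    have mv : γ v ∈ ball (γ u) δ ∩ T :=
      hmem v hv (by rw [abs_of_nonneg (by linarith)]; exact hlt.le)
    have e1 : ((⌊(n : ℝ) * u⌋₊ : ℝ) / n) ≤ u := by
      rw [div_le_iff₀ hn1]; linarith
    have e1' : u - 1 / n ≤ ((⌊(n : ℝ) * u⌋₊ : ℝ) / n) := by
      rw [le_div_iff₀ hn1, sub_mul, one_div_mul_cancel hn1.ne']; linarith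
    have mg : γ ((⌊(n : ℝ) * u⌋₊ : ℝ) / n) ∈ ball (γ u) δ ∩ T := by
      refine hmem _ ⟨by positivity, e1.trans hu.2⟩ ?_
      rw [abs_sub_comm, abs_of_nonneg (by linarith)]
      linarith
    have hcu := hc u hu
    obtain ⟨hs0, hs⟩ := convex_null_symm hcu
    refine ⟨?_, hs _ mv _ mu⟩
    have hfl : ⌊(n : ℝ) * u⌋₊ ≤ ⌊(n : ℝ) * v⌋₊ :=
      Nat.floor_le_floor (mul_le_mul_of_nonneg_left huv hn1.le)
    have hfl2 : ⌊(n : ℝ) * v⌋₊ ≤ ⌊(n : ℝ) * u⌋₊ + 1 := by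
      have : (⌊(n : ℝ) * v⌋₊ : ℝ) < ⌊(n : ℝ) * u⌋₊ + 1 + 1 := by linarith
      have h' : ⌊(n : ℝ) * v⌋₊ < ⌊(n : ℝ) * u⌋₊ + 1 + 1 := by exact_mod_cast this
      omega
    rcases Nat.lt_or_ge ⌊(n : ℝ) * u⌋₊ ⌊(n : ℝ) * v⌋₊ with hcase | hcase
    · have heq : ⌊(n : ℝ) * v⌋₊ = ⌊(n : ℝ) * u⌋₊ + 1 := by omega
      have g1 : (((⌊(n : ℝ) * u⌋₊ + 1 : ℕ) : ℝ) / n) ≤ v := by
        rw [← heq, div_le_iff₀ hn1]; linarith
      have g2 : u ≤ (((⌊(n : ℝ) * u⌋₊ + 1 : ℕ) : ℝ) / n) := by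
        rw [le_div_iff₀ hn1]; push_cast; linarith
      have mm : γ (((⌊(n : ℝ) * u⌋₊ + 1 : ℕ) : ℝ) / n) ∈ ball (γ u) δ ∩ T := by
        refine hmem _ ⟨by positivity, g1.trans hv.2⟩ ?_
        rw [abs_of_nonneg (by linarith)]
        linarith
      have h1 := hcu _ mu _ mg _ mm
      have h2 := hcu _ mu _ mm _ mv
      have h3 := hs _ mu _ mg
      show _ = (A ⌊(n : ℝ) * u⌋₊ + t (γ (⌊(n : ℝ) * u⌋₊ / n)) (γ u)) +
        (A ⌊(n : ℝ) * v⌋₊ + t (γ (⌊(n : ℝ) * v⌋₊ / n)) (γ v))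
      rw [heq]
      have hA : A (⌊(n : ℝ) * u⌋₊ + 1) = A ⌊(n : ℝ) * u⌋₊ +
          t (γ (⌊(n : ℝ) * u⌋₊ / n)) (γ (((⌊(n : ℝ) * u⌋₊ + 1 : ℕ) : ℝ) / n)) :=
        Finset.sum_range_succ _ _
      rw [hA, ← h2, ← h1, h3]
      generalize A ⌊(n : ℝ) * u⌋₊ = x1
      generalize t (γ (⌊(n : ℝ) * u⌋₊ / n)) (γ u) = x2
      generalize t (γ (⌊(n : ℝ) * u⌋₊ / n)) (γ (((⌊(n : ℝ) * u⌋₊ + 1 : ℕ) : ℝ) / n)) = x3
      generalize t (γ (((⌊(n : ℝ) * u⌋₊ + 1 : ℕ) : ℝ) / n)) (γ v) = x4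
      revert x1 x2 x3 x4; decide
    · have heq : ⌊(n : ℝ) * v⌋₊ = ⌊(n : ℝ) * u⌋₊ := by omega
      have h1 := hcu _ mu _ mg _ mv
      have h3 := hs _ mu _ mg
      show _ = (A ⌊(n : ℝ) * u⌋₊ + t (γ (⌊(n : ℝ) * u⌋₊ / n)) (γ u)) +
        (A ⌊(n : ℝ) * v⌋₊ + t (γ (⌊(n : ℝ) * v⌋₊ / n)) (γ v))
      rw [heq, ← h1, h3]
      generalize A ⌊(n : ℝ) * u⌋₊ = x1
      generalize t (γ (⌊(n : ℝ) * u⌋₊ / n)) (γ u) = x2
      generalize t (γ (⌊(n : ℝ) * u⌋₊ / n)) (γ v) = x3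
      revert x1 x2 x3; decide
  refine ⟨σ, 1 / n, by positivity, fun u hu v hv huv => ?_⟩
  rcases le_total u v with h | h
  · rw [abs_sub_comm, abs_of_nonneg (by linarith)] at huv
    exact (key u hu v hv h huv).1
  · rw [abs_of_nonneg (by linarith)] at huv
    have := key v hv u hu h huv
    rw [this.2, this.1, add_comm]

/-- uniformly locally constant functions on the unit interval -/
theorem convex_null_const (F : ℝ → ZMod 2) {η : ℝ} (hη : 0 < η)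
    (h : ∀ u ∈ Icc (0 : ℝ) 1, ∀ v ∈ Icc (0 : ℝ) 1, |u - v| < η → F u = F v) : F 0 = F 1 := by
  obtain ⟨n0, hn0⟩ := exists_nat_gt (1 / η)
  set n : ℕ := n0 + 1 with hn
  have hn1 : (0 : ℝ) < n := by rw [hn]; push_cast; positivity
  have hnη : 1 / (n : ℝ) < η := by
    rw [div_lt_iff₀ hn1]
    rw [div_lt_iff₀ hη] at hn0
    have : (n : ℝ) = n0 + 1 := by rw [hn]; push_cast; ring
    rw [this]
    nlinarith
  have key : ∀ k : ℕ, k ≤ n → F 0 = F (k / n) := by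
    intro k
    induction k with
    | zero => intro _; simp
    | succ k ih =>
      intro hk
      rw [ih (by omega)]
      have hk' : ((k : ℝ) + 1) ≤ n := by exact_mod_cast hk
      refine h _ ⟨by positivity, ?_⟩ _ ⟨by positivity, ?_⟩ ?_
      · rw [div_le_one hn1]; linarith
      · rw [div_le_one hn1]; push_cast; linarith
      · have : (k : ℝ) / n - ((k + 1 : ℕ) : ℝ) / n = -(1 / n) := by
          push_cast; ring
        rw [this, abs_neg, abs_of_pos (by positivity)]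
        exact hnη
  have := key n le_rfl
  rwa [div_self hn1.ne'] at this

/-- cocycles on convex sets of the plane are trivial -/
theorem convex_null {T : Set (ℝ × ℝ)} (hT : Convex ℝ T) {t : ℝ × ℝ → ℝ × ℝ → ZMod 2}
    (ht : ∀ p ∈ T, ∃ W ∈ 𝓝[T] p, ∀ a ∈ W, ∀ b ∈ W, ∀ c ∈ W, t a b + t b c = t a c) :
    ∃ s : ℝ × ℝ → ZMod 2, ∀ p ∈ T, ∃ W ∈ 𝓝[T] p, ∀ a ∈ W, ∀ b ∈ W, t a b = s a + s b := by
  rcases T.eq_empty_or_nonempty with hemp | ⟨p0, hp0⟩
  · exact ⟨0, fun p hp => by rw [hemp] at hp; exact hp.elim⟩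
  let g : ℝ × ℝ → ℝ → ℝ × ℝ := fun p u => p0 + u • (p - p0)
  have hgT : ∀ p ∈ T, ∀ u ∈ Icc (0 : ℝ) 1, g p u ∈ T := fun p hp u hu =>
    hT.add_smul_sub_mem hp0 hp hu
  have hg0 : ∀ p, g p 0 = p0 := fun p => by simp [g]
  have hg1 : ∀ p, g p 1 = p := fun p => by simp [g]
  have hgd : ∀ p u v, dist (g p u) (g p v) ≤ ‖p - p0‖ * |u - v| := by
    intro p u v
    rw [dist_eq_norm]
    have : g p u - g p v = (u - v) • (p - p0) := by simp only [g]; module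
    rw [this, norm_smul, Real.norm_eq_abs, mul_comm]
  have hgd' : ∀ p a, ∀ u ∈ Icc (0 : ℝ) 1, dist (g a u) (g p u) ≤ dist a p := by
    intro p a u hu
    rw [dist_eq_norm, dist_eq_norm]
    have : g a u - g p u = u • (a - p) := by simp only [g]; module
    rw [this, norm_smul, Real.norm_eq_abs, abs_of_nonneg hu.1]
    exact mul_le_of_le_one_left (norm_nonneg _) hu.2
  have hleb : ∀ p ∈ T, ∃ δ > 0, ∀ u ∈ Icc (0 : ℝ) 1, ∀ a ∈ ball (g p u) δ ∩ T,
      ∀ b ∈ ball (g p u) δ ∩ T, ∀ c ∈ ball (g p u) δ ∩ T, t a b + t b c = t a c := by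
    intro p hp
    have hcont : Continuous (g p) := by
      simp only [g]
      fun_prop
    obtain ⟨δ, hδ, h⟩ := convex_null_lebesgue ht (isCompact_Icc.image hcont)
      (K := g p '' Icc (0 : ℝ) 1) (by
        rintro _ ⟨u, hu, rfl⟩
        exact hgT p hp u hu)
    exact ⟨δ, hδ, fun u hu => h (g p u) ⟨u, hu, rfl⟩⟩
  have hpath : ∀ p ∈ T, ∃ (σ : ℝ → ZMod 2) (η : ℝ), 0 < η ∧ ∀ u ∈ Icc (0 : ℝ) 1,
      ∀ v ∈ Icc (0 : ℝ) 1, |u - v| < η → t (g p u) (g p v) = σ u + σ v := by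
    intro p hp
    obtain ⟨δ, hδ, h⟩ := hleb p hp
    exact convex_null_path (g p) ‖p - p0‖ (norm_nonneg _) (hgd p) (hgT p hp) hδ h
  choose! σ η hη hσ using hpath
  refine ⟨fun p => σ p 1 + σ p 0, fun p hp => ?_⟩
  obtain ⟨δ, hδ, hc⟩ := hleb p hp
  have claim : ∀ a ∈ ball p (δ / 2) ∩ T, (σ a 1 + σ a 0) + (σ p 1 + σ p 0) = t a p := by
    rintro a ⟨hap, haT⟩
    rw [mem_ball] at hap
    set L : ℝ := ‖a - p0‖ + ‖p - p0‖ + 1 with hL
    have hLpos : 0 < L := by positivity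
    set η0 : ℝ := min (min (η a) (η p)) (δ / (2 * L)) with hη0
    have hη0pos : 0 < η0 :=
      lt_min (lt_min (hη a haT) (hη p hp)) (by positivity)
    have hF := convex_null_const (fun u => σ a u + σ p u + t (g a u) (g p u)) hη0pos (by
      intro u hu v hv huv
      have h1 := hσ a haT u hu v hv (huv.trans_le ((min_le_left _ _).trans (min_le_left _ _)))
      have h2 := hσ p hp u hu v hv (huv.trans_le ((min_le_left _ _).trans (min_le_right _ _)))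
      have h3 : L * |u - v| < δ / 2 := by
        have h4 := huv.trans_le (min_le_right _ _)
        rw [lt_div_iff₀ (by positivity)] at h4
        linarith
      have habs := abs_nonneg (u - v)
      have hna := norm_nonneg (a - p0)
      have hnp := norm_nonneg (p - p0)
      have h5 : dist (g a u) (g a v) < δ / 2 := by
        refine lt_of_le_of_lt ((hgd a u v).trans ?_) h3
        exact mul_le_mul_of_nonneg_right (by linarith) habs
      have h6 : dist (g p u) (g p v) < δ / 2 := by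
        refine lt_of_le_of_lt ((hgd p u v).trans ?_) h3
        exact mul_le_mul_of_nonneg_right (by linarith) habs
      have h7 := (hgd' p a u hu).trans_lt hap
      have h8 := (hgd' p a v hv).trans_lt hap
      have mpu : g p u ∈ ball (g p u) δ ∩ T := ⟨mem_ball_self hδ, hgT p hp u hu⟩
      have mpv : g p v ∈ ball (g p u) δ ∩ T := by
        refine ⟨?_, hgT p hp v hv⟩
        rw [mem_ball, dist_comm]; linarith
      have mau : g a u ∈ ball (g p u) δ ∩ T := by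
        refine ⟨?_, hgT a haT u hu⟩
        rw [mem_ball]; linarith
      have mav : g a v ∈ ball (g p u) δ ∩ T := by
        refine ⟨?_, hgT a haT v hv⟩
        rw [mem_ball]
        have := dist_triangle (g a v) (g p v) (g p u)
        rw [dist_comm (g p v) (g p u)] at this
        linarith
      have hcu := hc u hu
      have c1 := hcu _ mau _ mav _ mpv
      have c2 := hcu _ mau _ mpu _ mpv
      show σ a u + σ p u + t (g a u) (g p u) = σ a v + σ p v + t (g a v) (g p v)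
      rw [h1] at c1
      rw [h2] at c2
      revert c1 c2
      generalize σ a u = x1
      generalize σ a v = x2
      generalize σ p u = x3
      generalize σ p v = x4
      generalize t (g a u) (g p u) = x5
      generalize t (g a v) (g p v) = x6
      generalize t (g a u) (g p v) = x7
      revert x1 x2 x3 x4 x5 x6 x7; decide)
    simp only [hg0, hg1] at hF
    have h00 : t p0 p0 = 0 := by
      have := (convex_null_symm (hc 0 ⟨le_rfl, zero_le_one⟩)).1 p0 ⟨by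
        rw [hg0]; exact mem_ball_self hδ, hp0⟩
      exact this
    rw [h00] at hF
    revert hF
    generalize σ a 0 = x1
    generalize σ a 1 = x2
    generalize σ p 0 = x3
    generalize σ p 1 = x4
    generalize t a p = x5
    revert x1 x2 x3 x4 x5; decide
  refine ⟨ball p (δ / 2) ∩ T, ?_, fun a ha b hb => ?_⟩
  · rw [inter_comm]
    exact inter_mem_nhdsWithin T (ball_mem_nhds p (by positivity))
  · have h1 := claim a ha
    have h2 := claim b hb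
    have hsub : ∀ x, x ∈ ball p (δ / 2) ∩ T → x ∈ ball (g p 1) δ ∩ T := by
      rintro x ⟨hx, hxT⟩
      rw [hg1]
      exact ⟨ball_subset_ball (by linarith) hx, hxT⟩
    have hp1 : p ∈ ball (g p 1) δ ∩ T := by
      rw [hg1]; exact ⟨mem_ball_self hδ, hp⟩
    have hc1 := hc 1 ⟨zero_le_one, le_rfl⟩
    have h3 := hc1 a (hsub a ha) p hp1 b (hsub b hb)
    have h4 := (convex_null_symm hc1).2 p hp1 b (hsub b hb)
    show t a b = (σ a 1 + σ a 0) + (σ b 1 + σ b 0)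
    rw [← h3, h4, ← h1, ← h2]
    generalize σ a 1 = x1
    generalize σ a 0 = x2
    generalize σ b 1 = x3
    generalize σ b 0 = x4
    generalize σ p 1 = x5
    generalize σ p 0 = x6
    revert x1 x2 x3 x4 x5 x6; decide

theorem chart_null {D : Set M} {T : Set (ℝ × ℝ)} {ψ : M → ℝ × ℝ} {φ : ℝ × ℝ → M}
    (h : Chart D T ψ φ) (hT : Convex ℝ T) {t : M → M → ZMod 2} (ht : Coc D t) : Null D t := by
  obtain ⟨s, hs⟩ := convex_null hT (t := fun p q => t (φ p) (φ q)) (by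
    intro p hp
    obtain ⟨W, hW, hWt⟩ := ht (φ p) (h.mφ p hp)
    refine ⟨φ ⁻¹' W, (h.cφ p hp).preimage_mem_nhdsWithin hW, ?_⟩
    intro a ha b hb c hc
    exact hWt _ ha _ hb _ hc)
  refine ⟨fun x => s (ψ x), ?_⟩
  intro x hx
  obtain ⟨W, hW, hWt⟩ := hs (ψ x) (h.mψ x hx)
  have h1 : Filter.Tendsto ψ (𝓝[D] x) (𝓝[T] (ψ x)) :=
    tendsto_nhdsWithin_iff.mpr ⟨h.cψ x hx, by
      filter_upwards [self_mem_nhdsWithin] with y hy
      exact h.mψ y hy⟩
  have h2 : ψ ⁻¹' W ∈ 𝓝[D] x := h1 hW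
  rw [h.isOpen.nhdsWithin_eq hx] at h2
  refine ⟨ψ ⁻¹' W ∩ D, Filter.inter_mem h2 (h.isOpen.mem_nhds hx), ?_⟩
  intro a ha b hb
  have h3 := hWt (ψ a) ha.1 (ψ b) hb.1
  simp only [h.left a ha.2, h.left b hb.2] at h3
  exact h3

theorem finH1_of_aux (x y z w : ZMod 2) (h : x + y = z + w) : x + z = y + w := by
  revert x y z w
  decide

/-- the first cohomology of a compact surface is finite -/
theorem finH1_of {M : Type*} [TopologicalSpace M] [CompactSpace M] [T2Space M]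
    [LocallyConnectedSpace M]
    (hloc : ∀ x : M, ∃ U : Set M, IsOpen U ∧ x ∈ U ∧ ∀ t : M → M → ZMod 2, Coc univ t → Null U t) :
    FinH1 M := by
  classical
  choose U hUo hUx hUn using hloc
  have hC : ∀ x : M, ∃ C ∈ 𝓝 x, IsClosed C ∧ C ⊆ U x := fun x =>
    exists_mem_nhds_isClosed_subset ((hUo x).mem_nhds (hUx x))
  choose C hCn hCc hCU using hC
  obtain ⟨F, hF⟩ : ∃ F : Finset M, ∀ x, ∃ i ∈ F, C i ∈ 𝓝 x := by
    obtain ⟨F, -, hF⟩ := isCompact_univ.elim_nhds_subcover (fun x => interior (C x))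
      (fun x _ => interior_mem_nhds.2 (hCn x))
    refine ⟨F, fun x => ?_⟩
    have h1 := hF (mem_univ x)
    simp only [mem_iUnion] at h1
    obtain ⟨i, hi, hx⟩ := h1
    exact ⟨i, hi, mem_interior_iff_mem_nhds.1 hx⟩
  have hP : ∀ i j : M, ∃ P : Finset M, ∀ x ∈ C i ∩ C j, ∃ p ∈ P,
      x ∈ connectedComponentIn (U i ∩ U j) p := by
    intro i j
    have hK : IsCompact (C i ∩ C j) := ((hCc i).inter (hCc j)).isCompact
    obtain ⟨P, hP1, hP2⟩ := hK.elim_nhds_subcover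
      (fun x => connectedComponentIn (U i ∩ U j) x)
      (fun x hx => (IsOpen.connectedComponentIn ((hUo i).inter (hUo j))).mem_nhds
        (mem_connectedComponentIn ⟨hCU i hx.1, hCU j hx.2⟩))
    refine ⟨P, fun x hx => ?_⟩
    have h1 := hP2 hx
    simp only [mem_iUnion] at h1
    obtain ⟨p, hp, hx⟩ := h1
    exact ⟨p, hp, hx⟩
  choose P hP using hP
  obtain ⟨Q, hQ⟩ : ∃ Q : Finset M, ∀ i ∈ F, ∀ j ∈ F, ∀ p ∈ P i j, p ∈ Q := by
    refine ⟨F.biUnion fun i => F.biUnion fun j => P i j, ?_⟩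
    intro i hi j hj p hp
    exact Finset.mem_biUnion.2 ⟨i, hi, Finset.mem_biUnion.2 ⟨j, hj, hp⟩⟩
  have hS : ∀ t : {t : M → M → ZMod 2 // Coc univ t}, ∀ i : M, ∃ s, Triv (U i) t.1 s :=
    fun t i => hUn i t.1 t.2
  choose S hS using hS
  obtain ⟨D, hD⟩ : ∃ D : {t : M → M → ZMod 2 // Coc univ t} → (F × F × Q → ZMod 2),
      ∀ t d, D t d = S t d.1 d.2.2 + S t d.2.1 d.2.2 := ⟨_, fun _ _ => rfl⟩
  have key : ∀ t t' : {t : M → M → ZMod 2 // Coc univ t}, D t = D t' →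
      Null univ (t.1 + t'.1) := by
    intro t t' hDD
    have hgl : ∀ i ∈ F, ∀ j ∈ F, ∀ x ∈ C i ∩ C j,
        S t i x + S t j x = S t' i x + S t' j x := by
      intro i hi j hj x hx
      obtain ⟨p, hp, hxp⟩ := hP i j x hx
      have hpU : p ∈ U i ∩ U j := connectedComponentIn_nonempty_iff.1 ⟨x, hxp⟩
      have hsub := connectedComponentIn_subset (U i ∩ U j) p
      have hcon : ∀ t : {t : M → M → ZMod 2 // Coc univ t},
          S t i x + S t j x = S t i p + S t j p := by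
        intro t
        obtain ⟨k, hk⟩ := triv_uniq
          (isPreconnected_connectedComponentIn (F := U i ∩ U j) (x := p))
          ((hS t i).mono (hsub.trans inter_subset_left))
          ((hS t j).mono (hsub.trans inter_subset_right))
        rw [hk x hxp, hk p (mem_connectedComponentIn hpU)]
      rw [hcon t, hcon t']
      have h1 := congrFun hDD (⟨i, hi⟩, ⟨j, hj⟩, ⟨p, hQ i hi j hj p hp⟩)
      rw [hD, hD] at h1
      exact h1
    choose ι hι1 hι2 using hF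
    refine ⟨fun x => S t (ι x) x + S t' (ι x) x, ?_⟩
    intro x _
    have hxC : x ∈ C (ι x) := mem_of_mem_nhds (hι2 x)
    obtain ⟨W, hW, hW'⟩ := ((hS t (ι x)).add (hS t' (ι x))) x (hCU _ hxC)
    refine ⟨W ∩ C (ι x), Filter.inter_mem hW (hι2 x), fun a ha b hb => ?_⟩
    rw [hW' a ha.1 b hb.1]
    have h1 : ∀ a ∈ C (ι x), (S t (ι x) + S t' (ι x)) a = S t (ι a) a + S t' (ι a) a := by
      intro a ha
      exact finH1_of_aux _ _ _ _ (hgl _ (hι1 x) _ (hι1 a) a ⟨ha, mem_of_mem_nhds (hι2 a)⟩)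
    rw [h1 a ha.2, h1 b hb.2]
  refine ⟨Set.range (fun δ : Set.range D => (δ.2.choose : {t // Coc univ t}).1),
    Set.finite_range _, ?_, ?_⟩
  · rintro _ ⟨δ, rfl⟩
    exact (δ.2.choose).2
  · intro t ht
    refine ⟨_, ⟨⟨D ⟨t, ht⟩, ⟨_, rfl⟩⟩, rfl⟩, ?_⟩
    exact key ⟨t, ht⟩ _ (Exists.choose_spec (⟨_, rfl⟩ : D ⟨t, ht⟩ ∈ Set.range D)).symm

theorem surf_finH1 [CompactSpace M] [T2Space M] (h : IsSurf M) : FinH1 M := by
  haveI := surf_locPath h
  haveI : LocallyConnectedSpace M := inferInstance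
  refine finH1_of fun x => ?_
  have hI : Convex ℝ BoxI := convex_ball 0 1
  have hB : Convex ℝ BoxB :=
    (convex_ball 0 1).inter (convex_halfSpace_ge (LinearMap.snd ℝ ℝ ℝ).isLinear 0)
  rcases h.pt x with ⟨D, ψ, φ, hx, -, hch⟩ | ⟨D, ψ, φ, hx, -, hch⟩
  · exact ⟨D, hch.isOpen, hx, fun t ht => chart_null hch hI (ht.mono (subset_univ _))⟩
  · exact ⟨D, hch.isOpen, hx, fun t ht => chart_null hch hB (ht.mono (subset_univ _))⟩

theorem v_half_mem (p : ℝ × ℝ) : p ∈ BoxB ↔ |p.1| < 1 ∧ |p.2| < 1 ∧ 0 ≤ p.2 := by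
  unfold BoxB
  rw [mem_inter_iff, mem_ball_zero_iff, Prod.norm_def, max_lt_iff, Real.norm_eq_abs,
    Real.norm_eq_abs, and_assoc]
  rfl

theorem v_half_conv : Convex ℝ BoxB := by
  unfold BoxB
  refine (convex_ball 0 1).inter ?_
  intro p hp q hq u w hu hw huw
  have hp' : 0 ≤ p.2 := hp
  have hq' : 0 ≤ q.2 := hq
  show 0 ≤ (u • p + w • q).2
  simp only [Prod.snd_add, Prod.smul_snd, smul_eq_mul]
  positivity

theorem v_half_conn {D : Set M} {ψ : M → ℝ × ℝ} {φ : ℝ × ℝ → M}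
    (h : Chart D BoxB ψ φ) {T' : Set (ℝ × ℝ)} (hT : T' ⊆ BoxB) (hc : IsPreconnected T') :
    IsPreconnected (D ∩ ψ ⁻¹' T') := by
  have e : D ∩ ψ ⁻¹' T' = φ '' T' := by
    ext x
    constructor
    · rintro ⟨h1, h2⟩
      exact ⟨ψ x, h2, h.left x h1⟩
    · rintro ⟨p, hp, rfl⟩
      refine ⟨h.mφ p (hT hp), ?_⟩
      show ψ (φ p) ∈ T'
      rw [h.right p (hT hp)]
      exact hp
  rw [e]
  exact hc.image φ (h.cφ.mono hT)

/-- near the boundary the class of a vertical segment from the boundary does not extend -/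
theorem v_half [T2Space M] {D : Set M} {ψ : M → ℝ × ℝ} {φ : ℝ × ℝ → M}
    (h : Chart D BoxB ψ φ) {y : M} (hy : y ∈ D) (hpos : 0 < (ψ y).2) : VProp y := by
  classical
  obtain ⟨a, b, hab⟩ : ∃ a b : ℝ, ψ y = (a, b) := ⟨(ψ y).1, (ψ y).2, rfl⟩
  have hb0 : 0 < b := by rw [hab] at hpos; exact hpos
  have hbox := (v_half_mem (ψ y)).1 (h.mψ y hy)
  rw [hab] at hbox
  obtain ⟨ha1, hb1, -⟩ := hbox
  simp only at ha1 hb1
  rw [abs_lt] at ha1
  rw [abs_of_pos hb0] at hb1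
  obtain ⟨d, hd0, hda, hda', hdb⟩ : ∃ d : ℝ, 0 < d ∧ -1 < a - d ∧ a + d < 1 ∧ b + d < 1 := by
    refine ⟨min (min (1 + a) (1 - a)) (1 - b) / 2, ?_, ?_, ?_, ?_⟩
    · have : 0 < min (min (1 + a) (1 - a)) (1 - b) :=
        lt_min (lt_min (by linarith [ha1.1]) (by linarith [ha1.2])) (by linarith)
      linarith
    · have h1 : min (min (1 + a) (1 - a)) (1 - b) ≤ 1 + a := (min_le_left _ _).trans (min_le_left _ _)
      have : 0 < min (min (1 + a) (1 - a)) (1 - b) :=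
        lt_min (lt_min (by linarith [ha1.1]) (by linarith [ha1.2])) (by linarith)
      linarith [ha1.1]
    · have h1 : min (min (1 + a) (1 - a)) (1 - b) ≤ 1 - a := (min_le_left _ _).trans (min_le_right _ _)
      linarith [ha1.2]
    · have h1 : min (min (1 + a) (1 - a)) (1 - b) ≤ 1 - b := min_le_right _ _
      linarith
  set R : Set M := {x | x ∈ D ∧ a ≤ (ψ x).1 ∧ (ψ x).1 < a + d ∧ 0 ≤ (ψ x).2 ∧ (ψ x).2 < b} with hR
  set L : Set M := {x | x ∈ D ∧ a - d < (ψ x).1 ∧ (ψ x).1 < a ∧ 0 ≤ (ψ x).2 ∧ (ψ x).2 < b} with hL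
  set v : M → M → ZMod 2 := fun p q => if (p ∈ R ∧ q ∈ L) ∨ (p ∈ L ∧ q ∈ R) then 1 else 0 with hv
  set g : M → ZMod 2 := fun p => if a ≤ (ψ p).1 then 1 else 0 with hg
  -- closed sets
  have hKRs : Icc a (a + d) ×ˢ Icc 0 b ⊆ BoxB := by
    rintro ⟨u, w⟩ ⟨⟨h1, h2⟩, ⟨h3, h4⟩⟩
    simp only at h1 h2 h3 h4
    rw [v_half_mem]
    refine ⟨abs_lt.2 ⟨?_, ?_⟩, abs_lt.2 ⟨?_, ?_⟩, ?_⟩ <;> simp only <;> linarith
  have hKLs : Icc (a - d) a ×ˢ Icc 0 b ⊆ BoxB := by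
    rintro ⟨u, w⟩ ⟨⟨h1, h2⟩, ⟨h3, h4⟩⟩
    simp only at h1 h2 h3 h4
    rw [v_half_mem]
    refine ⟨abs_lt.2 ⟨?_, ?_⟩, abs_lt.2 ⟨?_, ?_⟩, ?_⟩ <;> simp only <;> linarith
  have hKR : IsClosed (φ '' (Icc a (a + d) ×ˢ Icc 0 b)) :=
    ((isCompact_Icc.prod isCompact_Icc).image_of_continuousOn (h.cφ.mono hKRs)).isClosed
  have hKL : IsClosed (φ '' (Icc (a - d) a ×ˢ Icc 0 b)) :=
    ((isCompact_Icc.prod isCompact_Icc).image_of_continuousOn (h.cφ.mono hKLs)).isClosed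
  have hRK : R ⊆ φ '' (Icc a (a + d) ×ˢ Icc 0 b) := by
    rintro x ⟨h1, h2, h3, h4, h5⟩
    exact ⟨ψ x, ⟨⟨h2, h3.le⟩, ⟨h4, h5.le⟩⟩, h.left x h1⟩
  have hLK : L ⊆ φ '' (Icc (a - d) a ×ˢ Icc 0 b) := by
    rintro x ⟨h1, h2, h3, h4, h5⟩
    exact ⟨ψ x, ⟨⟨h2.le, h3.le⟩, ⟨h4, h5.le⟩⟩, h.left x h1⟩
  have V0 : ∀ x : M, ¬ (x ∈ D ∧ (ψ x).1 = a ∧ (ψ x).2 ≤ b) →
      ∃ W ∈ 𝓝 x, ∀ p ∈ W, ∀ q ∈ W, v p q = 0 := by
    intro x hx
    by_cases h1 : x ∈ φ '' (Icc a (a + d) ×ˢ Icc 0 b)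
    · by_cases h2 : x ∈ φ '' (Icc (a - d) a ×ˢ Icc 0 b)
      · exfalso
        obtain ⟨p, hp, rfl⟩ := h1
        obtain ⟨q, hq, hpq⟩ := h2
        have e : q = p := by
          rw [← h.right q (hKLs hq), hpq, h.right p (hKRs hp)]
        subst e
        apply hx
        refine ⟨h.mφ _ (hKRs hp), ?_, ?_⟩
        · rw [h.right _ (hKRs hp)]
          exact le_antisymm hq.1.2 hp.1.1
        · rw [h.right _ (hKRs hp)]
          exact hp.2.2
      · refine ⟨_, hKL.isOpen_compl.mem_nhds h2, fun p hp q hq => ?_⟩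
        rw [hv]
        simp only
        rw [if_neg]
        rintro (⟨-, h4⟩ | ⟨h4, -⟩)
        · exact hq (hLK h4)
        · exact hp (hLK h4)
    · refine ⟨_, hKR.isOpen_compl.mem_nhds h1, fun p hp q hq => ?_⟩
      rw [hv]
      simp only
      rw [if_neg]
      rintro (⟨h4, -⟩ | ⟨-, h4⟩)
      · exact hp (hRK h4)
      · exact hq (hRK h4)
  have V1 : ∀ x ∈ D, a - d < (ψ x).1 → (ψ x).1 < a + d → (ψ x).2 < b →
      ∃ W ∈ 𝓝 x, ∀ p ∈ W, ∀ q ∈ W, v p q = g p + g q := by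
    intro x hx h1 h2 h3
    have hO : IsOpen (D ∩ ψ ⁻¹' (Ioo (a - d) (a + d) ×ˢ Iio b)) :=
      h.cψ.isOpen_inter_preimage h.isOpen (isOpen_Ioo.prod isOpen_Iio)
    refine ⟨_, hO.mem_nhds ⟨hx, ⟨⟨h1, h2⟩, h3⟩⟩, ?_⟩
    have key : ∀ p ∈ D ∩ ψ ⁻¹' (Ioo (a - d) (a + d) ×ˢ Iio b),
        (p ∈ R ↔ a ≤ (ψ p).1) ∧ (p ∈ L ↔ ¬ a ≤ (ψ p).1) := by
      rintro p ⟨hp1, ⟨⟨hp2, hp3⟩, hp4⟩⟩
      have hp0 := ((v_half_mem _).1 (h.mψ p hp1)).2.2
      constructor
      · constructor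
        · intro hh; exact hh.2.1
        · intro hh; exact ⟨hp1, hh, hp3, hp0, hp4⟩
      · constructor
        · intro hh; exact not_le.2 hh.2.2.1
        · intro hh; exact ⟨hp1, hp2, not_le.1 hh, hp0, hp4⟩
    intro p hp q hq
    rw [hv, hg]
    simp only
    simp only [(key p hp).1, (key p hp).2, (key q hq).1, (key q hq).2]
    by_cases c1 : a ≤ (ψ p).1 <;> by_cases c2 : a ≤ (ψ q).1 <;> simp [c1, c2] <;> decide
  have hone : ∀ z : ZMod 2, z + z = 0 := fun z => CharTwo.add_self_eq_zero z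
  refine ⟨v, ?_, ?_⟩
  · intro x hx
    by_cases hc : x ∈ D ∧ (ψ x).1 = a ∧ (ψ x).2 ≤ b
    · obtain ⟨h1, h2, h3⟩ := hc
      have h4 : (ψ x).2 < b := by
        refine lt_of_le_of_ne h3 fun h4 => hx ?_
        have e : ψ x = ψ y := by rw [hab]; exact Prod.ext h2 h4
        show x = y
        rw [← h.left x h1, e, h.left y hy]
      obtain ⟨W, hW, hW2⟩ := V1 x h1 (by linarith) (by linarith) h4
      refine ⟨W, hW, fun p hp q hq r hr => ?_⟩
      rw [hW2 p hp q hq, hW2 q hq r hr, hW2 p hp r hr]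
      linear_combination hone (g q)
    · obtain ⟨W, hW, hW2⟩ := V0 x hc
      refine ⟨W, hW, fun p hp q hq r hr => ?_⟩
      rw [hW2 p hp q hq, hW2 q hq r hr, hW2 p hp r hr, add_zero]
  · rintro t ht ⟨s, hs⟩
    have hO : IsOpen (Ioo (a - d) (a + d) ×ˢ Iio (b + d) : Set (ℝ × ℝ)) :=
      isOpen_Ioo.prod isOpen_Iio
    have hOc : Convex ℝ (Ioo (a - d) (a + d) ×ˢ Iio (b + d) : Set (ℝ × ℝ)) :=
      (convex_Ioo _ _).prod (convex_Iio _)
    obtain ⟨st, hst⟩ := chart_null (chart_restrict h hO) (v_half_conv.inter hOc)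
      (ht.mono (subset_univ _))
    have hσ : Triv ((D ∩ ψ ⁻¹' (Ioo (a - d) (a + d) ×ˢ Iio (b + d))) \ {y}) v (s + st) := by
      have h1 := Triv.add (hs.mono (fun x hx => hx.2 :
        (D ∩ ψ ⁻¹' (Ioo (a - d) (a + d) ×ˢ Iio (b + d))) \ {y} ⊆ {y}ᶜ))
        (hst.mono (diff_subset :
        (D ∩ ψ ⁻¹' (Ioo (a - d) (a + d) ×ˢ Iio (b + d))) \ {y} ⊆ _))
      rwa [add_assoc, add_self_co, add_zero] at h1
    -- the first connected set
    set TL : Set (ℝ × ℝ) := BoxB ∩ (Ioo (a - d) a ×ˢ Iio (b + d)) with hTL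
    set TR : Set (ℝ × ℝ) := BoxB ∩ (Ioo a (a + d) ×ˢ Iio (b + d)) with hTR
    set TU : Set (ℝ × ℝ) := BoxB ∩ (Ioo (a - d) (a + d) ×ˢ Ioo b (b + d)) with hTU
    have cL : Convex ℝ TL := v_half_conv.inter ((convex_Ioo _ _).prod (convex_Iio _))
    have cR : Convex ℝ TR := v_half_conv.inter ((convex_Ioo _ _).prod (convex_Iio _))
    have cU : Convex ℝ TU := v_half_conv.inter ((convex_Ioo _ _).prod (convex_Ioo _ _))
    have hbd : b + d / 2 < 1 := by linarith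
    have mLU : ((a - d / 2, b + d / 2) : ℝ × ℝ) ∈ TL ∩ TU := by
      have h0 : ((a - d / 2, b + d / 2) : ℝ × ℝ) ∈ BoxB := by
        rw [v_half_mem]
        refine ⟨abs_lt.2 ⟨?_, ?_⟩, abs_lt.2 ⟨?_, ?_⟩, ?_⟩ <;> simp only <;> linarith
      refine ⟨⟨h0, ⟨⟨?_, ?_⟩, ?_⟩⟩, ⟨h0, ⟨⟨?_, ?_⟩, ⟨?_, ?_⟩⟩⟩⟩ <;> simp only [mem_Iio] <;> linarith
    have mRU : ((a + d / 2, b + d / 2) : ℝ × ℝ) ∈ TR ∩ TU := by
      have h0 : ((a + d / 2, b + d / 2) : ℝ × ℝ) ∈ BoxB := by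
        rw [v_half_mem]
        refine ⟨abs_lt.2 ⟨?_, ?_⟩, abs_lt.2 ⟨?_, ?_⟩, ?_⟩ <;> simp only <;> linarith
      refine ⟨⟨h0, ⟨⟨?_, ?_⟩, ?_⟩⟩, ⟨h0, ⟨⟨?_, ?_⟩, ⟨?_, ?_⟩⟩⟩⟩ <;> simp only [mem_Iio] <;> linarith
    have c1 : IsPreconnected (TL ∪ TU) :=
      IsPreconnected.union _ mLU.1 mLU.2 cL.isPreconnected cU.isPreconnected
    have c2 : IsPreconnected (TL ∪ TU ∪ TR) :=
      IsPreconnected.union _ (Or.inr mRU.2) mRU.1 c1 cR.isPreconnected
    have sub2 : TL ∪ TU ∪ TR ⊆ BoxB := by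
      rintro p ((hp | hp) | hp) <;> exact hp.1
    have G1 := v_half_conn h sub2 c2
    have sub3 : D ∩ ψ ⁻¹' (TL ∪ TU ∪ TR) ⊆
        (D ∩ ψ ⁻¹' (Ioo (a - d) (a + d) ×ˢ Iio (b + d))) \ {y} := by
      rintro x ⟨hxD, hx⟩
      rcases hx with ((hx | hx) | hx)
      · obtain ⟨_, ⟨h1, h2⟩, h3⟩ := hx
        refine ⟨⟨hxD, ⟨⟨h1, by linarith⟩, h3⟩⟩, ?_⟩
        rintro rfl
        rw [hab] at h2; exact lt_irrefl _ h2
      · obtain ⟨_, ⟨h1, h2⟩, h3, h4⟩ := hx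
        refine ⟨⟨hxD, ⟨⟨h1, h2⟩, h4⟩⟩, ?_⟩
        rintro rfl
        rw [hab] at h3; exact lt_irrefl _ h3
      · obtain ⟨_, ⟨h1, h2⟩, h3⟩ := hx
        refine ⟨⟨hxD, ⟨⟨by linarith, h2⟩, h3⟩⟩, ?_⟩
        rintro rfl
        rw [hab] at h1; exact lt_irrefl _ h1
    have t1 : Triv (D ∩ ψ ⁻¹' (TL ∪ TU ∪ TR)) v (fun _ => 0) := by
      rintro x ⟨hxD, hx⟩
      obtain ⟨W, hW, hW2⟩ := V0 x (by
        rintro ⟨-, e1, e2⟩
        rcases hx with ((hx | hx) | hx)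
        · obtain ⟨_, ⟨h1, h2⟩, h3⟩ := hx
          exact absurd e1 h2.ne
        · obtain ⟨_, ⟨h1, h2⟩, h3, h4⟩ := hx
          exact absurd h3 (not_lt.2 e2)
        · obtain ⟨_, ⟨h1, h2⟩, h3⟩ := hx
          exact absurd e1 h1.ne')
      exact ⟨W, hW, fun p hp q hq => by rw [hW2 p hp q hq, add_zero]⟩
    obtain ⟨k, hk⟩ := triv_uniq G1 t1 (hσ.mono sub3)
    -- the second connected set
    have c3 : Convex ℝ (BoxB ∩ (Ioo (a - d) (a + d) ×ˢ Iio b)) :=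
      v_half_conv.inter ((convex_Ioo _ _).prod (convex_Iio _))
    have G2 := v_half_conn h (inter_subset_left :
      BoxB ∩ (Ioo (a - d) (a + d) ×ˢ Iio b) ⊆ BoxB) c3.isPreconnected
    have sub4 : D ∩ ψ ⁻¹' (BoxB ∩ (Ioo (a - d) (a + d) ×ˢ Iio b)) ⊆
        (D ∩ ψ ⁻¹' (Ioo (a - d) (a + d) ×ˢ Iio (b + d))) \ {y} := by
      rintro x ⟨hxD, ⟨-, ⟨h1, h2⟩, h3⟩⟩
      have h3' : (ψ x).2 < b := h3
      refine ⟨⟨hxD, ⟨⟨h1, h2⟩, show (ψ x).2 < b + d by linarith⟩⟩, ?_⟩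
      rintro rfl
      rw [hab] at h3'; exact lt_irrefl _ h3'
    have t2 : Triv (D ∩ ψ ⁻¹' (BoxB ∩ (Ioo (a - d) (a + d) ×ˢ Iio b))) v g := by
      rintro x ⟨hxD, ⟨-, ⟨h1, h2⟩, h3⟩⟩
      exact V1 x hxD h1 h2 h3
    obtain ⟨k', hk'⟩ := triv_uniq G2 t2 (hσ.mono sub4)
    -- the two points
    have bL : ((a - d / 2, 0) : ℝ × ℝ) ∈ BoxB := by
      rw [v_half_mem]
      refine ⟨abs_lt.2 ⟨?_, ?_⟩, abs_lt.2 ⟨?_, ?_⟩, ?_⟩ <;> simp only <;> linarith
    have bR : ((a + d / 2, 0) : ℝ × ℝ) ∈ BoxB := by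
      rw [v_half_mem]
      refine ⟨abs_lt.2 ⟨?_, ?_⟩, abs_lt.2 ⟨?_, ?_⟩, ?_⟩ <;> simp only <;> linarith
    have eL := h.right _ bL
    have eR := h.right _ bR
    have kL := hk (φ (a - d / 2, 0)) ⟨h.mφ _ bL, by
      rw [mem_preimage, eL]
      refine Or.inl (Or.inl ⟨bL, ⟨⟨?_, ?_⟩, ?_⟩⟩) <;> simp only [mem_Iio] <;> linarith⟩
    have kR := hk (φ (a + d / 2, 0)) ⟨h.mφ _ bR, by
      rw [mem_preimage, eR]
      refine Or.inr ⟨bR, ⟨⟨?_, ?_⟩, ?_⟩⟩ <;> simp only [mem_Iio] <;> linarith⟩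
    have kL' := hk' (φ (a - d / 2, 0)) ⟨h.mφ _ bL, by
      rw [mem_preimage, eL]
      refine ⟨bL, ⟨⟨?_, ?_⟩, ?_⟩⟩ <;> simp only [mem_Iio] <;> linarith⟩
    have kR' := hk' (φ (a + d / 2, 0)) ⟨h.mφ _ bR, by
      rw [mem_preimage, eR]
      refine ⟨bR, ⟨⟨?_, ?_⟩, ?_⟩⟩ <;> simp only [mem_Iio] <;> linarith⟩
    have gL : g (φ (a - d / 2, 0)) = 0 := by
      rw [hg]
      simp only
      rw [eL, if_neg]
      simp only
      linarith
    have gR : g (φ (a + d / 2, 0)) = 1 := by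
      rw [hg]
      simp only
      rw [eR, if_pos]
      simp only
      linarith
    rw [gL] at kL'
    rw [gR] at kR'
    have : (1 : ZMod 2) = 0 := by
      linear_combination kR' - kL' - kR + kL
    exact absurd this (by decide)

/-- a homeomorphism of the plane moving `0` to `w` with support in the ball of radius `r` -/
theorem plane_homeo {w : ℝ × ℝ} {r : ℝ} (hr : ‖w‖ < r) :
    ∃ F : (ℝ × ℝ) ≃ₜ (ℝ × ℝ), F 0 = w ∧ ∀ x, r ≤ ‖x‖ → F x = x := by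
  have hr0 : 0 < r := lt_of_le_of_lt (norm_nonneg _) hr
  set g : ℝ × ℝ → ℝ × ℝ := fun x => x + (max (1 - ‖x‖ / r) 0) • w with hg
  have hc1 : ‖w‖ / r < 1 := (div_lt_one hr0).2 hr
  set c : NNReal := ⟨‖w‖ / r, div_nonneg (norm_nonneg _) hr0.le⟩ with hc
  have happ : ApproximatesLinearOn g
      ((ContinuousLinearEquiv.refl ℝ (ℝ × ℝ) : (ℝ × ℝ) ≃L[ℝ] (ℝ × ℝ)) :
        (ℝ × ℝ) →L[ℝ] (ℝ × ℝ)) univ c := by
    rw [ApproximatesLinearOn.approximatesLinearOn_iff_lipschitzOnWith]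
    apply LipschitzOnWith.of_dist_le_mul
    intro x _ z _
    have e1 : ∀ x : ℝ × ℝ, (g - ((ContinuousLinearEquiv.refl ℝ (ℝ × ℝ) :
        (ℝ × ℝ) ≃L[ℝ] (ℝ × ℝ)) : (ℝ × ℝ) →L[ℝ] (ℝ × ℝ))) x = (max (1 - ‖x‖ / r) 0) • w := by
      intro x
      simp [hg]
    rw [e1, e1, dist_eq_norm, ← sub_smul, norm_smul]
    have e2 : ‖max (1 - ‖x‖ / r) 0 - max (1 - ‖z‖ / r) 0‖ ≤ ‖x - z‖ / r := by
      have h1 := abs_max_sub_max_le_abs (1 - ‖x‖ / r) (1 - ‖z‖ / r) 0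
      have h2 : |1 - ‖x‖ / r - (1 - ‖z‖ / r)| ≤ ‖x - z‖ / r := by
        have h3 : 1 - ‖x‖ / r - (1 - ‖z‖ / r) = (‖z‖ - ‖x‖) / r := by ring
        rw [h3, abs_div, abs_of_pos hr0]
        apply div_le_div_of_nonneg_right _ hr0.le
        rw [norm_sub_rev]
        exact abs_norm_sub_norm_le _ _
      rw [Real.norm_eq_abs]
      exact h1.trans h2
    have e3 : (c : ℝ) = ‖w‖ / r := rfl
    rw [e3, dist_eq_norm]
    calc ‖max (1 - ‖x‖ / r) 0 - max (1 - ‖z‖ / r) 0‖ * ‖w‖ ≤ (‖x - z‖ / r) * ‖w‖ :=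
          mul_le_mul_of_nonneg_right e2 (norm_nonneg _)
      _ = ‖w‖ / r * ‖x - z‖ := by ring
  have hcN : Subsingleton (ℝ × ℝ) ∨ c < ‖((ContinuousLinearEquiv.refl ℝ (ℝ × ℝ)).symm :
      (ℝ × ℝ) →L[ℝ] (ℝ × ℝ))‖₊⁻¹ := by
    right
    have : ‖((ContinuousLinearEquiv.refl ℝ (ℝ × ℝ)).symm :
      (ℝ × ℝ) →L[ℝ] (ℝ × ℝ))‖₊ = 1 := by
      rw [← NNReal.coe_inj, coe_nnnorm]
      exact ContinuousLinearMap.norm_id
    rw [this, inv_one]
    exact_mod_cast hc1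
  refine ⟨happ.toHomeomorph g hcN, ?_, ?_⟩
  · show g 0 = w
    simp [hg]
  · intro x hx
    show g x = x
    have : max (1 - ‖x‖ / r) 0 = 0 := by
      apply max_eq_right
      have : 1 ≤ ‖x‖ / r := (one_le_div hr0).2 hx
      linarith
    simp [hg, this]

open Classical in
/-- extension by the identity -/
noncomputable def extId (D : Set M) (ψ : M → ℝ × ℝ) (φ : ℝ × ℝ → M) (F : ℝ × ℝ → ℝ × ℝ) (x : M) :
    M := if x ∈ D then φ (F (ψ x)) else x

theorem extId_mem {D : Set M} {ψ : M → ℝ × ℝ} {φ : ℝ × ℝ → M} {F : ℝ × ℝ → ℝ × ℝ} {x : M}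
    (hx : x ∈ D) : extId D ψ φ F x = φ (F (ψ x)) := by
  unfold extId
  rw [if_pos hx]

theorem extId_not {D : Set M} {ψ : M → ℝ × ℝ} {φ : ℝ × ℝ → M} {F : ℝ × ℝ → ℝ × ℝ} {x : M}
    (hx : x ∉ D) : extId D ψ φ F x = x := by
  unfold extId
  rw [if_neg hx]

theorem homeo_ball (F : (ℝ × ℝ) ≃ₜ (ℝ × ℝ)) {r : ℝ} (hr : r < 1)
    (hF : ∀ x, r ≤ ‖x‖ → F x = x) : ∀ x ∈ BoxI, F x ∈ BoxI := by
  intro x hx
  unfold BoxI at *
  rw [mem_ball_zero_iff] at *
  by_contra hcon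
  push Not at hcon
  have h1 := hF (F x) (hr.le.trans hcon)
  have h2 := F.injective h1
  rw [h2] at hcon
  linarith

theorem extId_cont [T2Space M] {D : Set M} {ψ : M → ℝ × ℝ} {φ : ℝ × ℝ → M}
    (h : Chart D BoxI ψ φ) (F : (ℝ × ℝ) ≃ₜ (ℝ × ℝ)) {r : ℝ} (hr : r < 1)
    (hF : ∀ x, r ≤ ‖x‖ → F x = x) : Continuous (extId D ψ φ F) := by
  rw [continuous_iff_continuousAt]
  intro x
  by_cases hx : x ∈ D
  · have h1 : ContinuousOn (fun z => φ (F (ψ z))) D := by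
      apply h.cφ.comp (F.continuous.comp_continuousOn h.cψ)
      intro z hz
      exact homeo_ball F hr hF _ (h.mψ z hz)
    have h2 : ContinuousAt (fun z => φ (F (ψ z))) x := h1.continuousAt (h.isOpen.mem_nhds hx)
    apply h2.congr
    filter_upwards [h.isOpen.mem_nhds hx] with z hz
    exact (extId_mem hz).symm
  · have hsub : closedBall (0 : ℝ × ℝ) r ⊆ BoxI := by
      intro p hp
      unfold BoxI
      rw [mem_closedBall_zero_iff] at hp
      rw [mem_ball_zero_iff]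
      linarith
    have hK : IsCompact (φ '' closedBall 0 r) :=
      (isCompact_closedBall _ _).image_of_continuousOn (h.cφ.mono hsub)
    have hKx : x ∉ φ '' closedBall 0 r := by
      rintro ⟨p, hp, rfl⟩
      exact hx (h.mφ p (hsub hp))
    have hKo : (φ '' closedBall 0 r)ᶜ ∈ 𝓝 x := hK.isClosed.isOpen_compl.mem_nhds hKx
    apply continuousAt_id.congr
    filter_upwards [hKo] with z hz
    by_cases hzD : z ∈ D
    · rw [extId_mem hzD, hF, h.left z hzD]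
      · rfl
      · by_contra hcon
        push Not at hcon
        apply hz
        refine ⟨ψ z, ?_, h.left z hzD⟩
        rw [mem_closedBall_zero_iff]
        exact hcon.le
    · rw [extId_not hzD]
      rfl

theorem extId_inv {D : Set M} {ψ : M → ℝ × ℝ} {φ : ℝ × ℝ → M}
    (h : Chart D BoxI ψ φ) (F G : ℝ × ℝ → ℝ × ℝ) (hF : ∀ x ∈ BoxI, F x ∈ BoxI)
    (hGF : ∀ x, G (F x) = x) (x : M) : extId D ψ φ G (extId D ψ φ F x) = x := by
  by_cases hx : x ∈ D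
  · rw [extId_mem hx, extId_mem (h.mφ _ (hF _ (h.mψ x hx))), h.right _ (hF _ (h.mψ x hx)), hGF,
      h.left x hx]
  · rw [extId_not hx, extId_not hx]

/-- homogeneity -/
theorem exists_homeo [T2Space M] {D : Set M} {ψ : M → ℝ × ℝ} {φ : ℝ × ℝ → M}
    (h : Chart D BoxI ψ φ) {y : M} (hy : y ∈ D) : ∃ Φ : M ≃ₜ M, Φ (φ 0) = y := by
  have hw : ‖ψ y‖ < 1 := by
    have := h.mψ y hy
    unfold BoxI at this
    rwa [mem_ball_zero_iff] at this
  obtain ⟨r, hr1, hr2⟩ := exists_between hw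
  obtain ⟨F, hF0, hF⟩ := plane_homeo hr1
  have hFs : ∀ x, r ≤ ‖x‖ → F.symm x = x := by
    intro x hx
    have := hF x hx
    rw [Homeomorph.symm_apply_eq]
    exact this.symm
  refine ⟨{ toFun := extId D ψ φ F
            invFun := extId D ψ φ F.symm
            left_inv := extId_inv h F F.symm (homeo_ball F hr2 hF) (fun x => F.symm_apply_apply x)
            right_inv := extId_inv h F.symm F (homeo_ball F.symm hr2 hFs)
              (fun x => F.apply_symm_apply x)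
            continuous_toFun := extId_cont h F hr2 hF
            continuous_invFun := extId_cont h F.symm hr2 hFs }, ?_⟩
  show extId D ψ φ F (φ 0) = y
  have h0 : (0 : ℝ × ℝ) ∈ BoxI := by
    unfold BoxI
    exact mem_ball_self one_pos
  rw [extId_mem (h.mφ 0 h0), h.right 0 h0, hF0, h.left y hy]

theorem coc_comap (Φ : M ≃ₜ M) {Z : Set M} {t : M → M → ZMod 2} (h : Coc Z t) :
    Coc (Φ ⁻¹' Z) (fun a b => t (Φ a) (Φ b)) := by
  intro x hx
  obtain ⟨W, hW, hW2⟩ := h (Φ x) hx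
  exact ⟨Φ ⁻¹' W, Φ.continuous.continuousAt hW, fun a ha b hb c hc => hW2 _ ha _ hb _ hc⟩

theorem null_comap (Φ : M ≃ₜ M) {Z : Set M} {t : M → M → ZMod 2} (h : Null Z t) :
    Null (Φ ⁻¹' Z) (fun a b => t (Φ a) (Φ b)) := by
  obtain ⟨s, hs⟩ := h
  refine ⟨fun a => s (Φ a), ?_⟩
  intro x hx
  obtain ⟨W, hW, hW2⟩ := hs (Φ x) hx
  exact ⟨Φ ⁻¹' W, Φ.continuous.continuousAt hW, fun a ha b hb => hW2 _ ha _ hb⟩

theorem v_homeo (Φ : M ≃ₜ M) {y : M} (h : VProp y) : VProp (Φ y) := by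
  obtain ⟨v, hv, hv2⟩ := h
  refine ⟨fun a b => v (Φ.symm a) (Φ.symm b), ?_, ?_⟩
  · have h1 := coc_comap Φ.symm hv
    apply h1.mono
    intro x hx
    rw [mem_preimage, mem_compl_iff, mem_singleton_iff, Homeomorph.symm_apply_eq]
    exact hx
  · intro t ht hn
    have h1 : Coc univ (fun a b => t (Φ a) (Φ b)) := coc_comap Φ ht
    apply hv2 _ h1
    have h2 := null_comap Φ hn
    have h3 : (fun a b => ((fun a b => v (Φ.symm a) (Φ.symm b)) + t) (Φ a) (Φ b)) =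
        v + fun a b => t (Φ a) (Φ b) := by
      funext a b
      simp
    rw [h3] at h2
    apply h2.mono
    intro x hx
    rw [mem_preimage, mem_compl_iff, mem_singleton_iff, Φ.injective.eq_iff]
    exact hx

theorem v_hom [T2Space M] {D : Set M} {ψ : M → ℝ × ℝ} {φ : ℝ × ℝ → M}
    (h : Chart D BoxI ψ φ) {y y' : M} (hy : y ∈ D) (hy' : y' ∈ D) (hv : VProp y) : VProp y' := by
  obtain ⟨Φ₁, h₁⟩ := exists_homeo h hy
  obtain ⟨Φ₂, h₂⟩ := exists_homeo h hy'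
  have h3 := v_homeo (Φ₁.symm.trans Φ₂) hv
  have h4 : (Φ₁.symm.trans Φ₂) y = y' := by
    rw [Homeomorph.trans_apply, ← h₁, Homeomorph.symm_apply_apply, h₂]
  rwa [h4] at h3

theorem v_all [T2Space M] [ConnectedSpace M] (h : IsSurf M) : ∀ y : M, IntPt y → VProp y := by
  have hopen : ∀ y : M, IntPt y → ¬ VProp y → ∃ D : Set M, IsOpen D ∧ y ∈ D ∧
      ∀ z ∈ D, IntPt z ∧ ¬ VProp z := by
    intro y hy hv
    obtain ⟨D, ψ, φ, hyD, -, hc⟩ := hy
    refine ⟨D, hc.isOpen, hyD, fun z hz => ⟨?_, ?_⟩⟩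
    · exact intPt_of_chart hc hz (isOpen_ball.mem_nhds (hc.mψ z hz))
    · intro hvz
      exact hv (v_hom hc hz hyD hvz)
  let A : Set M := {y | IntPt y ∧ ¬ VProp y}
  have hA : IsOpen A := by
    rw [isOpen_iff_mem_nhds]
    intro y hy
    obtain ⟨D, hD, hyD, hDA⟩ := hopen y hy.1 hy.2
    exact Filter.mem_of_superset (hD.mem_nhds hyD) hDA
  have hbd : ∀ (D : Set M) (ψ : M → ℝ × ℝ) (φ : ℝ × ℝ → M), Chart D BoxB ψ φ →
      ∀ y ∈ D, y ∉ A := by
    intro D ψ φ hc y hyD hyA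
    obtain ⟨O, hO, hOeq, -⟩ := chart_restrict' hc hA
    have hψy : ψ y ∈ BoxB := hc.mψ y hyD
    have h1 : ψ y ∈ BoxB ∩ φ ⁻¹' A := ⟨hψy, by
      show φ (ψ y) ∈ A
      rw [hc.left y hyD]; exact hyA⟩
    rw [hOeq] at h1
    have hball : IsOpen (O ∩ ball (0 : ℝ × ℝ) 1) := hO.inter isOpen_ball
    have hmem : ψ y ∈ O ∩ ball (0 : ℝ × ℝ) 1 := ⟨h1.2, hψy.1⟩
    have hcont : Continuous (fun e : ℝ => ψ y + ((0 : ℝ), e)) := by fun_prop
    have h0 : (fun e : ℝ => ψ y + ((0 : ℝ), e)) 0 ∈ O ∩ ball (0 : ℝ × ℝ) 1 := by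
      have : (fun e : ℝ => ψ y + ((0 : ℝ), e)) 0 = ψ y := by
        show ψ y + ((0 : ℝ), (0 : ℝ)) = ψ y
        have : ((0 : ℝ), (0 : ℝ)) = (0 : ℝ × ℝ) := rfl
        rw [this, add_zero]
      rw [this]; exact hmem
    have hev : ∀ᶠ e in 𝓝 (0 : ℝ), ψ y + ((0 : ℝ), e) ∈ O ∩ ball (0 : ℝ × ℝ) 1 :=
      hcont.continuousAt.eventually (hball.mem_nhds h0)
    rw [Metric.eventually_nhds_iff] at hev
    obtain ⟨ε, hε, hev⟩ := hev
    have h2 : ψ y + ((0 : ℝ), ε / 2) ∈ O ∩ ball (0 : ℝ × ℝ) 1 := hev (by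
      rw [Real.dist_eq, sub_zero, abs_of_pos (half_pos hε)]
      exact half_lt_self hε)
    have hpos : 0 < (ψ y + ((0 : ℝ), ε / 2)).2 := by
      show 0 < (ψ y).2 + ε / 2
      have : 0 ≤ (ψ y).2 := hψy.2
      linarith
    have h3 : ψ y + ((0 : ℝ), ε / 2) ∈ BoxB := ⟨h2.2, hpos.le⟩
    have h4 : ψ y + ((0 : ℝ), ε / 2) ∈ BoxB ∩ φ ⁻¹' A := by
      rw [hOeq]
      exact ⟨h3, h2.1⟩
    have h5 : φ (ψ y + ((0 : ℝ), ε / 2)) ∈ D := hc.mφ _ h3
    have h6 : 0 < (ψ (φ (ψ y + ((0 : ℝ), ε / 2)))).2 := by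
      rw [hc.right _ h3]; exact hpos
    exact h4.2.2 (v_half hc h5 h6)
  have hAc : IsClosed A := by
    rw [← isOpen_compl_iff, isOpen_iff_mem_nhds]
    intro x hx
    rcases h.pt x with hi | hb
    · obtain ⟨D, ψ, φ, hxD, -, hc⟩ := id hi
      refine Filter.mem_of_superset (hc.isOpen.mem_nhds hxD) ?_
      intro z hz hzA
      apply hx
      refine ⟨hi, fun hvx => hzA.2 (v_hom hc hxD hz hvx)⟩
    · obtain ⟨D, ψ, φ, hxD, -, hc⟩ := hb
      refine Filter.mem_of_superset (hc.isOpen.mem_nhds hxD) ?_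
      intro z hz hzA
      exact hbd D ψ φ hc z hz hzA
  rcases isClopen_iff.mp ⟨hAc, hA⟩ with he | hu
  · intro y hy
    by_contra hv
    have : y ∈ A := ⟨hy, hv⟩
    rw [he] at this
    exact this
  · exfalso
    obtain ⟨x, D, ψ, φ, hxD, -, hc⟩ := h.bd
    have : x ∈ A := by rw [hu]; exact mem_univ x
    exact hbd D ψ φ hc x hxD this

/-- a path in the half-plane joining two boundary points on both sides of a third one meets every
path from the third one to the outside -/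
theorem crossing {a₁ a₂ a₃ ρ : ℝ} (h12 : a₁ < a₂) (h23 : a₂ < a₃) (α β : ℝ → ℝ × ℝ)
    (hα : ContinuousOn α (Icc 0 1)) (hβ : ContinuousOn β (Icc 0 1))
    (hα2 : ∀ s ∈ Icc (0 : ℝ) 1, 0 ≤ (α s).2) (hβ2 : ∀ s ∈ Icc (0 : ℝ) 1, 0 ≤ (β s).2)
    (hα0 : α 0 = (a₁, 0)) (hα1 : α 1 = (a₃, 0)) (hαρ : ∀ s ∈ Icc (0 : ℝ) 1, ‖α s‖ < ρ)
    (hβ0 : β 0 = (a₂, 0)) (hβ1 : ρ ≤ ‖β 1‖) :
    ∃ s ∈ Icc (0 : ℝ) 1, ∃ t ∈ Icc (0 : ℝ) 1, α s = β t := by
  classical
  by_contra hcon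
  push Not at hcon
  have h0m : (0 : ℝ) ∈ Icc (0 : ℝ) 1 := ⟨le_rfl, zero_le_one⟩
  have h1m : (1 : ℝ) ∈ Icc (0 : ℝ) 1 := ⟨zero_le_one, le_rfl⟩
  have hρ : 0 < ρ := lt_of_le_of_lt (norm_nonneg _) (hαρ 0 h0m)
  obtain ⟨C, hC⟩ := isCompact_Icc.exists_bound_of_continuousOn hβ
  have hC0 : 0 ≤ C := le_trans (norm_nonneg _) (hC 0 h0m)
  let cl : ℝ → ℝ := fun s => max 0 (min s 1)
  have hcl : ∀ s, cl s ∈ Icc (0 : ℝ) 1 := fun s =>
    ⟨le_max_left _ _, max_le zero_le_one (min_le_right _ _)⟩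
  have hclc : Continuous cl := by fun_prop
  let A : ℝ → ℝ × ℝ := fun s =>
    α (cl s) + (min s 0 + max (s - 1) 0, min s 0 - max (s - 1) 0)
  let B : ℝ → ℝ × ℝ := fun t => β (cl t) + (0, min t 0 + max (t - 1) 0)
  have hAc : Continuous A := (hα.comp_continuous hclc hcl).add (by fun_prop)
  have hBc : Continuous B := (hβ.comp_continuous hclc hcl).add (by fun_prop)
  have cl0 : ∀ s, s ≤ 0 → cl s = 0 := by
    intro s hs
    show max 0 (min s 1) = 0
    rw [min_eq_left (by linarith), max_eq_left hs]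
  have cl1 : ∀ s, 1 ≤ s → cl s = 1 := by
    intro s hs
    show max 0 (min s 1) = 1
    rw [min_eq_right hs, max_eq_right zero_le_one]
  have clm : ∀ s, 0 ≤ s → s ≤ 1 → cl s = s := by
    intro s h0 h1
    show max 0 (min s 1) = s
    rw [min_eq_left h1, max_eq_right h0]
  have A0 : ∀ s, s ≤ 0 → A s = (a₁ + s, s) := by
    intro s hs
    show α (cl s) + (min s 0 + max (s - 1) 0, min s 0 - max (s - 1) 0) = _
    rw [cl0 s hs, hα0, min_eq_left hs, max_eq_right (by linarith)]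
    simp
  have A1 : ∀ s, 1 ≤ s → A s = (a₃ + (s - 1), -(s - 1)) := by
    intro s hs
    show α (cl s) + (min s 0 + max (s - 1) 0, min s 0 - max (s - 1) 0) = _
    rw [cl1 s hs, hα1, min_eq_right (by linarith), max_eq_left (by linarith)]
    simp
  have Am : ∀ s, 0 ≤ s → s ≤ 1 → A s = α s := by
    intro s h0 h1
    show α (cl s) + (min s 0 + max (s - 1) 0, min s 0 - max (s - 1) 0) = _
    rw [clm s h0 h1, min_eq_right h0, max_eq_right (by linarith)]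
    simp
  have B0 : ∀ t, t ≤ 0 → B t = (a₂, t) := by
    intro t ht
    show β (cl t) + (0, min t 0 + max (t - 1) 0) = _
    rw [cl0 t ht, hβ0, min_eq_left ht, max_eq_right (by linarith)]
    simp
  have B1 : ∀ t, 1 ≤ t → B t = β 1 + (0, t - 1) := by
    intro t ht
    show β (cl t) + (0, min t 0 + max (t - 1) 0) = _
    rw [cl1 t ht, min_eq_right (by linarith), max_eq_left (by linarith)]
    simp
  have Bm : ∀ t, 0 ≤ t → t ≤ 1 → B t = β t := by
    intro t h0 h1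
    show β (cl t) + (0, min t 0 + max (t - 1) 0) = _
    rw [clm t h0 h1, min_eq_right h0, max_eq_right (by linarith)]
    simp
  have B2 : ∀ t, 0 ≤ t → 0 ≤ (B t).2 := by
    intro t ht
    rcases le_total t 1 with h | h
    · rw [Bm t ht h]; exact hβ2 t ⟨ht, h⟩
    · rw [B1 t h]
      have := hβ2 1 h1m
      simp only [Prod.snd_add]
      linarith
  have hne : ∀ s t, A s ≠ B t := by
    intro s t heq
    rcases lt_or_ge s 0 with hs | hs
    · rw [A0 s hs.le] at heq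
      rcases lt_or_ge t 0 with ht | ht
      · rw [B0 t ht.le] at heq
        have := congrArg Prod.fst heq
        simp only at this
        linarith
      · have := congrArg Prod.snd heq
        simp only at this
        have := B2 t ht
        linarith
    · rcases le_or_gt s 1 with hs1 | hs1
      · rw [Am s hs hs1] at heq
        rcases lt_or_ge t 0 with ht | ht
        · rw [B0 t ht.le] at heq
          have h1 := hα2 s ⟨hs, hs1⟩
          rw [heq] at h1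
          simp only at h1
          linarith
        · rcases le_or_gt t 1 with ht1 | ht1
          · rw [Bm t ht ht1] at heq
            exact hcon s ⟨hs, hs1⟩ t ⟨ht, ht1⟩ heq
          · rw [B1 t ht1.le] at heq
            have h1 := hαρ s ⟨hs, hs1⟩
            rw [heq, Prod.norm_def, max_lt_iff] at h1
            rw [Prod.norm_def, le_max_iff] at hβ1
            simp only [Prod.fst_add, Prod.snd_add, add_zero] at h1
            rcases hβ1 with h2 | h2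
            · linarith [h1.1]
            · have h3 := hβ2 1 h1m
              rw [Real.norm_of_nonneg h3] at h2
              have h4 : ‖(β 1).2 + (t - 1)‖ = (β 1).2 + (t - 1) :=
                Real.norm_of_nonneg (by linarith)
              rw [h4] at h1
              linarith [h1.2]
      · rw [A1 s hs1.le] at heq
        rcases lt_or_ge t 0 with ht | ht
        · rw [B0 t ht.le] at heq
          have := congrArg Prod.fst heq
          simp only at this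
          linarith
        · have := congrArg Prod.snd heq
          simp only at this
          have := B2 t ht
          linarith
  set T : ℝ := |a₁| + |a₃| + C + ρ + 1 with hT
  have ha1 := abs_nonneg a₁
  have ha3 := abs_nonneg a₃
  have ha1' := le_abs_self a₁
  have ha3' := neg_abs_le a₃
  have hTpos : 1 < T := by linarith
  let G : ℝ × ℝ → ℝ × ℝ := fun p => A p.1 - B p.2
  have hGc : Continuous G := (hAc.comp continuous_fst).sub (hBc.comp continuous_snd)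
  have hG0 : ∀ p, G p ≠ 0 := fun p h => hne _ _ (sub_eq_zero.mp h)
  have hGn : ∀ p, 0 < ‖G p‖ := fun p => norm_pos_iff.mpr (hG0 p)
  let f : ℝ × ℝ → ℝ × ℝ := fun p =>
    (1 / 2 + T * (-(G p).1 / ‖G p‖), 1 / 2 + T * ((G p).2 / ‖G p‖))
  have hfc : Continuous f := by
    refine Continuous.prodMk ?_ ?_
    · exact continuous_const.add (continuous_const.mul
        ((hGc.fst.neg).div hGc.norm (fun p => (hGn p).ne')))
    · exact continuous_const.add (continuous_const.mul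
        ((hGc.snd).div hGc.norm (fun p => (hGn p).ne')))
  have hc1 : ∀ p, |-(G p).1 / ‖G p‖| ≤ 1 := by
    intro p
    rw [abs_div, abs_neg, abs_of_pos (hGn p), div_le_one (hGn p)]
    exact norm_fst_le (G p)
  have hc2 : ∀ p, |(G p).2 / ‖G p‖| ≤ 1 := by
    intro p
    rw [abs_div, abs_of_pos (hGn p), div_le_one (hGn p)]
    exact norm_snd_le (G p)
  obtain ⟨p, hp⟩ := Pool.Agent.Helper775.Herman.Brw.brouwer f hfc (1 / 2 + T) (by
    intro p
    rw [Prod.norm_def]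
    refine max_le ?_ ?_
    · rw [Real.norm_eq_abs]
      refine le_trans (abs_add_le _ _) ?_
      rw [abs_mul, abs_of_pos (by linarith : (0 : ℝ) < T)]
      have := mul_le_mul_of_nonneg_left (hc1 p) (by linarith : (0 : ℝ) ≤ T)
      have h2 : |(1 / 2 : ℝ)| = 1 / 2 := abs_of_pos (by norm_num)
      rw [h2]; linarith
    · rw [Real.norm_eq_abs]
      refine le_trans (abs_add_le _ _) ?_
      rw [abs_mul, abs_of_pos (by linarith : (0 : ℝ) < T)]
      have := mul_le_mul_of_nonneg_left (hc2 p) (by linarith : (0 : ℝ) ≤ T)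
      have h2 : |(1 / 2 : ℝ)| = 1 / 2 := abs_of_pos (by norm_num)
      rw [h2]; linarith)
  obtain ⟨s, t⟩ := p
  have e1 : 1 / 2 + T * (-(G (s, t)).1 / ‖G (s, t)‖) = s := congrArg Prod.fst hp
  have e2 : 1 / 2 + T * ((G (s, t)).2 / ‖G (s, t)‖) = t := congrArg Prod.snd hp
  have g1 : (G (s, t)).1 = (A s).1 - (B t).1 := rfl
  have g2 : (G (s, t)).2 = (A s).2 - (B t).2 := rfl
  have hgn := hGn (s, t)
  set g := ‖G (s, t)‖ with hg
  have hTp : (0 : ℝ) < T := by linarith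
  -- bounds
  have hs1 : s ≤ 1 / 2 + T := by
    have := (abs_le.mp (hc1 (s, t))).2
    rw [← e1]; nlinarith
  have hs0 : 1 / 2 - T ≤ s := by
    have := (abs_le.mp (hc1 (s, t))).1
    rw [← e1]; nlinarith
  have hBb : -C ≤ (B t).1 ∧ (B t).1 ≤ C := by
    have h1 : (B t).1 = (β (cl t)).1 := by
      show (β (cl t) + (0, min t 0 + max (t - 1) 0)).1 = _
      simp
    rw [h1]
    have h2 := le_trans (norm_fst_le (β (cl t))) (hC (cl t) (hcl t))
    exact abs_le.mp h2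
  have hA2 : (A s).2 ≤ ρ := by
    rcases le_total s 0 with h | h
    · rw [A0 s h]; simp only; linarith
    · rcases le_total s 1 with h' | h'
      · rw [Am s h h']
        exact le_trans (le_abs_self _) (le_trans (norm_snd_le (α s)) (hαρ s ⟨h, h'⟩).le)
      · rw [A1 s h']; simp only; linarith
  have hA2' : 1 / 2 - T ≤ (A s).2 := by
    rcases le_total s 0 with h | h
    · rw [A0 s h]; simp only; linarith
    · rcases le_total s 1 with h' | h'
      · rw [Am s h h']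
        have := hα2 s ⟨h, h'⟩
        linarith
      · rw [A1 s h']; simp only; linarith
  have hmax : |(G (s, t)).1| = g ∨ |(G (s, t)).2| = g := by
    have h1 : g = max ‖(G (s, t)).1‖ ‖(G (s, t)).2‖ := Prod.norm_def _
    rcases max_choice ‖(G (s, t)).1‖ ‖(G (s, t)).2‖ with h2 | h2
    · left; rw [h1, h2]; rfl
    · right; rw [h1, h2]; rfl
  rcases hmax with h | h
  · rcases abs_choice (G (s, t)).1 with h2 | h2
    · -- G.1 = g > 0 : s = 1/2 - T
      have h3 : (G (s, t)).1 = g := by rw [← h, h2]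
      rw [h3] at e1
      have h4 : -g / g = -1 := by field_simp
      rw [h4] at e1
      have h5 : s = 1 / 2 - T := by linarith
      have h6 : s ≤ 0 := by linarith
      rw [g1, A0 s h6] at h3
      simp only at h3
      linarith [hBb.1]
    · have h3 : (G (s, t)).1 = -g := by rw [← h, h2, neg_neg]
      rw [h3] at e1
      have h4 : - -g / g = 1 := by field_simp
      rw [h4] at e1
      have h5 : s = 1 / 2 + T := by linarith
      have h6 : 1 ≤ s := by linarith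
      rw [g1, A1 s h6] at h3
      simp only at h3
      linarith [hBb.2]
  · rcases abs_choice (G (s, t)).2 with h2 | h2
    · have h3 : (G (s, t)).2 = g := by rw [← h, h2]
      rw [h3] at e2
      have h4 : g / g = 1 := by field_simp
      rw [h4] at e2
      have h5 : t = 1 / 2 + T := by linarith
      have h6 : 1 ≤ t := by linarith
      rw [g2, B1 t h6] at h3
      simp only [Prod.snd_add] at h3
      have := hβ2 1 h1m
      linarith
    · have h3 : (G (s, t)).2 = -g := by rw [← h, h2, neg_neg]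
      rw [h3] at e2
      have h4 : -g / g = -1 := by field_simp
      rw [h4] at e2
      have h5 : t = 1 / 2 - T := by linarith
      have h6 : t ≤ 0 := by linarith
      rw [g2, B0 t h6] at h3
      simp only at h3
      linarith

theorem jl_path {F : Set M} {x y : M} (h : JoinedIn F x y) :
    ∃ γ : ℝ → M, Continuous γ ∧ γ 0 = x ∧ γ 1 = y ∧ ∀ t, γ t ∈ F := by
  obtain ⟨γ, hγ⟩ := h
  refine ⟨fun t => γ (Set.projIcc 0 1 zero_le_one t), γ.continuous.comp continuous_projIcc,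
    ?_, ?_, fun t => hγ _⟩
  · show γ (Set.projIcc 0 1 zero_le_one 0) = x
    rw [Set.projIcc_left]
    exact γ.source
  · show γ (Set.projIcc 0 1 zero_le_one 1) = y
    rw [Set.projIcc_right]
    exact γ.target

theorem jl_exit {V : Set M} (hV : IsOpen V) {γ : ℝ → M} (hγ : Continuous γ) (h0 : γ 0 ∈ V)
    (h1 : γ 1 ∉ V) : ∃ t, 0 < t ∧ t ≤ 1 ∧ γ t ∉ V ∧ ∀ s, 0 ≤ s → s < t → γ s ∈ V := by
  obtain ⟨T, hT⟩ : ∃ T : Set ℝ, T = Icc 0 1 ∩ γ ⁻¹' Vᶜ := ⟨_, rfl⟩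
  have hTc : IsCompact T := by
    rw [hT]
    exact isCompact_Icc.inter_right (hV.isClosed_compl.preimage hγ)
  have hTne : T.Nonempty := by
    rw [hT]
    exact ⟨1, ⟨zero_le_one, le_rfl⟩, h1⟩
  have hmem : sInf T ∈ T := hTc.sInf_mem hTne
  have hsub : ∀ s ∈ T, s ∈ Icc (0:ℝ) 1 ∧ γ s ∉ V := by
    intro s hs
    rw [hT] at hs
    exact hs
  have hmem' := hsub _ hmem
  have hnotV : γ (sInf T) ∉ V := hmem'.2
  refine ⟨sInf T, ?_, hmem'.1.2, hnotV, ?_⟩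
  · rcases lt_or_eq_of_le hmem'.1.1 with h | h
    · exact h
    · exfalso
      apply hnotV
      rw [← h]
      exact h0
  · intro s hs0 hs
    by_contra hcon
    have hsT : s ∈ T := by
      rw [hT]
      exact ⟨⟨hs0, le_trans hs.le hmem'.1.2⟩, hcon⟩
    exact absurd (csInf_le hTc.bddBelow hsT) (not_le.mpr hs)

theorem jl_norm {p : ℝ × ℝ} (h : p.2 = 0) : ‖p‖ = |p.1| := by
  rw [Prod.norm_def, h, norm_zero, Real.norm_eq_abs]
  exact max_eq_left (abs_nonneg _)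

/-- a compact connected subset of a boundary chart with connected complement meets the boundary
line in an interval -/
theorem jlemma [T2Space M] [LocallyPathConnectedSpace M] {D : Set M} {ψ : M → ℝ × ℝ}
    {φ : ℝ × ℝ → M} (h : Chart D BoxB ψ φ) {C : Set M} (hC : IsCompact C) (hCD : C ⊆ D)
    (hCc : IsPreconnected C) (hCo : IsPreconnected Cᶜ) {y₁ y₂ y₃ : M} (h₁ : y₁ ∈ D) (h₂ : y₂ ∈ D)
    (h₃ : y₃ ∈ D) (e₁ : (ψ y₁).2 = 0) (e₂ : (ψ y₂).2 = 0) (e₃ : (ψ y₃).2 = 0)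
    (h12 : (ψ y₁).1 < (ψ y₂).1) (h23 : (ψ y₂).1 < (ψ y₃).1) (hy₁ : y₁ ∈ C) (hy₃ : y₃ ∈ C) :
    y₂ ∈ C := by
  by_contra hy₂
  have hCcl : IsClosed C := hC.isClosed
  -- the radius
  have hcont : ContinuousOn (fun x => ‖ψ x‖) C := (h.cψ.mono hCD).norm
  obtain ⟨z, hzC, hz⟩ := hC.exists_isMaxOn ⟨y₁, hy₁⟩ hcont
  have hz1 : ‖ψ z‖ < 1 := by
    have := (h.mψ z (hCD hzC)).1
    rwa [mem_ball_zero_iff] at this
  obtain ⟨ρ, hρ⟩ : ∃ ρ : ℝ, ρ = (‖ψ z‖ + 1) / 2 := ⟨_, rfl⟩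
  have hρ1 : ρ < 1 := by linarith
  have hρ0 : 0 < ρ := by
    have := norm_nonneg (ψ z)
    linarith
  have hCρ : ∀ x ∈ C, ‖ψ x‖ < ρ := by
    intro x hx
    have h1 : ‖ψ x‖ ≤ ‖ψ z‖ := hz hx
    linarith
  -- the neighbourhood V
  obtain ⟨V, hV⟩ : ∃ V : Set M, V = D ∩ ψ ⁻¹' (ball 0 ρ) := ⟨_, rfl⟩
  have hVo : IsOpen V := by
    rw [hV]
    exact h.cψ.isOpen_inter_preimage h.isOpen isOpen_ball
  have hVmem : ∀ x, x ∈ V ↔ x ∈ D ∧ ‖ψ x‖ < ρ := by
    intro x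
    rw [hV]
    constructor
    · rintro ⟨h1, h2⟩
      exact ⟨h1, mem_ball_zero_iff.mp h2⟩
    · rintro ⟨h1, h2⟩
      exact ⟨h1, mem_ball_zero_iff.mpr h2⟩
  have hCV : C ⊆ V := fun x hx => (hVmem x).2 ⟨hCD hx, hCρ x hx⟩
  have hy₂V : y₂ ∈ V := by
    rw [hVmem]
    refine ⟨h₂, ?_⟩
    have n1 := hCρ y₁ hy₁
    have n3 := hCρ y₃ hy₃
    rw [jl_norm e₁, abs_lt] at n1
    rw [jl_norm e₃, abs_lt] at n3
    rw [jl_norm e₂, abs_lt]
    constructor <;> linarith [n1.1, n1.2, n3.1, n3.2]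
  -- the target point
  obtain ⟨p0, hp0⟩ : ∃ p0 : ℝ × ℝ, p0 = (0, (1 + ρ) / 2) := ⟨_, rfl⟩
  have hp0n : ‖p0‖ = (1 + ρ) / 2 := by
    rw [hp0, Prod.norm_def]
    show max ‖(0:ℝ)‖ ‖(1 + ρ) / 2‖ = _
    rw [norm_zero, Real.norm_eq_abs, abs_of_pos (by linarith)]
    exact max_eq_right (by linarith)
  have hp0B : p0 ∈ BoxB := by
    constructor
    · rw [mem_ball_zero_iff, hp0n]
      linarith
    · rw [hp0]
      show (0:ℝ) ≤ (1 + ρ) / 2
      linarith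
  have hq0 : φ p0 ∉ V := by
    rw [hVmem]
    rintro ⟨_, h2⟩
    rw [h.right p0 hp0B, hp0n] at h2
    linarith
  have hq0C : φ p0 ∉ C := fun hc => hq0 (hCV hc)
  -- path in the complement
  have hpc : IsPathConnected Cᶜ :=
    hCcl.isOpen_compl.isConnected_iff_isPathConnected.mp ⟨⟨y₂, hy₂⟩, hCo⟩
  obtain ⟨γ, hγ, hγ0, hγ1, hγC⟩ := jl_path (hpc.joinedIn y₂ hy₂ (φ p0) hq0C)
  obtain ⟨t, ht0, ht1, htV, hts⟩ := jl_exit hVo hγ (by rw [hγ0]; exact hy₂V)
    (by rw [hγ1]; exact hq0)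
  -- the closed chart part
  have hKc : IsClosed (φ '' (closedBall 0 ρ ∩ {p : ℝ × ℝ | 0 ≤ p.2})) := by
    apply IsCompact.isClosed
    apply IsCompact.image_of_continuousOn
    · exact (isCompact_closedBall _ _).inter_right (isClosed_le continuous_const continuous_snd)
    · apply h.cφ.mono
      intro p hp
      refine ⟨?_, hp.2⟩
      have := hp.1
      rw [mem_closedBall_zero_iff] at this
      rw [mem_ball_zero_iff]
      linarith
  have htK : γ t ∈ φ '' (closedBall 0 ρ ∩ {p : ℝ × ℝ | 0 ≤ p.2}) := by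
    rw [← hKc.closure_eq]
    have htc : t ∈ closure (Ico 0 t) := by
      rw [closure_Ico ht0.ne]
      exact ⟨ht0.le, le_rfl⟩
    apply map_mem_closure hγ htc
    intro s hs
    have h1 := (hVmem _).1 (hts s hs.1 hs.2)
    refine ⟨ψ (γ s), ⟨?_, (h.mψ _ h1.1).2⟩, h.left _ h1.1⟩
    rw [mem_closedBall_zero_iff]
    exact h1.2.le
  have htD : γ t ∈ D := by
    obtain ⟨p, hp, hpe⟩ := htK
    rw [← hpe]
    apply h.mφ
    refine ⟨?_, hp.2⟩
    have := hp.1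
    rw [mem_closedBall_zero_iff] at this
    rw [mem_ball_zero_iff]
    linarith
  have htρ : ρ ≤ ‖ψ (γ t)‖ := by
    by_contra hcon
    push Not at hcon
    exact htV ((hVmem _).2 ⟨htD, hcon⟩)
  have hγD : ∀ s ∈ Icc (0:ℝ) t, γ s ∈ D := by
    intro s hs
    rcases lt_or_eq_of_le hs.2 with h1 | h1
    · exact ((hVmem _).1 (hts s hs.1 h1)).1
    · rw [h1]; exact htD
  -- the compact path
  obtain ⟨P, hP⟩ : ∃ P : Set M, P = γ '' Icc 0 t := ⟨_, rfl⟩
  have hPc : IsClosed P := by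
    rw [hP]
    exact (isCompact_Icc.image hγ).isClosed
  have hPC : ∀ x ∈ C, x ∉ P := by
    intro x hx hxP
    rw [hP] at hxP
    obtain ⟨s, _, hs⟩ := hxP
    exact hγC s (by rw [hs]; exact hx)
  obtain ⟨W, hW⟩ : ∃ W : Set M, W = V \ P := ⟨_, rfl⟩
  have hWo : IsOpen W := by
    rw [hW]
    exact hVo.sdiff hPc
  have hCW : C ⊆ W := by
    rw [hW]
    exact fun x hx => ⟨hCV hx, hPC x hx⟩
  have hCcomp : C ⊆ connectedComponentIn W y₁ := hCc.subset_connectedComponentIn hy₁ hCW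
  have hcompo : IsOpen (connectedComponentIn W y₁) := hWo.connectedComponentIn
  have hcompp : IsPathConnected (connectedComponentIn W y₁) :=
    hcompo.isConnected_iff_isPathConnected.mp
      ⟨⟨y₁, hCcomp hy₁⟩, isPreconnected_connectedComponentIn⟩
  obtain ⟨δ, hδ, hδ0, hδ1, hδW⟩ := jl_path (hcompp.joinedIn y₁ (hCcomp hy₁) y₃ (hCcomp hy₃))
  have hδW' : ∀ s, δ s ∈ V ∧ δ s ∉ P := by
    intro s
    have := connectedComponentIn_subset W y₁ (hδW s)
    rw [hW] at this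
    exact this
  have hδD : ∀ s, δ s ∈ D := fun s => ((hVmem _).1 (hδW' s).1).1
  -- crossing
  have hst : ∀ s ∈ Icc (0:ℝ) 1, t * s ∈ Icc (0:ℝ) t := by
    intro s hs
    constructor
    · exact mul_nonneg ht0.le hs.1
    · calc t * s ≤ t * 1 := mul_le_mul_of_nonneg_left hs.2 ht0.le
        _ = t := mul_one t
  obtain ⟨s, hs, s', hs', hss⟩ := crossing h12 h23 (fun s => ψ (δ s)) (fun s => ψ (γ (t * s)))
    (h.cψ.comp hδ.continuousOn (fun s _ => hδD s))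
    (h.cψ.comp (hγ.comp (continuous_const.mul continuous_id)).continuousOn
      (fun s hs => hγD _ (hst s hs)))
    (fun s _ => (h.mψ _ (hδD s)).2)
    (fun s hs => (h.mψ _ (hγD _ (hst s hs))).2)
    (by
      show ψ (δ 0) = _
      rw [hδ0]
      exact Prod.ext rfl e₁)
    (by
      show ψ (δ 1) = _
      rw [hδ1]
      exact Prod.ext rfl e₃)
    (fun s _ => ((hVmem _).1 (hδW' s).1).2)
    (by
      show ψ (γ (t * 0)) = _
      rw [mul_zero, hγ0]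
      exact Prod.ext rfl e₂)
    (by
      show ρ ≤ ‖ψ (γ (t * 1))‖
      rw [mul_one]
      exact htρ)
  have hss' : ψ (δ s) = ψ (γ (t * s')) := hss
  have heq : δ s = γ (t * s') := by
    rw [← h.left _ (hδD s), hss', h.left _ (hγD _ (hst s' hs'))]
  apply (hδW' s).2
  rw [hP, heq]
  exact ⟨t * s', hst s' hs', rfl⟩

end Pool.Agent.Helper775.Surf
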