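import Mathlib

/-! Charts, one-dimensional cohomology mod 2 by local functions of two variables, edges: definitions
used in the proof about tight surfaces with boundary. -/

set_option autoImplicit false

namespace Pool.Agent.Helper775.Surf

open Set Topology Metric
open scoped InnerProductSpace

variable {M : Type*} [TopologicalSpace M] {N : ℕ}

/-- `ψ : D → T` and `φ : T → D` are mutually inverse homeomorphisms, `D` is open in `M`. -/
structure Chart (D : Set M) (T : Set (ℝ × ℝ)) (ψ : M → ℝ × ℝ) (φ : ℝ × ℝ → M) : Prop where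
  isOpen : IsOpen D
  cψ : ContinuousOn ψ D
  cφ : ContinuousOn φ T
  mψ : ∀ x ∈ D, ψ x ∈ T
  mφ : ∀ p ∈ T, φ p ∈ D
  left : ∀ x ∈ D, φ (ψ x) = x
  right : ∀ p ∈ T, ψ (φ p) = p

/-- the open square `(-1,1) × (-1,1)` -/
def BoxI : Set (ℝ × ℝ) := ball 0 1

/-- the half-open rectangle `(-1,1) × [0,1)` -/
def BoxB : Set (ℝ × ℝ) := ball 0 1 ∩ {p | 0 ≤ p.2}

/-- interior points -/
def IntPt (x : M) : Prop := ∃ D ψ φ, x ∈ D ∧ ψ x = 0 ∧ Chart D BoxI ψ φ

/-- points with a chart to the half-plane, on the boundary line -/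
def BdPt (x : M) : Prop := ∃ D ψ φ, x ∈ D ∧ ψ x = 0 ∧ Chart D BoxB ψ φ

/-- surfaces with non-empty boundary -/
structure IsSurf (M : Type*) [TopologicalSpace M] : Prop where
  pt : ∀ x : M, IntPt x ∨ BdPt x
  bd : ∃ x : M, BdPt x

/-- `t` is a cocycle of degree one near `Z` -/
def Coc (Z : Set M) (t : M → M → ZMod 2) : Prop :=
  ∀ x ∈ Z, ∃ W ∈ 𝓝 x, ∀ a ∈ W, ∀ b ∈ W, ∀ c ∈ W, t a b + t b c = t a c

/-- `s` trivializes `t` near `Z` -/
def Triv (Z : Set M) (t : M → M → ZMod 2) (s : M → ZMod 2) : Prop :=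
  ∀ x ∈ Z, ∃ W ∈ 𝓝 x, ∀ a ∈ W, ∀ b ∈ W, t a b = s a + s b

/-- `t` is a coboundary near `Z` -/
def Null (Z : Set M) (t : M → M → ZMod 2) : Prop := ∃ s, Triv Z t s

/-- every class of degree one near `Z` is the restriction of a class of `M` -/
def Sur (Z : Set M) : Prop :=
  ∀ t : M → M → ZMod 2, Coc Z t → ∃ t' : M → M → ZMod 2, Coc univ t' ∧ Null Z (t + t')

/-- the first cohomology of `M` is finite -/
def FinH1 (M : Type*) [TopologicalSpace M] : Prop :=
  ∃ R : Set (M → M → ZMod 2), R.Finite ∧ (∀ r ∈ R, Coc univ r) ∧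
    ∀ t : M → M → ZMod 2, Coc univ t → ∃ r ∈ R, Null univ (t + r)

/-- small punctured neighbourhoods are connected -/
def Punct (M : Type*) [TopologicalSpace M] : Prop :=
  ∀ (x : M), ∀ W ∈ 𝓝 x, ∃ O : Set M, IsOpen O ∧ x ∈ O ∧ O ⊆ W ∧ IsPreconnected (O \ {x})

/-- some class on the complement of `y` does not extend -/
def VProp (y : M) : Prop :=
  ∃ v : M → M → ZMod 2, Coc ({y}ᶜ : Set M) v ∧
    ∀ t : M → M → ZMod 2, Coc univ t → ¬ Null ({y}ᶜ : Set M) (v + t)

/-- preimages of closed half-spaces are connected or empty -/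
def Conn0 (f : M → EuclideanSpace ℝ (Fin N)) : Prop :=
  ∀ (z : EuclideanSpace ℝ (Fin N)) (c : ℝ), IsPreconnected {x | c ≤ ⟪z, f x⟫_ℝ}

/-- the convex hull of the image -/
def Hul (f : M → EuclideanSpace ℝ (Fin N)) : Set (EuclideanSpace ℝ (Fin N)) :=
  convexHull ℝ (range f)

/-- everything about the surface and the map which is used in the geometric part -/
structure Setup (f : M → EuclideanSpace ℝ (Fin N)) : Prop where
  cont : Continuous f
  loc : ∀ x, ∃ U ∈ 𝓝 x, InjOn f U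
  sub : ∀ (z : EuclideanSpace ℝ (Fin N)) (c : ℝ), z ≠ 0 → ∃ x, ⟪z, f x⟫_ℝ ≠ c
  conn : Conn0 f
  sur : ∀ (z : EuclideanSpace ℝ (Fin N)) (c : ℝ), Sur {x | c ≤ ⟪z, f x⟫_ℝ}
  surf : IsSurf M
  fin : FinH1 M
  pun : Punct M
  vp : ∀ y : M, IntPt y → VProp y

/-- the segment `[a,b]` is an exposed edge of the convex hull of the image -/
def Edge (f : M → EuclideanSpace ℝ (Fin N)) (a b : EuclideanSpace ℝ (Fin N)) : Prop :=
  a ≠ b ∧ ∃ (n : EuclideanSpace ℝ (Fin N)) (m : ℝ), (∀ r ∈ Hul f, ⟪n, r⟫_ℝ ≤ m) ∧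
    {r | r ∈ Hul f ∧ ⟪n, r⟫_ℝ = m} = segment ℝ a b

/-- an edge with an inner point which is the image of an interior point -/
def CEdge (f : M → EuclideanSpace ℝ (Fin N)) (a b : EuclideanSpace ℝ (Fin N)) : Prop :=
  Edge f a b ∧ ∃ y, IntPt y ∧ f y ∈ openSegment ℝ a b

/-- two trivializations away from `S` and `T` differ by a constant away from the hull of `S ∪ T` -/
def Good (f : M → EuclideanSpace ℝ (Fin N)) (t : M → M → ZMod 2)
    (S T : Set (EuclideanSpace ℝ (Fin N))) : Prop :=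
  ∀ s s' : M → ZMod 2, Triv {x | f x ∉ S} t s → Triv {x | f x ∉ T} t s' →
    ∃ c : ZMod 2, ∀ x, f x ∉ convexHull ℝ (S ∪ T) → s x + s' x = c

end Pool.Agent.Helper775.Surf
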