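import Pool.Agent.Helper775.Surf.Geo
import Pool.Agent.Helper775.Surf.Topo

/-! Every neighbourhood of an extreme point meets a crossing edge. -/

set_option autoImplicit false

namespace Pool.Agent.Helper775.Surf

open Set Topology Metric
open scoped InnerProductSpace

variable {M : Type*} [TopologicalSpace M] {N : ℕ} {f : M → EuclideanSpace ℝ (Fin N)}

theorem te_exposed {K : Set (EuclideanSpace ℝ (Fin N))} (hK : IsCompact K) (hne : K.Nonempty)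
    (o : EuclideanSpace ℝ (Fin N)) : ∃ q ∈ K, (∀ r ∈ K, ‖r - o‖ ^ 2 ≤ ‖q - o‖ ^ 2) ∧
      ∀ r ∈ K, r ≠ q → ⟪q - o, r⟫_ℝ < ⟪q - o, q⟫_ℝ := by
  obtain ⟨q, hq, hmax⟩ := hK.exists_isMaxOn hne
    (show ContinuousOn (fun r : EuclideanSpace ℝ (Fin N) => ‖r - o‖ ^ 2) K from
      ((continuous_id.sub continuous_const).norm.pow 2).continuousOn)
  refine ⟨q, hq, fun r hr => hmax hr, ?_⟩
  intro r hr hrq
  have h1 : ‖r - o‖ ^ 2 ≤ ‖q - o‖ ^ 2 := hmax hr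
  have h2 : r - o = (q - o) - (q - r) := by abel
  rw [h2, @norm_sub_sq_real] at h1
  have h3 : 0 < ‖q - r‖ := norm_pos_iff.2 (sub_ne_zero.2 hrq.symm)
  have h4 : 0 < ‖q - r‖ ^ 2 := by positivity
  have h5 : 0 < ⟪q - o, q - r⟫_ℝ := by linarith
  rw [inner_sub_right] at h5
  linarith

theorem te_step {K : Set (EuclideanSpace ℝ (Fin N))} (hK : IsCompact K)
    (S : Set (EuclideanSpace ℝ (Fin N))) (hS : Convex ℝ S) (hSc : IsClosed S)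
    (r : EuclideanSpace ℝ (Fin N)) (hr : r ∈ K) (hrS : r ∉ S) :
    ∃ q u : EuclideanSpace ℝ (Fin N), q ∈ K ∧ q ∉ S ∧ ∀ r ∈ K, r ≠ q → ⟪u, r⟫_ℝ < ⟪u, q⟫_ℝ := by
  obtain ⟨g, c, hg1, hg2⟩ := geometric_hahn_banach_closed_point hS hSc hrS
  obtain ⟨ζ, hζ⟩ : ∃ ζ : EuclideanSpace ℝ (Fin N), ∀ x, g x = ⟪ζ, x⟫_ℝ := by
    refine ⟨(InnerProductSpace.toDual ℝ (EuclideanSpace ℝ (Fin N))).symm g, fun x => ?_⟩
    rw [InnerProductSpace.toDual_symm_apply]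
  obtain ⟨C, hC⟩ := hK.isBounded.exists_norm_le
  obtain ⟨δ, hδ⟩ : ∃ δ, δ = g r - c := ⟨_, rfl⟩
  have hδ0 : 0 < δ := by rw [hδ]; linarith
  obtain ⟨R, hR⟩ : ∃ R, R = (C ^ 2 + 1) / (2 * δ) := ⟨_, rfl⟩
  have hR0 : 0 < R := by rw [hR]; positivity
  have hRe : 2 * R * δ = C ^ 2 + 1 := by rw [hR]; field_simp
  obtain ⟨q, hq, hmax, hexp⟩ := te_exposed hK ⟨r, hr⟩ (-(R • ζ))
  refine ⟨q, q - -(R • ζ), hq, ?_, hexp⟩
  intro hqS
  have h1 := hg1 q hqS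
  have h2 := hmax r hr
  rw [sub_neg_eq_add, sub_neg_eq_add, @norm_add_sq_real, @norm_add_sq_real, inner_smul_right,
    inner_smul_right, real_inner_comm ζ r, real_inner_comm ζ q] at h2
  rw [← hζ, ← hζ] at h2
  have h3 : ‖q‖ ^ 2 ≤ C ^ 2 := pow_le_pow_left₀ (norm_nonneg q) (hC q hq) 2
  have h4 : 0 ≤ ‖r‖ ^ 2 := by positivity
  have h5 : 2 * R * g q < 2 * R * c := by
    apply mul_lt_mul_of_pos_left h1
    positivity
  have h6 : 2 * R * g r = 2 * R * c + (C ^ 2 + 1) := by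
    rw [← hRe, hδ]; ring
  linarith

theorem te_seg (a b : EuclideanSpace ℝ (Fin N)) : IsClosed (segment ℝ a b) := by
  rw [← convexHull_pair]
  exact (Set.Finite.isCompact_convexHull ℝ (Set.toFinite _)).isClosed

/-- a compact set contained in no segment has three exposed points -/
theorem three_exposed {K : Set (EuclideanSpace ℝ (Fin N))} (hK : IsCompact K) (hne : K.Nonempty)
    (h3 : ∀ p ∈ K, ∀ q ∈ K, ∃ r ∈ K, r ∉ segment ℝ p q) :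
    ∃ q u : Fin 3 → EuclideanSpace ℝ (Fin N), Function.Injective q ∧
      ∀ i, q i ∈ K ∧ ∀ r ∈ K, r ≠ q i → ⟪u i, r⟫_ℝ < ⟪u i, q i⟫_ℝ := by
  obtain ⟨r0, hr0⟩ := hne
  obtain ⟨q0, u0, hq0, -, hu0⟩ := te_step hK ∅ convex_empty isClosed_empty r0 hr0 (by simp)
  obtain ⟨r1, hr1, hr1'⟩ := h3 q0 hq0 q0 hq0
  obtain ⟨q1, u1, hq1, hq1S, hu1⟩ := te_step hK _ (convex_segment q0 q0) (te_seg q0 q0) r1 hr1 hr1'
  obtain ⟨r2, hr2, hr2'⟩ := h3 q0 hq0 q1 hq1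
  obtain ⟨q2, u2, hq2, hq2S, hu2⟩ := te_step hK _ (convex_segment q0 q1) (te_seg q0 q1) r2 hr2 hr2'
  have h01 : q1 ≠ q0 := by
    rintro rfl
    exact hq1S (left_mem_segment ℝ _ _)
  have h02 : q2 ≠ q0 := by
    rintro rfl
    exact hq2S (left_mem_segment ℝ _ _)
  have h12 : q2 ≠ q1 := by
    rintro rfl
    exact hq2S (right_mem_segment ℝ _ _)
  refine ⟨![q0, q1, q2], ![u0, u1, u2], ?_, ?_⟩
  · intro i j hij
    fin_cases i <;> fin_cases j <;> simp at hij ⊢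
    · exact h01 hij.symm
    · exact h02 hij.symm
    · exact h01 hij
    · exact h12 hij.symm
    · exact h02 hij
    · exact h12 hij
  · intro i
    fin_cases i
    · exact ⟨hq0, hu0⟩
    · exact ⟨hq1, hu1⟩
    · exact ⟨hq2, hu2⟩

theorem h170_cross (z a b : EuclideanSpace ℝ (Fin N)) {c : ℝ} (ha : a ∈ Hul f) (hb : b ∈ Hul f)
    (h1 : ⟪z, a⟫_ℝ < c) (h2 : c < ⟪z, b⟫_ℝ) :
    ∃ t : ℝ, 0 < t ∧ t < 1 ∧ (1 - t) • a + t • b ∈ Hul f ∧ ⟪z, (1 - t) • a + t • b⟫_ℝ = c := by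
  have h3 : 0 < ⟪z, b⟫_ℝ - ⟪z, a⟫_ℝ := by linarith
  refine ⟨(c - ⟪z, a⟫_ℝ) / (⟪z, b⟫_ℝ - ⟪z, a⟫_ℝ), by apply div_pos <;> linarith, ?_, ?_, ?_⟩
  · rw [div_lt_one h3]; linarith
  · have h4 : 0 ≤ (c - ⟪z, a⟫_ℝ) / (⟪z, b⟫_ℝ - ⟪z, a⟫_ℝ) := by
      apply div_nonneg <;> linarith
    have h5 : (c - ⟪z, a⟫_ℝ) / (⟪z, b⟫_ℝ - ⟪z, a⟫_ℝ) ≤ 1 := by
      rw [div_le_one h3]; linarith
    exact (convex_convexHull ℝ (range f)) ha hb (by linarith) h4 (by ring)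
  · rw [inner_add_right, inner_smul_right, inner_smul_right]
    field_simp
    ring

theorem h170_w (hN : 3 ≤ N) (p q : EuclideanSpace ℝ (Fin N)) :
    ∃ w : EuclideanSpace ℝ (Fin N), w ≠ 0 ∧ ⟪w, p⟫_ℝ = 0 ∧ ⟪w, q⟫_ℝ = 0 := by
  classical
  obtain ⟨V, hV⟩ : ∃ V : Submodule ℝ (EuclideanSpace ℝ (Fin N)),
    V = Submodule.span ℝ (({p, q} : Finset (EuclideanSpace ℝ (Fin N))) : Set (EuclideanSpace ℝ (Fin N))) :=
    ⟨_, rfl⟩
  have h1 : Module.finrank ℝ V ≤ 2 := by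
    rw [hV]
    exact (finrank_span_finset_le_card _).trans (Finset.card_le_two)
  have h2 := Submodule.finrank_add_finrank_orthogonal V
  rw [finrank_euclideanSpace_fin] at h2
  have h3 : Vᗮ ≠ ⊥ := by
    intro h
    rw [h, finrank_bot] at h2
    omega
  obtain ⟨w, hw, hw0⟩ := Submodule.exists_mem_ne_zero_of_ne_bot h3
  refine ⟨w, hw0, ?_, ?_⟩
  · rw [real_inner_comm]
    exact (Submodule.mem_orthogonal V w).1 hw p (by rw [hV]; exact Submodule.subset_span (by simp))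
  · rw [real_inner_comm]
    exact (Submodule.mem_orthogonal V w).1 hw q (by rw [hV]; exact Submodule.subset_span (by simp))

/-- slices of the hull are not contained in segments -/
theorem slice_big (S : Setup f) (hN : 3 ≤ N) {z : EuclideanSpace ℝ (Fin N)} {c : ℝ}
    (h1 : ∃ x, ⟪z, f x⟫_ℝ < c) (h2 : ∃ x, c < ⟪z, f x⟫_ℝ) :
    (∃ r, r ∈ Hul f ∧ ⟪z, r⟫_ℝ = c) ∧
    ∀ p q : EuclideanSpace ℝ (Fin N), ∃ r ∈ Hul f, ⟪z, r⟫_ℝ = c ∧ r ∉ segment ℝ p q := by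
  obtain ⟨x1, hx1⟩ := h1
  obtain ⟨x2, hx2⟩ := h2
  have hm : ∀ x, f x ∈ Hul f := fun x => subset_convexHull ℝ _ (mem_range_self x)
  constructor
  · obtain ⟨t, -, -, h3, h4⟩ := h170_cross z (f x1) (f x2) (hm x1) (hm x2) hx1 hx2
    exact ⟨_, h3, h4⟩
  · intro p q
    by_contra hcon
    push Not at hcon
    obtain ⟨w, hw0, hwp, hwq⟩ := h170_w hN (p - f x1) (q - f x1)
    rw [inner_sub_right] at hwp hwq
    have hseg : ∀ r ∈ segment ℝ p q, ⟪w, r⟫_ℝ = ⟪w, f x1⟫_ℝ := by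
      rintro r ⟨u, v, hu, hv, huv, rfl⟩
      rw [inner_add_right, inner_smul_right, inner_smul_right]
      have e1 : ⟪w, p⟫_ℝ = ⟪w, f x1⟫_ℝ := by linarith
      have e2 : ⟪w, q⟫_ℝ = ⟪w, f x1⟫_ℝ := by linarith
      rw [e1, e2, ← add_mul, huv, one_mul]
    have hgt : ∀ x, c < ⟪z, f x⟫_ℝ → ⟪w, f x⟫_ℝ = ⟪w, f x1⟫_ℝ := by
      intro x hx
      obtain ⟨t, ht0, ht1, h3, h4⟩ := h170_cross z (f x1) (f x) (hm x1) (hm x) hx1 hx
      have h5 := hseg _ (hcon _ h3 h4)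
      rw [inner_add_right, inner_smul_right, inner_smul_right] at h5
      have h6 : t * (⟪w, f x⟫_ℝ - ⟪w, f x1⟫_ℝ) = 0 := by linarith
      rcases mul_eq_zero.1 h6 with h7 | h7
      · linarith
      · linarith
    have hb := hgt x2 hx2
    have hlt : ∀ x, ⟪z, f x⟫_ℝ < c → ⟪w, f x⟫_ℝ = ⟪w, f x1⟫_ℝ := by
      intro x hx
      obtain ⟨t, ht0, ht1, h3, h4⟩ := h170_cross z (f x) (f x2) (hm x) (hm x2) hx hx2
      have h5 := hseg _ (hcon _ h3 h4)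
      rw [inner_add_right, inner_smul_right, inner_smul_right, hb] at h5
      have h6 : (1 - t) * (⟪w, f x⟫_ℝ - ⟪w, f x1⟫_ℝ) = 0 := by linarith
      rcases mul_eq_zero.1 h6 with h7 | h7
      · linarith
      · linarith
    obtain ⟨x, hx⟩ := S.sub w ⟪w, f x1⟫_ℝ hw0
    rcases lt_trichotomy ⟪z, f x⟫_ℝ c with h | h | h
    · exact hx (hlt x h)
    · exact hx (hseg _ (hcon _ (hm x) h))
    · exact hx (hgt x h)

theorem aux_comb {C : Set (EuclideanSpace ℝ (Fin N))} (hC : Convex ℝ C)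
    (z : EuclideanSpace ℝ (Fin N)) (c : ℝ) {x y : EuclideanSpace ℝ (Fin N)} (hx : x ∈ C)
    (hy : y ∈ C) (h1 : ⟪z, x⟫_ℝ < c) (h2 : c < ⟪z, y⟫_ℝ) :
    ∃ w ∈ C, ⟪z, w⟫_ℝ = c ∧ (⟪z, y⟫_ℝ - ⟪z, x⟫_ℝ) • w
      = (⟪z, y⟫_ℝ - c) • x + (c - ⟪z, x⟫_ℝ) • y := by
  have hd : 0 < ⟪z, y⟫_ℝ - ⟪z, x⟫_ℝ := by linarith
  have hd' : ⟪z, y⟫_ℝ - ⟪z, x⟫_ℝ ≠ 0 := hd.ne'
  refine ⟨((⟪z, y⟫_ℝ - c) / (⟪z, y⟫_ℝ - ⟪z, x⟫_ℝ)) • x
    + ((c - ⟪z, x⟫_ℝ) / (⟪z, y⟫_ℝ - ⟪z, x⟫_ℝ)) • y, ?_, ?_, ?_⟩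
  · refine hC hx hy (div_nonneg (by linarith) hd.le) (div_nonneg (by linarith) hd.le) ?_
    rw [← add_div, div_eq_one_iff_eq hd']
    ring
  · rw [inner_add_right, inner_smul_right, inner_smul_right]
    field_simp
    ring
  · rw [smul_add, smul_smul, smul_smul, mul_div_cancel₀ _ hd', mul_div_cancel₀ _ hd']

theorem aux_re {s t X Y m : ℝ} (hs : 0 < s) (ht : 0 < t) (hst : s + t = 1) (hX : X ≤ m)
    (hY : Y ≤ m) (h : m = s * X + t * Y) : X = m ∧ Y = m := by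
  have e : s * (m - X) + t * (m - Y) = 0 := by
    have e1 : s * (m - X) + t * (m - Y) = (s + t) * m - (s * X + t * Y) := by ring
    rw [e1, hst, ← h]; ring
  have a1 : 0 ≤ s * (m - X) := mul_nonneg hs.le (by linarith)
  have a2 : 0 ≤ t * (m - Y) := mul_nonneg ht.le (by linarith)
  have b1 : s * (m - X) = 0 := by linarith
  have b2 : t * (m - Y) = 0 := by linarith
  rcases mul_eq_zero.1 b1 with h1 | h1
  · exact absurd h1 hs.ne'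
  rcases mul_eq_zero.1 b2 with h2 | h2
  · exact absurd h2 ht.ne'
  exact ⟨by linarith, by linarith⟩

theorem aux_slice {K : Set (EuclideanSpace ℝ (Fin N))} (hK : IsCompact K) (hC : Convex ℝ K)
    {z u q : EuclideanSpace ℝ (Fin N)} {c : ℝ} (h1 : ∃ r ∈ K, ⟪z, r⟫_ℝ < c)
    (h2 : ∃ r ∈ K, c < ⟪z, r⟫_ℝ) (hq : q ∈ K) (hqc : ⟪z, q⟫_ℝ = c)
    (hu : ∀ r ∈ K, ⟪z, r⟫_ℝ = c → r ≠ q → ⟪u, r⟫_ℝ < ⟪u, q⟫_ℝ) :
    q ∈ extremePoints ℝ K ∨ ∃ a b, (a ≠ b ∧ ∃ (n : EuclideanSpace ℝ (Fin N)) (m : ℝ),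
      (∀ r ∈ K, ⟪n, r⟫_ℝ ≤ m) ∧ {r | r ∈ K ∧ ⟪n, r⟫_ℝ = m} = segment ℝ a b) ∧
      q ∈ openSegment ℝ a b := by
  have hu' : ∀ r ∈ K, ⟪z, r⟫_ℝ = c → ⟪u, r⟫_ℝ ≤ ⟪u, q⟫_ℝ := by
    intro r hr hrc
    by_cases h : r = q
    · rw [h]
    · exact (hu r hr hrc h).le
  -- comparison of the two sides
  have hcmp : ∀ x ∈ K, ∀ y ∈ K, ⟪z, x⟫_ℝ < c → c < ⟪z, y⟫_ℝ →
      (⟪u, y⟫_ℝ - ⟪u, q⟫_ℝ) / (⟪z, y⟫_ℝ - c) ≤ (⟪u, x⟫_ℝ - ⟪u, q⟫_ℝ) / (⟪z, x⟫_ℝ - c) := by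
    intro x hx y hy hxc hyc
    obtain ⟨w, hw, hwc, hwe⟩ := aux_comb hC z c hx hy hxc hyc
    have h3 := hu' w hw hwc
    have h4 := congrArg (fun v => ⟪u, v⟫_ℝ) hwe
    simp only [inner_add_right, inner_smul_right] at h4
    have h5 : (⟪z, y⟫_ℝ - c) * ⟪u, x⟫_ℝ + (c - ⟪z, x⟫_ℝ) * ⟪u, y⟫_ℝ
        ≤ (⟪z, y⟫_ℝ - ⟪z, x⟫_ℝ) * ⟪u, q⟫_ℝ := by
      rw [← h4]
      exact mul_le_mul_of_nonneg_left h3 (by linarith)
    have e : (⟪u, x⟫_ℝ - ⟪u, q⟫_ℝ) / (⟪z, x⟫_ℝ - c) = (⟪u, q⟫_ℝ - ⟪u, x⟫_ℝ) / (c - ⟪z, x⟫_ℝ) := by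
      rw [← neg_sub ⟪u, q⟫_ℝ, ← neg_sub c, neg_div_neg_eq]
    rw [e, div_le_div_iff₀ (by linarith) (by linarith)]
    nlinarith
  obtain ⟨x0, hx0, hx0c⟩ := h1
  obtain ⟨y0, hy0, hy0c⟩ := h2
  set Sl : Set ℝ := {t | ∃ y ∈ K, c < ⟪z, y⟫_ℝ ∧ t = (⟪u, y⟫_ℝ - ⟪u, q⟫_ℝ) / (⟪z, y⟫_ℝ - c)}
    with hSl
  have hne : Sl.Nonempty := ⟨_, y0, hy0, hy0c, rfl⟩
  have hbdd : BddAbove Sl := by
    refine ⟨(⟪u, x0⟫_ℝ - ⟪u, q⟫_ℝ) / (⟪z, x0⟫_ℝ - c), ?_⟩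
    rintro t ⟨y, hy, hyc, rfl⟩
    exact hcmp x0 hx0 y hy hx0c hyc
  set μ : ℝ := sSup Sl with hμ
  have hmain : ∀ r ∈ K, ⟪u, r⟫_ℝ - ⟪u, q⟫_ℝ ≤ μ * (⟪z, r⟫_ℝ - c) := by
    intro r hr
    rcases lt_trichotomy ⟪z, r⟫_ℝ c with h | h | h
    · have h3 : μ ≤ (⟪u, r⟫_ℝ - ⟪u, q⟫_ℝ) / (⟪z, r⟫_ℝ - c) := by
        apply csSup_le hne
        rintro t ⟨y, hy, hyc, rfl⟩
        exact hcmp r hr y hy h hyc
      rw [le_div_iff_of_neg (by linarith)] at h3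
      linarith
    · rw [h, sub_self, mul_zero]
      linarith [hu' r hr h]
    · have h3 : (⟪u, r⟫_ℝ - ⟪u, q⟫_ℝ) / (⟪z, r⟫_ℝ - c) ≤ μ := le_csSup hbdd ⟨r, hr, h, rfl⟩
      rw [div_le_iff₀ (by linarith)] at h3
      exact h3
  set n : EuclideanSpace ℝ (Fin N) := u - μ • z with hn
  have hnr : ∀ r, ⟪n, r⟫_ℝ = ⟪u, r⟫_ℝ - μ * ⟪z, r⟫_ℝ := by
    intro r
    rw [hn, inner_sub_left, inner_smul_left]
    simp
  have hnle : ∀ r ∈ K, ⟪n, r⟫_ℝ ≤ ⟪n, q⟫_ℝ := by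
    intro r hr
    have := hmain r hr
    rw [hnr, hnr, hqc]
    linarith
  set F : Set (EuclideanSpace ℝ (Fin N)) := {r | r ∈ K ∧ ⟪n, r⟫_ℝ = ⟪n, q⟫_ℝ} with hF
  have hFq : ∀ r ∈ F, ⟪z, r⟫_ℝ = c → r = q := by
    rintro r ⟨hr, hrn⟩ hrc
    by_contra hne'
    have h3 := hu r hr hrc hne'
    rw [hnr, hnr, hrc, hqc] at hrn
    linarith
  have hqF : q ∈ F := ⟨hq, rfl⟩
  have hFC : Convex ℝ F := by
    intro x hx y hy a b ha hb hab
    refine ⟨hC hx.1 hy.1 ha hb hab, ?_⟩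
    rw [inner_add_right, inner_smul_right, inner_smul_right, hx.2, hy.2, ← add_mul, hab, one_mul]
  by_cases hA : (∃ r ∈ F, ⟪z, r⟫_ℝ < c) ∧ (∃ r ∈ F, c < ⟪z, r⟫_ℝ)
  · right
    obtain ⟨⟨a', ha', ha'c⟩, ⟨b', hb', hb'c⟩⟩ := hA
    have hFcomp : IsCompact F := by
      have : F = K ∩ {r | ⟪n, r⟫_ℝ = ⟪n, q⟫_ℝ} := rfl
      rw [this]
      refine hK.inter_right (isClosed_eq ?_ continuous_const)
      exact continuous_const.inner continuous_id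
    have hcont : ContinuousOn (fun r : EuclideanSpace ℝ (Fin N) => ⟪z, r⟫_ℝ) F :=
      (continuous_const.inner continuous_id).continuousOn
    obtain ⟨a, haF, hamin⟩ := hFcomp.exists_isMinOn ⟨q, hqF⟩ hcont
    obtain ⟨b, hbF, hbmax⟩ := hFcomp.exists_isMaxOn ⟨q, hqF⟩ hcont
    have hac : ⟪z, a⟫_ℝ < c := lt_of_le_of_lt (hamin ha') ha'c
    have hbc : c < ⟪z, b⟫_ℝ := lt_of_lt_of_le hb'c (hbmax hb')
    -- the main identity
    have hkey : ∀ x ∈ F, ∀ y ∈ F, ⟪z, x⟫_ℝ < c → c < ⟪z, y⟫_ℝ →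
        (⟪z, y⟫_ℝ - ⟪z, x⟫_ℝ) • q = (⟪z, y⟫_ℝ - c) • x + (c - ⟪z, x⟫_ℝ) • y := by
      intro x hx y hy hxc hyc
      obtain ⟨w, hw, hwc, hwe⟩ := aux_comb hFC z c hx hy hxc hyc
      rw [hFq w hw hwc] at hwe
      exact hwe
    have hab := hkey a haF b hbF hac hbc
    have hd : 0 < ⟪z, b⟫_ℝ - ⟪z, a⟫_ℝ := by linarith
    have hid : ∀ r ∈ F, (⟪z, b⟫_ℝ - ⟪z, a⟫_ℝ) • r
        = (⟪z, b⟫_ℝ - ⟪z, r⟫_ℝ) • a + (⟪z, r⟫_ℝ - ⟪z, a⟫_ℝ) • b := by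
      intro r hr
      rcases lt_trichotomy ⟪z, r⟫_ℝ c with h | h | h
      · have h3 := hkey r hr b hbF h hbc
        have h4 : (⟪z, b⟫_ℝ - c) • ((⟪z, b⟫_ℝ - ⟪z, a⟫_ℝ) • r)
            = (⟪z, b⟫_ℝ - c) • ((⟪z, b⟫_ℝ - ⟪z, r⟫_ℝ) • a + (⟪z, r⟫_ℝ - ⟪z, a⟫_ℝ) • b) := by
          linear_combination (norm := module) (-(⟪z, b⟫_ℝ - ⟪z, a⟫_ℝ)) • h3 + (⟪z, b⟫_ℝ - ⟪z, r⟫_ℝ) • hab
        exact smul_right_injective _ (by linarith : ⟪z, b⟫_ℝ - c ≠ 0) h4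
      · rw [hFq r hr h, hqc]
        exact hab
      · have h3 := hkey a haF r hr hac h
        have h4 : (c - ⟪z, a⟫_ℝ) • ((⟪z, b⟫_ℝ - ⟪z, a⟫_ℝ) • r)
            = (c - ⟪z, a⟫_ℝ) • ((⟪z, b⟫_ℝ - ⟪z, r⟫_ℝ) • a + (⟪z, r⟫_ℝ - ⟪z, a⟫_ℝ) • b) := by
          linear_combination (norm := module) (-(⟪z, b⟫_ℝ - ⟪z, a⟫_ℝ)) • h3 + (⟪z, r⟫_ℝ - ⟪z, a⟫_ℝ) • hab
        exact smul_right_injective _ (by linarith : c - ⟪z, a⟫_ℝ ≠ 0) h4
    have hseg : ∀ r ∈ F, ((⟪z, b⟫_ℝ - ⟪z, r⟫_ℝ) / (⟪z, b⟫_ℝ - ⟪z, a⟫_ℝ)) • a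
        + ((⟪z, r⟫_ℝ - ⟪z, a⟫_ℝ) / (⟪z, b⟫_ℝ - ⟪z, a⟫_ℝ)) • b = r := by
      intro r hr
      apply smul_right_injective _ hd.ne'
      simp only
      rw [smul_add, smul_smul, smul_smul, mul_div_cancel₀ _ hd.ne', mul_div_cancel₀ _ hd.ne']
      exact (hid r hr).symm
    have hsum : ∀ t : ℝ, (⟪z, b⟫_ℝ - t) / (⟪z, b⟫_ℝ - ⟪z, a⟫_ℝ)
        + (t - ⟪z, a⟫_ℝ) / (⟪z, b⟫_ℝ - ⟪z, a⟫_ℝ) = 1 := by
      intro t
      rw [← add_div, div_eq_one_iff_eq hd.ne']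
      ring
    refine ⟨a, b, ⟨?_, n, ⟪n, q⟫_ℝ, hnle, ?_⟩, ?_⟩
    · rintro rfl
      linarith
    · apply Set.Subset.antisymm
      · intro r hr
        refine ⟨_, _, div_nonneg ?_ hd.le, div_nonneg ?_ hd.le, hsum ⟪z, r⟫_ℝ, hseg r hr⟩
        · have := hbmax hr
          simp only [Set.mem_setOf_eq] at this
          linarith
        · have := hamin hr
          simp only [Set.mem_setOf_eq] at this
          linarith
      · exact hFC.segment_subset haF hbF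
    · refine ⟨_, _, div_pos ?_ hd, div_pos ?_ hd, hsum ⟪z, q⟫_ℝ, hseg q hqF⟩
      · rw [hqc]; linarith
      · rw [hqc]; linarith
  · left
    rw [mem_extremePoints]
    refine ⟨hq, ?_⟩
    intro x hx y hy hqxy
    obtain ⟨s, t, hs, ht, hst, hxy⟩ := hqxy
    have hn1 := hnle x hx
    have hn2 := hnle y hy
    have hnq : ⟪n, q⟫_ℝ = s * ⟪n, x⟫_ℝ + t * ⟪n, y⟫_ℝ := by
      conv_lhs => rw [← hxy]
      rw [inner_add_right, inner_smul_right, inner_smul_right]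
    have hzq : c = s * ⟪z, x⟫_ℝ + t * ⟪z, y⟫_ℝ := by
      conv_lhs => rw [← hqc, ← hxy]
      rw [inner_add_right, inner_smul_right, inner_smul_right]
    obtain ⟨e1, e2⟩ := aux_re hs ht hst hn1 hn2 hnq
    have hxF : x ∈ F := ⟨hx, e1⟩
    have hyF : y ∈ F := ⟨hy, e2⟩
    have hside : ⟪z, x⟫_ℝ = c ∧ ⟪z, y⟫_ℝ = c := by
      rw [not_and_or] at hA
      rcases hA with hA | hA
      · push Not at hA
        have i1 := hA x hxF
        have i2 := hA y hyF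
        obtain ⟨e3, e4⟩ := aux_re (X := -⟪z, x⟫_ℝ) (Y := -⟪z, y⟫_ℝ) (m := -c) hs ht hst
          (by linarith) (by linarith) (by linarith)
        exact ⟨by linarith, by linarith⟩
      · push Not at hA
        have i1 := hA x hxF
        have i2 := hA y hyF
        exact aux_re hs ht hst i1 i2 hzq
    first
      | exact ⟨hFq x hxF hside.1, hFq y hyF hside.2⟩
      | exact hFq x hxF hside.1

/-- exposed points of slices are extreme points or inner points of exposed edges -/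
theorem slice_exposed [CompactSpace M] (hf : Continuous f) {z u q : EuclideanSpace ℝ (Fin N)}
    {c : ℝ} (h1 : ∃ x, ⟪z, f x⟫_ℝ < c) (h2 : ∃ x, c < ⟪z, f x⟫_ℝ) (hq : q ∈ Hul f)
    (hqc : ⟪z, q⟫_ℝ = c) (hu : ∀ r ∈ Hul f, ⟪z, r⟫_ℝ = c → r ≠ q → ⟪u, r⟫_ℝ < ⟪u, q⟫_ℝ) :
    q ∈ extremePoints ℝ (Hul f) ∨ ∃ a b, Edge f a b ∧ q ∈ openSegment ℝ a b := by
  obtain ⟨x1, hx1⟩ := h1
  obtain ⟨x2, hx2⟩ := h2
  exact aux_slice (hul_compact hf) (convex_convexHull ℝ _)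
    ⟨f x1, subset_convexHull ℝ _ ⟨x1, rfl⟩, hx1⟩ ⟨f x2, subset_convexHull ℝ _ ⟨x2, rfl⟩, hx2⟩
    hq hqc hu

theorem jc_key [CompactSpace M] [T2Space M] [LocallyPathConnectedSpace M] (hf : Continuous f)
    (h0 : Conn0 f) {D : Set M} {ψ : M → ℝ × ℝ} {φ : ℝ × ℝ → M} (h : Chart D BoxB ψ φ) {x0 : M}
    (hx0 : x0 ∈ D) (hψ : ψ x0 = 0) {z : EuclideanSpace ℝ (Fin N)} {c0 c : ℝ} (hc0 : c0 < c)
    (hc : c < ⟪z, f x0⟫_ℝ) (hcap : {x | c0 ≤ ⟪z, f x⟫_ℝ} ⊆ D) {y y' : M} (hy : ⟪z, f y⟫_ℝ = c)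
    (hy' : ⟪z, f y'⟫_ℝ = c) (hne : f y ≠ f y') (e : (ψ y).2 = 0) (e' : (ψ y').2 = 0)
    (hb : (0 < (ψ y').1 ∧ (ψ y').1 < (ψ y).1) ∨ ((ψ y).1 < (ψ y').1 ∧ (ψ y').1 < 0)) : False := by
  obtain ⟨w, hw⟩ : ∃ w, w = f y - f y' := ⟨_, rfl⟩
  have hw0 : w ≠ 0 := by
    rw [hw]
    exact sub_ne_zero.2 hne
  have hww : 0 < ⟪w, f y⟫_ℝ - ⟪w, f y'⟫_ℝ := by
    rw [← inner_sub_right, ← hw]
    exact real_inner_self_pos.2 hw0
  obtain ⟨d, hd⟩ : ∃ d, d = (⟪w, f y⟫_ℝ + ⟪w, f y'⟫_ℝ) / 2 := ⟨_, rfl⟩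
  have hd1 : d < ⟪w, f y⟫_ℝ := by linarith
  have hd2 : ⟪w, f y'⟫_ℝ < d := by linarith
  obtain ⟨B, hB⟩ : ∃ B, ∀ x, ‖⟪w, f x⟫_ℝ‖ ≤ B := by
    have hcont : Continuous (fun x => ⟪w, f x⟫_ℝ) := by fun_prop
    obtain ⟨B, hB⟩ := isCompact_univ.exists_bound_of_continuousOn hcont.continuousOn
    exact ⟨B, fun x => hB x (mem_univ x)⟩
  have hB0 : 0 ≤ B := (norm_nonneg _).trans (hB x0)
  have hBl : ∀ x, -B ≤ ⟪w, f x⟫_ℝ ∧ ⟪w, f x⟫_ℝ ≤ B := by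
    intro x
    have := hB x
    rw [Real.norm_eq_abs] at this
    exact abs_le.1 this
  have hdd : -|d| ≤ d ∧ d ≤ |d| := ⟨neg_abs_le d, le_abs_self d⟩
  have hden : 0 < B + |d| + 1 := by positivity
  obtain ⟨g, hg⟩ : ∃ g, g = min (c - c0) (⟪z, f x0⟫_ℝ - c) := ⟨_, rfl⟩
  have hg0 : 0 < g := by
    rw [hg]
    exact lt_min (by linarith) (by linarith)
  have hg1 : g ≤ c - c0 := by rw [hg]; exact min_le_left _ _
  have hg2 : g ≤ ⟪z, f x0⟫_ℝ - c := by rw [hg]; exact min_le_right _ _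
  obtain ⟨ε, hε⟩ : ∃ ε, ε = g / (B + |d| + 1) := ⟨_, rfl⟩
  have hε0 : 0 < ε := by rw [hε]; positivity
  have hεg : ε * (B + |d| + 1) = g := by rw [hε]; field_simp
  have hεg' : ε * B + ε * |d| + ε = g := by rw [← hεg]; ring
  have hin : ∀ x, ⟪z + ε • w, f x⟫_ℝ = ⟪z, f x⟫_ℝ + ε * ⟪w, f x⟫_ℝ := by
    intro x
    rw [inner_add_left, real_inner_smul_left]
  have hcont2 : Continuous (fun x => ⟪z + ε • w, f x⟫_ℝ) := by fun_prop
  have hCclosed : IsClosed {x | c + ε * d ≤ ⟪z + ε • w, f x⟫_ℝ} :=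
    isClosed_le continuous_const hcont2
  have hCk : IsCompact {x | c + ε * d ≤ ⟪z + ε • w, f x⟫_ℝ} := hCclosed.isCompact
  have hCD : {x | c + ε * d ≤ ⟪z + ε • w, f x⟫_ℝ} ⊆ D := by
    intro x hx
    by_contra hxD
    have h1 : ⟪z, f x⟫_ℝ < c0 := by
      by_contra hcon
      push Not at hcon
      exact hxD (hcap hcon)
    have hx' : c + ε * d ≤ ⟪z + ε • w, f x⟫_ℝ := hx
    rw [hin] at hx'
    have h2 : ε * ⟪w, f x⟫_ℝ ≤ ε * B := mul_le_mul_of_nonneg_left (hBl x).2 hε0.le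
    have h3 : ε * (-|d|) ≤ ε * d := mul_le_mul_of_nonneg_left hdd.1 hε0.le
    have h4 : ε * (-|d|) = - (ε * |d|) := by ring
    linarith
  have hCc : IsPreconnected {x | c + ε * d ≤ ⟪z + ε • w, f x⟫_ℝ} := h0 _ _
  have hCo : IsPreconnected {x | c + ε * d ≤ ⟪z + ε • w, f x⟫_ℝ}ᶜ := by
    have h1 : {x | c + ε * d ≤ ⟪z + ε • w, f x⟫_ℝ}ᶜ = {x | ⟪z + ε • w, f x⟫_ℝ < c + ε * d} := by
      ext x
      simp
    rw [h1]
    exact conn_lt h0 _ _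
  have hyC : y ∈ {x | c + ε * d ≤ ⟪z + ε • w, f x⟫_ℝ} := by
    show c + ε * d ≤ ⟪z + ε • w, f y⟫_ℝ
    rw [hin, hy]
    have : ε * d ≤ ε * ⟪w, f y⟫_ℝ := mul_le_mul_of_nonneg_left hd1.le hε0.le
    linarith
  have hyC' : y' ∉ {x | c + ε * d ≤ ⟪z + ε • w, f x⟫_ℝ} := by
    intro hcon
    have hcon' : c + ε * d ≤ ⟪z + ε • w, f y'⟫_ℝ := hcon
    rw [hin, hy'] at hcon'
    have : ε * ⟪w, f y'⟫_ℝ < ε * d := mul_lt_mul_of_pos_left hd2 hε0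
    linarith
  have hxC : x0 ∈ {x | c + ε * d ≤ ⟪z + ε • w, f x⟫_ℝ} := by
    show c + ε * d ≤ ⟪z + ε • w, f x0⟫_ℝ
    rw [hin]
    have h2 : ε * (-B) ≤ ε * ⟪w, f x0⟫_ℝ := mul_le_mul_of_nonneg_left (hBl x0).1 hε0.le
    have h3 : ε * d ≤ ε * |d| := mul_le_mul_of_nonneg_left hdd.2 hε0.le
    have h4 : ε * (-B) = - (ε * B) := by ring
    linarith
  have hyD : y ∈ D := hCD hyC
  have hyD' : y' ∈ D := by
    apply hcap
    show c0 ≤ ⟪z, f y'⟫_ℝ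
    rw [hy']
    exact hc0.le
  have hx2 : (ψ x0).2 = 0 := by rw [hψ]; rfl
  have hx1 : (ψ x0).1 = 0 := by rw [hψ]; rfl
  rcases hb with ⟨h1, h2⟩ | ⟨h1, h2⟩
  · exact hyC' (jlemma h hCk hCD hCc hCo hx0 hyD' hyD hx2 e' e (by rw [hx1]; exact h1) h2 hxC hyC)
  · exact hyC' (jlemma h hCk hCD hCc hCo hyD hyD' hx0 e e' hx2 h1 (by rw [hx1]; exact h2) hyC hxC)

/-- small slices near an extreme point contain the images of at most two boundary points -/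
theorem jcount [CompactSpace M] [T2Space M] [ConnectedSpace M] [LocallyPathConnectedSpace M]
    (S : Setup f) {p : EuclideanSpace ℝ (Fin N)} (hp : p ∈ extremePoints ℝ (Hul f))
    {O : Set (EuclideanSpace ℝ (Fin N))} (hO : O ∈ 𝓝 p) (hbig : ∃ x, f x ≠ p) :
    ∃ (z : EuclideanSpace ℝ (Fin N)) (c : ℝ), c < ⟪z, p⟫_ℝ ∧ (∀ x, c ≤ ⟪z, f x⟫_ℝ → f x ∈ O) ∧
      (∃ x, ⟪z, f x⟫_ℝ < c) ∧
      ∀ y₁ y₂ y₃ : M, ⟪z, f y₁⟫_ℝ = c → ⟪z, f y₂⟫_ℝ = c → ⟪z, f y₃⟫_ℝ = c →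
        ¬ IntPt y₁ → ¬ IntPt y₂ → ¬ IntPt y₃ → f y₁ = f y₂ ∨ f y₁ = f y₃ ∨ f y₂ = f y₃ := by
  obtain ⟨x0, hx0, huniq⟩ := ext_unique S.cont S.loc S.conn hp
  have hbd : BdPt x0 := by
    rcases S.surf.pt x0 with h | h
    · exact absurd h (ext_notInt S hp hx0)
    · exact h
  obtain ⟨x1, hx1⟩ := hbig
  have hx01 : x0 ≠ x1 := by
    rintro rfl
    exact hx1 hx0
  have hW : f ⁻¹' O ∩ {x1}ᶜ ∈ 𝓝 x0 := by
    refine Filter.inter_mem ?_ ?_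
    · exact S.cont.continuousAt.preimage_mem_nhds (by rw [hx0]; exact hO)
    · exact isOpen_compl_singleton.mem_nhds (by simpa using hx01)
  obtain ⟨D, ψ, φ, hxD, hψ, hch, hDW⟩ := small_bd hbd hW
  obtain ⟨z, c0, hc0, hcap⟩ := ext_cap S.cont hp hch.isOpen (fun x hx => by
    rw [huniq x hx]; exact hxD)
  have hc1 : c0 < (c0 + ⟪z, p⟫_ℝ) / 2 := by linarith
  have hc2 : (c0 + ⟪z, p⟫_ℝ) / 2 < ⟪z, p⟫_ℝ := by linarith
  obtain ⟨c, hc⟩ : ∃ c, c = (c0 + ⟪z, p⟫_ℝ) / 2 := ⟨_, rfl⟩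
  rw [← hc] at hc1 hc2
  refine ⟨z, c, hc2, ?_, ?_, ?_⟩
  · intro x hx
    have hxD' : x ∈ D := hcap (show c0 ≤ ⟪z, f x⟫_ℝ by linarith)
    exact (hDW hxD').1
  · refine ⟨x1, ?_⟩
    by_contra hcon
    push Not at hcon
    have hxD' : x1 ∈ D := hcap (show c0 ≤ ⟪z, f x1⟫_ℝ by linarith)
    exact (hDW hxD').2 rfl
  · intro y₁ y₂ y₃ h1 h2 h3 n1 n2 n3
    have hmem : ∀ y, ⟪z, f y⟫_ℝ = c → y ∈ D := by
      intro y hy
      apply hcap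
      show c0 ≤ ⟪z, f y⟫_ℝ
      rw [hy]
      exact hc1.le
    have hsnd : ∀ y, ⟪z, f y⟫_ℝ = c → ¬ IntPt y → (ψ y).2 = 0 := by
      intro y hy hn
      have h4 : (ψ y).2 ≥ 0 := (hch.mψ y (hmem y hy)).2
      rcases h4.lt_or_eq with h5 | h5
      · exact absurd (intPt_of_pos hch (hmem y hy) h5) hn
      · exact h5.symm
    have hfst0 : ∀ y, ⟪z, f y⟫_ℝ = c → ¬ IntPt y → (ψ y).1 ≠ 0 := by
      intro y hy hn h4
      have h5 : ψ y = ψ x0 := by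
        rw [hψ]
        exact Prod.ext h4 (hsnd y hy hn)
      have h6 : y = x0 := by
        rw [← hch.left y (hmem y hy), h5, hch.left x0 hxD]
      rw [h6, hx0] at hy
      linarith
    have hfst : ∀ y y', ⟪z, f y⟫_ℝ = c → ⟪z, f y'⟫_ℝ = c → ¬ IntPt y → ¬ IntPt y' →
        (ψ y).1 = (ψ y').1 → f y = f y' := by
      intro y y' hy hy' hn hn' h4
      have h5 : ψ y = ψ y' := Prod.ext h4 (by rw [hsnd y hy hn, hsnd y' hy' hn'])
      have h6 : y = y' := by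
        rw [← hch.left y (hmem y hy), h5, hch.left y' (hmem y' hy')]
      rw [h6]
    have hkey : ∀ y y', ⟪z, f y⟫_ℝ = c → ⟪z, f y'⟫_ℝ = c → ¬ IntPt y → ¬ IntPt y' →
        f y ≠ f y' → ¬ ((0 < (ψ y').1 ∧ (ψ y').1 < (ψ y).1) ∨
          ((ψ y).1 < (ψ y').1 ∧ (ψ y').1 < 0)) := by
      intro y y' hy hy' hn hn' hne hb
      exact jc_key S.cont S.conn hch hxD hψ hc1 (by rw [hx0]; exact hc2) hcap hy hy' hne
        (hsnd y hy hn) (hsnd y' hy' hn') hb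
    have hside : ∀ y y', ⟪z, f y⟫_ℝ = c → ⟪z, f y'⟫_ℝ = c → ¬ IntPt y → ¬ IntPt y' →
        f y ≠ f y' → ¬ (0 < (ψ y).1 ∧ 0 < (ψ y').1) ∧ ¬ ((ψ y).1 < 0 ∧ (ψ y').1 < 0) := by
      intro y y' hy hy' hn hn' hne
      have k1 := hkey y y' hy hy' hn hn' hne
      have k2 := hkey y' y hy' hy hn' hn hne.symm
      have k3 : (ψ y).1 ≠ (ψ y').1 := fun h4 => hne (hfst y y' hy hy' hn hn' h4)
      rcases lt_or_gt_of_ne k3 with h4 | h4
      · refine ⟨fun h5 => k2 (Or.inl ⟨h5.1, h4⟩), fun h5 => k1 (Or.inr ⟨h4, h5.2⟩)⟩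
      · refine ⟨fun h5 => k1 (Or.inl ⟨h5.2, h4⟩), fun h5 => k2 (Or.inr ⟨h4, h5.1⟩)⟩
    by_contra hcon
    push Not at hcon
    obtain ⟨n12, n13, n23⟩ := hcon
    obtain ⟨a12, b12⟩ := hside y₁ y₂ h1 h2 n1 n2 n12
    obtain ⟨a13, b13⟩ := hside y₁ y₃ h1 h3 n1 n3 n13
    obtain ⟨a23, b23⟩ := hside y₂ y₃ h2 h3 n2 n3 n23
    rcases lt_or_gt_of_ne (hfst0 y₁ h1 n1) with s1 | s1 <;>
    rcases lt_or_gt_of_ne (hfst0 y₂ h2 n2) with s2 | s2 <;>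
    rcases lt_or_gt_of_ne (hfst0 y₃ h3 n3) with s3 | s3 <;>
    first
      | exact a12 ⟨s1, s2⟩
      | exact b12 ⟨s1, s2⟩
      | exact a13 ⟨s1, s3⟩
      | exact b13 ⟨s1, s3⟩
      | exact a23 ⟨s2, s3⟩
      | exact b23 ⟨s2, s3⟩

/-- every neighbourhood of an extreme point meets a crossing edge -/
theorem cprime [CompactSpace M] [T2Space M] [ConnectedSpace M] [LocallyPathConnectedSpace M]
    (S : Setup f) (hN : 3 ≤ N) {p : EuclideanSpace ℝ (Fin N)}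
    (hp : p ∈ extremePoints ℝ (Hul f)) {O : Set (EuclideanSpace ℝ (Fin N))} (hO : O ∈ 𝓝 p) :
    ∃ a b, CEdge f a b ∧ (segment ℝ a b ∩ O).Nonempty := by
  by_contra hno
  push Not at hno
  have hbig : ∃ x, f x ≠ p := by
    have hz : (EuclideanSpace.single (⟨0, by omega⟩ : Fin N) (1 : ℝ)) ≠ 0 := by
      intro h
      have := congrArg norm h
      simp at this
    obtain ⟨x, hx⟩ := S.sub _ (⟪EuclideanSpace.single (⟨0, by omega⟩ : Fin N) (1 : ℝ), p⟫_ℝ) hz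
    exact ⟨x, fun h => hx (by rw [h])⟩
  obtain ⟨z, c, hc, hsub, ⟨x1, hx1⟩, hj⟩ := jcount S hp hO hbig
  have hext_range : ∀ q ∈ extremePoints ℝ (Hul f), ∃ y, f y = q := by
    intro q hq
    have h : q ∈ range f := extremePoints_convexHull_subset hq
    exact h
  obtain ⟨x2, hx2⟩ := hext_range p hp
  have h1 : ∃ x, ⟪z, f x⟫_ℝ < c := ⟨x1, hx1⟩
  have h2 : ∃ x, c < ⟪z, f x⟫_ℝ := ⟨x2, by rw [hx2]; exact hc⟩
  obtain ⟨⟨r0, hr0, hr0c⟩, hsb⟩ := slice_big S hN h1 h2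
  have hKc : IsCompact {r | r ∈ Hul f ∧ ⟪z, r⟫_ℝ = c} := by
    have hcl : IsClosed {r : EuclideanSpace ℝ (Fin N) | ⟪z, r⟫_ℝ = c} :=
      isClosed_eq (continuous_const.inner continuous_id) continuous_const
    exact (hul_compact S.cont).inter_right hcl
  obtain ⟨q, u, hinj, hqu⟩ := three_exposed hKc ⟨r0, hr0, hr0c⟩ (by
    intro p' _ q' _
    obtain ⟨r, hr, hrc, hrn⟩ := hsb p' q'
    exact ⟨r, ⟨hr, hrc⟩, hrn⟩)
  have key : ∀ i, ∃ y, f y = q i ∧ ¬ IntPt y := by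
    intro i
    obtain ⟨⟨hqH, hqc⟩, hui⟩ := hqu i
    rcases slice_exposed S.cont h1 h2 hqH hqc (fun r hr hrc hne => hui r ⟨hr, hrc⟩ hne) with
      he | ⟨a, b, hE, hop⟩
    · obtain ⟨y, hy⟩ := hext_range (q i) he
      exact ⟨y, hy, ext_notInt S he hy⟩
    · obtain ⟨y, hy⟩ := edge_surj S.cont S.conn hE (openSegment_subset_segment ℝ a b hop)
      refine ⟨y, hy, fun hInt => ?_⟩
      have hne := hno a b ⟨hE, y, hInt, by rw [hy]; exact hop⟩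
      have hmem : q i ∈ segment ℝ a b ∩ O := by
        refine ⟨openSegment_subset_segment ℝ a b hop, ?_⟩
        rw [← hy]
        apply hsub
        rw [hy, hqc]
      rw [hne] at hmem
      exact hmem
  choose y hy hyn using key
  have hyc : ∀ i, ⟪z, f (y i)⟫_ℝ = c := fun i => by
    rw [hy i]
    exact (hqu i).1.2
  rcases hj (y 0) (y 1) (y 2) (hyc 0) (hyc 1) (hyc 2) (hyn 0) (hyn 1) (hyn 2) with h | h | h
  · rw [hy, hy] at h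
    exact absurd (hinj h) (by decide)
  · rw [hy, hy] at h
    exact absurd (hinj h) (by decide)
  · rw [hy, hy] at h
    exact absurd (hinj h) (by decide)

theorem inf_edges_closed (a b : EuclideanSpace ℝ (Fin N)) : IsClosed (segment ℝ a b) := by
  rw [← convexHull_pair]
  exact (Set.toFinite ({a, b} : Set (EuclideanSpace ℝ (Fin N)))).isCompact_convexHull ℝ |>.isClosed

theorem inf_edges_mem {a b p : EuclideanSpace ℝ (Fin N)} (h : Edge f a b)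
    (hp : p ∈ extremePoints ℝ (Hul f)) (hpT : p ∈ segment ℝ a b) : p = a ∨ p = b := by
  have ha := edge_ext h
  have hb := edge_ext h.symm
  have hX : ({a, b} : Set (EuclideanSpace ℝ (Fin N))) ⊆ Hul f := by
    intro x hx
    rcases hx with rfl | rfl
    · exact ha.1
    · exact hb.1
  rw [← convexHull_pair] at hpT
  exact ext_mem_of_hull hX hp hpT

/-- infinitely many extreme points give infinitely many crossing edges -/
theorem inf_edges [CompactSpace M] [T2Space M] [ConnectedSpace M] [LocallyPathConnectedSpace M]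
    (S : Setup f) (hN : 3 ≤ N) (hinf : (extremePoints ℝ (Hul f)).Infinite) :
    {T : Set (EuclideanSpace ℝ (Fin N)) | ∃ a b, CEdge f a b ∧ T = segment ℝ a b}.Infinite := by
  intro hfin
  obtain ⟨E, hE⟩ : ∃ E : Set (Set (EuclideanSpace ℝ (Fin N))), E = {T | ∃ a b, CEdge f a b ∧ T = segment ℝ a b} :=
    ⟨_, rfl⟩
  rw [← hE] at hfin
  have hch : ∀ T ∈ E, ∃ a b, CEdge f a b ∧ T = segment ℝ a b := by
    intro T hT
    rw [hE] at hT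
    exact hT
  choose! a b hab hT using hch
  have hP : (a '' E ∪ b '' E).Finite := (hfin.image a).union (hfin.image b)
  obtain ⟨p, hp, hpP⟩ := (hinf.diff hP).nonempty
  have hpT : ∀ T ∈ E, p ∉ T := by
    intro T hTE hpT
    rw [hT T hTE] at hpT
    rcases inf_edges_mem (hab T hTE).1 hp hpT with h | h
    · exact hpP (Or.inl ⟨T, hTE, h.symm⟩)
    · exact hpP (Or.inr ⟨T, hTE, h.symm⟩)
  have hcl : IsClosed (⋃₀ E) := by
    rw [Set.sUnion_eq_biUnion]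
    apply hfin.isClosed_biUnion
    intro T hTE
    rw [hT T hTE]
    exact inf_edges_closed _ _
  have hO : (⋃₀ E)ᶜ ∈ 𝓝 p := by
    apply hcl.isOpen_compl.mem_nhds
    rintro ⟨T, hTE, hpT'⟩
    exact hpT T hTE hpT'
  obtain ⟨c, d, hcd, x, hx1, hx2⟩ := cprime S hN hp hO
  apply hx2
  refine ⟨segment ℝ c d, ?_, hx1⟩
  rw [hE]
  exact ⟨c, d, hcd, rfl⟩

/-- infinitely many crossing edges have the same class -/
theorem inf_same [CompactSpace M] [T2Space M] [ConnectedSpace M] (S : Setup f) (hN : 3 ≤ N)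
    (hinf : {T : Set (EuclideanSpace ℝ (Fin N)) |
      ∃ a b, CEdge f a b ∧ T = segment ℝ a b}.Infinite) :
    ∃ t : M → M → ZMod 2, Coc univ t ∧ ¬ Null univ t ∧
      {T : Set (EuclideanSpace ℝ (Fin N)) | ∃ a b, Edge f a b ∧ T = segment ℝ a b ∧
        Null {x | f x ∉ T} t}.Infinite := by
  obtain ⟨E, hE⟩ : ∃ E : Set (Set (EuclideanSpace ℝ (Fin N))), E = {T | ∃ a b, CEdge f a b ∧ T = segment ℝ a b} :=
    ⟨_, rfl⟩
  rw [← hE] at hinf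
  obtain ⟨R, hRf, hRc, hR⟩ := S.fin
  have hch : ∀ T ∈ E, ∃ r ∈ R, (∃ a b, Edge f a b ∧ T = segment ℝ a b) ∧ ¬ Null univ r ∧ Null {x | f x ∉ T} r := by
    intro T hTE
    rw [hE] at hTE
    obtain ⟨a, b, hab, rfl⟩ := hTE
    obtain ⟨t, ht, hnt, hnull⟩ := local_sep S hN hab
    obtain ⟨r, hr, htr⟩ := hR t ht
    refine ⟨r, hr, ⟨a, b, hab.1, rfl⟩, ?_, ?_⟩
    · intro h
      apply hnt
      have h1 := htr.add h
      rw [add_assoc, add_self_co, add_zero] at h1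
      exact h1
    · have h1 := hnull.add (htr.mono (Set.subset_univ {x | f x ∉ segment ℝ a b}))
      rw [← add_assoc, add_self_co, zero_add] at h1
      exact h1
  choose! ρ hρ using hch
  have hfib : ∃ r ∈ R, {T ∈ E | ρ T = r}.Infinite := by
    by_contra hcon
    push Not at hcon
    apply hinf
    have h1 : E ⊆ ⋃ r ∈ R, {T ∈ E | ρ T = r} := by
      intro T hTE
      rw [Set.mem_iUnion₂]
      exact ⟨ρ T, (hρ T hTE).1, hTE, rfl⟩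
    refine Set.Finite.subset (hRf.biUnion ?_) h1
    intro r hr
    exact hcon r hr
  obtain ⟨r, hr, hrinf⟩ := hfib
  obtain ⟨T0, hT0⟩ := hrinf.nonempty
  refine ⟨r, hRc r hr, ?_, ?_⟩
  · have h1 := (hρ T0 hT0.1).2.2.1
    rw [hT0.2] at h1
    exact h1
  · refine hrinf.mono ?_
    rintro T ⟨hTE, hTr⟩
    obtain ⟨_, ⟨a, b, hab, hT⟩, _, hn⟩ := hρ T hTE
    rw [hTr] at hn
    exact ⟨a, b, hab, hT, hn⟩

/-- a family of sets, each meeting only finitely many others, has an infinite disjoint subfamily -/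
theorem exists_disjoint_seq {α : Type*} {F : Set (Set α)} (hF : F.Infinite)
    (hfin : ∀ T ∈ F, {T' ∈ F | ¬ Disjoint T T'}.Finite) :
    ∃ T : ℕ → Set α, (∀ i, T i ∈ F) ∧ ∀ i j, i ≠ j → Disjoint (T i) (T j) := by
  obtain ⟨T, hT, hd⟩ := exists_seq_of_forall_finset_exists (fun T : Set α => T ∈ F)
    (fun T T' : Set α => Disjoint T T') (by
      intro s hs
      have h1 : (⋃ T ∈ s, {T' ∈ F | ¬ Disjoint T T'}).Finite :=
        s.finite_toSet.biUnion (fun T hT => hfin T (hs T hT))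
      obtain ⟨y, hy, hyn⟩ := (hF.diff h1).nonempty
      refine ⟨y, hy, fun x hx => ?_⟩
      by_contra hnd
      apply hyn
      rw [mem_iUnion₂]
      exact ⟨x, hx, hy, hnd⟩)
  refine ⟨T, hT, fun i j hij => ?_⟩
  rcases lt_or_gt_of_ne hij with h | h
  · exact hd i j h
  · exact (hd j i h).symm

theorem inf_disjoint_aux1 {v c p : EuclideanSpace ℝ (Fin N)} (he : Edge f v c)
    (hp : p ∈ extremePoints ℝ (Hul f)) (hps : p ∈ segment ℝ v c) : p = v ∨ p = c := by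
  have hv := edge_ext he
  have hc := edge_ext he.symm
  have hX : ({v, c} : Set (EuclideanSpace ℝ (Fin N))) ⊆ Hul f := by
    rintro x (rfl | hx)
    · exact hv.1
    · rw [Set.mem_singleton_iff] at hx
      rw [hx]
      exact hc.1
  have h := ext_mem_of_hull hX hp (by rw [convexHull_pair]; exact hps)
  rcases h with h | h
  · exact Or.inl h
  · exact Or.inr h

theorem inf_disjoint_aux2 [CompactSpace M] [T2Space M] [ConnectedSpace M] (S : Setup f)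
    (hN : 4 ≤ N) (hext : (extremePoints ℝ (Hul f)).Infinite)
    {t : M → M → ZMod 2} (ht0 : Coc univ t) (hn : ¬ Null univ t)
    (v : EuclideanSpace ℝ (Fin N)) :
    {c : EuclideanSpace ℝ (Fin N) | Edge f v c ∧ Null {x | f x ∉ segment ℝ v c} t}.Finite := by
  by_contra hinf
  have hinf' : {c : EuclideanSpace ℝ (Fin N) | Edge f v c ∧
      Null {x | f x ∉ segment ℝ v c} t}.Infinite := hinf
  set e := hinf'.natEmbedding with he
  set b : Fin 3 → EuclideanSpace ℝ (Fin N) := fun i => (e i.1).1 with hb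
  have hbm : ∀ i, Edge f v (b i) ∧ Null {x | f x ∉ segment ℝ v (b i)} t := fun i => (e i.1).2
  have hbd : ∀ i j, i ≠ j → b i ≠ b j := by
    intro i j hij h
    apply hij
    apply Fin.ext
    exact e.injective (Subtype.ext h)
  have hfin : (insert v (Set.range b)).Finite := (Set.finite_range b).insert v
  obtain ⟨p, hp, hpn⟩ := hext.exists_notMem_finite hfin
  apply three_star S hN ht0 hn (fun i => (hbm i).1) (fun i => (hbm i).2) hbd hp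
  intro i hpi
  rcases inf_disjoint_aux1 (hbm i).1 hp hpi with h | h
  · exact hpn (Or.inl h)
  · exact hpn (Or.inr ⟨i, h.symm⟩)

/-- infinitely many pairwise disjoint edges with the same class -/
theorem inf_disjoint [CompactSpace M] [T2Space M] [ConnectedSpace M] (S : Setup f) (hN : 4 ≤ N)
    (hext : (extremePoints ℝ (Hul f)).Infinite)
    {t : M → M → ZMod 2} (ht0 : Coc univ t) (hn : ¬ Null univ t)
    (hinf : {T : Set (EuclideanSpace ℝ (Fin N)) | ∃ a b, Edge f a b ∧ T = segment ℝ a b ∧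
        Null {x | f x ∉ T} t}.Infinite) :
    ∃ a b : ℕ → EuclideanSpace ℝ (Fin N), (∀ i, Edge f (a i) (b i)) ∧
      (∀ i, Null {x | f x ∉ segment ℝ (a i) (b i)} t) ∧
      ∀ i j, i ≠ j → Disjoint (segment ℝ (a i) (b i)) (segment ℝ (a j) (b j)) := by
  obtain ⟨T, hT, hTd⟩ := exists_disjoint_seq hinf (by
    rintro T ⟨a, b, hab, rfl, hnull⟩
    have hA := inf_disjoint_aux2 S hN hext ht0 hn a
    have hB := inf_disjoint_aux2 S hN hext ht0 hn b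
    apply ((Set.finite_singleton (segment ℝ a b)).union
      ((hA.image (fun c => segment ℝ a c)).union (hB.image (fun c => segment ℝ b c)))).subset
    rintro T' ⟨⟨a', b', hab', rfl, hnull'⟩, hnd⟩
    rw [Set.not_disjoint_iff] at hnd
    obtain ⟨q, hq, hq'⟩ := hnd
    by_cases hEq : segment ℝ a b = segment ℝ a' b'
    · left
      exact hEq.symm
    · right
      obtain ⟨h1, h2, _⟩ := edge_inter hab hab' hEq hq hq'
      have hsymm : Null {x | f x ∉ segment ℝ b' a'} t := by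
        rw [segment_symm]
        exact hnull'
      rcases h1 with h1 | h1
      · left
        rcases h2 with h2 | h2
        · have e : a' = a := h2.symm.trans h1
          subst e
          exact ⟨b', ⟨hab', hnull'⟩, rfl⟩
        · have e : b' = a := h2.symm.trans h1
          subst e
          exact ⟨a', ⟨hab'.symm, hsymm⟩, segment_symm ℝ _ _⟩
      · right
        rcases h2 with h2 | h2
        · have e : a' = b := h2.symm.trans h1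
          subst e
          exact ⟨b', ⟨hab', hnull'⟩, rfl⟩
        · have e : b' = b := h2.symm.trans h1
          subst e
          exact ⟨a', ⟨hab'.symm, hsymm⟩, segment_symm ℝ _ _⟩)
  choose a b hab hTe hnull using hT
  refine ⟨a, b, hab, ?_, ?_⟩
  · intro i
    have := hnull i
    rw [hTe i] at this
    exact this
  · intro i j hij
    have := hTd i j hij
    rw [hTe i, hTe j] at this
    exact this

end Pool.Agent.Helper775.Surf
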