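import Pool.Agent.Helper775.Tight.SingDefs

/-! Tight maps of surfaces with boundary: the definitions used in the statement of the theorem. -/

set_option autoImplicit false

namespace Pool.Agent.Helper775.Surf

open Pool.Agent.Helper775.Tight
open scoped InnerProductSpace Topology

/-- `f : M → ℝ^N` is tight (singular homology mod 2): for every closed half-space `h` the set
`f⁻¹(h)` is connected or empty, and every singular 1-cycle of `f⁻¹(h)` that bounds in `M` bounds in
`f⁻¹(h)`. -/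
def TightSurf {M : Type*} [TopologicalSpace M] {N : ℕ} (f : M → EuclideanSpace ℝ (Fin N)) : Prop :=
  ∀ (z : EuclideanSpace ℝ (Fin N)) (c : ℝ), z ≠ 0 → IsPreconnected {x | c ≤ ⟪z, f x⟫_ℝ} ∧
    ∀ u : Sing M 1 →₀ ZMod 2, ChainIn {x | c ≤ ⟪z, f x⟫_ℝ} u → bdry M 0 u = 0 →
      (∃ b, bdry M 1 b = u) → ∃ b, ChainIn {x | c ≤ ⟪z, f x⟫_ℝ} b ∧ bdry M 1 b = u

/-- The restriction `H^1(X; ℤ/2) → H^1(A; ℤ/2)` of Alexander-Spanier (that is, Čech) cohomology is
surjective: for compact `X` and closed `A` this is dual, hence equivalent, to injectivity of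
`H_1(A; ℤ/2) → H_1(X; ℤ/2)` in Čech homology. -/
def CechSurjectiveOne {X : Type*} [TopologicalSpace X] (A : Set X) : Prop :=
  ∀ c : List A → ZMod 2, LocallyZero 2 (asD c) →
    ∃ c' : List X → ZMod 2, LocallyZero 2 (asD c') ∧
      ∃ b : List A → ZMod 2, LocallyZero 1 (fun l => c l - c' (l.map (↑)) - asD b l)

/-- `f : M → ℝ^N` is tight (Čech theory mod 2): for every closed half-space `h` the set `f⁻¹(h)` is
connected or empty, and `H_1(f⁻¹(h)) → H_1(M)` is injective. -/
def CechTightSurf {M : Type*} [TopologicalSpace M] {N : ℕ} (f : M → EuclideanSpace ℝ (Fin N)) :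
    Prop :=
  ∀ (z : EuclideanSpace ℝ (Fin N)) (c : ℝ), z ≠ 0 → IsPreconnected {x | c ≤ ⟪z, f x⟫_ℝ} ∧
    CechSurjectiveOne {x | c ≤ ⟪z, f x⟫_ℝ}

end Pool.Agent.Helper775.Surf
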